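import Pool.Agent.AUE.TRel

/-!
# Asm1: iterates of `lam` and `th`

PROOFS. `th_iter_eq`: induction; `th (lam^k x + (1 - lam^k 1)) = lam^(k+1) x + lam 1 - lam^(k+1) 1 +
(1 - lam 1)`. `lam_iter_P`: `P_lam`. `lam_iter_one_mul`: induction on `m` with `lam_mul`:
`lam^(m+1) 1 * lam^(k+1) 1 = lam (lam^m 1 * lam^k 1)`. `compl`: `th^j x = lam^j x + (1 - lam^j 1)` and
`lam^j x * (1 - lam^k 1) = lam^j x * lam^j 1 * (1 - lam^k 1) = 0` (`lam^j x * lam^j 1 = lam^j x` by
`lam_mul` iterated, `lam^j 1 * lam^k 1 = lam^j 1`).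
`core_unit`: `lam^n y * T l v = T l v * y` for `l` a path of length `n` and `y` commuting with the
`P v` (iterate `lam_S`), with `y = 1`.
-/

namespace Pool.Agent.AUE

variable {V : Type} {B : Type} [CStarAlgebra B] {P : V → B} {G : Gr V} (F : Fam G P)

theorem Asm1_lam_sub (x y : B) : F.lam (x - y) = F.lam x - F.lam y := by
  have h := F.lam_add (x - y) y
  rw [sub_add_cancel] at h
  rw [h, add_sub_cancel_right]

theorem Fam.th_iter_eq (k : ℕ) (x : B) : F.th^[k] x = F.lam^[k] x + (1 - F.lam^[k] 1) := by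
  induction k with
  | zero => simp
  | succ k ih =>
    rw [Function.iterate_succ_apply', Function.iterate_succ_apply', Function.iterate_succ_apply', ih]
    unfold Fam.th
    rw [F.lam_add, Asm1_lam_sub]
    abel

variable (hP : IsPrj P)

include hP

theorem Fam.lam_iter_P (k : ℕ) {x : B} (hx : ∀ v, P v * x = x * P v) (v : V) :
    P v * F.lam^[k] x = F.lam^[k] x * P v := by
  cases k with
  | zero => exact hx v
  | succ k =>
    rw [Function.iterate_succ_apply']
    exact F.P_lam hP _ v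

theorem Asm1_th_iter_P (k : ℕ) {x : B} (hx : ∀ v, P v * x = x * P v) (v : V) :
    P v * F.th^[k] x = F.th^[k] x * P v := by
  cases k with
  | zero => exact hx v
  | succ k =>
    rw [Function.iterate_succ_apply']
    exact F.P_th hP _ v

theorem Fam.lam_iter_mul (k : ℕ) {x y : B} (hx : ∀ v, P v * x = x * P v)
    (hy : ∀ v, P v * y = y * P v) : F.lam^[k] x * F.lam^[k] y = F.lam^[k] (x * y) := by
  induction k with
  | zero => rfl
  | succ k ih =>
    rw [Function.iterate_succ_apply', Function.iterate_succ_apply', Function.iterate_succ_apply',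
      F.lam_mul hP (F.lam_iter_P hP k hy), ih]

theorem Fam.th_iter_mul (k : ℕ) {x y : B} (hx : ∀ v, P v * x = x * P v)
    (hy : ∀ v, P v * y = y * P v) : F.th^[k] x * F.th^[k] y = F.th^[k] (x * y) := by
  induction k with
  | zero => rfl
  | succ k ih =>
    rw [Function.iterate_succ_apply', Function.iterate_succ_apply', Function.iterate_succ_apply',
      F.th_mul hP (Asm1_th_iter_P F hP k hx) (Asm1_th_iter_P F hP k hy), ih]

theorem Fam.th_iter_one (k : ℕ) : F.th^[k] 1 = 1 := by
  induction k with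
  | zero => rfl
  | succ k ih => rw [Function.iterate_succ_apply', ih, F.th_one]

theorem Fam.star_th_iter (k : ℕ) (x : B) : star (F.th^[k] x) = F.th^[k] (star x) := by
  induction k with
  | zero => rfl
  | succ k ih => rw [Function.iterate_succ_apply', Function.iterate_succ_apply', F.star_th, ih]

theorem Fam.norm_th_iter_sub_le (k : ℕ) (x y : B) : ‖F.th^[k] x - F.th^[k] y‖ ≤ ‖x - y‖ := by
  induction k with
  | zero => exact le_rfl
  | succ k ih =>
    rw [Function.iterate_succ_apply', Function.iterate_succ_apply']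
    exact (F.norm_th_sub_le hP _ _).trans ih

theorem Fam.star_lam_iter_one (k : ℕ) : star (F.lam^[k] 1) = F.lam^[k] 1 := by
  induction k with
  | zero => simp
  | succ k ih => rw [Function.iterate_succ_apply', F.star_lam, ih]

theorem Fam.lam_iter_one_mul {m k : ℕ} (h : m ≤ k) :
    F.lam^[m] 1 * F.lam^[k] 1 = F.lam^[k] 1 ∧ F.lam^[k] 1 * F.lam^[m] 1 = F.lam^[k] 1 := by
  obtain ⟨j, rfl⟩ := Nat.exists_eq_add_of_le h
  have h1 : ∀ v, P v * (1 : B) = 1 * P v := fun v => by rw [mul_one, one_mul]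
  have h2 := F.lam_iter_P hP j h1
  rw [Function.iterate_add_apply]
  exact ⟨by rw [F.lam_iter_mul hP m h1 h2, one_mul], by rw [F.lam_iter_mul hP m h2 h1, mul_one]⟩

theorem Fam.th_iter_mul_compl {k j : ℕ} (h : k ≤ j) {x : B} (hx : ∀ v, P v * x = x * P v) :
    F.th^[j] x * (1 - F.lam^[k] 1) = 1 - F.lam^[k] 1 ∧
      (1 - F.lam^[k] 1) * F.th^[j] x = 1 - F.lam^[k] 1 := by
  have h1 : ∀ v, P v * (1 : B) = 1 * P v := fun v => by rw [mul_one, one_mul]
  obtain ⟨a1, a2⟩ := F.lam_iter_one_mul hP h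
  have b1 : F.lam^[j] x * F.lam^[j] 1 = F.lam^[j] x := by rw [F.lam_iter_mul hP j hx h1, mul_one]
  have b2 : F.lam^[j] 1 * F.lam^[j] x = F.lam^[j] x := by rw [F.lam_iter_mul hP j h1 hx, one_mul]
  have c1 : F.lam^[j] x * F.lam^[k] 1 = F.lam^[j] x := by
    rw [← b1, mul_assoc, a2]
  have c2 : F.lam^[k] 1 * F.lam^[j] x = F.lam^[j] x := by
    rw [← b2, ← mul_assoc, a1]
  rw [F.th_iter_eq]
  constructor
  · rw [mul_sub, mul_one, add_mul, sub_mul, one_mul, a2, c1]
    abel
  · rw [sub_mul, one_mul, mul_add, mul_sub, mul_one, a1, c2]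
    abel

omit hP in
theorem Asm1_lam_T (hP : IsPrj P) {u v : V} {l : List G.Ed} (h : G.Walk u l v) {y : B}
    (hy : ∀ v, P v * y = y * P v) : F.lam^[l.length] y * F.T l v = F.T l v * y := by
  induction l generalizing u with
  | nil =>
    rw [F.T_nil]
    exact (hy v).symm
  | cons e l ih =>
    rw [List.length_cons, Function.iterate_succ_apply', F.T_cons, ← mul_assoc,
      F.lam_S hP (F.lam_iter_P hP l.length hy), mul_assoc, ih h.2, mul_assoc]

theorem Fam.core_unit {n : ℕ} {x : B} (hx : x ∈ F.core n) :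
    F.lam^[n] 1 * x = x ∧ x * F.lam^[n] 1 = x := by
  have h1 : ∀ v, P v * (1 : B) = 1 * P v := fun v => by rw [mul_one, one_mul]
  induction hx using Submodule.span_induction with
  | mem x h =>
    obtain ⟨u, v, l, l', hl, hl', hw, hw', rfl⟩ := h
    have a1 : F.lam^[n] 1 * F.T l v = F.T l v := by
      have := Asm1_lam_T F hP hw h1
      rwa [hl, mul_one] at this
    have a2 : F.lam^[n] 1 * F.T l' v = F.T l' v := by
      have := Asm1_lam_T F hP hw' h1
      rwa [hl', mul_one] at this
    have a3 : star (F.T l' v) * F.lam^[n] 1 = star (F.T l' v) := by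
      have := congrArg star a2
      rwa [StarMul.star_mul, F.star_lam_iter_one hP] at this
    exact ⟨by rw [← mul_assoc, a1], by rw [mul_assoc, a3]⟩
  | zero => simp
  | add x y _ _ hx hy => exact ⟨by rw [mul_add, hx.1, hy.1], by rw [add_mul, hx.2, hy.2]⟩
  | smul a x _ hx => exact ⟨by rw [mul_smul_comm, hx.1], by rw [smul_mul_assoc, hx.2]⟩

end Pool.Agent.AUE
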