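import Pool.Agent.AUE.Asm1

/-!
# Asm2: cocycle products

`F.cob c n = c θ(c) … θ^{n-1}(c)`.

PROOFS. `cob_succ'`: induction: `cob (n+1) = c * th (cob n)`, `cob n = cob (n-1) * th^(n-1) c`,
`c * th (cob (n-1)) * th^n c = cob n * th^n c`. `cob_th_iter`: induction.
`sol_shift`: `W = cob c j * W'`: `star W * c * th W = star W' * (star (cob c j) * c * th (cob c j)) *
th W'`, and `c * th (cob c j) = cob c (j+1) = cob c j * th^j c`.
-/

namespace Pool.Agent.AUE

/-- `c θ(c) … θ^{n-1}(c)`. -/
noncomputable def Fam.cob {V : Type} {B : Type} [CStarAlgebra B] {P : V → B} {G : Gr V}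
    (F : Fam G P) (c : B) : ℕ → B
  | 0 => 1
  | n + 1 => c * F.th (F.cob c n)

variable {V : Type} {B : Type} [CStarAlgebra B] {P : V → B} {G : Gr V} (F : Fam G P)
  (hP : IsPrj P)

include hP

theorem Fam.cob_ch {c : B} (hc : Ch P c) (n : ℕ) : Ch P (F.cob c n) := by
  induction n with
  | zero => exact Ch_one
  | succ n ih => exact hc.mul (ih.th F hP)

theorem Fam.Asm2_mem {c : B} (hc : c ∈ UD P) (n : ℕ) : F.cob c n ∈ UD P := by
  induction n with
  | zero => exact UD_one
  | succ n ih => exact UD_mul hc (F.th_mem hP ih)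

theorem Fam.Asm2_th {c : B} (hc : c ∈ UD P) (n : ℕ) : F.cob (F.th c) n = F.th (F.cob c n) := by
  induction n with
  | zero => exact F.th_one.symm
  | succ n ih =>
    change F.th c * F.th (F.cob (F.th c) n) = F.th (c * F.th (F.cob c n))
    rw [ih, F.th_mul hP hc.2.2 (F.th_mem hP (F.Asm2_mem hP hc n)).2.2]

theorem Fam.cob_succ' {c : B} (hc : c ∈ UD P) (n : ℕ) :
    F.cob c (n + 1) = F.cob c n * F.th^[n] c := by
  induction n with
  | zero =>
    change c * F.th 1 = 1 * c
    rw [F.th_one, mul_one, one_mul]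
  | succ n ih =>
    change c * F.th (F.cob c (n + 1)) = (c * F.th (F.cob c n)) * F.th^[n + 1] c
    rw [ih, ← F.th_mul hP (F.Asm2_mem hP hc n).2.2 (F.th_iter_mem hP hc n).2.2, mul_assoc,
      Function.iterate_succ_apply']

theorem Fam.cob_th_iter {c : B} (hc : c ∈ UD P) (j n : ℕ) :
    F.cob (F.th^[j] c) n = F.th^[j] (F.cob c n) := by
  induction j with
  | zero => rfl
  | succ j ih =>
    rw [Function.iterate_succ_apply', Function.iterate_succ_apply',
      F.Asm2_th hP (F.th_iter_mem hP hc j), ih]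

theorem Fam.sol_shift {c : B} (hc : Ch P c) (j : ℕ) {ε : ℝ}
    (h : ∃ W, Ch P W ∧ ‖star W * F.th^[j] c * F.th W - 1‖ ≤ ε) :
    ∃ W, Ch P W ∧ ‖star W * c * F.th W - 1‖ ≤ ε := by
  obtain ⟨W', hW', hn⟩ := h
  have hcm := hc.mem
  refine ⟨F.cob c j * W', (F.cob_ch hP hc j).mul hW', ?_⟩
  have hC := F.Asm2_mem hP hcm j
  have e1 : c * F.th (F.cob c j) = F.cob c j * F.th^[j] c := F.cob_succ' hP hcm j
  have e2 : F.th (F.cob c j * W') = F.th (F.cob c j) * F.th W' :=
    (F.th_mul hP hC.2.2 hW'.mem.2.2).symm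
  have e3 : star (F.cob c j * W') * c * F.th (F.cob c j * W') = star W' * F.th^[j] c * F.th W' := by
    rw [e2, StarMul.star_mul]
    calc star W' * star (F.cob c j) * c * (F.th (F.cob c j) * F.th W') =
        star W' * (star (F.cob c j) * (c * F.th (F.cob c j))) * F.th W' := by
          simp only [mul_assoc]
      _ = star W' * ((star (F.cob c j) * F.cob c j) * F.th^[j] c) * F.th W' := by
          rw [e1]
          simp only [mul_assoc]
      _ = star W' * F.th^[j] c * F.th W' := by rw [hC.1, one_mul]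
  rw [e3]
  exact hn

end Pool.Agent.AUE
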