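import Pool.Agent.AUE.Bas

/-!
# Near: unitaries near `1` are connected to `1`

PROOF. Let `u ∈ UD P`, `‖u - 1‖ ≤ 1 < 2`. View `u` as element of `unitary B` and let
`x = Unitary.argSelfAdjoint u` (`Mathlib.Analysis.CStarAlgebra.Unitary.Connected`), so
`selfAdjoint.expUnitary x = u` (`expUnitary_argSelfAdjoint`). `x = cfc (arg) u` commutes with `P v`:
`P v` commutes with `u` and with `star u` (`P v` is selfadjoint), use `Commute.cfc` (and
`(P v)` selfadjoint). For `n > 0`, `ζ k = expUnitary ((min k n / n) • x)`: `ζ 0 = 1`, `ζ n = u`,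
`ζ k` commutes with `P v` (exp of an element commuting with `P v`, `Commute.exp_right`), and
`‖ζ (k+1) - ζ k‖ = ‖expUnitary ((1/n) • x) - 1‖` which tends to `0` as `n → ∞` by continuity of
`expUnitary` (`selfAdjoint.continuous_expUnitary`) (or `selfAdjoint.norm_sq_expUnitary_sub_one`).
(`expUnitary` is additive on commuting elements: `Commute.expUnitary_add`.)
-/

namespace Pool.Agent.AUE

theorem ch_of_near {V B : Type} [CStarAlgebra B] {P : V → B} (hP : IsPrj P) {u : B}
    (hu : u ∈ UD P) (h : ‖u - 1‖ ≤ 1) : Ch P u := by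
  let U : unitary B := ⟨u, hu.1, hu.2.1⟩
  have h2 : ‖(U - 1 : B)‖ < 2 := lt_of_le_of_lt h (by norm_num)
  let x : selfAdjoint B := Unitary.argSelfAdjoint U
  have hx : selfAdjoint.expUnitary x = U := expUnitary_argSelfAdjoint h2
  have hcomm : ∀ v, Commute (P v) (x : B) := by
    intro v
    have h3 : Commute u (P v) := (hu.2.2 v).symm
    have h4 : Commute (star u) (P v) := ((UD_star hP hu).2.2 v).symm
    exact (Commute.cfc h3 h4 _).symm
  let c : ℝ → B := fun t => ((selfAdjoint.expUnitary (t • x) : unitary B) : B)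
  have hc0 : c 0 = 1 := by
    change ((selfAdjoint.expUnitary ((0 : ℝ) • x) : unitary B) : B) = 1
    rw [zero_smul, selfAdjoint.expUnitary_zero]
    rfl
  have hc1 : c 1 = u := by
    change ((selfAdjoint.expUnitary ((1 : ℝ) • x) : unitary B) : B) = u
    rw [one_smul, hx]
  have hcadd : ∀ s t, c (s + t) = c s * c t := by
    intro s t
    have h3 : Commute ((s • x : selfAdjoint B) : B) ((t • x : selfAdjoint B) : B) := by
      change Commute (s • (x : B)) (t • (x : B))
      exact ((Commute.refl (x : B)).smul_left s).smul_right t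
    change ((selfAdjoint.expUnitary ((s + t) • x) : unitary B) : B) = _
    rw [add_smul, h3.expUnitary_add]
    rfl
  have hcm : ∀ t, c t ∈ UD P := by
    intro t
    refine ⟨(selfAdjoint.expUnitary (t • x)).2.1, (selfAdjoint.expUnitary (t • x)).2.2, fun v => ?_⟩
    have h3 : Commute (P v) (Complex.I • ((t • x : selfAdjoint B) : B)) := by
      change Commute (P v) (Complex.I • (t • (x : B)))
      exact ((hcomm v).smul_right t).smul_right Complex.I
    have h4 : c t = NormedSpace.exp (Complex.I • ((t • x : selfAdjoint B) : B)) :=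
      selfAdjoint.expUnitary_coe _
    rw [h4]
    exact h3.exp_right
  have hcc : Continuous c := by
    have h3 : Continuous fun t : ℝ => (selfAdjoint.expUnitary (t • x) : unitary B) := by fun_prop
    exact continuous_subtype_val.comp h3
  intro δ hδ
  have h5 : Filter.Tendsto (fun n : ℕ => ‖c (1 / ((n : ℝ) + 1)) - 1‖) Filter.atTop (nhds 0) := by
    have h6 : Filter.Tendsto (fun n : ℕ => c (1 / ((n : ℝ) + 1))) Filter.atTop (nhds (c 0)) :=
      (hcc.tendsto 0).comp tendsto_one_div_add_atTop_nhds_zero_nat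
    rw [hc0] at h6
    have h7 := (h6.sub_const 1).norm
    rwa [sub_self, norm_zero] at h7
  obtain ⟨n, hn⟩ := (h5.eventually (gt_mem_nhds hδ)).exists
  have hn0 : ((n : ℝ) + 1) ≠ 0 := by positivity
  refine ⟨n + 1, fun k => c (((min k (n + 1) : ℕ) : ℝ) / ((n : ℝ) + 1)), ?_, ?_, fun k => hcm _, fun k hk => ?_⟩
  · simp [hc0]
  · simp only [min_self]
    push_cast
    rw [div_self hn0, hc1]
  · have e1 : min (k + 1) (n + 1) = k + 1 := by omega
    have e2 : min k (n + 1) = k := by omega
    simp only [e1, e2]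
    have e3 : ((k + 1 : ℕ) : ℝ) / ((n : ℝ) + 1) = (k : ℝ) / ((n : ℝ) + 1) + 1 / ((n : ℝ) + 1) := by
      push_cast
      ring
    rw [e3, hcadd]
    have e4 : c ((k : ℝ) / ((n : ℝ) + 1)) * c (1 / ((n : ℝ) + 1)) - c ((k : ℝ) / ((n : ℝ) + 1)) =
        c ((k : ℝ) / ((n : ℝ) + 1)) * (c (1 / ((n : ℝ) + 1)) - 1) := by
      rw [mul_sub, mul_one]
    rw [e4, norm_UD_mul (hcm _)]
    exact hn.le

end Pool.Agent.AUE
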