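import Pool.Agent.AUE.Swin

/-!
# PathL: short chains for `th w`

`LoopRich G`: at the source of each edge there are two different loops.

PROOF. For an edge `e` let `x ≠ y` be loops at `a = s e`, let `g ∈ {x, y}` with `g ≠ e`. Put
`t 0 = S_e`, `t (i+1) = S_g * S_x ^ i * S_y * S_e`. Then `Copies P (s e) (r e) t`:
`star (t (i+1)) * t (i+1) = P (r e)` (by `S_x* S_x = P a`, `P a * S_x = S_x` etc.);
`star (t 0) * t (i+1) = S_e* S_g … = 0`; for `i < j`: `star (t (i+1)) * t (j+1) =
S_e* S_y* (S_x*)^i S_x^j S_y S_e = S_e* S_y* P a S_x^(j-i) … = S_e* (S_y* S_x) … = 0`.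
(`S_x ^ i` for `i = 0` is `1`; note `S_y = P a S_y`.)
By `chain_swindle`: `Chain P (8/n) n (S_e w S_e* + (1 - S_e S_e*))`.
`th w` is the product of these over all edges: for a finset `A` of edges put
`θ_A = ∑_{e∈A} S_e w S_e* + (1 - ∑_{e∈A} S_e S_e*)`; `θ_{A ∪ {e}} = θ_A * θ_{e}` for `e ∉ A`
(`S_f* S_e = 0`); induction on `A` with `Chain.mul` gives `Chain P (card A * (8/n)) n θ_A`.
-/

namespace Pool.Agent.AUE

/-- At the source of each edge there are two different loops. -/
def LoopRich {V : Type} (G : Gr V) : Prop :=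
  ∀ e : G.Ed, ∃ x y : G.Ed, x ≠ y ∧ G.s x = G.s e ∧ G.r x = G.s e ∧ G.s y = G.s e ∧ G.r y = G.s e

section PathLaux

variable {V B : Type} [CStarAlgebra B] {P : V → B} {G : Gr V} (F : Fam G P)

theorem PathL_u_P {e x y : G.Ed} (hsx : G.s x = G.s e) (hsy : G.s y = G.s e) (i : ℕ) :
    P (G.s e) * (F.S x ^ i * F.S y) = F.S x ^ i * F.S y := by
  cases i with
  | zero =>
    rw [pow_zero, one_mul, ← hsy]
    exact F.P_mul y
  | succ i =>
    rw [pow_succ', ← mul_assoc, ← mul_assoc]
    rw [show P (G.s e) * F.S x = F.S x by rw [← hsx]; exact F.P_mul x]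

theorem PathL_step {e x y : G.Ed} (hsx : G.s x = G.s e) (hrx : G.r x = G.s e)
    (hsy : G.s y = G.s e) (i : ℕ) :
    star (F.S x) * (F.S x ^ (i + 1) * F.S y) = F.S x ^ i * F.S y := by
  rw [pow_succ']
  have h : star (F.S x) * (F.S x * F.S x ^ i * F.S y) =
      (star (F.S x) * F.S x) * (F.S x ^ i * F.S y) := by
    simp only [mul_assoc]
  rw [h, F.star_mul, hrx]
  exact PathL_u_P F hsx hsy i

theorem PathL_iter {e x y : G.Ed} (hsx : G.s x = G.s e) (hrx : G.r x = G.s e)
    (hsy : G.s y = G.s e) (i j : ℕ) :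
    star (F.S x) ^ i * (F.S x ^ (i + j) * F.S y) = F.S x ^ j * F.S y := by
  induction i with
  | zero => rw [pow_zero, one_mul, zero_add]
  | succ i ih =>
    rw [pow_succ, mul_assoc]
    have h : i + 1 + j = (i + j) + 1 := by ring
    rw [h, PathL_step F hsx hrx hsy, ih]

theorem PathL_uu {e x y : G.Ed} (hsx : G.s x = G.s e) (hrx : G.r x = G.s e)
    (hsy : G.s y = G.s e) (i j : ℕ) :
    star (F.S x ^ i * F.S y) * (F.S x ^ (i + j) * F.S y) = star (F.S y) * (F.S x ^ j * F.S y) := by
  rw [star_mul, star_pow, mul_assoc, PathL_iter F hsx hrx hsy]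

theorem PathL_uu_lt {e x y : G.Ed} (hxy : x ≠ y) (hsx : G.s x = G.s e) (hrx : G.r x = G.s e)
    (hsy : G.s y = G.s e) {i j : ℕ} (hij : i < j) :
    star (F.S x ^ i * F.S y) * (F.S x ^ j * F.S y) = 0 := by
  obtain ⟨k, rfl⟩ := Nat.exists_eq_add_of_lt hij
  rw [add_assoc, PathL_uu F hsx hrx hsy, pow_succ', mul_assoc, ← mul_assoc, F.orth y x hxy.symm,
    zero_mul]

theorem PathL_uu_eq {e x y : G.Ed} (hsx : G.s x = G.s e) (hrx : G.r x = G.s e)
    (hsy : G.s y = G.s e) (hry : G.r y = G.s e) (i : ℕ) :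
    star (F.S x ^ i * F.S y) * (F.S x ^ i * F.S y) = P (G.s e) := by
  have h := PathL_uu F hsx hrx hsy (e := e) (x := x) (y := y) i 0
  rw [add_zero, pow_zero, one_mul, F.star_mul, hry] at h
  exact h

theorem PathL_copies {e x y g : G.Ed} (hxy : x ≠ y) (hsx : G.s x = G.s e) (hrx : G.r x = G.s e)
    (hsy : G.s y = G.s e) (hry : G.r y = G.s e) (hge : g ≠ e) (hsg : G.s g = G.s e)
    (hrg : G.r g = G.s e) :
    Copies P (G.s e) (G.r e)
      (fun i => match i with
        | 0 => F.S e
        | i + 1 => F.S g * (F.S x ^ i * F.S y) * F.S e) := by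
  have hgg : ∀ i j : ℕ, star (F.S g * (F.S x ^ i * F.S y) * F.S e) *
      (F.S g * (F.S x ^ j * F.S y) * F.S e) =
      star (F.S e) * (star (F.S x ^ i * F.S y) * (F.S x ^ j * F.S y)) * F.S e := by
    intro i j
    have h1 : star (F.S g * (F.S x ^ i * F.S y) * F.S e) * (F.S g * (F.S x ^ j * F.S y) * F.S e) =
        star (F.S e) * (star (F.S x ^ i * F.S y) * ((star (F.S g) * F.S g) *
          (F.S x ^ j * F.S y))) * F.S e := by
      rw [star_mul, star_mul (F.S g)]
      simp only [mul_assoc]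
    rw [h1, F.star_mul, hrg, PathL_u_P F hsx hsy]
  have h0 : ∀ j : ℕ, star (F.S e) * (F.S g * (F.S x ^ j * F.S y) * F.S e) = 0 := by
    intro j
    rw [mul_assoc, ← mul_assoc, F.orth e g hge.symm, zero_mul]
  constructor
  · intro i
    cases i with
    | zero => exact F.star_mul e
    | succ i =>
      show star (F.S g * (F.S x ^ i * F.S y) * F.S e) * (F.S g * (F.S x ^ i * F.S y) * F.S e) = _
      rw [hgg, PathL_uu_eq F hsx hrx hsy hry, mul_assoc, F.P_mul, F.star_mul]
  · intro i j hij
    cases i with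
    | zero =>
      cases j with
      | zero => exact absurd rfl hij
      | succ j => exact h0 j
    | succ i =>
      cases j with
      | zero =>
        show star (F.S g * (F.S x ^ i * F.S y) * F.S e) * F.S e = 0
        have h := congrArg star (h0 i)
        rw [star_mul, star_star, star_zero] at h
        exact h
      | succ j =>
        show star (F.S g * (F.S x ^ i * F.S y) * F.S e) * (F.S g * (F.S x ^ j * F.S y) * F.S e) = 0
        rw [hgg]
        have hne : i ≠ j := fun h => hij (by rw [h])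
        rcases lt_or_gt_of_ne hne with h | h
        · rw [PathL_uu_lt F hxy hsx hrx hsy h, mul_zero, zero_mul]
        · have h2 := congrArg star (PathL_uu_lt F hxy hsx hrx hsy h)
          rw [star_mul, star_star, star_zero] at h2
          rw [h2, mul_zero, zero_mul]
  · intro i
    cases i with
    | zero => exact F.P_mul e
    | succ i =>
      show P (G.s e) * (F.S g * (F.S x ^ i * F.S y) * F.S e) = _
      rw [← mul_assoc, ← mul_assoc]
      rw [show P (G.s e) * F.S g = F.S g by rw [← hsg]; exact F.P_mul g]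

/-- the partial product -/
noncomputable def PathL_th (A : Finset G.Ed) (w : B) : B :=
  ∑ e ∈ A, F.S e * w * star (F.S e) + (1 - ∑ e ∈ A, F.S e * star (F.S e))

theorem PathL_insert (A : Finset G.Ed) (e : G.Ed) (he : e ∉ A) (w : B) :
    PathL_th F (insert e A) w =
      PathL_th F A w * (F.S e * w * star (F.S e) + (1 - F.S e * star (F.S e))) := by
  have h1 : (∑ f ∈ A, F.S f * w * star (F.S f)) * F.S e = 0 := by
    rw [Finset.sum_mul]
    apply Finset.sum_eq_zero
    intro f hf
    have hfe : f ≠ e := fun h => he (h ▸ hf)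
    rw [mul_assoc, F.orth f e hfe, mul_zero]
  have h2 : (∑ f ∈ A, F.S f * star (F.S f)) * F.S e = 0 := by
    rw [Finset.sum_mul]
    apply Finset.sum_eq_zero
    intro f hf
    have hfe : f ≠ e := fun h => he (h ▸ hf)
    rw [mul_assoc, F.orth f e hfe, mul_zero]
  unfold PathL_th
  rw [Finset.sum_insert he, Finset.sum_insert he]
  have h3 : ∀ z : B, (∑ f ∈ A, F.S f * w * star (F.S f)) * (F.S e * z) = 0 := by
    intro z; rw [← mul_assoc, h1, zero_mul]
  have h4 : ∀ z : B, (∑ f ∈ A, F.S f * star (F.S f)) * (F.S e * z) = 0 := by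
    intro z; rw [← mul_assoc, h2, zero_mul]
  simp only [add_mul, mul_add, sub_mul, mul_sub, one_mul, mul_one, mul_assoc] at h3 h4 ⊢
  simp only [h3, h4]
  abel

end PathLaux

theorem PathL_edge {V B : Type} [CStarAlgebra B] {P : V → B} (hP : IsPrj P) {G : Gr V}
    (hG : LoopRich G) (F : Fam G P) {w : B} (hw : Ch P w) (n : ℕ) (hn : 0 < n) (e : G.Ed) :
    Chain P (8 / n) n (F.S e * w * star (F.S e) + (1 - F.S e * star (F.S e))) := by
  obtain ⟨x, y, hxy, hsx, hrx, hsy, hry⟩ := hG e
  by_cases hx : x = e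
  · have hye : y ≠ e := fun h => hxy (hx.trans h.symm)
    exact chain_swindle hP (PathL_copies F hxy hsx hrx hsy hry hye hsy hry) hw n hn
  · exact chain_swindle hP (PathL_copies F hxy hsx hrx hsy hry hx hsx hrx) hw n hn

theorem PathL_fin {V B : Type} [CStarAlgebra B] {P : V → B} (hP : IsPrj P) {G : Gr V}
    (hG : LoopRich G) (F : Fam G P) {w : B} (hw : Ch P w) (n : ℕ) (hn : 0 < n) (A : Finset G.Ed) :
    Chain P (A.card * (8 / n)) n (PathL_th F A w) := by
  induction A using Finset.induction_on with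
  | empty =>
    have h : PathL_th F ∅ w = 1 := by simp [PathL_th]
    rw [h]
    refine ⟨fun _ => 1, rfl, rfl, fun _ => UD_one, fun i _ => ?_⟩
    simp
  | insert e A he ih =>
    rw [PathL_insert F A e he w]
    have h := Chain.mul ih (PathL_edge hP hG F hw n hn e)
    refine Chain.mono (le_of_eq ?_) h
    rw [Finset.card_insert_of_notMem he]
    push_cast
    ring

theorem chain_th {V B : Type} [CStarAlgebra B] {P : V → B} (hP : IsPrj P) {G : Gr V}
    (hG : LoopRich G) (F : Fam G P) {w : B} (hw : Ch P w) (n : ℕ) (hn : 0 < n) :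
    Chain P (8 * Fintype.card G.Ed / n) n (F.th w) := by
  have h := PathL_fin hP hG F hw n hn Finset.univ
  have e : PathL_th F Finset.univ w = F.th w := by
    unfold PathL_th Fam.th Fam.lam
    simp only [mul_one]
  rw [e] at h
  refine Chain.mono (le_of_eq ?_) h
  rw [Finset.card_univ]
  ring

end Pool.Agent.AUE
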