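import Pool.Agent.AUE.Asm2
import Pool.Agent.AUE.PathL
import Pool.Agent.AUE.Near

/-!
# Asm3: the unitaries on the floors of a tower of height `n`

PROOF. `w = star (cob c n)`, `Ch P w`. `chain_th` gives a chain `ζ 0 = 1, …, ζ n = th w` in `UD P` with
steps `≤ C / n ≤ 1`, `C = 8 card Ed`. All `ζ a` (`a ≤ n`) satisfy `Ch`: `ζ (a+1) = (ζ (a+1) * star (ζ a)) * ζ a`,
`‖ζ (a+1) star (ζ a) - 1‖ = ‖ζ (a+1) - ζ a‖ ≤ 1`, `ch_of_near`.
`X a = th^j (cob c a) * th^(a+j-n-1) (ζ a)`, `Y a = th^(j-i) (cob c a) * th^(a+j-n-1-i) (ζ a)` (`i+n+1 ≤ j`),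
`X a = th^i (Y a)` (`th_iter_mul`). `X 0 = 1`; `X n = th^j (cob c n) * th^(j-1) (th w) =
th^j (cob c n * w) = 1`. `th^j c * th (X a) = th^j c * th^(j+1) (cob c a) * th^(a+j-n) (ζ a) =
th^j (cob c (a+1)) * th^(a+j-n) (ζ a)`, so the difference to `X (a+1)` has norm
`≤ ‖ζ a - ζ (a+1)‖ ≤ C / n`.
-/

namespace Pool.Agent.AUE

section Asm3aux

variable {V : Type} {B : Type} [CStarAlgebra B] {P : V → B} {G : Gr V} (F : Fam G P)

theorem Asm3_one (k : ℕ) : F.th^[k] (1 : B) = 1 := Function.iterate_fixed F.th_one k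

theorem Asm3_norm (hP : IsPrj P) (k : ℕ) (x y : B) : ‖F.th^[k] x - F.th^[k] y‖ ≤ ‖x - y‖ := by
  induction k with
  | zero => exact le_refl _
  | succ k ih =>
    rw [Function.iterate_succ_apply', Function.iterate_succ_apply']
    exact (F.norm_th_sub_le hP _ _).trans ih

theorem Asm3_mul (hP : IsPrj P) (k : ℕ) {x y : B} (hx : x ∈ UD P) (hy : y ∈ UD P) :
    F.th^[k] x * F.th^[k] y = F.th^[k] (x * y) := by
  induction k with
  | zero => rfl
  | succ k ih =>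
    rw [Function.iterate_succ_apply', Function.iterate_succ_apply', Function.iterate_succ_apply',
      F.th_mul hP (F.th_iter_mem hP hx k).2.2 (F.th_iter_mem hP hy k).2.2, ih]

theorem Asm3_chain (hP : IsPrj P) {ζ : ℕ → B} {n : ℕ} {δ : ℝ} (h0 : ζ 0 = 1)
    (hζ : ∀ i, ζ i ∈ UD P) (hs : ∀ i < n, ‖ζ (i + 1) - ζ i‖ ≤ δ) (hδ : δ ≤ 1) :
    ∀ a ≤ n, Ch P (ζ a) := by
  intro a
  induction a with
  | zero => intro _; rw [h0]; exact Ch_one
  | succ a ih =>
    intro ha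
    have h1 : ζ (a + 1) = (ζ (a + 1) * star (ζ a)) * ζ a := by
      rw [mul_assoc, (hζ a).1, mul_one]
    rw [h1]
    refine Ch.mul (ch_of_near hP (UD_mul (hζ (a + 1)) (UD_star hP (hζ a))) ?_) (ih (by omega))
    have h2 : ζ (a + 1) * star (ζ a) - 1 = (ζ (a + 1) - ζ a) * star (ζ a) := by
      rw [sub_mul, (hζ a).2.1]
    rw [h2, norm_mul_UD (UD_star hP (hζ a))]
    exact (hs a (by omega)).trans hδ

end Asm3aux

theorem exists_X {V : Type} {B : Type} [CStarAlgebra B] {P : V → B} {G : Gr V} (F : Fam G P)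
    (hP : IsPrj P) (hG : LoopRich G) {c : B} (hc : Ch P c) {n : ℕ} (hn : 0 < n)
    (hC : (8 * Fintype.card G.Ed / n : ℝ) ≤ 1) {i j : ℕ} (hj : i + n + 1 ≤ j) :
    ∃ X Y : ℕ → B, (∀ a ≤ n, Ch P (Y a)) ∧ (∀ a ≤ n, X a = F.th^[i] (Y a)) ∧ X 0 = 1 ∧ X n = 1 ∧
      ∀ a < n, ‖F.th^[j] c * F.th (X a) - X (a + 1)‖ ≤ 8 * Fintype.card G.Ed / n := by
  have hcu : c ∈ UD P := Ch.mem hc
  have hcob : ∀ a, Ch P (F.cob c a) := fun a => F.cob_ch hP hc a
  have hcobu : ∀ a, F.cob c a ∈ UD P := fun a => Ch.mem (hcob a)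
  have hw : Ch P (star (F.cob c n)) := Ch.star hP (hcob n)
  obtain ⟨ζ, h0, hζn, hζ, hs⟩ := chain_th hP hG F hw n hn
  have hζc := Asm3_chain hP h0 hζ hs hC
  refine ⟨fun a => F.th^[j] (F.cob c a) * F.th^[a + j - n - 1] (ζ a),
    fun a => F.th^[j - i] (F.cob c a) * F.th^[a + j - n - 1 - i] (ζ a), ?_, ?_, ?_, ?_, ?_⟩
  · intro a ha
    exact Ch.mul (Ch.th_iter F hP (hcob a) _) (Ch.th_iter F hP (hζc a ha) _)
  · intro a ha
    show F.th^[j] (F.cob c a) * F.th^[a + j - n - 1] (ζ a) =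
      F.th^[i] (F.th^[j - i] (F.cob c a) * F.th^[a + j - n - 1 - i] (ζ a))
    rw [← Asm3_mul F hP i (F.th_iter_mem hP (hcobu a) _) (F.th_iter_mem hP (hζ a) _),
      ← Function.iterate_add_apply, ← Function.iterate_add_apply]
    have e1 : i + (j - i) = j := by omega
    have e2 : i + (a + j - n - 1 - i) = a + j - n - 1 := by omega
    rw [e1, e2]
  · show F.th^[j] (F.cob c 0) * F.th^[0 + j - n - 1] (ζ 0) = 1
    rw [h0, Asm3_one]
    have e : F.cob c 0 = 1 := rfl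
    rw [e, Asm3_one, mul_one]
  · show F.th^[j] (F.cob c n) * F.th^[n + j - n - 1] (ζ n) = 1
    have e1 : F.th^[n + j - n - 1] (F.th (star (F.cob c n))) = F.th^[j] (star (F.cob c n)) := by
      rw [← Function.iterate_succ_apply F.th]
      have e : (n + j - n - 1).succ = j := by omega
      rw [e]
    rw [hζn, e1, Asm3_mul F hP j (hcobu n) (UD_star hP (hcobu n)), (hcobu n).2.1, Asm3_one]
  · intro a ha
    show ‖F.th^[j] c * F.th (F.th^[j] (F.cob c a) * F.th^[a + j - n - 1] (ζ a)) -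
      F.th^[j] (F.cob c (a + 1)) * F.th^[a + 1 + j - n - 1] (ζ (a + 1))‖ ≤ _
    have e1 : F.th (F.th^[j] (F.cob c a) * F.th^[a + j - n - 1] (ζ a)) =
        F.th^[j] (F.th (F.cob c a)) * F.th^[a + j - n] (ζ a) := by
      have hA : F.th (F.th^[j] (F.cob c a)) = F.th^[j] (F.th (F.cob c a)) := by
        rw [← Function.iterate_succ_apply' F.th, Function.iterate_succ_apply F.th]
      have hB : F.th (F.th^[a + j - n - 1] (ζ a)) = F.th^[a + j - n] (ζ a) := by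
        rw [← Function.iterate_succ_apply' F.th]
        have e : (a + j - n - 1).succ = a + j - n := by omega
        rw [e]
      rw [← F.th_mul hP (F.th_iter_mem hP (hcobu a) _).2.2 (F.th_iter_mem hP (hζ a) _).2.2, hA, hB]
    have e2 : F.th^[j] c * (F.th^[j] (F.th (F.cob c a)) * F.th^[a + j - n] (ζ a)) =
        F.th^[j] (F.cob c (a + 1)) * F.th^[a + j - n] (ζ a) := by
      rw [← mul_assoc, Asm3_mul F hP j hcu (F.th_mem hP (hcobu a))]
      rfl
    have e3 : a + 1 + j - n - 1 = a + j - n := by omega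
    rw [e1, e2, e3, ← mul_sub, norm_UD_mul (F.th_iter_mem hP (hcobu (a + 1)) _)]
    refine (Asm3_norm F hP _ _ _).trans ?_
    rw [norm_sub_rev]
    exact hs a ha

end Pool.Agent.AUE
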