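import Pool.Agent.AUE.Asm1

/-!
# Est: the estimate for the unitary of a tower

NOTATION. `1_k = lam^[k] 1`, `c' = th^[L+1] c`, `X a = th^[L+1] (Y a)`,
`W = ∑ X a * q a + (1 - 1_L)`, `1_L = ∑ q a`.

PROOF of `tower_est`.
(a) `X a` commutes with all `q b` (`hc`, `th^(L+1) y = th^L (th y)`), with `1_L` and `1_{L+1}`, and
`X a * (1 - 1_{L+1}) = 1 - 1_{L+1}` (`th_iter_mul_compl`); same for `c'`. `q a * 1_{L+1} = 1_{L+1} * q a`
(`1_{L+1} = 1 - th^(L+1) 0`… or: `hκ1`-type hypothesis `hq1`).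
(b) `th W = lam W + (1 - 1_1)`, `lam W = ∑ lam (X a) * lam (q a) + (1_1 - 1_{L+1})` (`lam_mul`), and
`th (X a) * lam (q a) = lam (X a) * lam (q a)` (`(1 - 1_1) * lam y = 0`), so
`c' * th W = ∑ c' * th (X a) * lam (q a) + (1 - 1_{L+1})`.
(c) `lam (q a) = star κ * q (σ a) * 1_{L+1} * κ`; `κ` commutes with `c' * th (X a) = th^(L+1) (c th(Y a))`
(`th (X a) = th^(L+1) (th (Y a))`) and with `1_{L+1}`. So `c' * th W = star κ * Z * κ`,
`Z = ∑ c' * th (X a) * (q (σ a) * 1_{L+1}) + (1 - 1_{L+1})`.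
(d) `W = ∑ X (σ a) * (q (σ a) * 1_{L+1}) + (1 - 1_{L+1})` (reindex by `σ`; `X b q b (1 - 1_{L+1}) =
q b (1 - 1_{L+1})`, `∑ q b (1 - 1_{L+1}) = 1_L - 1_{L+1}`).
(e) `Z - W = ∑ (c' th (X a) - X (σ a)) (q (σ a) 1_{L+1})`: summands with orthogonal supports and ranges,
`norm_orth_sum_le`: `‖Z - W‖ ≤ δ`. `W` is unitary (sum of orthogonal projections `= 1`, commuting),
so `th W`, `c' th W`, `Z = κ c' th W star κ` are unitary, `‖star κ Z κ - Z‖ ≤ 2 ‖κ - 1‖`.
So `‖star W * c' * th W - 1‖ = ‖c' * th W - W‖ ≤ 2 ‖κ - 1‖ + δ`.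
-/

namespace Pool.Agent.AUE

private theorem est_prj_norm {B : Type} [CStarAlgebra B] {p : B} (h : star p = p) (h2 : p * p = p) :
    ‖p‖ ≤ 1 :=
  IsPrj.norm_le (P := fun _ : Unit => p)
    ⟨fun _ => h, fun _ => h2, fun v w hvw => absurd (Subsingleton.elim v w) hvw⟩ ()

private theorem est_comm_star {B : Type} [CStarAlgebra B] {x k : B}
    (h : star k * k = 1 ∧ k * star k = 1) (hx : x * k = k * x) : x * star k = star k * x := by
  calc x * star k = star k * k * x * star k := by rw [h.1, one_mul]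
    _ = star k * (k * x) * star k := by noncomm_ring
    _ = star k * (x * k) * star k := by rw [hx]
    _ = star k * x * (k * star k) := by noncomm_ring
    _ = star k * x := by rw [h.2, mul_one]

theorem tower_est {V : Type} {B : Type} [CStarAlgebra B] {P : V → B} {G : Gr V} (F : Fam G P)
    (hP : IsPrj P) {L : ℕ} {I : Type} [Fintype I] (σ : Equiv.Perm I) {κ : B} {q X Y : I → B}
    {c : B} {δ : ℝ} (hδ : 0 ≤ δ) (hcU : c ∈ UD P) (hY : ∀ a, Y a ∈ UD P)
    (hX : ∀ a, X a = F.th^[L + 1] (Y a))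
    (hκ : star κ * κ = 1 ∧ κ * star κ = 1)
    (hκP : ∀ v, P v * κ = κ * P v)
    (hκ1 : κ * F.lam^[L + 1] 1 = F.lam^[L + 1] 1 * κ)
    (hκc : ∀ y, (∀ v, P v * y = y * P v) → F.th^[L + 1] y * κ = κ * F.th^[L + 1] y)
    (hq : ∀ a, star (q a) = q a ∧ q a * q a = q a)
    (ho : ∀ a b, a ≠ b → q a * q b = 0)
    (hPq : ∀ a v, P v * q a = q a * P v)
    (hc : ∀ a y, (∀ v, P v * y = y * P v) → F.th^[L] y * q a = q a * F.th^[L] y)
    (hq1 : ∀ a, q a * F.lam^[L + 1] 1 = F.lam^[L + 1] 1 * q a)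
    (hsum : ∑ a, q a = F.lam^[L] 1)
    (hmap : ∀ a, κ * F.lam (q a) * star κ = q (σ a) * F.lam^[L + 1] 1)
    (hδX : ∀ a, ‖F.th^[L + 1] c * F.th (X a) - X (σ a)‖ ≤ δ) :
    ‖star (∑ a, X a * q a + (1 - ∑ a, q a)) * F.th^[L + 1] c *
      F.th (∑ a, X a * q a + (1 - ∑ a, q a)) - 1‖ ≤ 2 * ‖κ - 1‖ + δ := by
  classical
  set e₁ : B := F.lam^[L + 1] 1 with he₁
  set e₀ : B := F.lam^[L] 1 with he₀
  set c' : B := F.th^[L + 1] c with hc'
  set W : B := ∑ a, X a * q a + (1 - ∑ a, q a) with hW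
  have hse : star e₁ = e₁ := F.star_lam_iter_one hP (L + 1)
  have hee : e₁ * e₁ = e₁ := (F.lam_iter_one_mul hP (le_refl (L + 1))).1
  have h01 : e₀ * e₁ = e₁ := (F.lam_iter_one_mul hP (Nat.le_succ L)).1
  have hcP : ∀ v, P v * c = c * P v := hcU.2.2
  have hYP : ∀ a v, P v * Y a = Y a * P v := fun a => (hY a).2.2
  have hXmem : ∀ a, X a ∈ UD P := fun a => by
    rw [hX a]; exact F.th_iter_mem hP (hY a) (L + 1)
  have hcmem : c' ∈ UD P := F.th_iter_mem hP hcU (L + 1)
  have hXq : ∀ a b, X a * q b = q b * X a := fun a b => by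
    rw [hX a, Function.iterate_succ_apply]
    exact hc b _ (fun v => F.P_th hP _ v)
  have hX1 : ∀ a, X a * (1 - e₁) = 1 - e₁ := fun a => by
    rw [hX a]
    exact (F.th_iter_mul_compl hP (le_refl (L + 1)) (hYP a)).1
  have hqq : ∀ a b, a ≠ b → q a * q b = 0 := ho
  have hsumq : ∀ b, (∑ a, q a) * q b = q b := fun b => by
    rw [Finset.sum_mul, Finset.sum_eq_single b]
    · exact (hq b).2
    · intro a _ hab; exact ho a b hab
    · intro h; exact absurd (Finset.mem_univ b) h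
  have hqsum : ∀ b, q b * (∑ a, q a) = q b := fun b => by
    rw [Finset.mul_sum, Finset.sum_eq_single b]
    · exact (hq b).2
    · intro a _ hab; exact ho b a (Ne.symm hab)
    · intro h; exact absurd (Finset.mem_univ b) h
  have hstsum : star (∑ a, q a) = ∑ a, q a := by
    rw [star_sum]; exact Finset.sum_congr rfl (fun a _ => (hq a).1)
  have hWq : ∀ b, W * q b = X b * q b := fun b => by
    rw [hW, add_mul, Finset.sum_mul, sub_mul, one_mul, hsumq, sub_self, add_zero,
      Finset.sum_eq_single b]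
    · rw [mul_assoc, (hq b).2]
    · intro a _ hab; rw [mul_assoc, ho a b hab, mul_zero]
    · intro h; exact absurd (Finset.mem_univ b) h
  have hqW : ∀ b, q b * W = X b * q b := fun b => by
    rw [hW, mul_add, Finset.mul_sum, mul_sub, mul_one, hqsum, sub_self, add_zero,
      Finset.sum_eq_single b]
    · rw [← mul_assoc, ← hXq b b, mul_assoc, (hq b).2]
    · intro a _ hab
      rw [← mul_assoc, ← hXq a b, mul_assoc, ho b a (Ne.symm hab), mul_zero]
    · intro h; exact absurd (Finset.mem_univ b) h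
  have hsub : (∑ a, q a) * (∑ a, q a) = ∑ a, q a := by
    rw [Finset.mul_sum]; exact Finset.sum_congr rfl (fun b _ => hsumq b)
  have hWn : W * (1 - ∑ a, q a) = 1 - ∑ a, q a := by
    rw [hW, add_mul, Finset.sum_mul]
    have : ∑ a, X a * q a * (1 - ∑ a, q a) = 0 := by
      apply Finset.sum_eq_zero
      intro a _
      rw [mul_assoc, mul_sub, mul_one, hqsum, sub_self, mul_zero]
    rw [this, zero_add]
    have h2 : (1 - ∑ a, q a) * (1 - ∑ a, q a)
        = 1 - ∑ a, q a - (∑ a, q a) + (∑ a, q a) * (∑ a, q a) := by noncomm_ring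
    rw [h2, hsub]; noncomm_ring
  have hnW : (1 - ∑ a, q a) * W = 1 - ∑ a, q a := by
    rw [hW, mul_add, Finset.mul_sum]
    have : ∑ b, (1 - ∑ a, q a) * (X b * q b) = 0 := by
      apply Finset.sum_eq_zero
      intro a _
      rw [hXq a a, ← mul_assoc, sub_mul, one_mul, hsumq, sub_self, zero_mul]
    rw [this, zero_add]
    have h2 : (1 - ∑ a, q a) * (1 - ∑ a, q a)
        = 1 - ∑ a, q a - (∑ a, q a) + (∑ a, q a) * (∑ a, q a) := by noncomm_ring
    rw [h2, hsub]; noncomm_ring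
  have hsWq : ∀ b, star W * q b = star (X b) * q b := fun b => by
    have h := congrArg star (hqW b)
    rw [star_mul, (hq b).1, star_mul, (hq b).1] at h
    rw [h]
    have h3 := congrArg star (hXq b b)
    rw [star_mul, star_mul, (hq b).1] at h3
    exact h3
  have hsWn : star W * (1 - ∑ a, q a) = 1 - ∑ a, q a := by
    have h := congrArg star hnW
    rw [star_mul, star_sub, star_one, hstsum] at h
    exact h
  have key : ∀ x : B, (∀ b, x * q b = q b) → x * (1 - ∑ a, q a) = 1 - ∑ a, q a → x = 1 := by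
    intro x h1 h2
    have h3 : x = x * (∑ a, q a) + x * (1 - ∑ a, q a) := by noncomm_ring
    rw [h3, h2, Finset.mul_sum, Finset.sum_congr rfl (fun b _ => h1 b)]
    noncomm_ring
  have hWU : star W * W = 1 := by
    apply key
    · intro b
      rw [mul_assoc, hWq, hXq, ← mul_assoc, hsWq, mul_assoc, ← hXq, ← mul_assoc,
        (hXmem b).1, one_mul]
    · rw [mul_assoc, hWn, hsWn]
  have hWU' : W * star W = 1 := by
    apply key
    · intro b
      have h3 := congrArg star (hXq b b)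
      rw [star_mul, star_mul, (hq b).1] at h3
      rw [mul_assoc, hsWq, ← h3, ← mul_assoc, hWq, mul_assoc, h3, ← mul_assoc,
        (hXmem b).2.1, one_mul]
    · rw [mul_assoc, hsWn, hWn]
  have hWP : ∀ v, P v * W = W * P v := by
    intro v
    rw [hW, mul_add, add_mul, Finset.mul_sum, Finset.sum_mul, mul_sub, sub_mul, mul_one, one_mul,
      Finset.mul_sum, Finset.sum_mul]
    congr 1
    · apply Finset.sum_congr rfl
      intro a _
      rw [← mul_assoc, (hXmem a).2.2 v, mul_assoc, hPq, ← mul_assoc]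
    · rw [Finset.sum_congr rfl (fun a _ => hPq a v)]
  have hWmem : W ∈ UD P := ⟨hWU, hWU', hWP⟩
  -- the elements D a
  set D : I → B := fun a => c' * F.th (X a) with hD
  have hthX : ∀ a, F.th (X a) = F.th^[L + 1] (F.th (Y a)) := fun a => by
    rw [hX a, ← Function.iterate_succ_apply' F.th (L + 1) (Y a),
      Function.iterate_succ_apply F.th (L + 1) (Y a)]
  have hyP : ∀ a v, P v * (c * F.th (Y a)) = c * F.th (Y a) * P v := fun a v => by
    rw [← mul_assoc, hcP, mul_assoc, F.P_th hP, ← mul_assoc]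
  have hDth : ∀ a, D a = F.th^[L + 1] (c * F.th (Y a)) := fun a => by
    rw [hD]
    simp only
    rw [hthX a, hc']
    exact F.th_iter_mul hP (L + 1) hcP (fun v => F.P_th hP _ v)
  have hDκ : ∀ a, D a * κ = κ * D a := fun a => by
    rw [hDth a]; exact hκc _ (hyP a)
  have hDq : ∀ a b, D a * q b = q b * D a := fun a b => by
    rw [hDth a, Function.iterate_succ_apply]
    exact hc b _ (fun v => F.P_th hP _ v)
  have hD1 : ∀ a, D a * e₁ = e₁ * D a := fun a => by
    have h := F.th_iter_mul_compl hP (le_refl (L + 1)) (hyP a)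
    rw [← hDth a] at h
    have h2 : D a * (1 - e₁) = (1 - e₁) * D a := h.1.trans h.2.symm
    rw [mul_sub, sub_mul, mul_one, one_mul] at h2
    exact sub_right_injective h2
  have hXe : ∀ a, X a * e₁ = e₁ * X a := fun a => by
    have h := F.th_iter_mul_compl hP (le_refl (L + 1)) (hYP a)
    rw [← hX a] at h
    have h2 : X a * (1 - e₁) = (1 - e₁) * X a := h.1.trans h.2.symm
    rw [mul_sub, sub_mul, mul_one, one_mul] at h2
    exact sub_right_injective h2
  -- (b)
  have hthW : F.th W = ∑ a, F.th (X a) * F.lam (q a) + (1 - e₁) := by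
    have hlamsum : ∀ (f : I → B), F.lam (∑ a, f a) = ∑ a, F.lam (f a) := by
      intro f
      unfold Fam.lam
      rw [Finset.sum_comm]
      apply Finset.sum_congr rfl
      intro e _
      rw [Finset.mul_sum, Finset.sum_mul]
    have hlamsub : ∀ x y : B, F.lam (x - y) = F.lam x - F.lam y := by
      intro x y
      unfold Fam.lam
      rw [← Finset.sum_sub_distrib]
      apply Finset.sum_congr rfl
      intro e _
      noncomm_ring
    have h1 : F.lam (∑ a, q a) = e₁ := by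
      rw [hsum, he₁, he₀, Function.iterate_succ_apply']
    unfold Fam.th
    rw [hW, F.lam_add, hlamsub, h1, hlamsum]
    have h2 : ∀ a, F.lam (X a * q a) = (F.lam (X a) + (1 - F.lam 1)) * F.lam (q a) := fun a => by
      rw [add_mul, sub_mul, one_mul, F.lam_mul hP (fun v => hPq a v),
        F.lam_mul hP (fun v => hPq a v), one_mul, sub_self, add_zero]
    rw [Finset.sum_congr rfl (fun a _ => h2 a)]
    noncomm_ring
  set Z : B := ∑ a, D a * (q (σ a) * e₁) + (1 - e₁) with hZ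
  have hc1 : c' * (1 - e₁) = 1 - e₁ := (F.th_iter_mul_compl hP (le_refl (L + 1)) hcP).1
  have hlq : ∀ a, F.lam (q a) = star κ * (q (σ a) * e₁) * κ := fun a => by
    rw [← hmap a]
    calc F.lam (q a) = (star κ * κ) * F.lam (q a) * (star κ * κ) := by
          rw [hκ.1, one_mul, mul_one]
      _ = _ := by noncomm_ring
  have hcW : c' * F.th W = star κ * Z * κ := by
    rw [hthW, mul_add, hc1, hZ, mul_add, add_mul, Finset.mul_sum, Finset.mul_sum, Finset.sum_mul]
    congr 1
    · apply Finset.sum_congr rfl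
      intro a _
      have h2 := est_comm_star hκ (hDκ a)
      calc c' * (F.th (X a) * F.lam (q a)) = D a * F.lam (q a) := by rw [hD]; noncomm_ring
        _ = D a * star κ * (q (σ a) * e₁) * κ := by rw [hlq a]; noncomm_ring
        _ = star κ * D a * (q (σ a) * e₁) * κ := by rw [h2]
        _ = _ := by noncomm_ring
    · have h3 : (1 - e₁) * κ = κ * (1 - e₁) := by
        rw [sub_mul, mul_sub, one_mul, mul_one, hκ1]
      rw [mul_assoc, h3, ← mul_assoc, hκ.1, one_mul]
  -- (d)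
  have hWd : W = ∑ a, X (σ a) * (q (σ a) * e₁) + (1 - e₁) := by
    rw [Equiv.sum_comp σ (fun b => X b * (q b * e₁))]
    have h2 : ∀ b, X b * q b = X b * (q b * e₁) + q b * (1 - e₁) := fun b => by
      have h3 : X b * q b * (1 - e₁) = q b * (1 - e₁) := by
        rw [hXq, mul_assoc, hX1]
      rw [← h3]; noncomm_ring
    rw [hW, Finset.sum_congr rfl (fun b _ => h2 b), Finset.sum_add_distrib, ← Finset.sum_mul,
      hsum, mul_sub, mul_one, h01]
    noncomm_ring
  -- (e)
  have hZW : ‖Z - W‖ ≤ δ := by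
    have h1 : Z - W = ∑ a, (D a - X (σ a)) * (q (σ a) * e₁) := by
      rw [hZ]
      rw [hWd]
      rw [Finset.sum_congr rfl (fun a _ => sub_mul (D a) (X (σ a)) (q (σ a) * e₁)),
        Finset.sum_sub_distrib]
      noncomm_ring
    rw [h1]
    have hpp : ∀ i j, i ≠ j → (q (σ i) * e₁) * (q (σ j) * e₁) = 0 := fun i j hij => by
      calc (q (σ i) * e₁) * (q (σ j) * e₁) = q (σ i) * (e₁ * q (σ j)) * e₁ := by noncomm_ring
        _ = q (σ i) * (q (σ j) * e₁) * e₁ := by rw [hq1]
        _ = (q (σ i) * q (σ j)) * e₁ * e₁ := by noncomm_ring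
        _ = 0 := by rw [ho _ _ (fun h => hij (σ.injective h)), zero_mul, zero_mul]
    have hps : ∀ i, star (q (σ i) * e₁) = q (σ i) * e₁ := fun i => by
      rw [star_mul, hse, (hq _).1, hq1]
    have hpi : ∀ i, (q (σ i) * e₁) * (q (σ i) * e₁) = q (σ i) * e₁ := fun i => by
      calc (q (σ i) * e₁) * (q (σ i) * e₁) = q (σ i) * (e₁ * q (σ i)) * e₁ := by noncomm_ring
        _ = q (σ i) * (q (σ i) * e₁) * e₁ := by rw [hq1]
        _ = (q (σ i) * q (σ i)) * (e₁ * e₁) := by noncomm_ring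
        _ = q (σ i) * e₁ := by rw [(hq _).2, hee]
    have hEp : ∀ i j, (D i - X (σ i)) * (q (σ j) * e₁) = (q (σ j) * e₁) * (D i - X (σ i)) :=
      fun i j => by
      calc (D i - X (σ i)) * (q (σ j) * e₁)
          = (D i * q (σ j)) * e₁ - (X (σ i) * q (σ j)) * e₁ := by noncomm_ring
        _ = (q (σ j) * D i) * e₁ - (q (σ j) * X (σ i)) * e₁ := by rw [hDq, hXq]
        _ = q (σ j) * (D i * e₁) - q (σ j) * (X (σ i) * e₁) := by noncomm_ring
        _ = q (σ j) * (e₁ * D i) - q (σ j) * (e₁ * X (σ i)) := by rw [hD1, hXe]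
        _ = _ := by noncomm_ring
    apply norm_orth_sum_le _ _ _ hδ
    · intro i _ j _ hij
      rw [star_mul, hps, hEp j j]
      calc q (σ i) * e₁ * star (D i - X (σ i)) * (q (σ j) * e₁ * (D j - X (σ j)))
          = star ((D i - X (σ i)) * (q (σ i) * e₁)) * (q (σ j) * e₁) * (D j - X (σ j)) := by
            rw [star_mul, hps]; noncomm_ring
        _ = star (D i - X (σ i)) * ((q (σ i) * e₁) * (q (σ j) * e₁)) * (D j - X (σ j)) := by
            rw [hEp i i, star_mul, hps]; noncomm_ring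
        _ = 0 := by rw [hpp i j hij]; simp
    · intro i _ j _ hij
      rw [star_mul, hps]
      calc (D i - X (σ i)) * (q (σ i) * e₁) * (q (σ j) * e₁ * star (D j - X (σ j)))
          = (D i - X (σ i)) * ((q (σ i) * e₁) * (q (σ j) * e₁)) * star (D j - X (σ j)) := by
            noncomm_ring
        _ = 0 := by rw [hpp i j hij]; simp
    · intro i _
      calc ‖(D i - X (σ i)) * (q (σ i) * e₁)‖ ≤ ‖D i - X (σ i)‖ * ‖q (σ i) * e₁‖ := norm_mul_le _ _
        _ ≤ δ * 1 := mul_le_mul (hδX i) (est_prj_norm (hps i) (hpi i)) (norm_nonneg _) hδ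
        _ = δ := mul_one δ
  -- conclusion
  have hκmem : κ ∈ UD P := ⟨hκ.1, hκ.2, hκP⟩
  have hZU : Z = κ * (c' * F.th W) * star κ := by
    rw [hcW]
    calc Z = (κ * star κ) * Z * (κ * star κ) := by rw [hκ.2, one_mul, mul_one]
      _ = _ := by noncomm_ring
  have hZmem : Z ∈ UD P := by
    rw [hZU]
    exact UD_mul (UD_mul hκmem (UD_mul hcmem (F.th_mem hP hWmem))) (UD_star hP hκmem)
  have h1 : ‖star W * c' * F.th W - 1‖ = ‖c' * F.th W - W‖ := by
    rw [← norm_UD_mul (UD_star hP hWmem) (c' * F.th W - W), mul_sub, hWU, ← mul_assoc]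
  rw [h1]
  have h2 : c' * F.th W - W = star κ * (Z * (κ - 1) - (κ - 1) * Z) + (Z - W) := by
    rw [hcW]
    have : star κ * (Z * (κ - 1) - (κ - 1) * Z) = star κ * Z * κ - star κ * κ * Z := by
      noncomm_ring
    rw [this, hκ.1, one_mul]
    noncomm_ring
  rw [h2]
  calc ‖star κ * (Z * (κ - 1) - (κ - 1) * Z) + (Z - W)‖
      ≤ ‖star κ * (Z * (κ - 1) - (κ - 1) * Z)‖ + ‖Z - W‖ := norm_add_le _ _
    _ = ‖Z * (κ - 1) - (κ - 1) * Z‖ + ‖Z - W‖ := by rw [norm_UD_mul (UD_star hP hκmem)]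
    _ ≤ (‖Z * (κ - 1)‖ + ‖(κ - 1) * Z‖) + δ := add_le_add (norm_sub_le _ _) hZW
    _ = 2 * ‖κ - 1‖ + δ := by
        rw [norm_UD_mul hZmem, norm_mul_UD hZmem]; ring

end Pool.Agent.AUE
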