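import Pool.Agent.AUE.Asm1

/-!
# Flo: the unitary of a tower is connected to `1`

PROOF of `ch_floors`. For one floor: `y ↦ th^[i] y * q + (1 - q)` maps `UD P` to `UD P` (`q` is a projection
commuting with `th^[i] y` and with the `P v`), `1 ↦ 1`, and does not increase distances
(`‖(th^i y - th^i y') q‖ ≤ ‖y - y'‖ ‖q‖`, `‖q‖ ≤ 1`); so it maps a chain for `Y a` to a chain.
Induction on the finset `s`: `∑_{a ∈ insert b s} … = (∑_{a ∈ s} …) * (th^[i] (Y b) * q b + (1 - q b))`
because `q a * q b = 0` for `a ∈ s` (all elements commute), and `Ch.mul`.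
-/

namespace Pool.Agent.AUE

theorem Flo_mem {V : Type} {B : Type} [CStarAlgebra B] {P : V → B} {z q : B} (hz : z ∈ UD P)
    (hq : star q = q) (hqq : q * q = q) (hPq : ∀ v, P v * q = q * P v) (hzq : z * q = q * z) :
    z * q + (1 - q) ∈ UD P := by
  obtain ⟨h1, h2, h3⟩ := hz
  have h4 : q * star z = star z * q := by
    have := congrArg star hzq
    simpa [star_mul, hq] using this
  have hs : star (z * q + (1 - q)) = star z * q + (1 - q) := by
    rw [star_add, star_mul, star_sub, star_one, hq, h4]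
  refine ⟨?_, ?_, fun v => ?_⟩
  · rw [hs]
    calc (star z * q + (1 - q)) * (z * q + (1 - q))
        = star z * (q * z) * q + star z * (q - q * q) + (q * q - q) * 0 + ((1 - q) * (z * q) +
            (1 - q - q + q * q)) := by noncomm_ring
      _ = 1 := by
          rw [← hzq, hqq, show (1 - q) * (z * q) = 0 by
            rw [sub_mul, one_mul, hzq, ← mul_assoc, hqq, sub_self]]
          calc star z * (z * q) * q + star z * (q - q) + (q - q) * 0 + (0 + (1 - q - q + q))
              = (star z * z) * (q * q) + (1 - q) := by noncomm_ring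
            _ = 1 := by rw [h1, hqq, one_mul]; abel
  · rw [hs]
    calc (z * q + (1 - q)) * (star z * q + (1 - q))
        = z * (q * star z) * q + z * (q - q * q) + ((1 - q) * (star z * q) +
            (1 - q - q + q * q)) := by noncomm_ring
      _ = 1 := by
          rw [h4, hqq, show (1 - q) * (star z * q) = 0 by
            rw [sub_mul, one_mul, ← h4, ← mul_assoc, hqq, sub_self]]
          calc z * (star z * q) * q + z * (q - q) + (0 + (1 - q - q + q))
              = (z * star z) * (q * q) + (1 - q) := by noncomm_ring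
            _ = 1 := by rw [h2, hqq, one_mul]; abel
  · rw [mul_add, add_mul, mul_sub, sub_mul, mul_one, one_mul, ← mul_assoc, h3, mul_assoc, hPq,
      mul_assoc]

theorem Flo_norm_le {B : Type} [CStarAlgebra B] {q : B} (hq : star q = q) (hqq : q * q = q) :
    ‖q‖ ≤ 1 := by
  have h : IsPrj (fun _ : Unit => q) :=
    ⟨fun _ => hq, fun _ => hqq, fun v w hvw => absurd (Subsingleton.elim v w) hvw⟩
  exact h.norm_le ()

theorem Flo_iter {V : Type} {B : Type} [CStarAlgebra B] {P : V → B} {G : Gr V} (F : Fam G P)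
    (hP : IsPrj P) (i : ℕ) (x y : B) : ‖F.th^[i] x - F.th^[i] y‖ ≤ ‖x - y‖ := by
  induction i with
  | zero => exact le_rfl
  | succ n ih =>
    rw [Function.iterate_succ_apply', Function.iterate_succ_apply']
    exact (F.norm_th_sub_le hP _ _).trans ih

theorem Flo_iter_one {V : Type} {B : Type} [CStarAlgebra B] {P : V → B} {G : Gr V} (F : Fam G P)
    (i : ℕ) : F.th^[i] 1 = 1 := by
  induction i with
  | zero => rfl
  | succ n ih => rw [Function.iterate_succ_apply', ih, F.th_one]

theorem Flo_one {V : Type} {B : Type} [CStarAlgebra B] {P : V → B} {G : Gr V} (F : Fam G P)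
    (hP : IsPrj P) (i : ℕ) {q y : B} (hq : star q = q) (hqq : q * q = q)
    (hPq : ∀ v, P v * q = q * P v)
    (hc : ∀ y, (∀ v, P v * y = y * P v) → F.th^[i] y * q = q * F.th^[i] y) (hy : Ch P y) :
    Ch P (F.th^[i] y * q + (1 - q)) := by
  intro δ hδ
  obtain ⟨n, ζ, h0, hn, hU, hs⟩ := hy δ hδ
  refine ⟨n, fun j => F.th^[i] (ζ j) * q + (1 - q), ?_, ?_, fun j => ?_, fun j hj => ?_⟩
  · change F.th^[i] (ζ 0) * q + (1 - q) = 1
    rw [h0, Flo_iter_one, one_mul]
    abel
  · change F.th^[i] (ζ n) * q + (1 - q) = _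
    rw [hn]
  · exact Flo_mem (F.th_iter_mem hP (hU j) i) hq hqq hPq (hc _ (hU j).2.2)
  · change ‖F.th^[i] (ζ (j + 1)) * q + (1 - q) - (F.th^[i] (ζ j) * q + (1 - q))‖ ≤ δ
    have e : F.th^[i] (ζ (j + 1)) * q + (1 - q) - (F.th^[i] (ζ j) * q + (1 - q)) =
        (F.th^[i] (ζ (j + 1)) - F.th^[i] (ζ j)) * q := by
      rw [sub_mul]; abel
    rw [e]
    refine (norm_mul_le _ _).trans ?_
    have h1 := Flo_iter F hP i (ζ (j + 1)) (ζ j)
    have h2 := Flo_norm_le hq hqq
    calc ‖F.th^[i] (ζ (j + 1)) - F.th^[i] (ζ j)‖ * ‖q‖ ≤ δ * 1 :=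
          mul_le_mul (h1.trans (hs j hj)) h2 (norm_nonneg _) hδ.le
      _ = δ := mul_one δ

theorem ch_floors {V : Type} {B : Type} [CStarAlgebra B] {P : V → B} {G : Gr V} (F : Fam G P)
    (hP : IsPrj P) (i : ℕ) {I : Type} (s : Finset I) (q Y : I → B)
    (hq : ∀ a ∈ s, star (q a) = q a ∧ q a * q a = q a)
    (ho : ∀ a ∈ s, ∀ b ∈ s, a ≠ b → q a * q b = 0)
    (hPq : ∀ a ∈ s, ∀ v, P v * q a = q a * P v)
    (hc : ∀ a ∈ s, ∀ y, (∀ v, P v * y = y * P v) → F.th^[i] y * q a = q a * F.th^[i] y)
    (hY : ∀ a ∈ s, Ch P (Y a)) :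
    Ch P (∑ a ∈ s, F.th^[i] (Y a) * q a + (1 - ∑ a ∈ s, q a)) := by
  classical
  induction s using Finset.induction_on with
  | empty =>
    rw [Finset.sum_empty, Finset.sum_empty, zero_add, sub_zero]
    exact Ch_one
  | insert b s hb ih =>
    have hsub : ∀ a ∈ s, a ∈ insert b s := fun a ha => Finset.mem_insert_of_mem ha
    have h1 := ih (fun a ha => hq a (hsub a ha))
      (fun a ha c hc' => ho a (hsub a ha) c (hsub c hc'))
      (fun a ha => hPq a (hsub a ha)) (fun a ha => hc a (hsub a ha))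
      (fun a ha => hY a (hsub a ha))
    have hbm : b ∈ insert b s := Finset.mem_insert_self b s
    have h2 := Flo_one F hP i (hq b hbm).1 (hq b hbm).2 (hPq b hbm) (hc b hbm) (hY b hbm)
    have h3 : ∀ a ∈ s, q a * q b = 0 := fun a ha =>
      ho a (hsub a ha) b hbm (fun h => hb (h ▸ ha))
    have hzb : F.th^[i] (Y b) * q b = q b * F.th^[i] (Y b) :=
      hc b hbm _ ((hY b hbm).mem).2.2
    have hQ : (∑ a ∈ s, q a) * q b = 0 := by
      rw [Finset.sum_mul]
      exact Finset.sum_eq_zero h3
    have hX : (∑ a ∈ s, F.th^[i] (Y a) * q a) * q b = 0 := by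
      rw [Finset.sum_mul]
      exact Finset.sum_eq_zero fun a ha => by rw [mul_assoc, h3 a ha, mul_zero]
    have h4 := h1.mul h2
    rw [Finset.sum_insert hb, Finset.sum_insert hb]
    set X := ∑ a ∈ s, F.th^[i] (Y a) * q a
    set Q := ∑ a ∈ s, q a
    set z := F.th^[i] (Y b)
    have e : z * q b + X + (1 - (q b + Q)) = (X + (1 - Q)) * (z * q b + (1 - q b)) := by
      calc z * q b + X + (1 - (q b + Q))
          = (X * q b) * z + X - X * q b + z * q b - (Q * q b) * z + (1 - Q - q b + Q * q b) := by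
            rw [hX, hQ, zero_mul, sub_zero, sub_zero, zero_add]; abel
        _ = X * (q b * z) + X - X * q b + z * q b - Q * (q b * z) + (1 - Q - q b + Q * q b) := by
            rw [mul_assoc, mul_assoc]
        _ = X * (z * q b) + X - X * q b + z * q b - Q * (z * q b) + (1 - Q - q b + Q * q b) := by
            rw [hzb]
        _ = (X + (1 - Q)) * (z * q b + (1 - q b)) := by noncomm_ring
    rw [e]
    exact h4

end Pool.Agent.AUE
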