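import Mathlib

/-!
# Tow0: definitions for the abstract tower construction in a unital `*`-algebra

`A` is a unital `*`-algebra over `ℂ` (no norm), `Λ : A →⋆ₐ[ℂ] A` a unital endomorphism.
-/

namespace Pool.Agent.AUE

section

variable {A : Type} [Ring A] [StarRing A] [Algebra ℂ A] [StarModule ℂ A]

/-- Unitary. -/
def IsUni (u : A) : Prop := star u * u = 1 ∧ u * star u = 1

/-- Projection. -/
def IsPr (p : A) : Prop := star p = p ∧ p * p = p

/-- Algebraic form of `‖x‖² ≤ t`. -/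
def Bd (t : ℝ) (x : A) : Prop := ∃ y : A, star x * x + star y * y = (t : ℂ) • (1 : A)

/-- `x ↦ κ Λ(x) κ*`. -/
def adE (Λ : A →⋆ₐ[ℂ] A) (κ : A) (hκ : IsUni κ) : A →⋆ₐ[ℂ] A where
  toFun x := κ * Λ x * star κ
  map_one' := by simp [hκ.2]
  map_mul' x y := by
    have : κ * (Λ x * Λ y) * star κ = κ * Λ x * (star κ * κ) * (Λ y * star κ) := by
      rw [hκ.1]; noncomm_ring
    rw [map_mul, this]; noncomm_ring
  map_zero' := by simp
  map_add' x y := by simp [mul_add, add_mul]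
  commutes' r := by
    have : Λ (algebraMap ℂ A r) = algebraMap ℂ A r := Λ.toAlgHom.commutes r
    rw [this, ← Algebra.commutes r κ, mul_assoc, hκ.2, mul_one]
  map_star' x := by simp [mul_assoc, map_star]

omit [StarModule ℂ A] in
theorem adE_apply (Λ : A →⋆ₐ[ℂ] A) (κ : A) (hκ : IsUni κ) (x : A) :
    adE Λ κ hκ x = κ * Λ x * star κ := rfl

/-- Two cyclic towers of heights `N` and `N + 1`. -/
structure IsTow (Λ : A →⋆ₐ[ℂ] A) (N : ℕ) (q q' : ℕ → A) : Prop where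
  pr : ∀ i, IsPr (q i)
  pr' : ∀ i, IsPr (q' i)
  cyc : q N = q 0
  cyc' : q' (N + 1) = q' 0
  map : ∀ i < N, Λ (q i) = q (i + 1)
  map' : ∀ i < N + 1, Λ (q' i) = q' (i + 1)
  orth : ∀ i < N, ∀ j < N, i ≠ j → q i * q j = 0
  orth' : ∀ i < N + 1, ∀ j < N + 1, i ≠ j → q' i * q' j = 0
  orth'' : ∀ i < N, ∀ j < N + 1, q i * q' j = 0
  sum : ∑ i ∈ Finset.range N, q i + ∑ j ∈ Finset.range (N + 1), q' j = 1

/-- The hypothesis: `e0` is a projection with orthogonal translates `Λ^i e0`, `i < H = (2N+3) N`,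
all equivalent to `e0`, and the remainder `1 - ∑_{i<H} Λ^i e0` is equivalent to a subprojection of
`e0`. -/
structure MarkH (Λ : A →⋆ₐ[ℂ] A) (N : ℕ) (e0 : A) : Prop where
  pr : IsPr e0
  orth : ∀ i < (2 * N + 3) * N, ∀ j < (2 * N + 3) * N, i ≠ j → Λ^[i] e0 * Λ^[j] e0 = 0
  eqv : ∀ j < (2 * N + 3) * N, ∃ t, star t * t = e0 ∧ t * star t = Λ^[j] e0 ∧ t * e0 = t ∧
    Λ^[j] e0 * t = t
  rem : ∃ t, star t * t = 1 - ∑ i ∈ Finset.range ((2 * N + 3) * N), Λ^[i] e0 ∧ e0 * t = t ∧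
    t * (1 - ∑ i ∈ Finset.range ((2 * N + 3) * N), Λ^[i] e0) = t

/-- The output of the first step: an invariant projection `g`, a cyclic tower `p 0, …, p (N-1)`,
and `v` with `v* v = g`, `v = p 0 v`, `v* Λ^N(v) = 0`. -/
structure Step1 (Λ : A →⋆ₐ[ℂ] A) (N : ℕ) (g : A) (p : ℕ → A) (v : A) : Prop where
  g_pr : IsPr g
  p_pr : ∀ i, IsPr (p i)
  p_cyc : p N = p 0
  map_g : Λ g = g
  map_p : ∀ i < N, Λ (p i) = p (i + 1)
  g_p : ∀ i < N, g * p i = 0
  p_p : ∀ i < N, ∀ j < N, i ≠ j → p i * p j = 0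
  sum : g + ∑ i ∈ Finset.range N, p i = 1
  v_v : star v * v = g
  v_g : v * g = v
  p_v : p 0 * v = v
  v_Lv : star v * Λ^[N] v = 0

/-- The output of the second step: in addition partial isometries `u i` from `g` into `p i` which
are mapped cyclically. -/
structure Step2 (Λ : A →⋆ₐ[ℂ] A) (N : ℕ) (g : A) (p u : ℕ → A) : Prop where
  g_pr : IsPr g
  p_pr : ∀ i, IsPr (p i)
  p_cyc : p N = p 0
  map_g : Λ g = g
  map_p : ∀ i < N, Λ (p i) = p (i + 1)
  g_p : ∀ i < N, g * p i = 0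
  p_p : ∀ i < N, ∀ j < N, i ≠ j → p i * p j = 0
  sum : g + ∑ i ∈ Finset.range N, p i = 1
  u_u : ∀ i ≤ N, star (u i) * u i = g
  u_g : ∀ i ≤ N, u i * g = u i
  p_u : ∀ i ≤ N, p i * u i = u i
  u_cyc : u N = u 0
  map_u : ∀ i < N, Λ (u i) = u (i + 1)

end

end Pool.Agent.AUE
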