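import Pool.Agent.AUE.TRel
import Pool.Agent.AUE.Tow0

/-!
# CoreU: the union of the `core n` of a Cuntz-Krieger family and its endomorphism `lam`
-/

namespace Pool.Agent.AUE

variable {V : Type} {B : Type} [CStarAlgebra B] {P : V → B} {G : Gr V} (F : Fam G P)
  (hP : IsPrj P) (hCK : F.lam 1 = 1) [Fintype V]

/-- The union of the `core n`. -/
noncomputable def Fam.coreU : StarSubalgebra ℂ B where
  carrier := {x | ∃ n, x ∈ F.core n}
  mul_mem' := by
    rintro a b ⟨m, ha⟩ ⟨n, hb⟩
    exact ⟨max m n, F.core_mul hP (F.core_mono hP hCK (le_max_left m n) ha)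
      (F.core_mono hP hCK (le_max_right m n) hb)⟩
  one_mem' := ⟨0, F.one_mem_core hP hCK 0⟩
  add_mem' := by
    rintro a b ⟨m, ha⟩ ⟨n, hb⟩
    exact ⟨max m n, add_mem (F.core_mono hP hCK (le_max_left m n) ha)
      (F.core_mono hP hCK (le_max_right m n) hb)⟩
  zero_mem' := ⟨0, zero_mem _⟩
  algebraMap_mem' := by
    intro r
    refine ⟨0, ?_⟩
    rw [Algebra.algebraMap_eq_smul_one]
    exact (F.core 0).smul_mem r (F.one_mem_core hP hCK 0)
  star_mem' := by
    rintro a ⟨m, ha⟩
    exact ⟨m, F.core_star hP ha⟩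

theorem Fam.mem_coreU {x : B} : x ∈ F.coreU hP hCK ↔ ∃ n, x ∈ F.core n := Iff.rfl

/-- The endomorphism `lam` of the core. -/
noncomputable def Fam.lamU : F.coreU hP hCK →⋆ₐ[ℂ] F.coreU hP hCK where
  toFun x := ⟨F.lam x.1, by
    obtain ⟨n, hn⟩ := x.2
    exact ⟨n + 1, F.lam_core hP hn⟩⟩
  map_one' := by
    apply Subtype.ext
    exact hCK
  map_mul' x y := by
    apply Subtype.ext
    obtain ⟨n, hn⟩ := y.2
    exact (F.lam_mul hP (fun v => F.core_P hP hn v)).symm
  map_zero' := by
    apply Subtype.ext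
    have := F.lam_smul 0 (0 : B)
    simpa using this
  map_add' x y := by
    apply Subtype.ext
    exact F.lam_add _ _
  commutes' r := by
    apply Subtype.ext
    change F.lam (algebraMap ℂ B r) = algebraMap ℂ B r
    rw [Algebra.algebraMap_eq_smul_one, F.lam_smul, hCK]
  map_star' x := by
    apply Subtype.ext
    exact (F.star_lam _).symm

theorem Fam.lamU_coe (x : F.coreU hP hCK) : (F.lamU hP hCK x : B) = F.lam x := rfl

theorem Fam.lamU_iter_coe (n : ℕ) (x : F.coreU hP hCK) :
    ((F.lamU hP hCK)^[n] x : B) = F.lam^[n] x := by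
  induction n generalizing x with
  | zero => rfl
  | succ n ih =>
    rw [Function.iterate_succ_apply, Function.iterate_succ_apply, ih]
    rfl

end Pool.Agent.AUE
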