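import Pool.Agent.AUE.Decay

/-!
# MarkEx: the tower set

PROOF of `marker_exists`. Choose loops `x v ≠ y v` (from `Full`), and `k` such that all entries of
`A^(k+1)` are `≥ 1` (`adj_pow_pos`) and `2 H (H+1) ≤ 2^(k+1)` (so `2 H (H+1) • 1 ≤ A^(k+1)` entrywise by
`two_pow_le`). Choose `q₀ ≥ 1` such that for `m = k + H q₀`: `2 (H+1) N m ≤ A^m` (`clean_rare`,
`K = 2 (H+1)`), `N t = cnt t clean`. Put `Q l := ∃ q, 1 ≤ q ∧ q < q₀ ∧ fstAt (q H) l`.

(1) If `Q ((l.drop i).take m)` and `Q ((l.drop j).take m)`, `i < j < H`: `fstAt (q H) (l.drop i)`,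
`fstAt (q' H) (l.drop j)` (`fstAt_of_take`), by `fstAt_drop` (`j - i ≤ H ≤ q H`)
`fstAt (q H - (j - i)) (l.drop j)`, so `q' H = q H - (j - i)` (`fstAt_unique`), contradiction mod `H`.

Let `a t = cnt m (fstAt t) = N t * A^(m-(t+k+1))` for `t < H q₀` (`cnt_fstAt`),
`X = cnt m Q = ∑_{1≤q<q₀} a (q H)` (`cnt_exists`). `X` commutes with `A` (`adj_cnt_clean`).

(2) `Q ((l.drop j).take m)`: `cnt_append` twice: the matrix is `A^j * X * A^(H-j) = X * A^H`.

(3) `a (t+1) ≤ a t` entrywise (`cnt_clean_le` with `j = 1`). Let `F = N m + ∑_{t<H} a t`.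
`A^m = N m + ∑_{t<H q₀} a t ≤ F + H X` (`adj_pow_eq`; group `t = q H + i`, `a (q H + i) ≤ a (q H)`).
`2 (H+1) ∑_{t<H} a t ≤ 2 (H+1) H a 0 = 2 (H+1) H A^(m-k-1) ≤ A^(k+1) A^(m-k-1) = A^m` and
`2 (H+1) N m ≤ A^m`, so `(H+1) F ≤ A^m ≤ F + H X`, hence `F ≤ X` entrywise (`H > 0`).
If `l` has length `m + H` and `¬ Q ((l.drop i).take m)` for all `i < H` then `l.take m` is clean or
`fstAt t (l.take m)` with `t < H`: otherwise `fstAt t (l.take m)` with `t ≥ H` (`clean_or_fstAt`,
`t + k + 1 ≤ m`); let `i = t % H`; `fstAt (t - i) (l.drop i)`, `t - i = q H`, `1 ≤ q < q₀`, and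
`fstAt (q H) ((l.drop i).take m)` (`fstAt_take`). So the matrix of such words is
`≤ F * A^H ≤ X * A^H = cnt (m+H) (Q (take m))`.
-/

namespace Pool.Agent.AUE

theorem MarkEx_mul_le {V : Type} [Fintype V] {A B C : Matrix V V ℕ}
    (h : ∀ u v, A u v ≤ B u v) (u v : V) : (A * C) u v ≤ (B * C) u v := by
  rw [Matrix.mul_apply, Matrix.mul_apply]
  exact Finset.sum_le_sum fun w _ => Nat.mul_le_mul_right _ (h u w)

theorem MarkEx_take {V : Type} {G : Gr V} [Fintype V] [DecidableEq V] (m b : ℕ)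
    (R : List G.Ed → Prop) :
    G.cnt (m + b) (fun l => R (l.take m)) = G.cnt m R * G.adj ^ b := by
  have h := G.cnt_append m b R (fun _ => True)
  rw [G.cnt_true] at h
  rw [← h]
  exact G.cnt_congr fun u v l _ _ => by simp

theorem MarkEx_drop {V : Type} {G : Gr V} [Fintype V] [DecidableEq V] (j b : ℕ)
    (R : List G.Ed → Prop) :
    G.cnt (j + b) (fun l => R (l.drop j)) = G.adj ^ j * G.cnt b R := by
  have h := G.cnt_append j b (fun _ => True) R
  rw [G.cnt_true] at h
  rw [← h]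
  exact G.cnt_congr fun u v l _ _ => by simp

section
variable {V : Type} {G : Gr V} {x y : V → G.Ed} (k : ℕ) (h : Loops G x y) [Fintype V]
  [DecidableEq V]

include h in
theorem MarkEx_anti {m t : ℕ} (ht : t + 1 + k + 1 ≤ m) (u v : V) :
    G.cnt m (fstAt x y k (t + 1)) u v ≤ G.cnt m (fstAt x y k t) u v := by
  rw [cnt_fstAt k h ht, cnt_fstAt k h (by omega : t + k + 1 ≤ m)]
  have e : m - (t + k + 1) = 1 + (m - (t + 1 + k + 1)) := by omega
  rw [e, pow_add, ← mul_assoc]
  exact MarkEx_mul_le (fun u v => cnt_clean_le k t 1 u v) u v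

include h in
theorem MarkEx_anti' {m t : ℕ} (i : ℕ) (ht : t + i + k + 1 ≤ m) (u v : V) :
    G.cnt m (fstAt x y k (t + i)) u v ≤ G.cnt m (fstAt x y k t) u v := by
  induction i with
  | zero => exact le_refl _
  | succ i ih => exact (MarkEx_anti k h (by omega) u v).trans (ih (by omega))

end

theorem MarkEx_sum (α : ℕ → ℕ) (H : ℕ) (q₀ : ℕ)
    (hα : ∀ q i, q < q₀ → i < H → α (q * H + i) ≤ α (q * H)) (hq : 1 ≤ q₀) :
    ∑ t ∈ Finset.range (H * q₀), α t ≤
      ∑ t ∈ Finset.range H, α t + H * ∑ q ∈ Finset.Ico 1 q₀, α (q * H) := by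
  induction q₀, hq using Nat.le_induction with
  | base => simp
  | succ q hq ih =>
    have ih' := ih fun q' i h1 h2 => hα q' i (by omega) h2
    rw [Finset.sum_Ico_succ_top hq, Nat.mul_succ, Finset.sum_range_add]
    have h1 : ∑ i ∈ Finset.range H, α (H * q + i) ≤ ∑ _i ∈ Finset.range H, α (q * H) := by
      refine Finset.sum_le_sum fun i hi => ?_
      rw [Nat.mul_comm H q]
      exact hα q i (by omega) (Finset.mem_range.1 hi)
    rw [Finset.sum_const, Finset.card_range, smul_eq_mul] at h1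
    rw [mul_add]
    omega

theorem marker_exists {V : Type} {G : Gr V} [Fintype V] [DecidableEq V] (hG : Full G) {H : ℕ}
    (hH : 0 < H) : ∃ (m : ℕ) (Q : List G.Ed → Prop),
      (∀ (l : List G.Ed) (i j : ℕ), i < j → j < H →
        ¬ (Q ((l.drop i).take m) ∧ Q ((l.drop j).take m))) ∧
      (∀ j ≤ H, G.cnt (m + H) (fun l => Q ((l.drop j).take m)) =
        G.cnt (m + H) (fun l => Q (l.take m))) ∧
      (∀ u v, G.cnt (m + H) (fun l => ∀ i < H, ¬ Q ((l.drop i).take m)) u v ≤
        G.cnt (m + H) (fun l => Q (l.take m)) u v) := by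
  obtain ⟨hloop, hreach⟩ := id hG
  choose x y hne hsx hrx hsy hry using hloop
  have h : Loops G x y := ⟨hsx, hrx, hsy, hry, hne⟩
  obtain ⟨n₀, hn₀⟩ := adj_pow_pos hG
  obtain ⟨k, hk⟩ : ∃ k, k = n₀ + 2 * H * (H + 1) := ⟨_, rfl⟩
  have hB : ∀ u v, 1 ≤ (G.adj ^ (k + 1)) u v := hn₀ _ (by omega)
  have h2k : 2 * H * (H + 1) ≤ 2 ^ (k + 1) := by
    have h1 : k + 1 < 2 ^ (k + 1) := Nat.lt_two_pow_self
    omega
  obtain ⟨M, hM⟩ := clean_rare k h hB (2 * (H + 1))
  obtain ⟨q₀, hq₀⟩ : ∃ q₀, q₀ = M + 1 := ⟨_, rfl⟩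
  obtain ⟨m, hm⟩ : ∃ m, m = k + H * q₀ := ⟨_, rfl⟩
  have hHq : H ≤ H * q₀ := Nat.le_mul_of_pos_right _ (by omega)
  have hmM : M ≤ m := by
    have h1 : q₀ ≤ H * q₀ := Nat.le_mul_of_pos_left _ hH
    omega
  have hqm : ∀ q, q < q₀ → q * H + H ≤ H * q₀ := by
    intro q hq
    have h1 : (q + 1) * H ≤ q₀ * H := Nat.mul_le_mul_right _ hq
    rw [Nat.add_mul, one_mul, Nat.mul_comm q₀ H] at h1
    exact h1
  obtain ⟨Q, hQ⟩ : ∃ Q : List G.Ed → Prop,
      Q = fun l => ∃ q ∈ Finset.Ico 1 q₀, fstAt x y k (q * H) l := ⟨_, rfl⟩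
  -- the matrix `X`
  have hX : G.cnt m Q = ∑ q ∈ Finset.Ico 1 q₀, G.cnt m (fstAt x y k (q * H)) := by
    rw [hQ]
    refine G.cnt_exists (Finset.Ico 1 q₀) (Q := fun q => fstAt x y k (q * H)) ?_
    intro u v l _ _ i _ j _ h1 h2
    have := fstAt_unique x y k h1 h2
    exact Nat.eq_of_mul_eq_mul_right hH this
  have hXA : Commute G.adj (G.cnt m Q) := by
    rw [hX]
    refine Commute.sum_right _ _ _ fun q hq => ?_
    have hq' := Finset.mem_Ico.1 hq
    have := hqm q hq'.2
    rw [cnt_fstAt k h (by omega : q * H + k + 1 ≤ m)]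
    have h1 : Commute G.adj (G.cnt (q * H) (clean x y k)) := adj_cnt_clean k h (q * H)
    exact h1.mul_right (Commute.pow_right (Commute.refl _) _)
  have hXH : G.cnt (m + H) (fun l => Q (l.take m)) = G.cnt m Q * G.adj ^ H := MarkEx_take m H Q
  refine ⟨m, Q, ?_, ?_, ?_⟩
  · -- no two close tower words
    rintro l i j hij hj ⟨h1, h2⟩
    rw [hQ] at h1 h2
    obtain ⟨q, hq, h1⟩ := h1
    obtain ⟨q', hq', h2⟩ := h2
    have hq1 := (Finset.mem_Ico.1 hq).1
    have h3 := fstAt_of_take x y k h1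
    have h4 := fstAt_of_take x y k h2
    have hqH : H ≤ q * H := Nat.le_mul_of_pos_left _ (by omega)
    have h5 := fstAt_drop x y k h3 (i := j - i) (by omega)
    rw [List.drop_drop, show i + (j - i) = j by omega] at h5
    have h6 := fstAt_unique x y k h4 h5
    have h7 : q * H = q' * H + (j - i) := by omega
    rcases Nat.lt_or_ge q' q with h8 | h8
    · have h9 : (q' + 1) * H ≤ q * H := Nat.mul_le_mul_right _ h8
      rw [Nat.add_mul, one_mul] at h9
      omega
    · have h9 : q * H ≤ q' * H := Nat.mul_le_mul_right _ h8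
      omega
  · -- the counts
    intro j hj
    rw [hXH]
    have e : m + H = j + (m + (H - j)) := by omega
    rw [e, MarkEx_drop j (m + (H - j)) (fun l => Q (l.take m)), MarkEx_take m (H - j) Q,
      ← mul_assoc, (hXA.pow_left j).eq, mul_assoc, ← pow_add]
    congr 2
    omega
  · -- the words without tower words
    have hF : ∀ u v, (G.cnt m (fun l => clean x y k l ∨ ∃ t ∈ Finset.range H, fstAt x y k t l)) u v ≤
        G.cnt m Q u v := by
      intro u v
      have e1 : G.cnt m (fun l => clean x y k l ∨ ∃ t ∈ Finset.range H, fstAt x y k t l) =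
          G.cnt m (clean x y k) + ∑ t ∈ Finset.range H, G.cnt m (fstAt x y k t) := by
        rw [G.cnt_or, G.cnt_exists]
        · intro u v l _ _ i _ j _ h1 h2
          exact fstAt_unique x y k h1 h2
        · rintro u v l _ _ h1 ⟨t, _, h2⟩
          exact not_clean_of_fstAt x y k h2 h1
      rw [e1, hX]
      obtain ⟨α, hα⟩ : ∃ α : ℕ → ℕ, α = fun t => G.cnt m (fstAt x y k t) u v := ⟨_, rfl⟩
      have e2 : (G.cnt m (clean x y k) + ∑ t ∈ Finset.range H, G.cnt m (fstAt x y k t)) u v =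
          G.cnt m (clean x y k) u v + ∑ t ∈ Finset.range H, α t := by
        rw [Matrix.add_apply, Matrix.sum_apply, hα]
      have e3 : (∑ q ∈ Finset.Ico 1 q₀, G.cnt m (fstAt x y k (q * H))) u v =
          ∑ q ∈ Finset.Ico 1 q₀, α (q * H) := by
        rw [Matrix.sum_apply, hα]
      have e4 : (G.adj ^ m) u v = G.cnt m (clean x y k) u v + ∑ t ∈ Finset.range (H * q₀), α t := by
        rw [adj_pow_eq (x := x) (y := y) k (by omega : k ≤ m), Matrix.add_apply, Matrix.sum_apply, hα]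
        congr 2
        rw [hm]
        congr 1
        omega
      rw [e2, e3]
      have hanti : ∀ q i, q < q₀ → i < H → α (q * H + i) ≤ α (q * H) := by
        intro q i hq hi
        rw [hα]
        have := hqm q hq
        exact MarkEx_anti' k h i (by omega) u v
      have hs := MarkEx_sum α H q₀ hanti (by omega)
      have hc := hM m hmM u v
      -- the first block
      have hb : 2 * (H + 1) * ∑ t ∈ Finset.range H, α t ≤ (G.adj ^ m) u v := by
        have h1 : ∑ t ∈ Finset.range H, α t ≤ ∑ _t ∈ Finset.range H, α 0 := by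
          refine Finset.sum_le_sum fun t ht => ?_
          have := hanti 0 t (by omega) (Finset.mem_range.1 ht)
          simpa using this
        rw [Finset.sum_const, Finset.card_range, smul_eq_mul] at h1
        have h2 : α 0 = (G.adj ^ (m - (k + 1))) u v := by
          rw [hα]
          change G.cnt m (fstAt x y k 0) u v = _
          rw [cnt_fstAt k h (by omega : 0 + k + 1 ≤ m), cnt_clean_small k (Nat.zero_le k), pow_zero,
            one_mul, show m - (0 + k + 1) = m - (k + 1) by omega]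
        have h3 : (G.adj ^ m) u v = ∑ w, (G.adj ^ (k + 1)) u w * (G.adj ^ (m - (k + 1))) w v := by
          rw [← Matrix.mul_apply, ← pow_add, show k + 1 + (m - (k + 1)) = m by omega]
        have h4 : (G.adj ^ (k + 1)) u u * (G.adj ^ (m - (k + 1))) u v ≤ (G.adj ^ m) u v := by
          rw [h3]
          exact Finset.single_le_sum
            (f := fun w => (G.adj ^ (k + 1)) u w * (G.adj ^ (m - (k + 1))) w v)
            (fun w _ => Nat.zero_le _) (Finset.mem_univ u)
        have h5 : 2 * H * (H + 1) ≤ (G.adj ^ (k + 1)) u u := h2k.trans (two_pow_le hG (k + 1) u)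
        calc 2 * (H + 1) * ∑ t ∈ Finset.range H, α t ≤ 2 * (H + 1) * (H * α 0) :=
              Nat.mul_le_mul_left _ h1
          _ = 2 * H * (H + 1) * (G.adj ^ (m - (k + 1))) u v := by rw [h2]; ring
          _ ≤ (G.adj ^ (k + 1)) u u * (G.adj ^ (m - (k + 1))) u v := Nat.mul_le_mul_right _ h5
          _ ≤ _ := h4
      obtain ⟨N, hN⟩ : ∃ N, N = G.cnt m (clean x y k) u v := ⟨_, rfl⟩
      obtain ⟨S, hS⟩ : ∃ S, S = ∑ t ∈ Finset.range H, α t := ⟨_, rfl⟩
      obtain ⟨T, hT⟩ : ∃ T, T = ∑ q ∈ Finset.Ico 1 q₀, α (q * H) := ⟨_, rfl⟩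
      obtain ⟨A, hA⟩ : ∃ A, A = (G.adj ^ m) u v := ⟨_, rfl⟩
      rw [← hN, ← hA] at hc
      rw [← hS, ← hA] at hb
      rw [← hS, ← hT] at hs
      rw [← hA, ← hN] at e4
      rw [← hN, ← hS, ← hT]
      have h6 : A ≤ N + (S + H * T) := by omega
      have h7 : H * (N + S) ≤ H * T := by nlinarith
      exact Nat.le_of_mul_le_mul_left h7 hH
    intro u v
    rw [hXH]
    refine le_trans ?_ (MarkEx_mul_le hF u v)
    rw [← MarkEx_take m H (fun l => clean x y k l ∨ ∃ t ∈ Finset.range H, fstAt x y k t l)]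
    refine G.cnt_mono ?_ u v
    intro u v l hl _ hno
    rcases clean_or_fstAt x y k (l.take m) with h1 | ⟨t, ht, h1⟩
    · exact Or.inl h1
    · right
      by_cases htH : t < H
      · exact ⟨t, Finset.mem_range.2 htH, h1⟩
      · exfalso
        rw [List.length_take, hl] at ht
        have hi := Nat.mod_lt t hH
        apply hno (t % H) hi
        rw [hQ]
        have h2 := fstAt_of_take x y k h1
        have h3 := fstAt_drop x y k h2 (Nat.mod_le t H)
        have h4 : t - t % H = t / H * H := by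
          have := Nat.div_add_mod t H
          rw [Nat.mul_comm] at this
          omega
        rw [h4] at h3
        refine ⟨t / H, Finset.mem_Ico.2 ⟨?_, ?_⟩, fstAt_take x y k h3 ?_⟩
        · exact (Nat.one_le_div_iff hH).2 (by omega)
        · rw [Nat.div_lt_iff_lt_mul hH, Nat.mul_comm]
          omega
        · omega

end Pool.Agent.AUE
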