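import Pool.Agent.AUE.MUn
import Pool.Agent.AUE.MarkEx
import Pool.Agent.AUE.CoreU

/-!
# MarkC: the marker projection in the core of a Cuntz-Krieger family

PROOF. `H = (2N+3) N > 0`, `m`, `Q` from `marker_exists hG`. `e0 = pr m Q` as element of `coreU`.
`Λ^[i] e0 = lam^[i] (pr m Q) = pr (m+i) (Q (drop i)) = pr (m+H) (fun l => Q ((l.drop i).take m))`
for `i ≤ H` (`lamU_iter_coe`, `lam_iter_pr`, `pr_take` with `H - i`: `(l.take (m+i)).drop i =
(l.drop i).take m`). Call this predicate `Q_i` (on words of length `m + H`); `Q_0 = Q (take m)`.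
orthogonality: `pr_mul_pr`, `pr_congr`, `pr_false` and the first property of `marker_exists`.
`eqv`: `exists_theta` with `cnt Q_0 = cnt Q_j` (second property) (`t ∈ core`, so `t ∈ coreU`).
`rem`: `1 - ∑_{i<H} pr (m+H) Q_i = 1 - pr (m+H) (∃ i ∈ range H, Q_i) = pr (m+H) (∀ i < H, ¬ Q_i)`
(`pr_exists`, `pr_not`, `pr_congr`) and `exists_rho` with the third property.
-/

namespace Pool.Agent.AUE

theorem MarkC_key {V : Type} [Fintype V] {B : Type} [CStarAlgebra B] {P : V → B}
    {G : Gr V} (F : Fam G P) (hP : IsPrj P) (hCK : F.lam 1 = 1) (m H : ℕ)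
    (Q : List G.Ed → Prop) (i : ℕ) (hi : i ≤ H) :
    F.lam^[i] (F.pr m Q) = F.pr (m + H) (fun l => Q ((l.drop i).take m)) := by
  rw [F.lam_iter_pr hP, F.pr_take hP hCK (m + i) (H - i)]
  rw [show m + i + (H - i) = m + H by omega]
  apply F.pr_congr
  intro u v l _ _
  rw [List.drop_take, show m + i - i = m by omega]

theorem exists_markH {V : Type} [Fintype V] [DecidableEq V] {B : Type} [CStarAlgebra B] {P : V → B}
    {G : Gr V} (F : Fam G P) (hG : Full G) (hP : IsPrj P) (hCK : F.lam 1 = 1) {N : ℕ}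
    (hN : 0 < N) : ∃ e0, MarkH (F.lamU hP hCK) N e0 := by
  have hH : 0 < (2 * N + 3) * N := Nat.mul_pos (by omega) hN
  generalize hHH : (2 * N + 3) * N = H at hH
  obtain ⟨m, Q, h1, h2, h3⟩ := marker_exists hG hH
  have he0 : F.pr m Q ∈ F.coreU hP hCK := ⟨m, F.pr_mem hP m Q⟩
  have key : ∀ i ≤ H, (((F.lamU hP hCK)^[i] ⟨F.pr m Q, he0⟩ : F.coreU hP hCK) : B) =
      F.pr (m + H) (fun l => Q ((l.drop i).take m)) := by
    intro i hi
    rw [F.lamU_iter_coe hP hCK]
    exact MarkC_key F hP hCK m H Q i hi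
  have key0 : F.pr m Q = F.pr (m + H) (fun l => Q (l.take m)) := by
    have h := key 0 (Nat.zero_le _)
    rw [Function.iterate_zero_apply] at h
    rw [show F.pr m Q = ((⟨F.pr m Q, he0⟩ : F.coreU hP hCK) : B) from rfl, h]
    rfl
  have horth : ∀ i < H, ∀ j < H, i < j → F.pr (m + H) (fun l => Q ((l.drop i).take m)) *
      F.pr (m + H) (fun l => Q ((l.drop j).take m)) = 0 := by
    intro i _ j hj hij
    rw [F.pr_mul_pr hP, ← F.pr_false hP (m + H)]
    apply F.pr_congr
    intro u v l _ _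
    exact ⟨fun h => h1 l i j hij hj h, fun h => h.elim⟩
  have horth' : ∀ i < H, ∀ j < H, j < i → F.pr (m + H) (fun l => Q ((l.drop i).take m)) *
      F.pr (m + H) (fun l => Q ((l.drop j).take m)) = 0 := by
    intro i hi j hj hij
    rw [F.pr_mul_pr hP, ← F.pr_false hP (m + H)]
    apply F.pr_congr
    intro u v l _ _
    exact ⟨fun h => h1 l j i hij hi ⟨h.2, h.1⟩, fun h => h.elim⟩
  have hsum : ((1 - ∑ i ∈ Finset.range H, (F.lamU hP hCK)^[i] ⟨F.pr m Q, he0⟩ :
      F.coreU hP hCK) : B) = F.pr (m + H) (fun l => ∀ i < H, ¬ Q ((l.drop i).take m)) := by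
    have e1 : ((∑ i ∈ Finset.range H, (F.lamU hP hCK)^[i] ⟨F.pr m Q, he0⟩ :
        F.coreU hP hCK) : B) = ∑ i ∈ Finset.range H,
        F.pr (m + H) (fun l => Q ((l.drop i).take m)) := by
      have e2 : ((∑ i ∈ Finset.range H, (F.lamU hP hCK)^[i] ⟨F.pr m Q, he0⟩ :
        F.coreU hP hCK) : B) = ∑ i ∈ Finset.range H,
          (((F.lamU hP hCK)^[i] ⟨F.pr m Q, he0⟩ : F.coreU hP hCK) : B) :=
        map_sum (F.coreU hP hCK).subtype _ _
      rw [e2]
      apply Finset.sum_congr rfl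
      intro i hi
      exact key i (le_of_lt (Finset.mem_range.1 hi))
    have e3 : ((1 - ∑ i ∈ Finset.range H, (F.lamU hP hCK)^[i] ⟨F.pr m Q, he0⟩ :
        F.coreU hP hCK) : B) = 1 - ((∑ i ∈ Finset.range H,
        (F.lamU hP hCK)^[i] ⟨F.pr m Q, he0⟩ : F.coreU hP hCK) : B) := rfl
    rw [e3, e1, ← F.pr_exists hP, ← F.pr_not hP hCK]
    · apply F.pr_congr
      intro u v l _ _
      constructor
      · intro h i hi hq
        exact h ⟨i, Finset.mem_range.2 hi, hq⟩
      · rintro h ⟨i, hi, hq⟩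
        exact h i (Finset.mem_range.1 hi) hq
    · intro u v l _ _ i hi j hj hqi hqj
      rw [Finset.mem_range] at hi hj
      rcases lt_trichotomy i j with hij | hij | hij
      · exact absurd ⟨hqi, hqj⟩ (h1 l i j hij hj)
      · exact hij
      · exact absurd ⟨hqj, hqi⟩ (h1 l j i hij hi)
  refine ⟨⟨F.pr m Q, he0⟩, ?_, ?_, ?_, ?_⟩
  · constructor
    · exact Subtype.ext (F.star_pr hP m Q)
    · apply Subtype.ext
      change F.pr m Q * F.pr m Q = F.pr m Q
      rw [F.pr_mul_pr hP]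
      apply F.pr_congr
      intro u v l _ _
      exact ⟨fun h => h.1, fun h => ⟨h, h⟩⟩
  · rw [hHH]
    intro i hi j hj hij
    apply Subtype.ext
    change (((F.lamU hP hCK)^[i] ⟨F.pr m Q, he0⟩ : F.coreU hP hCK) : B) *
      (((F.lamU hP hCK)^[j] ⟨F.pr m Q, he0⟩ : F.coreU hP hCK) : B) = 0
    rw [key i hi.le, key j hj.le]
    rcases lt_or_gt_of_ne hij with hij | hij
    · exact horth i hi j hj hij
    · exact horth' i hi j hj hij
  · rw [hHH]
    intro j hj
    obtain ⟨t, ht, t1, t2, t3, t4⟩ := F.exists_theta hP (h2 j hj.le).symm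
    refine ⟨⟨t, m + H, ht⟩, ?_, ?_, ?_, ?_⟩
    · apply Subtype.ext
      change star t * t = F.pr m Q
      rw [t1, key0]
    · apply Subtype.ext
      change t * star t = (((F.lamU hP hCK)^[j] ⟨F.pr m Q, he0⟩ : F.coreU hP hCK) : B)
      rw [t2, key j hj.le]
    · apply Subtype.ext
      change t * F.pr m Q = t
      rw [key0, t3]
    · apply Subtype.ext
      change (((F.lamU hP hCK)^[j] ⟨F.pr m Q, he0⟩ : F.coreU hP hCK) : B) * t = t
      rw [key j hj.le, t4]
  · rw [hHH]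
    obtain ⟨t, ht, t1, t2, t3⟩ := F.exists_rho hP h3
    refine ⟨⟨t, m + H, ht⟩, ?_, ?_, ?_⟩
    · apply Subtype.ext
      rw [hsum]
      exact t1
    · apply Subtype.ext
      change F.pr m Q * t = t
      rw [key0, t3]
    · apply Subtype.ext
      change t * ((1 - ∑ i ∈ Finset.range H, (F.lamU hP hCK)^[i] ⟨F.pr m Q, he0⟩ :
        F.coreU hP hCK) : B) = t
      rw [hsum, t2]

end Pool.Agent.AUE
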