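import Mathlib

/-!
# PInj: partial injections give partial isometries on `ℓ²(X)`

`H X = ℓ²(X) = lp (fun _ : X => ℂ) 2`, `bas x = lp.single 2 x 1` the standard basis vectors.
PROOF of `exists_op`. For an injection `j : D → X` (`D : Set X`) the vectors `bas (j x)` (`x : D`) are
orthonormal, so there is a linear isometry `U_j : ℓ²(D) → ℓ²(X)` with `bas x ↦ bas (j x)`
(`OrthogonalFamily.linearIsometry` / `Orthonormal`, or directly: extend a function on `D` by zero).
Likewise `U_i` for the inclusion `i : D → X`. `S = U_j ∘ U_i^*`, `S^* = U_i ∘ U_j^*`.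
`U_j^* (bas (j x)) = bas x` (`U_j^* U_j = 1`), `U_j^* (bas y) = 0` if `y ∉ range j` (inner products with
all `bas (j x)` vanish).
Alternatively define `(S f) y = f x` if `y = j x`, `0` otherwise, directly with `Memℓp`.
-/

namespace Pool.Agent.AUE

open scoped ENNReal

/-- `ℓ²(X)`. -/
abbrev HS (X : Type) : Type := lp (fun _ : X => ℂ) 2

open scoped Classical in
/-- The standard basis vectors. -/
noncomputable def bas {X : Type} (x : X) : HS X := lp.single 2 x 1

open scoped Classical in
theorem PInj_smul_bas {X : Type} (f : HS X) (x : X) :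
    (lp.single 2 x (f x) : HS X) = f x • bas x := by
  unfold bas
  rw [← lp.single_smul]
  simp

theorem PInj_hasSum {X : Type} (f : HS X) : HasSum (fun x => f x • bas x) f := by
  classical
  have h := lp.hasSum_single (p := 2) (by norm_num) f
  have e : (fun x => (lp.single 2 x (f x) : HS X)) = fun x => f x • bas x := by
    funext x
    exact PInj_smul_bas f x
  rw [← e]
  exact h

theorem PInj_inner_bas {X : Type} (x : X) (f : HS X) : inner ℂ (bas x) f = f x := by
  classical
  unfold bas
  rw [lp.inner_single_left]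
  simp

theorem PInj_bas_self {X : Type} (x : X) : (bas x : HS X) x = 1 := by
  classical
  simp [bas]

theorem PInj_bas_ne {X : Type} {x y : X} (h : y ≠ x) : (bas x : HS X) y = 0 := by
  classical
  simp [bas, h]

theorem PInj_ortho {D X : Type} (j : D → X) (hj : Function.Injective j) :
    Orthonormal ℂ (fun x : D => bas (j x)) := by
  classical
  rw [orthonormal_iff_ite]
  intro x y
  rw [PInj_inner_bas]
  split_ifs with h
  · rw [h, PInj_bas_self]
  · exact PInj_bas_ne (fun e => h (hj e))

theorem PInj_iso {D X : Type} (j : D → X) (hj : Function.Injective j) :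
    ∃ V : HS D →L[ℂ] HS X, (∀ x, V (bas x) = bas (j x)) ∧
      (∀ x, ContinuousLinearMap.adjoint V (bas (j x)) = bas x) ∧
      ∀ y, y ∉ Set.range j → ContinuousLinearMap.adjoint V (bas y) = 0 := by
  classical
  have hO := (PInj_ortho j hj).orthogonalFamily
  obtain ⟨V, hV⟩ : ∃ V : HS D →L[ℂ] HS X, ∀ x, V (bas x) = bas (j x) := by
    refine ⟨(hO.linearIsometry).toContinuousLinearMap, fun x => ?_⟩
    rw [LinearIsometry.coe_toContinuousLinearMap]
    have h := hO.linearIsometry_apply_single (i := x) (1 : ℂ)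
    have e : (bas x : HS D) = lp.single 2 x (1 : ℂ) := rfl
    rw [e]
    refine h.trans ?_
    simp
  have hc : ∀ (z : D) (f : HS X), (ContinuousLinearMap.adjoint V f : HS D) z = f (j z) := by
    intro z f
    rw [← PInj_inner_bas z, ContinuousLinearMap.adjoint_inner_right, hV, PInj_inner_bas]
  refine ⟨V, hV, fun x => ?_, fun y hy => ?_⟩
  · apply lp.ext
    funext z
    rw [hc]
    by_cases hz : z = x
    · rw [hz, PInj_bas_self, PInj_bas_self]
    · rw [PInj_bas_ne hz, PInj_bas_ne (fun e => hz (hj e))]
  · apply lp.ext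
    funext z
    rw [hc, PInj_bas_ne (fun e => hy ⟨z, e⟩)]
    rfl

theorem hs_ext {X : Type} {S T : HS X →L[ℂ] HS X} (h : ∀ x, S (bas x) = T (bas x)) : S = T := by
  ext1 f
  have h1 := (PInj_hasSum f).mapL S
  have h2 := (PInj_hasSum f).mapL T
  have e : (fun x => S (f x • bas x)) = fun x => T (f x • bas x) := by
    funext x
    rw [map_smul, map_smul, h x]
  rw [e] at h1
  exact h1.unique h2

theorem bas_ne_zero {X : Type} (x : X) : bas x ≠ 0 := by
  classical
  intro h
  have h1 := congrArg (fun f : HS X => f x) h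
  simp [bas] at h1

theorem exists_op {X : Type} (D : Set X) (j : D → X) (hj : Function.Injective j) :
    ∃ S : HS X →L[ℂ] HS X, (∀ (x : X) (h : x ∈ D), S (bas x) = bas (j ⟨x, h⟩)) ∧
      (∀ x ∉ D, S (bas x) = 0) ∧
      (∀ x : D, star S (bas (j x)) = bas (x : X)) ∧
      (∀ y, y ∉ Set.range j → star S (bas y) = 0) := by
  obtain ⟨U, hU, hU1, hU2⟩ := PInj_iso j hj
  obtain ⟨V, hV, hV1, hV2⟩ := PInj_iso (fun x : D => (x : X)) Subtype.val_injective
  refine ⟨U.comp (ContinuousLinearMap.adjoint V), fun x hx => ?_, fun x hx => ?_, fun x => ?_,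
    fun y hy => ?_⟩
  · have h := hV1 ⟨x, hx⟩
    rw [ContinuousLinearMap.comp_apply]
    exact (congrArg U h).trans (hU ⟨x, hx⟩)
  · have h := hV2 x (by
      rintro ⟨z, hz⟩
      exact hx (hz ▸ z.2))
    rw [ContinuousLinearMap.comp_apply, h, map_zero]
  · rw [ContinuousLinearMap.star_eq_adjoint, ContinuousLinearMap.adjoint_comp,
      ContinuousLinearMap.adjoint_adjoint, ContinuousLinearMap.comp_apply, hU1, hV]
  · rw [ContinuousLinearMap.star_eq_adjoint, ContinuousLinearMap.adjoint_comp,
      ContinuousLinearMap.adjoint_adjoint, ContinuousLinearMap.comp_apply, hU2 y hy, map_zero]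

end Pool.Agent.AUE
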