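import Pool.Agent.AUE.Defs
import Pool.Agent.AUE.PInj

/-!
# Model: a Cuntz-Krieger family

PROOF of `exists_CK`. Let `X` be the set of infinite paths: `ξ : ℕ → G.Ed` with
`G.r (ξ i) = G.s (ξ (i+1))` for all `i`. From `Full G` every vertex is the source of an infinite path
(repeat a loop). `B₀ = HS X →L[ℂ] HS X`. For an edge `e` let `D e = {ξ | G.s (ξ 0) = G.r e}`,
`j e ξ = (e, ξ 0, ξ 1, …)`, injective; `S e` the operator of `exists_op`. `p v` = the operator of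
`exists_op` for `D = {ξ | G.s (ξ 0) = v}`, `j = ` inclusion. All relations are checked on the basis
vectors (`hs_ext`): `star (S e) * S e = p (r e)`; `star (S e) * S f = 0` for `e ≠ f` (`j f ξ` starts
with `f`, it is not in the range of `j e`); `p (s e) * S e = S e`; `lam 1 = ∑ S e * star (S e) = 1`
(every `ξ ∈ X` is `j e (shift ξ)` for exactly one `e = ξ 0`); `p v` projections, orthogonal,
`p v ≠ 0`. The functional: a vector state `x ↦ ⟪bas ξ, x (bas ξ)⟫` with `G.s (ξ 0) = v`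
(or any linear functional which is `1` at `p v ≠ 0`).
-/

namespace Pool.Agent.AUE

/-- Infinite paths. -/
def Model_X {V : Type} (G : Gr V) : Type := {ξ : ℕ → G.Ed // ∀ i, G.r (ξ i) = G.s (ξ (i + 1))}

/-- Put an edge before a path. -/
def Model_cons {V : Type} {G : Gr V} (e : G.Ed) (ξ : Model_X G) (h : G.s (ξ.1 0) = G.r e) : Model_X G :=
  ⟨fun i => Nat.casesOn i e fun i => ξ.1 i, by
    rintro (_ | i)
    · exact h.symm
    · exact ξ.2 i⟩

/-- The shift. -/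
def Model_shift {V : Type} {G : Gr V} (ξ : Model_X G) : Model_X G :=
  ⟨fun i => ξ.1 (i + 1), fun i => ξ.2 (i + 1)⟩

theorem Model_shift_cons {V : Type} {G : Gr V} (e : G.Ed) (ξ : Model_X G) (h : G.s (ξ.1 0) = G.r e) :
    Model_shift (Model_cons e ξ h) = ξ := rfl

theorem Model_cons_shift {V : Type} {G : Gr V} (ξ : Model_X G) :
    Model_cons (ξ.1 0) (Model_shift ξ) (ξ.2 0).symm = ξ := by
  apply Subtype.ext
  funext i
  cases i <;> rfl

theorem Model_S {V : Type} {G : Gr V} (e : G.Ed) : ∃ S : HS (Model_X G) →L[ℂ] HS (Model_X G),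
    (∀ (ξ : Model_X G) (h : G.s (ξ.1 0) = G.r e), S (bas ξ) = bas (Model_cons e ξ h)) ∧
    (∀ ξ : Model_X G, G.s (ξ.1 0) ≠ G.r e → S (bas ξ) = 0) ∧
    (∀ η : Model_X G, η.1 0 = e → star S (bas η) = bas (Model_shift η)) ∧
    ∀ η : Model_X G, η.1 0 ≠ e → star S (bas η) = 0 := by
  obtain ⟨S, h1, h2, h3, h4⟩ := exists_op {ξ : Model_X G | G.s (ξ.1 0) = G.r e}
    (fun ξ => Model_cons e ξ.1 ξ.2) (by
      intro ξ ξ' h
      apply Subtype.ext
      have := congrArg Model_shift h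
      exact this)
  refine ⟨S, h1, h2, ?_, ?_⟩
  · rintro η rfl
    have := h3 ⟨Model_shift η, (η.2 0).symm⟩
    simp only [Model_cons_shift] at this
    exact this
  · intro η hη
    apply h4
    rintro ⟨ξ, rfl⟩
    exact hη rfl

theorem Model_p {V : Type} {G : Gr V} (v : V) : ∃ S : HS (Model_X G) →L[ℂ] HS (Model_X G),
    (∀ ξ : Model_X G, G.s (ξ.1 0) = v → S (bas ξ) = bas ξ) ∧
    (∀ ξ : Model_X G, G.s (ξ.1 0) ≠ v → S (bas ξ) = 0) ∧
    star S = S := by
  obtain ⟨S, h1, h2, h3, h4⟩ := exists_op {ξ : Model_X G | G.s (ξ.1 0) = v}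
    (fun ξ => ξ.1) Subtype.val_injective
  refine ⟨S, h1, h2, ?_⟩
  apply hs_ext
  intro ξ
  by_cases h : G.s (ξ.1 0) = v
  · rw [h1 ξ h]
    exact h3 ⟨ξ, h⟩
  · rw [h2 ξ h]
    apply h4
    rintro ⟨ξ', rfl⟩
    exact h ξ'.2

theorem exists_CK {V : Type} [Fintype V] [DecidableEq V] {G : Gr V} (hG : Full G) :
    ∃ (B₀ : Type) (_ : CStarAlgebra B₀) (p : V → B₀) (F₀ : Fam G p), IsPrj p ∧ F₀.lam 1 = 1 ∧
      (∀ v, p v ≠ 0) ∧ ∀ v, ∃ ω : B₀ →ₗ[ℂ] ℂ, ω (p v) = 1 := by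
  choose S hS1 hS2 hS3 hS4 using Model_S (G := G)
  choose p hp1 hp2 hp3 using Model_p (G := G)
  have hp0 : ∀ v, p v ≠ 0 := by
    intro v hv
    obtain ⟨x, -, -, hx, hx', -, -⟩ := hG.1 v
    let ξ : Model_X G := ⟨fun _ => x, fun _ => hx'.trans hx.symm⟩
    have h1 := hp1 v ξ hx
    rw [hv, ContinuousLinearMap.zero_apply] at h1
    exact bas_ne_zero ξ h1.symm
  refine ⟨HS (Model_X G) →L[ℂ] HS (Model_X G), inferInstance, p, ⟨S, ?_, ?_, ?_⟩, ⟨hp3, ?_, ?_⟩, ?_, hp0, ?_⟩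
  · intro e
    apply hs_ext
    intro ξ
    rw [ContinuousLinearMap.mul_apply]
    by_cases h : G.s (ξ.1 0) = G.r e
    · rw [hS1 e ξ h, hp1 _ ξ h, hS3 e _ rfl, Model_shift_cons]
    · rw [hS2 e ξ h, hp2 _ ξ h, map_zero]
  · intro e f hef
    apply hs_ext
    intro ξ
    rw [ContinuousLinearMap.mul_apply, ContinuousLinearMap.zero_apply]
    by_cases h : G.s (ξ.1 0) = G.r f
    · rw [hS1 f ξ h, hS4 e _ (fun h' => hef h'.symm)]
    · rw [hS2 f ξ h, map_zero]
  · intro e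
    apply hs_ext
    intro ξ
    rw [ContinuousLinearMap.mul_apply]
    by_cases h : G.s (ξ.1 0) = G.r e
    · rw [hS1 e ξ h]
      exact hp1 _ _ rfl
    · rw [hS2 e ξ h, map_zero]
  · intro v
    apply hs_ext
    intro ξ
    rw [ContinuousLinearMap.mul_apply]
    by_cases h : G.s (ξ.1 0) = v
    · rw [hp1 v ξ h, hp1 v ξ h]
    · rw [hp2 v ξ h, map_zero]
  · intro v w hvw
    apply hs_ext
    intro ξ
    rw [ContinuousLinearMap.mul_apply, ContinuousLinearMap.zero_apply]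
    by_cases h : G.s (ξ.1 0) = w
    · rw [hp1 w ξ h, hp2 v ξ fun h' => hvw (h'.symm.trans h)]
    · rw [hp2 w ξ h, map_zero]
  · apply hs_ext
    intro η
    unfold Fam.lam
    simp only [mul_one]
    rw [ContinuousLinearMap.sum_apply, Finset.sum_eq_single (η.1 0)]
    · rw [ContinuousLinearMap.mul_apply, hS3 _ η rfl, hS1 _ _ (η.2 0).symm, Model_cons_shift]
      rfl
    · intro e _ he
      rw [ContinuousLinearMap.mul_apply, hS4 e η (fun h => he h.symm), map_zero]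
    · intro h
      exact absurd (Finset.mem_univ _) h
  · intro v
    obtain ⟨f, hf⟩ := SeparatingDual.exists_eq_one (R := ℂ) (hp0 v)
    exact ⟨f.toLinearMap, hf⟩

end Pool.Agent.AUE
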