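import Pool.Agent.AUE.Tow1

/-!
# Tow3: the second step of the tower construction

NOTATION. `δ = π/(2N)`, `v0 = v`, `v1 = Λ^[N] v`. `star v1 * v1 = Λ^[N] g = g`, `v1 * g = v1`,
`p 0 * v1 = Λ^[N] (p 0 * v) = v1` (`Λ^[i] (p 0) = p i` for `i ≤ N`, `p N = p 0`), `star v0 * v1 = 0`.
For `1 ≤ i ≤ N` let `a i = Λ^[i] (v0 * star v0 + v1 * star v1)` (a projection, `p i * a i = a i`) and
`J i = Λ^[i] (v0 * star v1 - v1 * star v0)`. The `p i`, `1 ≤ i ≤ N` (`p N = p 0`) are orthogonal, so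
`R = ∑_{i=1}^{N} a i`, `J = ∑_{i=1}^{N} J i` satisfy `IsRot R J`. `κ = rotU R J δ`.
`R` and `J` commute with all `p i` (`i ≤ N`) and are orthogonal to `g`. So with `Λ'' = adE Λ κ`:
`Λ'' g = g`, `Λ'' (p i) = κ p (i+1) κ* = p (i+1)` (`IsRot.conj_eq`).
`u i = Λ^[i] (cos(i δ) v1 + sin(i δ) v0)` for `i ≤ N`: `u 0 = v1`, `u N = Λ^[N] v0 = v1 = u 0`
(extend `u` arbitrarily beyond `N`). `star (u i) * u i = Λ^[i] ((cos² + sin²) g) = g`,
`u i * g = u i`, `p i * u i = u i`.
`Λ (u i) = cos(i δ) x + sin(i δ) J x` with `x = Λ^[i+1] v1` (`J * x = J (i+1) * x =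
Λ^[i+1] (v0 star v1 v1) = Λ^[i+1] v0`, `R * x = x`), so by `IsRot.apply` `κ * Λ (u i) =
cos((i+1) δ) x + sin((i+1) δ) J x = u (i+1)`, and `Λ'' (u i) = κ Λ(u i) κ* = κ Λ(u i) g κ* =
u (i+1) g = u (i+1)` (`g * star κ = g`).
-/

namespace Pool.Agent.AUE

variable {A : Type} [Ring A] [StarRing A] [Algebra ℂ A] [StarModule ℂ A]

omit [StarModule ℂ A] in
theorem Tow3_iter (Λ : A →⋆ₐ[ℂ] A) (i : ℕ) : ∃ M : A →⋆ₐ[ℂ] A, ∀ x, M x = Λ^[i] x := by
  induction i with
  | zero => exact ⟨StarAlgHom.id ℂ A, fun x => rfl⟩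
  | succ i ih =>
    obtain ⟨M, hM⟩ := ih
    exact ⟨M.comp Λ, fun x => by rw [Function.iterate_succ_apply, ← hM]; rfl⟩

theorem tow_step2 (Λ : A →⋆ₐ[ℂ] A) {N : ℕ} (hN : 0 < N) {g : A} {p : ℕ → A} {v : A}
    (h : Step1 Λ N g p v) :
    ∃ κ : A, ∃ hκ : IsUni κ, Bd ((Real.pi / (2 * N)) ^ 2) (κ - 1) ∧
      ∃ u : ℕ → A, Step2 (adE Λ κ hκ) N g p u := by
  choose L hL using Tow3_iter Λ
  have hL0 : ∀ x, L 0 x = x := fun x => hL 0 x
  have hΛL : ∀ i x, Λ (L i x) = L (i + 1) x := by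
    intro i x
    rw [hL, hL, Function.iterate_succ_apply']
  have hLg : ∀ i, L i g = g := by
    intro i
    induction i with
    | zero => exact hL0 g
    | succ i ih => rw [← hΛL, ih, h.map_g]
  have hLp : ∀ i, i ≤ N → L i (p 0) = p i := by
    intro i
    induction i with
    | zero => intro _; exact hL0 _
    | succ i ih => intro hi; rw [← hΛL, ih (by omega), h.map_p i (by omega)]
  -- the two isometries
  obtain ⟨w, hw⟩ : ∃ w, w = Λ^[N] v := ⟨_, rfl⟩
  have hwL : w = L N v := by rw [hw, hL]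
  have hvv := h.v_v
  have hvg := h.v_g
  have hpv := h.p_v
  have hvw : star v * w = 0 := by rw [hw]; exact h.v_Lv
  have hwv : star w * v = 0 := by
    have := congrArg star hvw
    simpa using this
  have hww : star w * w = g := by
    rw [hwL, ← map_star, ← map_mul, hvv, hLg]
  have hwg : w * g = w := by
    rw [hwL]
    conv_lhs => rw [← hLg N]
    rw [← map_mul, hvg]
  have hpw : p 0 * w = w := by
    have h1 : L N (p 0 * v) = L N v := by rw [hpv]
    rw [map_mul, hLp N le_rfl, h.p_cyc, ← hwL] at h1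
    exact h1
  have hgs : star g = g := h.g_pr.1
  have hgv : g * star v = star v := by
    have := congrArg star hvg
    rwa [star_mul, hgs] at this
  have hgw : g * star w = star w := by
    have := congrArg star hwg
    rwa [star_mul, hgs] at this
  have hps : star (p 0) = p 0 := (h.p_pr 0).1
  have hvp : star v * p 0 = star v := by
    have := congrArg star hpv
    rwa [star_mul, hps] at this
  have hwp : star w * p 0 = star w := by
    have := congrArg star hpw
    rwa [star_mul, hps] at this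
  have hgp : g * p 0 = 0 := h.g_p 0 hN
  have hpg : p 0 * g = 0 := by
    have := congrArg star hgp
    rwa [star_mul, hgs, hps, star_zero] at this
  -- a and j
  obtain ⟨a, ha⟩ : ∃ a, a = v * star v + w * star w := ⟨_, rfl⟩
  obtain ⟨j, hj⟩ : ∃ j, j = v * star w - w * star v := ⟨_, rfl⟩
  have hav : a * v = v := by
    rw [ha, add_mul, mul_assoc, mul_assoc, hvv, hwv, hvg, mul_zero, add_zero]
  have haw : a * w = w := by
    rw [ha, add_mul, mul_assoc, mul_assoc, hvw, hww, hwg, mul_zero, zero_add]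
  have hjv : j * v = -w := by
    rw [hj, sub_mul, mul_assoc, mul_assoc, hvv, hwv, hwg, mul_zero, zero_sub]
  have hjw : j * w = v := by
    rw [hj, sub_mul, mul_assoc, mul_assoc, hvw, hww, hvg, mul_zero, sub_zero]
  have has : star a = a := by rw [ha]; simp
  have hjs : star j = -j := by rw [hj]; simp
  have haa : a * a = a := by
    conv_lhs => rw [ha]
    have h1 : (v * star v + w * star w) = a := ha.symm
    rw [h1]
    conv_lhs =>
      rhs
      rw [ha]
    rw [mul_add, ← mul_assoc, ← mul_assoc, hav, haw, ← ha]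
  have haj : a * j = j := by
    conv_lhs =>
      rhs
      rw [hj]
    rw [mul_sub, ← mul_assoc, ← mul_assoc, hav, haw, ← hj]
  have hjj : j * j = -a := by
    conv_lhs =>
      rhs
      rw [hj]
    rw [mul_sub, ← mul_assoc, ← mul_assoc, hjv, hjw, ha]
    noncomm_ring
  have hja : j * a = j := by
    conv_lhs =>
      rhs
      rw [ha]
    rw [mul_add, ← mul_assoc, ← mul_assoc, hjv, hjw, hj]
    noncomm_ring
  have hpa : p 0 * a = a := by
    rw [ha, mul_add, ← mul_assoc, ← mul_assoc, hpv, hpw]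
  have hap : a * p 0 = a := by
    rw [ha, add_mul, mul_assoc, mul_assoc, hvp, hwp]
  have hpj : p 0 * j = j := by
    rw [hj, mul_sub, ← mul_assoc, ← mul_assoc, hpv, hpw]
  have hjp : j * p 0 = j := by
    rw [hj, sub_mul, mul_assoc, mul_assoc, hvp, hwp]
  -- orthogonality of the translates
  have horth : ∀ i < N, ∀ k < N, i ≠ k → p (i + 1) * p (k + 1) = 0 := by
    intro i hi k hk hik
    rw [← h.map_p i hi, ← h.map_p k hk, ← map_mul, h.p_p i hi k hk hik, map_zero]
  have hcross : ∀ x y : A, x * p 0 = x → p 0 * y = y → ∀ i < N, ∀ k < N, i ≠ k →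
      L (i + 1) x * L (k + 1) y = 0 := by
    intro x y hx hy i hi k hk hik
    rw [← hx, ← hy, map_mul, map_mul, hLp (i + 1) (by omega), hLp (k + 1) (by omega)]
    have : L (i + 1) x * p (i + 1) * (p (k + 1) * L (k + 1) y) =
        L (i + 1) x * (p (i + 1) * p (k + 1)) * L (k + 1) y := by noncomm_ring
    rw [this, horth i hi k hk hik, mul_zero, zero_mul]
  have hsing : ∀ x y : A, x * p 0 = x → p 0 * y = y → ∀ i < N,
      (∑ k ∈ Finset.range N, L (k + 1) x) * L (i + 1) y = L (i + 1) (x * y) := by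
    intro x y hx hy i hi
    rw [Finset.sum_mul, Finset.sum_eq_single i]
    · rw [map_mul]
    · intro k hk hki
      exact hcross x y hx hy k (Finset.mem_range.mp hk) i hi hki
    · intro hh
      exact absurd (Finset.mem_range.mpr hi) hh
  have hsing' : ∀ x y : A, x * p 0 = x → p 0 * y = y → ∀ i < N,
      L (i + 1) x * (∑ k ∈ Finset.range N, L (k + 1) y) = L (i + 1) (x * y) := by
    intro x y hx hy i hi
    rw [Finset.mul_sum, Finset.sum_eq_single i]
    · rw [map_mul]
    · intro k hk hki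
      exact hcross x y hx hy i hi k (Finset.mem_range.mp hk) (Ne.symm hki)
    · intro hh
      exact absurd (Finset.mem_range.mpr hi) hh
  have hsum : ∀ x y : A, x * p 0 = x → p 0 * y = y →
      (∑ k ∈ Finset.range N, L (k + 1) x) * (∑ k ∈ Finset.range N, L (k + 1) y) =
        ∑ k ∈ Finset.range N, L (k + 1) (x * y) := by
    intro x y hx hy
    rw [Finset.mul_sum]
    exact Finset.sum_congr rfl fun i hi => hsing x y hx hy i (Finset.mem_range.mp hi)
  obtain ⟨R, hR⟩ : ∃ R, R = ∑ k ∈ Finset.range N, L (k + 1) a := ⟨_, rfl⟩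
  obtain ⟨J, hJ⟩ : ∃ J, J = ∑ k ∈ Finset.range N, L (k + 1) j := ⟨_, rfl⟩
  have hrot : IsRot R J := by
    refine ⟨⟨?_, ?_⟩, ?_, ?_, ?_, ?_⟩
    · rw [hR, star_sum]
      exact Finset.sum_congr rfl fun i _ => by rw [← map_star, has]
    · rw [hR, hsum a a hap hpa, haa]
    · rw [hJ, star_sum, ← Finset.sum_neg_distrib]
      exact Finset.sum_congr rfl fun i _ => by rw [← map_star, hjs, map_neg]
    · rw [hJ, hR, hsum j j hjp hpj, hjj, ← Finset.sum_neg_distrib]
      exact Finset.sum_congr rfl fun i _ => by rw [map_neg]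
    · rw [hR, hJ, hsum a j hap hpj, haj]
    · rw [hR, hJ, hsum j a hjp hpa, hja]
  have hxg : ∀ x : A, x * p 0 = x → (∑ k ∈ Finset.range N, L (k + 1) x) * g = 0 := by
    intro x hx
    rw [Finset.sum_mul]
    refine Finset.sum_eq_zero fun i _ => ?_
    conv_lhs => rw [← hLg (i + 1)]
    rw [← map_mul, ← hx, mul_assoc, hpg, mul_zero, map_zero]
  have hgx : ∀ x : A, p 0 * x = x → g * (∑ k ∈ Finset.range N, L (k + 1) x) = 0 := by
    intro x hx
    rw [Finset.mul_sum]
    refine Finset.sum_eq_zero fun i _ => ?_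
    conv_lhs => rw [← hLg (i + 1)]
    rw [← map_mul, ← hx, ← mul_assoc, hgp, zero_mul, map_zero]
  have hRg : R * g = 0 := by rw [hR]; exact hxg a hap
  have hgR : g * R = 0 := by rw [hR]; exact hgx a hpa
  have hJg : J * g = 0 := by rw [hJ]; exact hxg j hjp
  have hgJ : g * J = 0 := by rw [hJ]; exact hgx j hpj
  obtain ⟨δ, hδ⟩ : ∃ δ : ℝ, δ = Real.pi / (2 * N) := ⟨_, rfl⟩
  have hNδ : (N : ℝ) * δ = Real.pi / 2 := by
    have : (N : ℝ) ≠ 0 := by exact_mod_cast hN.ne'
    rw [hδ]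
    field_simp
  obtain ⟨κ, hκd⟩ : ∃ κ, κ = rotU R J δ := ⟨_, rfl⟩
  have hκ : IsUni κ := by rw [hκd]; exact hrot.isUni δ
  have hκg : κ * g = g := by
    rw [hκd, rotU, add_mul, add_mul, smul_mul_assoc, smul_mul_assoc, hRg, hJg]
    simp
  have hgκ : g * star κ = g := by
    have := congrArg star hκg
    rwa [star_mul, hgs] at this
  refine ⟨κ, hκ, ?_, fun i => L i (((Real.cos (i * δ) : ℝ) : ℂ) • w + ((Real.sin (i * δ) : ℝ) : ℂ) • v), ?_⟩
  · rw [hκd, ← hδ]
    exact hrot.bd δ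
  · have hwi : ∀ θ : ℝ, star (((Real.cos θ : ℝ) : ℂ) • w + ((Real.sin θ : ℝ) : ℂ) • v) *
        (((Real.cos θ : ℝ) : ℂ) • w + ((Real.sin θ : ℝ) : ℂ) • v) = g := by
      intro θ
      have h1 : (((Real.cos θ : ℝ) : ℂ) * ((Real.cos θ : ℝ) : ℂ) + ((Real.sin θ : ℝ) : ℂ) * ((Real.sin θ : ℝ) : ℂ)) = 1 := by
        rw [← Complex.ofReal_mul, ← Complex.ofReal_mul, ← Complex.ofReal_add]
        have := Real.cos_sq_add_sin_sq θ
        rw [← Complex.ofReal_one]
        congr 1
        nlinarith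
      rw [star_add, star_smul, star_smul, Complex.star_def, Complex.conj_ofReal,
        Complex.conj_ofReal, add_mul, mul_add, mul_add, smul_mul_smul_comm, smul_mul_smul_comm,
        smul_mul_smul_comm, smul_mul_smul_comm, hww, hvv, hwv, hvw, smul_zero, smul_zero, add_zero,
        zero_add, ← add_smul, h1, one_smul]
    have hug : ∀ i : ℕ, L i (((Real.cos (i * δ) : ℝ) : ℂ) • w + ((Real.sin (i * δ) : ℝ) : ℂ) • v) * g =
        L i (((Real.cos (i * δ) : ℝ) : ℂ) • w + ((Real.sin (i * δ) : ℝ) : ℂ) • v) := by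
      intro i
      conv_lhs =>
        rhs
        rw [← hLg i]
      rw [← map_mul, add_mul, smul_mul_assoc, smul_mul_assoc, hwg, hvg]
    refine ⟨h.g_pr, h.p_pr, h.p_cyc, ?_, ?_, h.g_p, h.p_p, h.sum, ?_, ?_, ?_, ?_, ?_⟩
    · rw [adE_apply, h.map_g, hκd]
      exact hrot.conj_eq δ (by rw [hRg, hgR]) (by rw [hJg, hgJ])
    · intro i hi
      rw [adE_apply, h.map_p i hi, hκd]
      have hp00 : p 0 * p 0 = p 0 := (h.p_pr 0).2
      apply hrot.conj_eq δ
      · rw [← hLp (i + 1) (by omega), hR, hsing a (p 0) hap hp00 i hi, hsing' (p 0) a hp00 hpa i hi, hap, hpa]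
      · rw [← hLp (i + 1) (by omega), hJ, hsing j (p 0) hjp hp00 i hi, hsing' (p 0) j hp00 hpj i hi, hjp, hpj]
    · intro i _
      rw [← map_star, ← map_mul, hwi, hLg]
    · intro i _
      exact hug i
    · intro i hi
      conv_lhs =>
        lhs
        rw [← hLp i hi]
      rw [← map_mul, mul_add, mul_smul_comm, mul_smul_comm, hpw, hpv]
    · show L N _ = L 0 _
      rw [hNδ, Real.cos_pi_div_two, Real.sin_pi_div_two, hL0]
      simp [← hwL]
    · intro i hi
      have hx1 : J * L (i + 1) w = L (i + 1) v := by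
        rw [hJ, hsing j w hjp hpw i hi, hjw]
      have hx2 : R * L (i + 1) w = L (i + 1) w := by
        rw [hR, hsing a w hap hpw i hi, haw]
      have h1 := hrot.apply hx2 δ (i * δ)
      rw [hx1, ← hκd] at h1
      have h2 : κ * L (i + 1) (((Real.cos (i * δ) : ℝ) : ℂ) • w + ((Real.sin (i * δ) : ℝ) : ℂ) • v) =
          L (i + 1) (((Real.cos ((i + 1 : ℕ) * δ) : ℝ) : ℂ) • w + ((Real.sin ((i + 1 : ℕ) * δ) : ℝ) : ℂ) • v) := by
        have e : ((i + 1 : ℕ) : ℝ) * δ = i * δ + δ := by push_cast; ring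
        rw [e, map_add, map_add, map_smul, map_smul, map_smul, map_smul]
        exact h1
      show adE Λ κ hκ (L i _) = _
      rw [adE_apply, hΛL, h2]
      conv_lhs =>
        lhs
        rw [← hug (i + 1)]
      rw [mul_assoc, hgκ, hug (i + 1)]

end Pool.Agent.AUE
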