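import Pool.Agent.AUE.Tow1

/-!
# Tow4: the third step of the tower construction

NOTATION. `ω = exp(2πi/N)`, `ω' = exp(2πi/(N+1))`. `G 0 = g`, `G j = (1/√N) ∑_{i<N} ω^{-i(j-1)} u i`
for `1 ≤ j ≤ N`. The elements `g, u 0, …, u (N-1)` satisfy `star (u i) * u l = δ g`,
`star g * u i = 0` (`u i = p i u i`, `p i ⊥ p l`, `g ⊥ p i`), so `star (G j) * G l = δ_{jl} g`
(roots of unity), `G j * g = G j`. `Λ (G 0) = G 0`; for `j ≥ 1` `Λ (G j) = (1/√N) ∑_{i<N}
ω^{-i(j-1)} u (i+1) = ω^{j-1} G j` (`u N = u 0`). Put `η 0 = 1`, `η j = ω^{j-1}`, `θ j = ω'^j / η j`,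
`|θ j| = 1`.
`κ = 1 + ∑_{j≤N} (θ j - 1) • G j * star (G j)` is unitary (the `G j G j*` are orthogonal projections),
`κ * G j = θ j G j`. `star (κ-1) * (κ-1) = ∑ |θ j - 1|² G j G j*`; `θ 0 = 1` and for `j ≥ 1`
`θ j = exp(2πi (j/(N+1) - (j-1)/N))`, `0 ≤ j/(N+1) - (j-1)/N = (N+1-j)/(N(N+1)) ≤ 1/(N+1)`, so
`|θ j - 1| ≤ 2π/(N+1)`; use `bd_of_sum`.
`b l = (1/√(N+1)) ∑_{j≤N} ω'^{jl} G j`: `star (b l) * b m = δ_{lm} g` for `l, m ≤ N`,
`b (N+1) = b 0`, `κ * Λ (b l) = (1/√(N+1)) ∑ ω'^{jl} η j θ j G j = b (l+1)`.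
`q' l = b l * star (b l)`, `q i = p i - u i * star (u i)` for `i < N` (and `q i := q (i % N)`,
`q' l := q' (l % (N+1))` in general).
`adE Λ κ (q' l) = κ Λ(b l) Λ(b l)* κ* = q' (l+1)`. `Λ (q i) = q (i+1)`, and `q i * G j = 0`
(`p i g = 0`, `star (u i) g = 0`, `(p i - u i u i*) u l = 0`), so `κ q (i+1) κ* = q (i+1)`.
`∑_l q' l = ∑_j G j G j* = g + ∑_{i<N} u i u i*` (roots of unity), so the total sum is
`∑ p i + g = 1`. Orthogonality: `q i b l = 0`.
-/

namespace Pool.Agent.AUE

open Finset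

variable {A : Type} [Ring A] [StarRing A] [Algebra ℂ A] [StarModule ℂ A]

/-- the root of unity `exp (2πi/n)` -/
noncomputable def Tow4_z (n : ℕ) : ℂ := Complex.exp (2 * Real.pi * Complex.I / n)

/-- the entries of the Fourier matrix -/
noncomputable def Tow4_c (n a j : ℕ) : ℂ := ((1 / Real.sqrt n : ℝ) : ℂ) * Tow4_z n ^ (j * a)

theorem Tow4_prim {n : ℕ} (hn : 0 < n) : IsPrimitiveRoot (Tow4_z n) n :=
  Complex.isPrimitiveRoot_exp n hn.ne'

theorem Tow4_star_z {n : ℕ} (hn : 0 < n) : star (Tow4_z n) * Tow4_z n = 1 := by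
  have h1 : ‖Tow4_z n‖ = 1 := (Tow4_prim hn).norm'_eq_one hn.ne'
  have h2 := Complex.conj_mul' (Tow4_z n)
  rw [h1] at h2
  simpa using h2

theorem Tow4_cc {n : ℕ} (a b j : ℕ) (hn : 0 < n) : star (Tow4_c n a j) * Tow4_c n b j =
    (1 / n : ℂ) * (star (Tow4_z n) ^ a * Tow4_z n ^ b) ^ j := by
  have hn' : (0 : ℝ) < n := Nat.cast_pos.2 hn
  have h1 : ((1 / Real.sqrt n : ℝ) : ℂ) * ((1 / Real.sqrt n : ℝ) : ℂ) = (1 / n : ℂ) := by
    rw [← Complex.ofReal_mul, div_mul_div_comm, one_mul, Real.mul_self_sqrt hn'.le]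
    push_cast
    rfl
  have h2 : star (((1 / Real.sqrt n : ℝ) : ℂ)) = ((1 / Real.sqrt n : ℝ) : ℂ) := Complex.conj_ofReal _
  unfold Tow4_c
  rw [star_mul', h2, star_pow, mul_pow, ← pow_mul, ← pow_mul, mul_comm a j, mul_comm b j, ← h1]
  ring

theorem Tow4_dft {n : ℕ} (hn : 0 < n) {a b : ℕ} (ha : a < n) (hb : b < n) :
    ∑ j ∈ range n, star (Tow4_c n a j) * Tow4_c n b j = if a = b then 1 else 0 := by
  have hn' : (n : ℂ) ≠ 0 := Nat.cast_ne_zero.2 hn.ne'
  rw [Finset.sum_congr rfl fun j _ => Tow4_cc a b j hn, ← Finset.mul_sum]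
  split_ifs with hab
  · subst hab
    rw [← mul_pow, Tow4_star_z hn, one_pow]
    simp [hn']
  · have hw : star (Tow4_z n) ^ a * Tow4_z n ^ b ≠ 1 := by
      intro h1
      apply hab
      have h2 : Tow4_z n ^ a * (star (Tow4_z n) ^ a * Tow4_z n ^ b) = Tow4_z n ^ b := by
        rw [← mul_assoc, ← mul_pow, mul_comm (Tow4_z n), Tow4_star_z hn, one_pow, one_mul]
      rw [h1, mul_one] at h2
      exact (Tow4_prim hn).pow_inj ha hb h2
    have h3 : (star (Tow4_z n) ^ a * Tow4_z n ^ b) ^ n = 1 := by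
      have h4 : Tow4_z n ^ n = 1 := (Tow4_prim hn).pow_eq_one
      have h5 : star (Tow4_z n) ^ n = 1 := by rw [← star_pow, h4, star_one]
      rw [mul_pow, ← pow_mul, ← pow_mul, mul_comm a n, mul_comm b n, pow_mul, pow_mul, h4, h5,
        one_pow, one_pow, one_mul]
    rw [geom_sum_eq hw, h3, sub_self, zero_div, mul_zero]

theorem Tow4_dft_self {n : ℕ} (hn : 0 < n) (a : ℕ) :
    ∑ j ∈ range n, star (Tow4_c n a j) * Tow4_c n a j = 1 := by
  have hn' : (n : ℂ) ≠ 0 := Nat.cast_ne_zero.2 hn.ne'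
  rw [Finset.sum_congr rfl fun j _ => Tow4_cc a a j hn, ← Finset.mul_sum, ← mul_pow,
    Tow4_star_z hn, one_pow]
  simp [hn']

theorem Tow4_symm (n a j : ℕ) : Tow4_c n a j = Tow4_c n j a := by
  unfold Tow4_c
  rw [mul_comm j a]

/-- orthonormal families (with values in `A`, source projection `g`) -/
def Tow4_Fr (g : A) (n : ℕ) (x : ℕ → A) : Prop :=
  (∀ i < n, x i * g = x i) ∧ ∀ i < n, ∀ j < n, star (x i) * x j = if i = j then g else 0

theorem Tow4_trans {g : A} {n : ℕ} {x : ℕ → A} (h : Tow4_Fr g n x) (M M' : ℕ → ℂ) :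
    star (∑ j ∈ range n, M j • x j) * ∑ j ∈ range n, M' j • x j =
      (∑ j ∈ range n, star (M j) * M' j) • g := by
  rw [star_sum, Finset.sum_mul_sum, Finset.sum_smul]
  refine Finset.sum_congr rfl fun j hj => ?_
  rw [Finset.sum_eq_single j]
  · rw [star_smul, smul_mul_smul_comm, h.2 j (mem_range.1 hj) j (mem_range.1 hj), if_pos rfl]
  · intro k hk hkj
    rw [star_smul, smul_mul_smul_comm, h.2 j (mem_range.1 hj) k (mem_range.1 hk),
      if_neg (Ne.symm hkj), smul_zero]
  · intro hh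
    exact absurd hj hh

theorem Tow4_trans2 {n m : ℕ} (x : ℕ → A) (M : ℕ → ℕ → ℂ)
    (hM : ∀ j < n, ∀ k < n, ∑ a ∈ range m, M a j * star (M a k) = if j = k then 1 else 0) :
    ∑ a ∈ range m, (∑ j ∈ range n, M a j • x j) * star (∑ k ∈ range n, M a k • x k) =
      ∑ j ∈ range n, x j * star (x j) := by
  have h1 : ∀ a ∈ range m, (∑ j ∈ range n, M a j • x j) * star (∑ k ∈ range n, M a k • x k) =
      ∑ j ∈ range n, ∑ k ∈ range n, (M a j * star (M a k)) • (x j * star (x k)) := by
    intro a _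
    rw [star_sum, Finset.sum_mul_sum]
    refine Finset.sum_congr rfl fun j _ => Finset.sum_congr rfl fun k _ => ?_
    rw [star_smul, smul_mul_smul_comm]
  rw [Finset.sum_congr rfl h1, Finset.sum_comm]
  refine Finset.sum_congr rfl fun j hj => ?_
  rw [Finset.sum_comm, Finset.sum_eq_single j]
  · rw [← Finset.sum_smul, hM j (mem_range.1 hj) j (mem_range.1 hj), if_pos rfl, one_smul]
  · intro k hk hkj
    rw [← Finset.sum_smul, hM j (mem_range.1 hj) k (mem_range.1 hk), if_neg (Ne.symm hkj), zero_smul]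
  · intro hh
    exact absurd hj hh

/-- `g, x 0, x 1, …` -/
def Tow4_cons (g : A) (x : ℕ → A) : ℕ → A
  | 0 => g
  | j + 1 => x j

theorem Tow4_cons_fr {g : A} (hg : IsPr g) {n : ℕ} {x : ℕ → A} (h : Tow4_Fr g n x)
    (hx : ∀ i < n, g * x i = 0) : Tow4_Fr g (n + 1) (Tow4_cons g x) := by
  have hx' : ∀ i < n, star (x i) * g = 0 := by
    intro i hi
    have h1 := congrArg star (hx i hi)
    rwa [star_mul, star_zero, hg.1] at h1
  refine ⟨?_, ?_⟩
  · intro i hi
    cases i with
    | zero => exact hg.2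
    | succ i => exact h.1 i (by omega)
  · intro i hi j hj
    cases i with
    | zero =>
      cases j with
      | zero =>
        show star g * g = _
        rw [if_pos rfl, hg.1, hg.2]
      | succ j =>
        show star g * x j = _
        rw [if_neg (by omega), hg.1, hx j (by omega)]
    | succ i =>
      cases j with
      | zero =>
        show star (x i) * g = _
        rw [if_neg (by omega), hx' i (by omega)]
      | succ j =>
        show star (x i) * x j = _
        rw [h.2 i (by omega) j (by omega)]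
        by_cases hij : i = j
        · rw [if_pos hij, if_pos (by omega)]
        · rw [if_neg hij, if_neg (by omega)]

/-- the diagonal unitary -/
noncomputable def Tow4_k (n : ℕ) (G : ℕ → A) (α : ℕ → ℂ) : A :=
  1 + ∑ j ∈ range n, α j • (G j * star (G j))

theorem Tow4_k_star (n : ℕ) (G : ℕ → A) (α : ℕ → ℂ) :
    star (Tow4_k n G α) = Tow4_k n G fun j => star (α j) := by
  unfold Tow4_k
  rw [star_add, star_one, star_sum]
  congr 1
  refine Finset.sum_congr rfl fun j _ => ?_
  rw [star_smul, star_mul, star_star]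

theorem Tow4_E {g : A} {n : ℕ} {G : ℕ → A} (h : Tow4_Fr g n G) {i j : ℕ} (hi : i < n) (hj : j < n) :
    G i * star (G i) * (G j * star (G j)) = if i = j then G i * star (G i) else 0 := by
  have e : G i * star (G i) * (G j * star (G j)) = G i * (star (G i) * G j) * star (G j) := by
    noncomm_ring
  rw [e, h.2 i hi j hj]
  split_ifs with hij
  · rw [h.1 i hi, hij]
  · rw [mul_zero, zero_mul]

theorem Tow4_E_sum {g : A} {n : ℕ} {G : ℕ → A} (h : Tow4_Fr g n G) (α β : ℕ → ℂ) :
    (∑ j ∈ range n, α j • (G j * star (G j))) * ∑ j ∈ range n, β j • (G j * star (G j)) =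
      ∑ j ∈ range n, (α j * β j) • (G j * star (G j)) := by
  rw [Finset.sum_mul_sum]
  refine Finset.sum_congr rfl fun j hj => ?_
  rw [Finset.sum_eq_single j]
  · rw [smul_mul_smul_comm, Tow4_E h (mem_range.1 hj) (mem_range.1 hj), if_pos rfl]
  · intro k hk hkj
    rw [smul_mul_smul_comm, Tow4_E h (mem_range.1 hj) (mem_range.1 hk), if_neg (Ne.symm hkj),
      smul_zero]
  · intro hh
    exact absurd hj hh

theorem Tow4_k_mul {g : A} {n : ℕ} {G : ℕ → A} (h : Tow4_Fr g n G) (α β : ℕ → ℂ)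
    (hab : ∀ j < n, α j + β j + α j * β j = 0) : Tow4_k n G α * Tow4_k n G β = 1 := by
  unfold Tow4_k
  rw [add_mul, mul_add, mul_add, one_mul, one_mul, mul_one, Tow4_E_sum h, add_assoc,
    ← Finset.sum_add_distrib, ← Finset.sum_add_distrib]
  have h1 : ∑ j ∈ range n, (β j • (G j * star (G j)) + (α j • (G j * star (G j)) +
      (α j * β j) • (G j * star (G j)))) = 0 := by
    refine Finset.sum_eq_zero fun j hj => ?_
    rw [← add_smul, ← add_smul]
    have h2 : β j + (α j + α j * β j) = 0 := by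
      rw [← hab j (mem_range.1 hj)]
      ring
    rw [h2, zero_smul]
  rw [h1, add_zero]

theorem Tow4_k_apply {g : A} {n : ℕ} {G : ℕ → A} (h : Tow4_Fr g n G) (α : ℕ → ℂ) {k : ℕ}
    (hk : k < n) : Tow4_k n G α * G k = (1 + α k) • G k := by
  unfold Tow4_k
  rw [add_mul, one_mul, Finset.sum_mul, add_smul, one_smul]
  congr 1
  rw [Finset.sum_eq_single k]
  · rw [smul_mul_assoc, mul_assoc, h.2 k hk k hk, if_pos rfl, h.1 k hk]
  · intro j hj hjk
    rw [smul_mul_assoc, mul_assoc, h.2 j (mem_range.1 hj) k hk, if_neg hjk, mul_zero, smul_zero]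
  · intro hh
    exact absurd (mem_range.2 hk) hh

theorem Tow4_k_fix {n : ℕ} {G : ℕ → A} {α : ℕ → ℂ} {x : A} (hx : ∀ j < n, star (G j) * x = 0) :
    Tow4_k n G α * x = x := by
  unfold Tow4_k
  rw [add_mul, one_mul, Finset.sum_mul, Finset.sum_eq_zero, add_zero]
  intro j hj
  rw [smul_mul_assoc, mul_assoc, hx j (mem_range.1 hj), mul_zero, smul_zero]

/-- the eigenvalues of `Λ` -/
noncomputable def Tow4_eta (N : ℕ) : ℕ → ℂ
  | 0 => 1
  | j + 1 => Tow4_z N ^ j

/-- the eigenvalues of `κ` -/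
noncomputable def Tow4_th (N j : ℕ) : ℂ := Tow4_z (N + 1) ^ j * star (Tow4_eta N j)

theorem Tow4_eta_star {N : ℕ} (hN : 0 < N) (j : ℕ) : star (Tow4_eta N j) * Tow4_eta N j = 1 := by
  cases j with
  | zero => simp [Tow4_eta]
  | succ j =>
    show star (Tow4_z N ^ j) * Tow4_z N ^ j = 1
    rw [star_pow, ← mul_pow, Tow4_star_z hN, one_pow]

theorem Tow4_th_star {N : ℕ} (hN : 0 < N) (j : ℕ) : star (Tow4_th N j) * Tow4_th N j = 1 := by
  unfold Tow4_th
  have h1 := Tow4_eta_star hN j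
  have h2 : star (Tow4_z (N + 1) ^ j) * Tow4_z (N + 1) ^ j = 1 := by
    rw [star_pow, ← mul_pow, Tow4_star_z (Nat.succ_pos N), one_pow]
  rw [star_mul', star_star]
  calc _ = (star (Tow4_z (N + 1) ^ j) * Tow4_z (N + 1) ^ j) *
        (star (Tow4_eta N j) * Tow4_eta N j) := by ring
    _ = 1 := by rw [h1, h2, one_mul]

theorem Tow4_th_bd {N : ℕ} (hN : 0 < N) {j : ℕ} (hj : j < N + 1) :
    ‖Tow4_th N j - 1‖ ^ 2 ≤ (2 * Real.pi / (N + 1)) ^ 2 := by
  have hN' : (0 : ℝ) < N := Nat.cast_pos.2 hN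
  have hpi := Real.pi_pos
  refine pow_le_pow_left₀ (norm_nonneg _) ?_ 2
  cases j with
  | zero =>
    have : Tow4_th N 0 - 1 = 0 := by simp [Tow4_th, Tow4_eta]
    rw [this, norm_zero]
    positivity
  | succ j =>
    have hj' : (j : ℝ) + 1 ≤ N := by exact_mod_cast (by omega : j + 1 ≤ N)
    have h0 : (0 : ℝ) ≤ j := Nat.cast_nonneg j
    have h1 : Tow4_th N (j + 1) =
        Complex.exp (Complex.I * ((2 * Real.pi * (N - j) / (N * (N + 1)) : ℝ) : ℂ)) := by
      have e1 : star (Tow4_z N ^ j) = Complex.exp (-(j * (2 * Real.pi * Complex.I / N))) := by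
        have e2 : Tow4_z N ^ j = Complex.exp (j * (2 * Real.pi * Complex.I / N)) := by
          rw [Complex.exp_nat_mul]
          rfl
        rw [e2]
        show (starRingEnd ℂ) _ = _
        rw [← Complex.exp_conj]
        congr 1
        simp only [map_mul, map_div₀, Complex.conj_I, Complex.conj_ofReal, map_natCast, map_ofNat]
        ring
      have e3 : Tow4_z (N + 1) ^ (j + 1) =
          Complex.exp (((j + 1 : ℕ) : ℂ) * (2 * Real.pi * Complex.I / ((N + 1 : ℕ) : ℂ))) := by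
        rw [Complex.exp_nat_mul]
        rfl
      show Tow4_z (N + 1) ^ (j + 1) * star (Tow4_z N ^ j) = _
      rw [e1, e3, ← Complex.exp_add]
      congr 1
      have hNc : (N : ℂ) ≠ 0 := Nat.cast_ne_zero.2 hN.ne'
      have hNc1 : (N : ℂ) + 1 ≠ 0 := by exact_mod_cast Nat.succ_ne_zero N
      push_cast
      field_simp
      ring
    rw [h1]
    refine (Real.norm_exp_I_mul_ofReal_sub_one_le).trans ?_
    have h2 : (0 : ℝ) ≤ 2 * Real.pi * (N - j) / (N * (N + 1)) := by
      refine div_nonneg (mul_nonneg (by positivity) (by linarith)) (by positivity)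
    rw [Real.norm_of_nonneg h2, div_le_div_iff₀ (by positivity) (by positivity)]
    have h3 : (N : ℝ) - j ≤ N := by linarith
    calc 2 * Real.pi * (N - j) * (N + 1) ≤ 2 * Real.pi * N * (N + 1) := by gcongr
      _ = 2 * Real.pi * (N * (N + 1)) := by ring

theorem tow_step3 (Λ : A →⋆ₐ[ℂ] A) {N : ℕ} (hN : 0 < N) {g : A} {p u : ℕ → A}
    (h : Step2 Λ N g p u) :
    ∃ κ : A, ∃ hκ : IsUni κ, Bd ((2 * Real.pi / (N + 1)) ^ 2) (κ - 1) ∧
      ∃ q q' : ℕ → A, IsTow (adE Λ κ hκ) N q q' := by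
  have hg := h.g_pr
  have gu : ∀ i < N, g * u i = 0 := by
    intro i hi
    rw [← h.p_u i hi.le, ← mul_assoc, h.g_p i hi, zero_mul]
  have ug : ∀ i < N, star (u i) * g = 0 := by
    intro i hi
    have h1 := congrArg star (gu i hi)
    rwa [star_mul, star_zero, hg.1] at h1
  have pu : ∀ i < N, ∀ l < N, i ≠ l → p i * u l = 0 := by
    intro i hi l hl hil
    rw [← h.p_u l hl.le, ← mul_assoc, h.p_p i hi l hl hil, zero_mul]
  have up : ∀ i < N, ∀ l < N, i ≠ l → star (u l) * p i = 0 := by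
    intro i hi l hl hil
    have h1 := congrArg star (pu i hi l hl hil)
    rwa [star_mul, star_zero, (h.p_pr i).1] at h1
  have up' : ∀ i < N, star (u i) * p i = star (u i) := by
    intro i hi
    have h1 := congrArg star (h.p_u i hi.le)
    rwa [star_mul, (h.p_pr i).1] at h1
  have uu : ∀ i < N, ∀ l < N, i ≠ l → star (u i) * u l = 0 := by
    intro i hi l hl hil
    rw [← up' i hi, mul_assoc, pu i hi l hl hil, mul_zero]
  have pg : ∀ i < N, p i * g = 0 := by
    intro i hi
    have h1 := congrArg star (h.g_p i hi)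
    rwa [star_mul, star_zero, hg.1, (h.p_pr i).1] at h1
  have hu : Tow4_Fr g N u := by
    refine ⟨fun i hi => h.u_g i hi.le, fun i hi j hj => ?_⟩
    split_ifs with hij
    · rw [← hij]
      exact h.u_u i hi.le
    · exact uu i hi j hj hij
  -- the eigenvectors
  obtain ⟨G', hG'⟩ : ∃ G' : ℕ → A, G' = fun a => ∑ j ∈ range N, star (Tow4_c N a j) • u j := ⟨_, rfl⟩
  have hG'fr : Tow4_Fr g N G' := by
    refine ⟨fun i hi => ?_, fun i hi j hj => ?_⟩
    · rw [hG']
      show (∑ j ∈ range N, star (Tow4_c N i j) • u j) * g = ∑ j ∈ range N, star (Tow4_c N i j) • u j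
      rw [Finset.sum_mul]
      refine Finset.sum_congr rfl fun j hj => ?_
      rw [smul_mul_assoc, h.u_g j (mem_range.1 hj).le]
    · rw [hG']
      show star (∑ k ∈ range N, star (Tow4_c N i k) • u k) *
        (∑ k ∈ range N, star (Tow4_c N j k) • u k) = _
      rw [Tow4_trans hu]
      have e : ∑ k ∈ range N, star (star (Tow4_c N i k)) * star (Tow4_c N j k) =
          ∑ k ∈ range N, star (Tow4_c N j k) * Tow4_c N i k :=
        Finset.sum_congr rfl fun k _ => by rw [star_star, mul_comm]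
      rw [e, Tow4_dft hN hj hi]
      by_cases hij : i = j
      · rw [if_pos hij, if_pos hij.symm, one_smul]
      · rw [if_neg hij, if_neg (Ne.symm hij), zero_smul]
  have gG' : ∀ i < N, g * G' i = 0 := by
    intro i hi
    rw [hG']
    show g * (∑ j ∈ range N, star (Tow4_c N i j) • u j) = 0
    rw [Finset.mul_sum]
    refine Finset.sum_eq_zero fun j hj => ?_
    rw [mul_smul_comm, gu j (mem_range.1 hj), smul_zero]
  obtain ⟨G, hG⟩ : ∃ G : ℕ → A, G = Tow4_cons g G' := ⟨_, rfl⟩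
  have hGfr : Tow4_Fr g (N + 1) G := by
    rw [hG]
    exact Tow4_cons_fr hg hG'fr gG'
  have hG0 : G 0 = g := by rw [hG]; rfl
  have hG1 : ∀ j, G (j + 1) = ∑ i ∈ range N, star (Tow4_c N j i) • u i := by
    intro j
    rw [hG, hG']
    rfl
  have hGsum : ∑ j ∈ range (N + 1), G j * star (G j) = g + ∑ i ∈ range N, u i * star (u i) := by
    rw [Finset.sum_range_succ', hG0, hg.1, hg.2, add_comm]
    congr 1
    have e : ∀ j ∈ range N, G (j + 1) * star (G (j + 1)) =
        (∑ i ∈ range N, star (Tow4_c N j i) • u i) * star (∑ i ∈ range N, star (Tow4_c N j i) • u i) :=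
      fun j _ => by rw [hG1]
    rw [Finset.sum_congr rfl e]
    refine Tow4_trans2 u (fun j i => star (Tow4_c N j i)) fun j hj k hk => ?_
    have e2 : ∑ a ∈ range N, star (Tow4_c N a j) * star (star (Tow4_c N a k)) =
        ∑ a ∈ range N, star (Tow4_c N j a) * Tow4_c N k a :=
      Finset.sum_congr rfl fun a _ => by rw [star_star, Tow4_symm N a j, Tow4_symm N a k]
    rw [e2, Tow4_dft hN hj hk]
  have hΛG : ∀ j < N + 1, Λ (G j) = Tow4_eta N j • G j := by
    intro j hj
    cases j with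
    | zero =>
      rw [hG0, h.map_g]
      show g = (1 : ℂ) • g
      rw [one_smul]
    | succ j =>
      rw [hG1, map_sum, Finset.smul_sum]
      have e : ∀ i ∈ range N, Λ (star (Tow4_c N j i) • u i) =
          Tow4_eta N (j + 1) • (star (Tow4_c N j (i + 1)) • u (i + 1)) := by
        intro i hi
        rw [map_smul, h.map_u i (mem_range.1 hi), smul_smul]
        congr 1
        show star (Tow4_c N j i) = Tow4_z N ^ j * star (Tow4_c N j (i + 1))
        have h1 : Tow4_c N j (i + 1) = Tow4_c N j i * Tow4_z N ^ j := by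
          unfold Tow4_c
          rw [add_mul, one_mul, pow_add, mul_assoc]
        rw [h1, star_mul']
        have h2 : Tow4_z N ^ j * star (Tow4_z N ^ j) = 1 := by
          rw [star_pow, ← mul_pow, mul_comm, Tow4_star_z hN, one_pow]
        calc star (Tow4_c N j i) = star (Tow4_c N j i) * 1 := by rw [mul_one]
          _ = star (Tow4_c N j i) * (Tow4_z N ^ j * star (Tow4_z N ^ j)) := by rw [h2]
          _ = _ := by ring
      rw [Finset.sum_congr rfl e, ← Finset.smul_sum, ← Finset.smul_sum]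
      congr 1
      have h3 := Finset.sum_range_succ' (fun i => star (Tow4_c N j i) • u i) N
      have h4 := Finset.sum_range_succ (fun i => star (Tow4_c N j i) • u i) N
      have h5 : star (Tow4_c N j N) • u N = star (Tow4_c N j 0) • u 0 := by
        rw [h.u_cyc]
        congr 2
        unfold Tow4_c
        rw [pow_mul, (Tow4_prim hN).pow_eq_one, one_pow, zero_mul, pow_zero]
      rw [h3, h5] at h4
      exact add_right_cancel h4
  -- the unitary
  obtain ⟨α, hα⟩ : ∃ α : ℕ → ℂ, α = fun j => Tow4_th N j - 1 := ⟨_, rfl⟩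
  have hαk : ∀ j, star (α j) * α j = ((‖Tow4_th N j - 1‖ ^ 2 : ℝ) : ℂ) := by
    intro j
    rw [hα]
    have := Complex.conj_mul' (Tow4_th N j - 1)
    rw [Complex.ofReal_pow]
    exact this
  have hα1 : ∀ j, star (α j) + α j + star (α j) * α j = 0 := by
    intro j
    rw [hα]
    show star (Tow4_th N j - 1) + (Tow4_th N j - 1) + star (Tow4_th N j - 1) * (Tow4_th N j - 1) = 0
    rw [star_sub, star_one]
    have h1 := Tow4_th_star hN j
    calc _ = star (Tow4_th N j) * Tow4_th N j - 1 := by ring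
      _ = 0 := by rw [h1, sub_self]
  have hκ : IsUni (Tow4_k (N + 1) G α) := by
    refine ⟨?_, ?_⟩
    · rw [Tow4_k_star]
      exact Tow4_k_mul hGfr _ _ fun j _ => hα1 j
    · rw [Tow4_k_star]
      refine Tow4_k_mul hGfr _ _ fun j _ => ?_
      have := hα1 j
      rw [← this]
      ring
  have hκG : ∀ j < N + 1, Tow4_k (N + 1) G α * Λ (G j) = Tow4_z (N + 1) ^ j • G j := by
    intro j hj
    rw [hΛG j hj, mul_smul_comm, Tow4_k_apply hGfr α hj, smul_smul]
    congr 1
    rw [hα]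
    show Tow4_eta N j * (1 + (Tow4_th N j - 1)) = _
    unfold Tow4_th
    have h1 := Tow4_eta_star hN j
    calc _ = Tow4_z (N + 1) ^ j * (star (Tow4_eta N j) * Tow4_eta N j) := by ring
      _ = _ := by rw [h1, mul_one]
  refine ⟨Tow4_k (N + 1) G α, hκ, ?_, ?_⟩
  · refine bd_of_sum (range (N + 1)) (R := fun j => G j * star (G j)) (τ := fun j => ‖Tow4_th N j - 1‖ ^ 2)
      ?_ ?_ (by positivity) (fun j _ => by positivity) (fun j hj => Tow4_th_bd hN (mem_range.1 hj)) ?_
    · intro j hj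
      have hj' := mem_range.1 hj
      refine ⟨by rw [star_mul, star_star], ?_⟩
      rw [Tow4_E hGfr hj' hj', if_pos rfl]
    · intro i hi j hj hij
      show G i * star (G i) * (G j * star (G j)) = 0
      rw [Tow4_E hGfr (mem_range.1 hi) (mem_range.1 hj), if_neg hij]
    · have e1 : Tow4_k (N + 1) G α - 1 = ∑ j ∈ range (N + 1), α j • (G j * star (G j)) := by
        unfold Tow4_k
        rw [add_sub_cancel_left]
      have e2 : star (∑ j ∈ range (N + 1), α j • (G j * star (G j))) =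
          ∑ j ∈ range (N + 1), star (α j) • (G j * star (G j)) := by
        rw [star_sum]
        refine Finset.sum_congr rfl fun j _ => ?_
        rw [star_smul, star_mul, star_star]
      rw [e1, e2, Tow4_E_sum hGfr]
      refine Finset.sum_congr rfl fun j _ => ?_
      rw [hαk j]
  -- the towers
  obtain ⟨b, hb⟩ : ∃ b : ℕ → A, b = fun l => ∑ j ∈ range (N + 1), Tow4_c (N + 1) l j • G j := ⟨_, rfl⟩
  have hbl : ∀ l, b l = ∑ j ∈ range (N + 1), Tow4_c (N + 1) l j • G j := fun l => by rw [hb]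
  have hbg : ∀ l, b l * g = b l := by
    intro l
    rw [hbl, Finset.sum_mul]
    refine Finset.sum_congr rfl fun j hj => ?_
    rw [smul_mul_assoc, hGfr.1 j (mem_range.1 hj)]
  have hbb : ∀ l, star (b l) * b l = g := by
    intro l
    rw [hbl, Tow4_trans hGfr, Tow4_dft_self (Nat.succ_pos N), one_smul]
  have hbb' : ∀ l < N + 1, ∀ m < N + 1, l ≠ m → star (b l) * b m = 0 := by
    intro l hl m hm hlm
    rw [hbl, hbl, Tow4_trans hGfr, Tow4_dft (Nat.succ_pos N) hl hm, if_neg hlm, zero_smul]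
  have hbk : ∀ l, Tow4_k (N + 1) G α * Λ (b l) = b (l + 1) := by
    intro l
    rw [hbl, hbl, map_sum, Finset.mul_sum]
    refine Finset.sum_congr rfl fun j hj => ?_
    rw [map_smul, mul_smul_comm, hκG j (mem_range.1 hj), smul_smul]
    congr 1
    unfold Tow4_c
    rw [mul_add, mul_one, pow_add, mul_assoc]
  have hbc : b (N + 1) = b 0 := by
    rw [hbl, hbl]
    refine Finset.sum_congr rfl fun j hj => ?_
    congr 1
    unfold Tow4_c
    rw [mul_comm j (N + 1), pow_mul, (Tow4_prim (Nat.succ_pos N)).pow_eq_one, one_pow, mul_zero,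
      pow_zero]
  obtain ⟨Q, hQ⟩ : ∃ Q : ℕ → A, Q = fun i => p i - u i * star (u i) := ⟨_, rfl⟩
  have hQi : ∀ i, Q i = p i - u i * star (u i) := fun i => by rw [hQ]
  have hQs : ∀ i, star (Q i) = Q i := by
    intro i
    rw [hQi, star_sub, (h.p_pr i).1, star_mul, star_star]
  have hQp : ∀ i < N, IsPr (Q i) := by
    intro i hi
    refine ⟨hQs i, ?_⟩
    rw [hQi]
    have e : (p i - u i * star (u i)) * (p i - u i * star (u i)) =
        p i * p i - (p i * u i) * star (u i) - u i * (star (u i) * p i) +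
          u i * (star (u i) * u i) * star (u i) := by noncomm_ring
    rw [e, (h.p_pr i).2, h.p_u i hi.le, up' i hi, h.u_u i hi.le, h.u_g i hi.le]
    noncomm_ring
  have hQg : ∀ i < N, Q i * g = 0 := by
    intro i hi
    rw [hQi, sub_mul, pg i hi, mul_assoc, ug i hi, mul_zero, sub_zero]
  have hQu : ∀ i < N, ∀ l < N, Q i * u l = 0 := by
    intro i hi l hl
    rw [hQi, sub_mul, mul_assoc]
    by_cases hil : i = l
    · rw [← hil, h.p_u i hi.le, h.u_u i hi.le, h.u_g i hi.le, sub_self]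
    · rw [pu i hi l hl hil, uu i hi l hl hil, mul_zero, sub_zero]
  have hQG : ∀ i < N, ∀ j < N + 1, Q i * G j = 0 := by
    intro i hi j hj
    cases j with
    | zero => rw [hG0, hQg i hi]
    | succ j =>
      rw [hG1, Finset.mul_sum]
      refine Finset.sum_eq_zero fun l hl => ?_
      rw [mul_smul_comm, hQu i hi l (mem_range.1 hl), smul_zero]
  have hGQ : ∀ i < N, ∀ j < N + 1, star (G j) * Q i = 0 := by
    intro i hi j hj
    have h1 := congrArg star (hQG i hi j hj)
    rwa [star_mul, star_zero, hQs] at h1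
  have hQb : ∀ i < N, ∀ l, Q i * b l = 0 := by
    intro i hi l
    rw [hbl, Finset.mul_sum]
    refine Finset.sum_eq_zero fun j hj => ?_
    rw [mul_smul_comm, hQG i hi j (mem_range.1 hj), smul_zero]
  have hQN : Q N = Q 0 := by rw [hQi, hQi, h.p_cyc, h.u_cyc]
  have hmod : ∀ i < N, Q ((i + 1) % N) = Q (i + 1) := by
    intro i hi
    rcases Nat.lt_or_ge (i + 1) N with h1 | h1
    · rw [Nat.mod_eq_of_lt h1]
    · have h2 : i + 1 = N := by omega
      rw [h2, Nat.mod_self, hQN]
  refine ⟨fun i => Q (i % N), fun l => b l * star (b l), ?_⟩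
  refine ⟨fun i => hQp _ (Nat.mod_lt _ hN), fun l => ⟨by rw [star_mul, star_star], ?_⟩, ?_, ?_, ?_, ?_,
    ?_, ?_, ?_, ?_⟩
  · have e : b l * star (b l) * (b l * star (b l)) = b l * (star (b l) * b l) * star (b l) := by
      noncomm_ring
    rw [e, hbb, hbg]
  · show Q (N % N) = Q (0 % N)
    rw [Nat.mod_self, Nat.zero_mod]
  · show b (N + 1) * star (b (N + 1)) = b 0 * star (b 0)
    rw [hbc]
  · intro i hi
    rw [adE_apply]
    show Tow4_k (N + 1) G α * Λ (Q (i % N)) * star (Tow4_k (N + 1) G α) = Q ((i + 1) % N)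
    have e1 : Λ (Q (i % N)) = Q ((i + 1) % N) := by
      rw [Nat.mod_eq_of_lt hi, hmod i hi, hQi, hQi, map_sub, map_mul, map_star, h.map_p i hi,
        h.map_u i hi]
    have hlt : (i + 1) % N < N := Nat.mod_lt _ hN
    have e2 : Tow4_k (N + 1) G α * Q ((i + 1) % N) = Q ((i + 1) % N) :=
      Tow4_k_fix fun j hj => hGQ _ hlt j hj
    have e3 : Q ((i + 1) % N) * star (Tow4_k (N + 1) G α) = Q ((i + 1) % N) := by
      have h1 := congrArg star e2
      rwa [star_mul, hQs] at h1
    rw [e1, e2, e3]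
  · intro l hl
    rw [adE_apply, map_mul, map_star]
    show Tow4_k (N + 1) G α * (Λ (b l) * star (Λ (b l))) * star (Tow4_k (N + 1) G α) =
      b (l + 1) * star (b (l + 1))
    rw [← hbk l, star_mul]
    noncomm_ring
  · intro i hi j hj hij
    show Q (i % N) * Q (j % N) = 0
    rw [Nat.mod_eq_of_lt hi, Nat.mod_eq_of_lt hj, hQi j, mul_sub, ← mul_assoc, hQu i hi j hj, zero_mul,
      sub_zero, hQi, sub_mul, h.p_p i hi j hj hij, mul_assoc, up j hj i hi (Ne.symm hij), mul_zero,
      sub_zero]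
  · intro i hi j hj hij
    show b i * star (b i) * (b j * star (b j)) = 0
    have e : b i * star (b i) * (b j * star (b j)) = b i * (star (b i) * b j) * star (b j) := by
      noncomm_ring
    rw [e, hbb' i hi j hj hij, mul_zero, zero_mul]
  · intro i hi j hj
    show Q (i % N) * (b j * star (b j)) = 0
    rw [Nat.mod_eq_of_lt hi, ← mul_assoc, hQb i hi, zero_mul]
  · show ∑ i ∈ range N, Q (i % N) + ∑ l ∈ range (N + 1), b l * star (b l) = 1
    have e1 : ∑ i ∈ range N, Q (i % N) = ∑ i ∈ range N, p i - ∑ i ∈ range N, u i * star (u i) := by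
      rw [← Finset.sum_sub_distrib]
      refine Finset.sum_congr rfl fun i hi => ?_
      rw [Nat.mod_eq_of_lt (mem_range.1 hi), hQi]
    have e2 : ∑ l ∈ range (N + 1), b l * star (b l) = ∑ j ∈ range (N + 1), G j * star (G j) := by
      rw [hb]
      refine Tow4_trans2 G (fun l j => Tow4_c (N + 1) l j) fun j hj k hk => ?_
      have e3 : ∑ a ∈ range (N + 1), Tow4_c (N + 1) a j * star (Tow4_c (N + 1) a k) =
          ∑ a ∈ range (N + 1), star (Tow4_c (N + 1) k a) * Tow4_c (N + 1) j a :=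
        Finset.sum_congr rfl fun a _ => by
          rw [Tow4_symm (N + 1) a j, Tow4_symm (N + 1) a k, mul_comm]
      rw [e3, Tow4_dft (Nat.succ_pos N) hk hj]
      by_cases hjk : j = k
      · rw [if_pos hjk, if_pos hjk.symm]
      · rw [if_neg hjk, if_neg (Ne.symm hjk)]
    rw [e1, e2, hGsum, ← h.sum]
    abel

end Pool.Agent.AUE
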