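import Pool.Agent.AUE.Tow2
import Pool.Agent.AUE.Tow3
import Pool.Agent.AUE.Tow4

/-!
# Tow5: the abstract tower theorem
-/

namespace Pool.Agent.AUE

variable {A : Type} [Ring A] [StarRing A] [Algebra ℂ A] [StarModule ℂ A]

omit [StarModule ℂ A] in
theorem IsUni.mul {u v : A} (hu : IsUni u) (hv : IsUni v) : IsUni (u * v) := by
  constructor
  · calc star (u * v) * (u * v) = star v * (star u * u) * v := by rw [star_mul]; noncomm_ring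
      _ = 1 := by rw [hu.1, mul_one, hv.1]
  · calc (u * v) * star (u * v) = u * (v * star v) * star u := by rw [star_mul]; noncomm_ring
      _ = 1 := by rw [hv.2, mul_one, hu.2]

theorem adE_adE (Λ : A →⋆ₐ[ℂ] A) {κ κ' : A} (h : IsUni κ) (h' : IsUni κ') :
    adE (adE Λ κ h) κ' h' = adE Λ (κ' * κ) (h'.mul h) := by
  ext x
  simp only [adE_apply, star_mul]
  noncomm_ring

theorem towers_abstract (Λ : A →⋆ₐ[ℂ] A) {N : ℕ} (hN : 0 < N) {e0 : A} (h : MarkH Λ N e0) :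
    ∃ (κ₁ κ₂ κ₃ : A) (_ : IsUni κ₁) (_ : IsUni κ₂) (_ : IsUni κ₃) (hκ : IsUni (κ₃ * κ₂ * κ₁)),
      Bd ((Real.pi / (2 * N)) ^ 2) (κ₁ - 1) ∧ Bd ((Real.pi / (2 * N)) ^ 2) (κ₂ - 1) ∧
      Bd ((2 * Real.pi / (N + 1)) ^ 2) (κ₃ - 1) ∧
      ∃ q q' : ℕ → A, IsTow (adE Λ (κ₃ * κ₂ * κ₁) hκ) N q q' := by
  obtain ⟨κ₁, h1, b1, g, p, v, s1⟩ := tow_step1 Λ hN h
  obtain ⟨κ₂, h2, b2, u, s2⟩ := tow_step2 _ hN s1
  obtain ⟨κ₃, h3, b3, q, q', s3⟩ := tow_step3 _ hN s2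
  refine ⟨κ₁, κ₂, κ₃, h1, h2, h3, (h3.mul h2).mul h1, b1, b2, b3, q, q', ?_⟩
  rw [adE_adE, adE_adE] at s3
  simpa only [mul_assoc] using s3

end Pool.Agent.AUE
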