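import Pool.Agent.AUE.Trans
import Pool.Agent.AUE.MarkC
import Pool.Agent.AUE.Model
import Pool.Agent.AUE.Tow5

/-!
# TowB: towers in an arbitrary family

PROOF of `exists_towB`. Case `V` empty: then `G.Ed` is empty, `lam = 0`; take `L = 1`, `κ = 1`, `q = q' = 0`.
(Or treat it like the general case; `exists_CK` allows `V` empty.)
Let `F₀` be the Cuntz-Krieger family of `exists_CK hG`, `e0` from `exists_markH`, and
`κ₁ κ₂ κ₃ q q'` in `coreU` from `towers_abstract`, `y₁ y₂ y₃` the witnesses of `Bd`. By `core_mono` there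
is `L ≥ 1` such that all `κᵢ, yᵢ, q i (i ≤ N), q' i (i ≤ N+1)` lie in `core L`. (Replace `q i` by
`q (i % N)`… or by `0` for large `i`; in the statement the fields for all `i` can be obtained by defining
`q^B i = Φ_L (q (i % N))` and `q'^B i = Φ_L (q' (i % (N+1)))`; `q N = q 0`, `q' (N+1) = q' 0`.)
Let `Φ_n = tr n`, `1' = lam^[L+1] 1 = Φ_{L+1} 1` (`tr_one`), a projection (`1' = Φ(1)`).
`κ^B = Φ_{L+1} (κ₃ κ₂ κ₁) + (1 - 1')`: `x = Φ_{L+1}(κ₃κ₂κ₁)` satisfies `x* x = x x* = 1'`, `x 1' = 1' x = x`,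
so `κ^B` is unitary. `κ^B * lam (Φ_L (q i)) * star κ^B = κ^B Φ_{L+1} (lam₀ (q i)) κ^B* =
Φ_{L+1} (κ lam₀(q i) κ*) = Φ_{L+1} (q (i+1)) = Φ_L (q (i+1)) * 1'` (`tr_lam`, `tr_mul`, `tr_succ`).
`∑ Φ_L (q i) + ∑ Φ_L (q' i) = Φ_L 1 = lam^[L] 1`.
Norm: `κ^B - 1 = Φ (κ₃κ₂κ₁ - 1) = Φ(κ₃)Φ(κ₂)Φ(κ₁ - 1) + Φ(κ₃)Φ(κ₂ - 1) + Φ(κ₃ - 1)`,
`‖Φ(κᵢ)‖ ≤ 1` (`Φ(κᵢ)* Φ(κᵢ) = 1'`), and `Bd t x` with `x, y ∈ core L` gives
`Φ(x)* Φ(x) + Φ(y)* Φ(y) = t 1'`, so `0 ≤ Φ(x)* Φ(x) ≤ t 1' ≤ t`, `‖Φ x‖² ≤ t` (C*-order: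
`CStarAlgebra.norm_le_norm_of_nonneg_of_le`, `CStarAlgebra.spectralOrder`). Total
`≤ π/(2N) + π/(2N) + 2π/(N+1) ≤ 3π/N ≤ 10/N`.
-/

namespace Pool.Agent.AUE

/-- Towers of heights `N` and `N + 1` in the core of the family `F` at level `L`. -/
structure IsTowB {V : Type} {B : Type} [CStarAlgebra B] {P : V → B} {G : Gr V} (F : Fam G P)
    (N L : ℕ) (κ : B) (q q' : ℕ → B) : Prop where
  pos : 1 ≤ L
  κ_uni : star κ * κ = 1 ∧ κ * star κ = 1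
  κ_core : κ - (1 - F.lam^[L + 1] 1) ∈ F.core (L + 1)
  κ_norm : ‖κ - 1‖ ≤ 10 / N
  q_mem : ∀ i, q i ∈ F.core L
  q_mem' : ∀ i, q' i ∈ F.core L
  pr : ∀ i, star (q i) = q i ∧ q i * q i = q i
  pr' : ∀ i, star (q' i) = q' i ∧ q' i * q' i = q' i
  cyc : q N = q 0
  cyc' : q' (N + 1) = q' 0
  map : ∀ i < N, κ * F.lam (q i) * star κ = q (i + 1) * F.lam^[L + 1] 1
  map' : ∀ i < N + 1, κ * F.lam (q' i) * star κ = q' (i + 1) * F.lam^[L + 1] 1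
  orth : ∀ i < N, ∀ j < N, i ≠ j → q i * q j = 0
  orth' : ∀ i < N + 1, ∀ j < N + 1, i ≠ j → q' i * q' j = 0
  orth'' : ∀ i < N, ∀ j < N + 1, q i * q' j = 0
  sum : ∑ i ∈ Finset.range N, q i + ∑ j ∈ Finset.range (N + 1), q' j = F.lam^[L] 1

theorem towB_norm {V : Type} [Fintype V] {B : Type} [CStarAlgebra B] {P : V → B} {G : Gr V}
    (hP : IsPrj P) (F : Fam G P) {B₀ : Type} [CStarAlgebra B₀] {p : V → B₀} (hp : IsPrj p)
    (F₀ : Fam G p) (hω : ∀ v, ∃ ω : B₀ →ₗ[ℂ] ℂ, ω (p v) = 1) (hCK : F₀.lam 1 = 1) {n : ℕ}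
    (hn : 1 ≤ n) {x y : B₀} (hx : x ∈ F₀.core n) (hy : y ∈ F₀.core n) {t : ℝ} (ht : 0 ≤ t)
    (h : star x * x + star y * y = ((t ^ 2 : ℝ) : ℂ) • (1 : B₀)) : ‖tr hp F₀ hω hP F n x‖ ≤ t := by
  have h1 : (1 : B₀) ∈ F₀.core n := F₀.one_mem_core hp hCK n
  have e1 : star (tr hp F₀ hω hP F n x) * tr hp F₀ hω hP F n x +
      star (tr hp F₀ hω hP F n y) * tr hp F₀ hω hP F n y = ((t ^ 2 : ℝ) : ℂ) • tr hp F₀ hω hP F n 1 := by
    rw [← tr_star hp F₀ hω hP F hx, ← tr_star hp F₀ hω hP F hy,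
      ← tr_mul hp F₀ hω hP F (F₀.core_star hp hx) hx, ← tr_mul hp F₀ hω hP F (F₀.core_star hp hy) hy,
      ← map_add, h, map_smul]
  have e2 : star (tr hp F₀ hω hP F n 1) = tr hp F₀ hω hP F n 1 := by
    rw [← tr_star hp F₀ hω hP F h1, star_one]
  have e3 : tr hp F₀ hω hP F n 1 * tr hp F₀ hω hP F n 1 = tr hp F₀ hω hP F n 1 := by
    rw [← tr_mul hp F₀ hω hP F h1 h1, mul_one]
  have e4 : ‖tr hp F₀ hω hP F n 1‖ ≤ 1 := by
    have h2 : ‖star (tr hp F₀ hω hP F n 1) * tr hp F₀ hω hP F n 1‖ =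
        ‖tr hp F₀ hω hP F n 1‖ * ‖tr hp F₀ hω hP F n 1‖ := CStarRing.norm_star_mul_self
    rw [e2, e3] at h2
    by_contra hcon
    push Not at hcon
    nlinarith
  letI := CStarAlgebra.spectralOrder B
  haveI := CStarAlgebra.spectralOrderedRing B
  have e5 : ‖star (tr hp F₀ hω hP F n x) * tr hp F₀ hω hP F n x‖ ≤ t ^ 2 := by
    have h3 : ‖star (tr hp F₀ hω hP F n x) * tr hp F₀ hω hP F n x‖ ≤
        ‖((t ^ 2 : ℝ) : ℂ) • tr hp F₀ hω hP F n 1‖ := by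
      apply CStarAlgebra.norm_le_norm_of_nonneg_of_le (star_mul_self_nonneg _)
      rw [← e1]
      exact le_add_of_nonneg_right (star_mul_self_nonneg _)
    rw [norm_smul, Complex.norm_real, Real.norm_eq_abs, abs_of_nonneg (sq_nonneg t)] at h3
    nlinarith [sq_nonneg t]
  rw [CStarRing.norm_star_mul_self] at e5
  nlinarith [norm_nonneg (tr hp F₀ hω hP F n x)]

theorem exists_towB {V : Type} [Fintype V] [DecidableEq V] {B : Type} [CStarAlgebra B] {P : V → B}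
    {G : Gr V} (hG : Full G) (hP : IsPrj P) (F : Fam G P) {N : ℕ} (hN : 0 < N) :
    ∃ (L : ℕ) (κ : B) (q q' : ℕ → B), IsTowB F N L κ q q' := by
  classical
  obtain ⟨B₀, _, p, F₀, hp, hCK, -, hω⟩ := exists_CK hG
  obtain ⟨e0, he0⟩ := exists_markH F₀ hG hp hCK hN
  obtain ⟨κ₁, κ₂, κ₃, u1, u2, u3, hκ, ⟨y₁, b1⟩, ⟨y₂, b2⟩, ⟨y₃, b3⟩, q, q', hT⟩ :=
    towers_abstract (F₀.lamU hp hCK) hN he0
  have hlev : ∀ x : F₀.coreU hp hCK, ∃ n, (x : B₀) ∈ F₀.core n := fun x => x.2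
  choose lev hlev using hlev
  obtain ⟨L, hL⟩ : ∃ L, L = 1 + lev κ₁ + lev κ₂ + lev κ₃ + lev y₁ + lev y₂ + lev y₃ +
    ∑ i ∈ Finset.range (N + 1), lev (q i) + ∑ i ∈ Finset.range (N + 2), lev (q' i) := ⟨_, rfl⟩
  have hL1 : 1 ≤ L := by rw [hL]; omega
  have mem : ∀ x : F₀.coreU hp hCK, lev x ≤ L → (x : B₀) ∈ F₀.core L :=
    fun x hx => F₀.core_mono hp hCK hx (hlev x)
  have up : ∀ {x : B₀}, x ∈ F₀.core L → x ∈ F₀.core (L + 1) := fun hx => F₀.core_succ hp hCK hx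
  have mk1 := mem κ₁ (by rw [hL]; omega)
  have mk2 := mem κ₂ (by rw [hL]; omega)
  have mk3 := mem κ₃ (by rw [hL]; omega)
  have my1 := mem y₁ (by rw [hL]; omega)
  have my2 := mem y₂ (by rw [hL]; omega)
  have my3 := mem y₃ (by rw [hL]; omega)
  have mq : ∀ i ≤ N, (q i : B₀) ∈ F₀.core L := by
    intro i hi
    apply mem
    have h1 : lev (q i) ≤ ∑ i ∈ Finset.range (N + 1), lev (q i) :=
      Finset.single_le_sum (f := fun i => lev (q i)) (fun _ _ => Nat.zero_le _)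
        (Finset.mem_range.mpr (by omega))
    rw [hL]; omega
  have mq' : ∀ i ≤ N + 1, (q' i : B₀) ∈ F₀.core L := by
    intro i hi
    apply mem
    have h1 : lev (q' i) ≤ ∑ i ∈ Finset.range (N + 2), lev (q' i) :=
      Finset.single_le_sum (f := fun i => lev (q' i)) (fun _ _ => Nat.zero_le _)
        (Finset.mem_range.mpr (by omega))
    rw [hL]; omega
  have m1 : (1 : B₀) ∈ F₀.core L := F₀.one_mem_core hp hCK L
  -- the transfer maps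
  let Φ := tr hp F₀ hω hP F L
  let Ψ := tr hp F₀ hω hP F (L + 1)
  have Φmul : ∀ {x y : B₀}, x ∈ F₀.core L → y ∈ F₀.core L → Φ (x * y) = Φ x * Φ y :=
    fun hx hy => tr_mul hp F₀ hω hP F hx hy
  have Ψmul : ∀ {x y : B₀}, x ∈ F₀.core (L + 1) → y ∈ F₀.core (L + 1) → Ψ (x * y) = Ψ x * Ψ y :=
    fun hx hy => tr_mul hp F₀ hω hP F hx hy
  have Φstar : ∀ {x : B₀}, x ∈ F₀.core L → Φ (star x) = star (Φ x) :=
    fun hx => tr_star hp F₀ hω hP F hx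
  have Ψstar : ∀ {x : B₀}, x ∈ F₀.core (L + 1) → Ψ (star x) = star (Ψ x) :=
    fun hx => tr_star hp F₀ hω hP F hx
  have Ψone : Ψ 1 = F.lam^[L + 1] 1 := tr_one hp F₀ hω hP F hCK (by omega)
  have Φone : Φ 1 = F.lam^[L] 1 := tr_one hp F₀ hω hP F hCK hL1
  have ΨΦ : ∀ {x : B₀}, x ∈ F₀.core L → Ψ x = Φ x * F.lam^[L + 1] 1 :=
    fun hx => tr_succ hp F₀ hω hP F hCK hx
  have Ψlam : ∀ {x : B₀}, x ∈ F₀.core L → Ψ (F₀.lam x) = F.lam (Φ x) :=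
    fun hx => tr_lam hp F₀ hω hP F hx
  -- the unitary
  obtain ⟨K, hK⟩ : ∃ K : B₀, K = ((κ₃ * κ₂ * κ₁ : F₀.coreU hp hCK) : B₀) := ⟨_, rfl⟩
  have hK3 : K = (κ₃ : B₀) * κ₂ * κ₁ := by rw [hK]; rfl
  have hKm : K ∈ F₀.core (L + 1) := by
    rw [hK3]
    exact up (F₀.core_mul hp (F₀.core_mul hp mk3 mk2) mk1)
  have hK1 : star K * K = 1 := by
    rw [hK]
    exact congrArg Subtype.val hκ.1
  have hK2 : K * star K = 1 := by
    rw [hK]
    exact congrArg Subtype.val hκ.2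
  obtain ⟨e, he⟩ : ∃ e : B, e = F.lam^[L + 1] 1 := ⟨_, rfl⟩
  rw [← he] at Ψone ΨΦ
  have m1' := up m1
  have estar : star e = e := by rw [← Ψone, ← Ψstar m1', star_one]
  have ee : e * e = e := by rw [← Ψone, ← Ψmul m1' m1', mul_one]
  have Ψe : ∀ {x : B₀}, x ∈ F₀.core (L + 1) → Ψ x * e = Ψ x := by
    intro x hx
    rw [← Ψone, ← Ψmul hx m1', mul_one]
  have eΨ : ∀ {x : B₀}, x ∈ F₀.core (L + 1) → e * Ψ x = Ψ x := by
    intro x hx
    rw [← Ψone, ← Ψmul m1' hx, one_mul]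
  have hKs := F₀.core_star hp hKm
  have x1 : star (Ψ K) * Ψ K = e := by rw [← Ψstar hKm, ← Ψmul hKs hKm, hK1, Ψone]
  have x2 : Ψ K * star (Ψ K) = e := by rw [← Ψstar hKm, ← Ψmul hKm hKs, hK2, Ψone]
  have x3 : Ψ K * e = Ψ K := Ψe hKm
  have x4 : e * Ψ K = Ψ K := eΨ hKm
  have x5 : star (Ψ K) * e = star (Ψ K) := by rw [← Ψstar hKm]; exact Ψe hKs
  have x6 : e * star (Ψ K) = star (Ψ K) := by rw [← Ψstar hKm]; exact eΨ hKs
  have uni1 : star (Ψ K + (1 - e)) * (Ψ K + (1 - e)) = 1 := by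
    rw [star_add, star_sub, star_one, estar]
    calc (star (Ψ K) + (1 - e)) * (Ψ K + (1 - e))
        = star (Ψ K) * Ψ K + (star (Ψ K) - star (Ψ K) * e) + (Ψ K - e * Ψ K) + (1 - e - e + e * e) := by
          noncomm_ring
      _ = 1 := by rw [x1, x5, x4, ee]; abel
  have uni2 : (Ψ K + (1 - e)) * star (Ψ K + (1 - e)) = 1 := by
    rw [star_add, star_sub, star_one, estar]
    calc (Ψ K + (1 - e)) * (star (Ψ K) + (1 - e))
        = Ψ K * star (Ψ K) + (Ψ K - Ψ K * e) + (star (Ψ K) - e * star (Ψ K)) + (1 - e - e + e * e) := by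
          noncomm_ring
      _ = 1 := by rw [x2, x3, x6, ee]; abel
  have conj : ∀ {a : B₀}, a ∈ F₀.core (L + 1) →
      (Ψ K + (1 - e)) * Ψ a * star (Ψ K + (1 - e)) = Ψ (K * a * star K) := by
    intro a ha
    rw [star_add, star_sub, star_one, estar]
    calc (Ψ K + (1 - e)) * Ψ a * (star (Ψ K) + (1 - e))
        = (Ψ K * Ψ a + (Ψ a - e * Ψ a)) * star (Ψ K) + (Ψ K * (Ψ a - Ψ a * e) +
            ((Ψ a - e * Ψ a) - (Ψ a - e * Ψ a) * e)) := by noncomm_ring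
      _ = Ψ K * Ψ a * star (Ψ K) := by
          rw [eΨ ha, Ψe ha]
          simp
      _ = Ψ (K * a * star K) := by
          rw [← Ψstar hKm, ← Ψmul hKm ha, ← Ψmul (F₀.core_mul hp hKm ha) hKs]
  -- the norm
  have nrm : ‖(Ψ K + (1 - e)) - 1‖ ≤ 10 / N := by
    have hN' : (1 : ℝ) ≤ N := by exact_mod_cast hN
    have hNp : (0 : ℝ) < N := by linarith
    have hk : ∀ {x : B₀}, x ∈ F₀.core (L + 1) → star x * x = 1 → ‖Ψ x‖ ≤ 1 := by
      intro x hx h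
      refine towB_norm hP F hp F₀ hω hCK (by omega) hx (zero_mem _) zero_le_one ?_
      rw [h]
      simp
    have hbd : ∀ {x y : F₀.coreU hp hCK} {t : ℝ}, (x : B₀) ∈ F₀.core L → (y : B₀) ∈ F₀.core L →
        0 ≤ t → star (x - 1) * (x - 1) + star y * y = ((t ^ 2 : ℝ) : ℂ) • (1 : F₀.coreU hp hCK) →
        ‖Ψ ((x : B₀) - 1)‖ ≤ t := by
      intro x y t hx hy ht h
      refine towB_norm hP F hp F₀ hω hCK (by omega) (up (sub_mem hx m1)) (up hy) ht ?_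
      exact congrArg Subtype.val h
    have n1 : ‖Ψ ((κ₁ : B₀) - 1)‖ ≤ Real.pi / (2 * N) := hbd mk1 my1 (by positivity) b1
    have n2 : ‖Ψ ((κ₂ : B₀) - 1)‖ ≤ Real.pi / (2 * N) := hbd mk2 my2 (by positivity) b2
    have n3 : ‖Ψ ((κ₃ : B₀) - 1)‖ ≤ 2 * Real.pi / (N + 1) := hbd mk3 my3 (by positivity) b3
    have s2 : star (κ₂ : B₀) * κ₂ = 1 := congrArg Subtype.val u2.1
    have s3 : star (κ₃ : B₀) * κ₃ = 1 := congrArg Subtype.val u3.1
    have n4 : ‖Ψ (κ₂ : B₀)‖ ≤ 1 := hk (up mk2) s2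
    have n5 : ‖Ψ (κ₃ : B₀)‖ ≤ 1 := hk (up mk3) s3
    have d1 := up (sub_mem mk1 m1)
    have d2 := up (sub_mem mk2 m1)
    have hsum : (Ψ K + (1 - e)) - 1 = Ψ (κ₃ : B₀) * (Ψ (κ₂ : B₀) * Ψ ((κ₁ : B₀) - 1)) +
        Ψ (κ₃ : B₀) * Ψ ((κ₂ : B₀) - 1) + Ψ ((κ₃ : B₀) - 1) := by
      rw [← Ψmul (up mk2) d1, ← Ψmul (up mk3) (F₀.core_mul hp (up mk2) d1), ← Ψmul (up mk3) d2,
        ← map_add, ← map_add]
      have h3 : (κ₃ : B₀) * ((κ₂ : B₀) * ((κ₁ : B₀) - 1)) + (κ₃ : B₀) * ((κ₂ : B₀) - 1) +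
          ((κ₃ : B₀) - 1) = K - 1 := by
        rw [hK3]
        noncomm_ring
      rw [h3, map_sub, Ψone]
      abel
    rw [hsum]
    have t1 : ‖Ψ (κ₃ : B₀) * (Ψ (κ₂ : B₀) * Ψ ((κ₁ : B₀) - 1))‖ ≤ Real.pi / (2 * N) := by
      calc ‖Ψ (κ₃ : B₀) * (Ψ (κ₂ : B₀) * Ψ ((κ₁ : B₀) - 1))‖
          ≤ ‖Ψ (κ₃ : B₀)‖ * (‖Ψ (κ₂ : B₀)‖ * ‖Ψ ((κ₁ : B₀) - 1)‖) :=
            (norm_mul_le _ _).trans (mul_le_mul_of_nonneg_left (norm_mul_le _ _) (norm_nonneg _))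
        _ ≤ 1 * (1 * (Real.pi / (2 * N))) := by gcongr
        _ = _ := by ring
    have t2 : ‖Ψ (κ₃ : B₀) * Ψ ((κ₂ : B₀) - 1)‖ ≤ Real.pi / (2 * N) := by
      calc ‖Ψ (κ₃ : B₀) * Ψ ((κ₂ : B₀) - 1)‖
          ≤ ‖Ψ (κ₃ : B₀)‖ * ‖Ψ ((κ₂ : B₀) - 1)‖ := norm_mul_le _ _
        _ ≤ 1 * (Real.pi / (2 * N)) := by gcongr
        _ = _ := by ring
    have hpi := Real.pi_lt_d2
    have hpi0 := Real.pi_pos
    calc ‖Ψ (κ₃ : B₀) * (Ψ (κ₂ : B₀) * Ψ ((κ₁ : B₀) - 1)) + Ψ (κ₃ : B₀) * Ψ ((κ₂ : B₀) - 1) +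
          Ψ ((κ₃ : B₀) - 1)‖
        ≤ Real.pi / (2 * N) + Real.pi / (2 * N) + 2 * Real.pi / (N + 1) := by
          refine (norm_add_le _ _).trans (add_le_add ((norm_add_le _ _).trans (add_le_add t1 t2)) n3)
      _ ≤ Real.pi / (2 * N) + Real.pi / (2 * N) + 2 * Real.pi / N := by
          gcongr
          linarith
      _ = 3 * Real.pi / N := by field_simp; ring
      _ ≤ 10 / N := by
          gcongr
          linarith
  -- the towers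
  let qB : ℕ → B := fun i => if i ≤ N then Φ (q i) else 0
  let qB' : ℕ → B := fun i => if i ≤ N + 1 then Φ (q' i) else 0
  have hqB : ∀ i ≤ N, qB i = Φ (q i) := fun i hi => if_pos hi
  have hqB0 : ∀ i, ¬ i ≤ N → qB i = 0 := fun i hi => if_neg hi
  have hqB' : ∀ i ≤ N + 1, qB' i = Φ (q' i) := fun i hi => if_pos hi
  have hqB0' : ∀ i, ¬ i ≤ N + 1 → qB' i = 0 := fun i hi => if_neg hi
  refine ⟨L, Ψ K + (1 - e), qB, qB', ?_⟩
  refine
    { pos := hL1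
      κ_uni := ⟨uni1, uni2⟩
      κ_core := ?_
      κ_norm := nrm
      q_mem := ?_
      q_mem' := ?_
      pr := ?_
      pr' := ?_
      cyc := ?_
      cyc' := ?_
      map := ?_
      map' := ?_
      orth := ?_
      orth' := ?_
      orth'' := ?_
      sum := ?_ }
  · rw [← he, add_sub_cancel_right]
    exact tr_mem hp F₀ hω hP F hKm
  · intro i
    by_cases hi : i ≤ N
    · rw [hqB i hi]
      exact tr_mem hp F₀ hω hP F (mq i hi)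
    · rw [hqB0 i hi]
      exact zero_mem _
  · intro i
    by_cases hi : i ≤ N + 1
    · rw [hqB' i hi]
      exact tr_mem hp F₀ hω hP F (mq' i hi)
    · rw [hqB0' i hi]
      exact zero_mem _
  · intro i
    by_cases hi : i ≤ N
    · rw [hqB i hi]
      have h1 : star (q i : B₀) = q i := congrArg Subtype.val (hT.pr i).1
      have h2 : (q i : B₀) * q i = q i := congrArg Subtype.val (hT.pr i).2
      exact ⟨by rw [← Φstar (mq i hi), h1], by rw [← Φmul (mq i hi) (mq i hi), h2]⟩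
    · rw [hqB0 i hi]
      simp
  · intro i
    by_cases hi : i ≤ N + 1
    · rw [hqB' i hi]
      have h1 : star (q' i : B₀) = q' i := congrArg Subtype.val (hT.pr' i).1
      have h2 : (q' i : B₀) * q' i = q' i := congrArg Subtype.val (hT.pr' i).2
      exact ⟨by rw [← Φstar (mq' i hi), h1], by rw [← Φmul (mq' i hi) (mq' i hi), h2]⟩
    · rw [hqB0' i hi]
      simp
  · rw [hqB N le_rfl, hqB 0 (Nat.zero_le _), hT.cyc]
  · rw [hqB' (N + 1) le_rfl, hqB' 0 (Nat.zero_le _), hT.cyc']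
  · intro i hi
    have h1 : K * F₀.lam (q i : B₀) * star K = q (i + 1) := by
      rw [hK]
      exact congrArg Subtype.val (hT.map i hi)
    rw [hqB i hi.le, hqB (i + 1) hi, ← he, ← Ψlam (mq i hi.le), conj (F₀.lam_core hp (mq i hi.le)),
      h1, ΨΦ (mq (i + 1) hi)]
  · intro i hi
    have h1 : K * F₀.lam (q' i : B₀) * star K = q' (i + 1) := by
      rw [hK]
      exact congrArg Subtype.val (hT.map' i hi)
    rw [hqB' i hi.le, hqB' (i + 1) hi, ← he, ← Ψlam (mq' i hi.le), conj (F₀.lam_core hp (mq' i hi.le)),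
      h1, ΨΦ (mq' (i + 1) hi)]
  · intro i hi j hj hij
    have h1 : (q i : B₀) * q j = 0 := congrArg Subtype.val (hT.orth i hi j hj hij)
    rw [hqB i hi.le, hqB j hj.le, ← Φmul (mq i hi.le) (mq j hj.le), h1, map_zero]
  · intro i hi j hj hij
    have h1 : (q' i : B₀) * q' j = 0 := congrArg Subtype.val (hT.orth' i hi j hj hij)
    rw [hqB' i hi.le, hqB' j hj.le, ← Φmul (mq' i hi.le) (mq' j hj.le), h1, map_zero]
  · intro i hi j hj
    have h1 : (q i : B₀) * q' j = 0 := congrArg Subtype.val (hT.orth'' i hi j hj)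
    rw [hqB i hi.le, hqB' j hj.le, ← Φmul (mq i hi.le) (mq' j hj.le), h1, map_zero]
  · have h1 : ∑ i ∈ Finset.range N, (q i : B₀) + ∑ j ∈ Finset.range (N + 1), (q' j : B₀) = 1 := by
      have h2 := congrArg (Subtype.val) hT.sum
      simpa using h2
    rw [← Φone, ← h1, map_add, map_sum, map_sum]
    congr 1
    · exact Finset.sum_congr rfl fun i hi => hqB i (Finset.mem_range.mp hi).le
    · exact Finset.sum_congr rfl fun i hi => hqB' i (Finset.mem_range.mp hi).le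

end Pool.Agent.AUE
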