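import Pool.Agent.AUE.Asm3
import Pool.Agent.AUE.TowB
import Pool.Agent.AUE.Flo
import Pool.Agent.AUE.Est

/-!
# Asm4: full graphs have the property `Sol` (relative to a larger vertex set)

`G.map ι` is the graph `G` viewed on the larger vertex set `V'` via the injection `ι : V → V'`.
A family `F'` of `G.map ι` with projections `P' : V' → B` restricts to the family `F'.res` of `G` with
projections `P' ∘ ι`, same `S`, `lam`, `th`. `UD P' ⊆ UD (P' ∘ ι)`.

PROOF of `sol_full`. If `V` is empty then `G.Ed` is empty, `F'.th x = 1` for all `x`, take `W = c`.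
Let `C = 8 card Ed`, choose `N ≥ 1` with `C / N ≤ 1` and `(20 + C) / N ≤ ε`. Let `L, κ, q, q'` be the
towers of `exists_towB` for `F = F'.res`. Let `j = L + N + 3`, `c' = th^j c`, by `sol_shift` it suffices
to find `W` for `c'`. `exists_X` (for `F'`, `P'`, `G.map ι`, which is `LoopRich`) with `i = L + 1`, `n = N`
gives `X, Y`, and with `n = N + 1` gives `X', Y'` (`C / (N+1) ≤ C / N`).
`I = Fin N ⊕ Fin (N + 1)`, `σ` = the sum of the cyclic permutations (`finRotate`), `q̂ = Sum.elim q q'`,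
`X̂ = Sum.elim X X'`, `Ŷ = …`. `W = ∑ X̂ a * q̂ a + (1 - ∑ q̂ a)`. `Ch P' W` by `ch_floors` (`i = L + 1`),
the estimate by `tower_est` with `th^[L+1] c₀`, `c₀ = th^[j-L-1] c` and `δ = C / N`:
`2 ‖κ - 1‖ + C / N ≤ (20 + C) / N ≤ ε`.
Hypotheses: the `q̂ a` and `κ` commute with all `P' v`, `v : V'` (`core_P` for `v` in the range of `ι`,
`core_orth` otherwise: `P' v * P' (ι u) = 0`; `κ = κ₀ + (1 - 1_{L+1})`, `κ₀ ∈ core (L+1)`), with
`th^[L] y` resp. `th^[L+1] y` (`core_th_iter` for `F'.res`; `y` commuting with all `P' v` commutes with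
the `P' (ι v)`) and with `1_{L+1}` (`core_unit`: for `q ∈ core L`: `1_{L+1} = lam^L (lam 1)` and
`th^L (lam 1) = lam^L (lam 1) + (1 - 1_L)` commutes with `q`, and `1_L q = q = q 1_L`).
`hδX` at the last floor: `σ (last) = 0` and `X N = 1 = X 0`; `q N = q 0`.
-/

namespace Pool.Agent.AUE

/-- The graph `G` on the larger vertex set `V'`. -/
def Gr.map {V V' : Type} (G : Gr V) (ι : V → V') : Gr V' where
  Ed := G.Ed
  s := fun e => ι (G.s e)
  r := fun e => ι (G.r e)

/-- Restriction to the smaller vertex set. -/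
def Fam.res {V V' : Type} {G : Gr V} {ι : V → V'} {B : Type} [CStarAlgebra B] {P' : V' → B}
    (F' : Fam (G.map ι) P') : Fam G (fun v => P' (ι v)) where
  S := F'.S
  star_mul := F'.star_mul
  orth := F'.orth
  P_mul := F'.P_mul

theorem Fam.res_lam {V V' : Type} {G : Gr V} {ι : V → V'} {B : Type} [CStarAlgebra B] {P' : V' → B}
    (F' : Fam (G.map ι) P') (x : B) : F'.res.lam x = F'.lam x := rfl

theorem Fam.res_th {V V' : Type} {G : Gr V} {ι : V → V'} {B : Type} [CStarAlgebra B] {P' : V' → B}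
    (F' : Fam (G.map ι) P') (x : B) : F'.res.th x = F'.th x := rfl

theorem Asm4_prj {V V' : Type} {ι : V → V'} (hι : Function.Injective ι) {B : Type} [CStarAlgebra B]
    {P' : V' → B} (hP' : IsPrj P') : IsPrj (fun v => P' (ι v)) :=
  ⟨fun v => hP'.star_eq _, fun v => hP'.mul_self _, fun v w h => hP'.orth _ _ (fun e => h (hι e))⟩

theorem Asm4_core_P {V V' : Type} {G : Gr V} {ι : V → V'} (hι : Function.Injective ι) {B : Type}
    [CStarAlgebra B] {P' : V' → B} (hP' : IsPrj P') (F' : Fam (G.map ι) P') {n : ℕ} {x : B}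
    (hx : x ∈ F'.res.core n) (v : V') : P' v * x = x * P' v := by
  have hP := Asm4_prj hι hP'
  by_cases hv : ∃ u, ι u = v
  · obtain ⟨u, rfl⟩ := hv
    exact F'.res.core_P hP hx u
  · have h0 : ∀ u, P' v * P' (ι u) = 0 := fun u => hP'.orth _ _ (fun e => hv ⟨u, e.symm⟩)
    have h1 : P' v * x = 0 := F'.res.core_orth hP hx h0
    have h2 : P' v * star x = 0 := F'.res.core_orth hP (F'.res.core_star hP hx) h0
    have h3 : x * P' v = 0 := by
      have h4 := congrArg star h2
      rw [star_mul, star_star, star_zero, hP'.star_eq] at h4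
      exact h4
    rw [h1, h3]

theorem Asm4_rot {A : Type} (N : ℕ) (hN : 0 < N) (f : ℕ → A) (hf : f N = f 0) (a : Fin N) :
    f ((finRotate N a : Fin N) : ℕ) = f (a + 1) := by
  obtain ⟨n, rfl⟩ : ∃ n, N = n + 1 := ⟨N - 1, by omega⟩
  rw [coe_finRotate]
  by_cases h : a = Fin.last n
  · rw [if_pos h, ← hf, h]
    rfl
  · rw [if_neg h]

theorem sol_full {V V' : Type} [Fintype V] [DecidableEq V] {G : Gr V} (hG : Full G) {ι : V → V'}
    (hι : Function.Injective ι) : Sol (G.map ι) := by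
  intro B _ P' hP' F' c hc ε hε
  have hP := Asm4_prj hι hP'
  have hC0 : (0 : ℝ) ≤ 8 * Fintype.card G.Ed := by positivity
  obtain ⟨N, hN1⟩ := exists_nat_gt (max (8 * Fintype.card G.Ed : ℝ)
    ((20 + 8 * Fintype.card G.Ed) / ε))
  have hNC : (8 * Fintype.card G.Ed : ℝ) < N := lt_of_le_of_lt (le_max_left _ _) hN1
  have hNε : ((20 + 8 * Fintype.card G.Ed) / ε : ℝ) < N := lt_of_le_of_lt (le_max_right _ _) hN1
  have hNr : (0 : ℝ) < N := lt_of_le_of_lt hC0 hNC
  have hN : 0 < N := by exact_mod_cast hNr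
  have hLR : LoopRich (G.map ι) := by
    intro e
    obtain ⟨x, y, h1, h2, h3, h4, h5⟩ := hG.1 (G.s e)
    exact ⟨x, y, h1, congrArg ι h2, congrArg ι h3, congrArg ι h4, congrArg ι h5⟩
  obtain ⟨L, κ, q, q', hT⟩ := exists_towB hG hP F'.res hN
  have hcard : Fintype.card (G.map ι).Ed = Fintype.card G.Ed := rfl
  have hC1 : (8 * Fintype.card (G.map ι).Ed / (N : ℕ) : ℝ) ≤ 1 := by
    rw [hcard, div_le_one hNr]
    exact hNC.le
  have hC2 : (8 * Fintype.card (G.map ι).Ed / (N + 1 : ℕ) : ℝ) ≤ 8 * Fintype.card G.Ed / (N : ℕ) := by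
    rw [hcard]
    apply div_le_div_of_nonneg_left hC0 hNr
    push_cast
    linarith
  obtain ⟨X, Y, hY, hXY, hX0, hXn, hXe⟩ := exists_X F' hP' hLR hc hN hC1 (i := L + 1)
    (j := L + N + 3) (by omega)
  obtain ⟨X', Y', hY', hXY', hX0', hXn', hXe'⟩ := exists_X F' hP' hLR hc (Nat.succ_pos N)
    (hC2.trans hC1) (i := L + 1) (j := L + N + 3) (by omega)
  apply F'.sol_shift hP' hc (L + N + 3)
  have hshift : F'.th^[L + N + 3] c = F'.th^[L + 1] (F'.th^[N + 2] c) := by
    rw [← Function.iterate_add_apply, show L + 1 + (N + 2) = L + N + 3 by omega]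
  have hlam : ∀ k x, F'.res.lam^[k] x = F'.lam^[k] x := fun _ _ => rfl
  have hth : ∀ k x, F'.res.th^[k] x = F'.th^[k] x := fun _ _ => rfl
  -- the floors
  have hcomm : ∀ {n : ℕ} {x y : B}, x ∈ F'.res.core n → (∀ v, P' v * y = y * P' v) →
      F'.th^[n] y * x = x * F'.th^[n] y := by
    intro n x y hx hy
    exact F'.res.core_th_iter hP hx (fun v => hy (ι v))
  have hone : ∀ v, P' v * (1 : B) = 1 * P' v := fun v => by rw [mul_one, one_mul]
  have hq1 : ∀ {x : B}, x ∈ F'.res.core L → x * F'.lam^[L + 1] 1 = F'.lam^[L + 1] 1 * x := by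
    intro x hx
    have h1 : F'.lam^[L + 1] 1 = F'.th^[L] (F'.lam 1) - (1 - F'.lam^[L] 1) := by
      rw [F'.th_iter_eq, Function.iterate_succ_apply]
      noncomm_ring
    have h2 : F'.th^[L] (F'.lam 1) * x = x * F'.th^[L] (F'.lam 1) :=
      hcomm hx (fun v => F'.P_lam hP' 1 v)
    obtain ⟨h3, h4⟩ := F'.res.core_unit hP hx
    rw [hlam] at h3 h4
    rw [h1, mul_sub, sub_mul, mul_sub, sub_mul, h2, h3, h4, mul_one, one_mul]
  have hκ0 : κ = (κ - (1 - F'.lam^[L + 1] 1)) + (1 - F'.lam^[L + 1] 1) := by noncomm_ring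
  have hκm : κ - (1 - F'.lam^[L + 1] 1) ∈ F'.res.core (L + 1) := hT.κ_core
  generalize κ - (1 - F'.lam^[L + 1] 1) = κ₀ at hκ0 hκm
  have hpr : ∀ a : Fin N ⊕ Fin (N + 1), star (Sum.elim (fun a : Fin N => q a)
      (fun a : Fin (N + 1) => q' a) a) = Sum.elim (fun a : Fin N => q a)
      (fun a : Fin (N + 1) => q' a) a ∧ Sum.elim (fun a : Fin N => q a)
      (fun a : Fin (N + 1) => q' a) a * Sum.elim (fun a : Fin N => q a)
      (fun a : Fin (N + 1) => q' a) a = Sum.elim (fun a : Fin N => q a)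
      (fun a : Fin (N + 1) => q' a) a := by
    rintro (a | a)
    · exact hT.pr a
    · exact hT.pr' a
  have horth : ∀ a b : Fin N ⊕ Fin (N + 1), a ≠ b → Sum.elim (fun a : Fin N => q a)
      (fun a : Fin (N + 1) => q' a) a * Sum.elim (fun a : Fin N => q a)
      (fun a : Fin (N + 1) => q' a) b = 0 := by
    rintro (a | a) (b | b) hab
    · exact hT.orth a a.2 b b.2 (fun e => hab (congrArg Sum.inl (Fin.ext e)))
    · exact hT.orth'' a a.2 b b.2
    · have h1 := congrArg star (hT.orth'' b b.2 a a.2)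
      rw [star_mul, star_zero, (hT.pr b).1, (hT.pr' a).1] at h1
      exact h1
    · exact hT.orth' a a.2 b b.2 (fun e => hab (congrArg Sum.inr (Fin.ext e)))
  have hmem : ∀ a : Fin N ⊕ Fin (N + 1), Sum.elim (fun a : Fin N => q a)
      (fun a : Fin (N + 1) => q' a) a ∈ F'.res.core L := by
    rintro (a | a)
    · exact hT.q_mem a
    · exact hT.q_mem' a
  have hXYs : ∀ a : Fin N ⊕ Fin (N + 1), Sum.elim (fun a : Fin N => X a)
      (fun a : Fin (N + 1) => X' a) a = F'.th^[L + 1] (Sum.elim (fun a : Fin N => Y a)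
      (fun a : Fin (N + 1) => Y' a) a) := by
    rintro (a | a)
    · exact hXY a a.2.le
    · exact hXY' a a.2.le
  have hYs : ∀ a : Fin N ⊕ Fin (N + 1), Ch P' (Sum.elim (fun a : Fin N => Y a)
      (fun a : Fin (N + 1) => Y' a) a) := by
    rintro (a | a)
    · exact hY a a.2.le
    · exact hY' a a.2.le
  have hsum : ∑ a : Fin N ⊕ Fin (N + 1), Sum.elim (fun a : Fin N => q a)
      (fun a : Fin (N + 1) => q' a) a = F'.lam^[L] 1 := by
    rw [Fintype.sum_sum_type]
    simp only [Sum.elim_inl, Sum.elim_inr]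
    rw [Fin.sum_univ_eq_sum_range (fun i => q i) N, Fin.sum_univ_eq_sum_range (fun i => q' i) (N + 1)]
    exact hT.sum
  have hmap : ∀ a : Fin N ⊕ Fin (N + 1), κ * F'.lam (Sum.elim (fun a : Fin N => q a)
      (fun a : Fin (N + 1) => q' a) a) * star κ = Sum.elim (fun a : Fin N => q a)
      (fun a : Fin (N + 1) => q' a) ((Equiv.sumCongr (finRotate N) (finRotate (N + 1))) a) *
      F'.lam^[L + 1] 1 := by
    rintro (a | a)
    · have h1 := hT.map a a.2
      rw [← Asm4_rot N hN q hT.cyc a] at h1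
      exact h1
    · have h1 := hT.map' a a.2
      rw [← Asm4_rot (N + 1) (Nat.succ_pos N) q' hT.cyc' a] at h1
      exact h1
  have hδX : ∀ a : Fin N ⊕ Fin (N + 1), ‖F'.th^[L + 1] (F'.th^[N + 2] c) *
      F'.th (Sum.elim (fun a : Fin N => X a) (fun a : Fin (N + 1) => X' a) a) -
      Sum.elim (fun a : Fin N => X a) (fun a : Fin (N + 1) => X' a)
        ((Equiv.sumCongr (finRotate N) (finRotate (N + 1))) a)‖ ≤
      8 * Fintype.card G.Ed / (N : ℕ) := by
    rw [← hshift]
    rintro (a | a)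
    · have h1 := hXe a a.2
      rw [← Asm4_rot N hN X (hXn.trans hX0.symm) a] at h1
      exact h1
    · have h1 := hXe' a a.2
      rw [← Asm4_rot (N + 1) (Nat.succ_pos N) X' (hXn'.trans hX0'.symm) a] at h1
      exact h1.trans hC2
  have hκP : ∀ v, P' v * κ = κ * P' v := by
    intro v
    rw [hκ0, mul_add, add_mul, Asm4_core_P hι hP' F' hκm v, mul_sub, sub_mul,
      F'.lam_iter_P hP' (L + 1) hone v, mul_one, one_mul]
  have hκ1 : κ * F'.lam^[L + 1] 1 = F'.lam^[L + 1] 1 * κ := by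
    obtain ⟨h3, h4⟩ := F'.res.core_unit hP hκm
    rw [hlam] at h3 h4
    rw [hκ0, mul_add, add_mul, h3, h4, mul_sub, sub_mul, mul_one, one_mul]
  have hκc : ∀ y, (∀ v, P' v * y = y * P' v) → F'.th^[L + 1] y * κ = κ * F'.th^[L + 1] y := by
    intro y hy
    obtain ⟨h5, h6⟩ := F'.th_iter_mul_compl hP' (le_refl (L + 1)) hy
    rw [hκ0, mul_add, add_mul, hcomm hκm hy, h5, h6]
  have hcU : F'.th^[N + 2] c ∈ UD P' := F'.th_iter_mem hP' hc.mem (N + 2)
  have hest := tower_est F' hP' (L := L) (Equiv.sumCongr (finRotate N) (finRotate (N + 1)))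
    (κ := κ) (q := Sum.elim (fun a : Fin N => q a) (fun a : Fin (N + 1) => q' a))
    (X := Sum.elim (fun a : Fin N => X a) (fun a : Fin (N + 1) => X' a))
    (Y := Sum.elim (fun a : Fin N => Y a) (fun a : Fin (N + 1) => Y' a))
    (c := F'.th^[N + 2] c) (δ := 8 * Fintype.card G.Ed / (N : ℕ))
    (by positivity) hcU (fun a => (hYs a).mem) hXYs hT.κ_uni hκP hκ1 hκc hpr horth
    (fun a v => Asm4_core_P hι hP' F' (hmem a) v) (fun a y hy => hcomm (hmem a) hy)
    (fun a => hq1 (hmem a)) hsum hmap hδX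
  have hfl := ch_floors F' hP' (L + 1) Finset.univ
    (Sum.elim (fun a : Fin N => q a) (fun a : Fin (N + 1) => q' a))
    (Sum.elim (fun a : Fin N => Y a) (fun a : Fin (N + 1) => Y' a))
    (fun a _ => hpr a) (fun a _ b _ hab => horth a b hab)
    (fun a _ v => Asm4_core_P hι hP' F' (hmem a) v)
    (fun a _ y hy => by
      have h1 : ∀ v, P' v * F'.th y = F'.th y * P' v := fun v => F'.P_th hP' y v
      have h2 := hcomm (hmem a) h1
      rw [← Function.iterate_succ_apply] at h2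
      exact h2)
    (fun a _ => hYs a)
  simp only [← hXYs] at hfl
  refine ⟨_, hfl, ?_⟩
  rw [hshift]
  refine hest.trans ?_
  have h1 : ‖κ - 1‖ ≤ 10 / N := hT.κ_norm
  have h2 : (20 + 8 * Fintype.card G.Ed : ℝ) / N ≤ ε := by
    rw [div_le_iff₀ hNr]
    rw [div_lt_iff₀ hε] at hNε
    linarith
  calc 2 * ‖κ - 1‖ + 8 * Fintype.card G.Ed / (N : ℕ) ≤
      2 * (10 / N) + 8 * Fintype.card G.Ed / (N : ℕ) := by linarith
    _ = (20 + 8 * Fintype.card G.Ed : ℝ) / N := by ring
    _ ≤ ε := h2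

end Pool.Agent.AUE
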