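import Mathlib

/-!
# Aue: approximately unitarily equivalent homomorphisms

`A, B` C*-algebras (not necessarily unital), `adU u b = u b u*` for a unitary `u` of the unitization of
`B`. `AppU φ ψ`: for each finite set `s` and `ε > 0` there is `u` with `‖u φ(a) u* - ψ(a)‖ ≤ ε` on `s`.

PROOFS. `inr (adU u b) = u * inr b * star u` since the first coordinate of the right side is
`u.fst * 0 * … = 0` (`B` is an ideal). `adU` is multiplicative since `inr` is injective.
`AppU.symm`: `‖φ a - u* ψ(a) u‖`. `AppU.trans`: use `ε/2` twice, `u₂ u₁`. `AppU.comp_left`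
(`χ : B → C`): the unitary `χ~(u)` (`Unitization.starMap χ`), `χ (adU u b) = adU (χ~ u) (χ b)`, `χ`
contractive (`NonUnitalStarAlgHom.norm_apply_le`). `AppU.comp_right`: apply to the image of the
finite set. `AppU.of_adU`: `u` itself.
-/

namespace Pool.Agent.AUE

variable {A B C D : Type} [NonUnitalCStarAlgebra A] [NonUnitalCStarAlgebra B]
  [NonUnitalCStarAlgebra C] [NonUnitalCStarAlgebra D]

theorem adU_aux (u : unitary (Unitization ℂ B)) (b : B) :
    ((u : Unitization ℂ B) * (b : Unitization ℂ B) * star (u : Unitization ℂ B)).fst = 0 := by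
  simp

/-- Conjugation by a unitary of the unitization. -/
noncomputable def adU (u : unitary (Unitization ℂ B)) : B →⋆ₙₐ[ℂ] B where
  toFun b := ((u : Unitization ℂ B) * (b : Unitization ℂ B) * star (u : Unitization ℂ B)).snd
  map_smul' c b := by
    rw [Unitization.inr_smul, mul_smul_comm, smul_mul_assoc]
    rfl
  map_zero' := by simp
  map_add' a b := by
    rw [Unitization.inr_add, mul_add, add_mul]
    rfl
  map_mul' a b := by
    have ha := adU_aux u a
    have hb := adU_aux u b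
    have h1 : ∀ x : Unitization ℂ B, x.fst = 0 → ((x.snd : B) : Unitization ℂ B) = x := by
      intro x hx
      ext
      · simp [hx]
      · simp
    apply Unitization.inr_injective (R := ℂ)
    have e1 := h1 _ (adU_aux u (a * b))
    have e2 := h1 _ ha
    have e3 := h1 _ hb
    have hu : star (u : Unitization ℂ B) * (u : Unitization ℂ B) = 1 := Unitary.coe_star_mul_self u
    calc ((((u : Unitization ℂ B) * ((a * b : B) : Unitization ℂ B) *
          star (u : Unitization ℂ B)).snd : B) : Unitization ℂ B)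
        = (u : Unitization ℂ B) * ((a * b : B) : Unitization ℂ B) * star (u : Unitization ℂ B) := e1
      _ = (u : Unitization ℂ B) * (a : Unitization ℂ B) * 1 * (b : Unitization ℂ B) *
            star (u : Unitization ℂ B) := by rw [Unitization.inr_mul]; noncomm_ring
      _ = ((u : Unitization ℂ B) * (a : Unitization ℂ B) * star (u : Unitization ℂ B)) *
          ((u : Unitization ℂ B) * (b : Unitization ℂ B) * star (u : Unitization ℂ B)) := by
            rw [← hu]; noncomm_ring
      _ = _ := by rw [← e2, ← e3, ← Unitization.inr_mul]; simp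
  map_star' a := by
    apply Unitization.inr_injective (R := ℂ)
    have h1 : ∀ x : Unitization ℂ B, x.fst = 0 → ((x.snd : B) : Unitization ℂ B) = x := by
      intro x hx
      ext
      · simp [hx]
      · simp
    rw [h1 _ (adU_aux u (star a)), Unitization.inr_star, Unitization.inr_star, h1 _ (adU_aux u a)]
    simp [mul_assoc]

theorem inr_adU (u : unitary (Unitization ℂ B)) (b : B) :
    ((adU u b : B) : Unitization ℂ B) =
      (u : Unitization ℂ B) * (b : Unitization ℂ B) * star (u : Unitization ℂ B) := by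
  have h := adU_aux u b
  change (((((u : Unitization ℂ B) * (b : Unitization ℂ B) *
    star (u : Unitization ℂ B)).snd : B)) : Unitization ℂ B) = _
  ext
  · rw [h]; simp
  · simp

theorem adU_one : adU (1 : unitary (Unitization ℂ B)) = NonUnitalStarAlgHom.id ℂ B := by
  ext b
  apply Unitization.inr_injective (R := ℂ)
  rw [inr_adU]
  simp

theorem adU_mul (u v : unitary (Unitization ℂ B)) : adU (u * v) = (adU u).comp (adU v) := by
  ext b
  apply Unitization.inr_injective (R := ℂ)
  rw [inr_adU, NonUnitalStarAlgHom.comp_apply, inr_adU, inr_adU]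
  simp only [Submonoid.coe_mul, star_mul, mul_assoc]

/-- Approximate unitary equivalence. -/
def AppU (φ ψ : A →⋆ₙₐ[ℂ] B) : Prop :=
  ∀ (s : Finset A) (ε : ℝ), 0 < ε → ∃ u : unitary (Unitization ℂ B), ∀ a ∈ s,
    ‖adU u (φ a) - ψ a‖ ≤ ε

theorem AppU.refl (φ : A →⋆ₙₐ[ℂ] B) : AppU φ φ := by
  intro s ε hε
  refine ⟨1, fun a _ => ?_⟩
  rw [adU_one]
  simpa using hε.le

theorem AppU.of_adU (φ : A →⋆ₙₐ[ℂ] B) (u : unitary (Unitization ℂ B)) :
    AppU φ ((adU u).comp φ) := by
  intro s ε hε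
  refine ⟨u, fun a _ => ?_⟩
  rw [NonUnitalStarAlgHom.comp_apply, sub_self, norm_zero]
  exact hε.le

theorem Aue_norm_le (φ : A →⋆ₙₐ[ℂ] B) (a : A) : ‖φ a‖ ≤ ‖a‖ :=
  NonUnitalStarAlgHom.norm_apply_le φ a

theorem Aue_adU_star (u : unitary (Unitization ℂ B)) (b : B) : adU (star u) (adU u b) = b := by
  rw [← NonUnitalStarAlgHom.comp_apply, ← adU_mul]
  have : star u * u = 1 := Unitary.star_mul_self u
  rw [this, adU_one]
  rfl

theorem AppU.symm {φ ψ : A →⋆ₙₐ[ℂ] B} (h : AppU φ ψ) : AppU ψ φ := by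
  intro s ε hε
  obtain ⟨u, hu⟩ := h s ε hε
  refine ⟨star u, fun a ha => ?_⟩
  have e : adU (star u) (ψ a) - φ a = adU (star u) (ψ a - adU u (φ a)) := by
    rw [map_sub, Aue_adU_star]
  rw [e]
  refine (Aue_norm_le _ _).trans ?_
  rw [norm_sub_rev]
  exact hu a ha

theorem AppU.trans {φ ψ χ : A →⋆ₙₐ[ℂ] B} (h : AppU φ ψ) (h' : AppU ψ χ) : AppU φ χ := by
  intro s ε hε
  obtain ⟨u, hu⟩ := h s (ε / 2) (by positivity)
  obtain ⟨v, hv⟩ := h' s (ε / 2) (by positivity)
  refine ⟨v * u, fun a ha => ?_⟩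
  rw [adU_mul, NonUnitalStarAlgHom.comp_apply]
  have e : adU v (adU u (φ a)) - χ a = adU v (adU u (φ a) - ψ a) + (adU v (ψ a) - χ a) := by
    rw [map_sub]; abel
  rw [e]
  have h1 := (Aue_norm_le (adU v) (adU u (φ a) - ψ a)).trans (hu a ha)
  have h2 := hv a ha
  refine (norm_add_le _ _).trans ?_
  linarith

/-- `χ` composed with an inner automorphism. -/
theorem comp_adU (χ : B →⋆ₙₐ[ℂ] C) (u : unitary (Unitization ℂ B)) :
    ∃ v : unitary (Unitization ℂ C), χ.comp (adU u) = (adU v).comp χ := by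
  have hv : Unitization.starMap χ (u : Unitization ℂ B) ∈ unitary (Unitization ℂ C) :=
    Unitary.map_mem (Unitization.starMap χ) u.2
  refine ⟨⟨_, hv⟩, ?_⟩
  ext b
  apply Unitization.inr_injective (R := ℂ)
  rw [NonUnitalStarAlgHom.comp_apply, NonUnitalStarAlgHom.comp_apply, inr_adU,
    ← Unitization.starMap_inr χ (adU u b), inr_adU, map_mul, map_mul, map_star,
    Unitization.starMap_inr]

theorem AppU.comp_left (χ : B →⋆ₙₐ[ℂ] C) {φ ψ : A →⋆ₙₐ[ℂ] B} (h : AppU φ ψ) :
    AppU (χ.comp φ) (χ.comp ψ) := by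
  intro s ε hε
  obtain ⟨u, hu⟩ := h s ε hε
  obtain ⟨v, hv⟩ := comp_adU χ u
  refine ⟨v, fun a ha => ?_⟩
  have e : adU v (χ (φ a)) = χ (adU u (φ a)) := by
    rw [← NonUnitalStarAlgHom.comp_apply, ← hv]
    rfl
  rw [NonUnitalStarAlgHom.comp_apply, NonUnitalStarAlgHom.comp_apply, e, ← map_sub]
  exact (Aue_norm_le _ _).trans (hu a ha)

theorem AppU.comp_right {φ ψ : B →⋆ₙₐ[ℂ] C} (h : AppU φ ψ) (χ : A →⋆ₙₐ[ℂ] B) :
    AppU (φ.comp χ) (ψ.comp χ) := by
  classical
  intro s ε hε
  obtain ⟨u, hu⟩ := h (s.image χ) ε hε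
  exact ⟨u, fun a ha => hu (χ a) (Finset.mem_image_of_mem _ ha)⟩

end Pool.Agent.AUE
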