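import Pool.Agent.AUE.NS

/-!
# Bas: basic facts on families, `th`, `UD`, `Chain`, `Ch`

All proofs are short computations.
* `S_P`: `S_e P_{r e} = S_e`: `(S - S P)^* (S - S P) = 0`, use `CStarRing.star_mul_self_eq_zero_iff`
  (or norm).
* `P_S_ne`: `P v S_e = P v P_{s e} S_e = 0`.
* `S_comm`: if `x` commutes with all `P v` then `th x * S e = lam x * S e + (1 - lam 1) S e
  = S e * x * P (r e) + 0 = S e * P (r e) * x = S e * x`.
* `th_mul`: `lam x * lam y = ∑ S_e x P_{r e} y S_e* = ∑ S_e x y S_e*` (if `y`, or `x`, commutes with the `P v`);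
  `(1 - lam 1)` is a projection orthogonal to the `S_e`.
* `P_lam`: `P v * lam x = ∑_{s e = v} S_e x S_e* = lam x * P v` (any `x`).
* `norm_lam_le`: `norm_conj_sum_le` with `t = S`, `x i = x` (`‖P v‖ ≤ 1`, as `P v` is a projection).
* chains: apply the operations to the members of the chain. `Ch.mul`: chain for `u` followed by
  `u *` (chain for `v`) (define `ζ i = if i ≤ n then ζ₁ i else u * ζ₂ (i - n)`).
-/

namespace Pool.Agent.AUE

section

variable {V : Type} {B : Type} [CStarAlgebra B] {P : V → B}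

theorem IsPrj.norm_le (hP : IsPrj P) (v : V) : ‖P v‖ ≤ 1 := by
  have h1 : ‖P v‖ * ‖P v‖ = ‖P v‖ := by
    rw [← CStarRing.norm_star_mul_self, hP.star_eq, hP.mul_self]
  nlinarith [norm_nonneg (P v)]

theorem UD_one : (1 : B) ∈ UD P := by
  refine ⟨by simp, by simp, fun v => by simp⟩

theorem UD_mul {u v : B} (hu : u ∈ UD P) (hv : v ∈ UD P) : u * v ∈ UD P := by
  obtain ⟨h1, h2, h3⟩ := hu
  obtain ⟨k1, k2, k3⟩ := hv
  refine ⟨?_, ?_, fun w => ?_⟩
  · rw [star_mul, mul_assoc, ← mul_assoc (star u), h1, one_mul, k1]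
  · rw [star_mul, mul_assoc, ← mul_assoc v, k2, one_mul, h2]
  · rw [← mul_assoc, h3, mul_assoc, k3, mul_assoc]

theorem UD_star (hP : IsPrj P) {u : B} (hu : u ∈ UD P) : star u ∈ UD P := by
  obtain ⟨h1, h2, h3⟩ := hu
  refine ⟨by rw [star_star]; exact h2, by rw [star_star]; exact h1, fun w => ?_⟩
  have h4 := congrArg star (h3 w)
  rw [star_mul, star_mul, hP.star_eq] at h4
  exact h4.symm

theorem UD_norm {u : B} (hu : u ∈ UD P) : ‖u‖ ≤ 1 := by
  have h1 : ‖(1 : B)‖ * ‖(1 : B)‖ = ‖(1 : B)‖ := by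
    rw [← CStarRing.norm_star_mul_self, star_one, one_mul]
  have h2 : ‖(1 : B)‖ ≤ 1 := by nlinarith [norm_nonneg (1 : B)]
  have h3 : ‖u‖ * ‖u‖ = ‖(1 : B)‖ := by
    rw [← CStarRing.norm_star_mul_self, hu.1]
  nlinarith [norm_nonneg u]

theorem norm_UD_mul {u : B} (hu : u ∈ UD P) (x : B) : ‖u * x‖ = ‖x‖ := by
  have h1 : ‖u * x‖ * ‖u * x‖ = ‖x‖ * ‖x‖ := by
    rw [← CStarRing.norm_star_mul_self, ← CStarRing.norm_star_mul_self, star_mul, mul_assoc,
      ← mul_assoc (star u), hu.1, one_mul]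
  exact (mul_self_inj (norm_nonneg _) (norm_nonneg _)).1 h1

theorem norm_mul_UD {u : B} (hu : u ∈ UD P) (x : B) : ‖x * u‖ = ‖x‖ := by
  have h1 : ‖x * u‖ * ‖x * u‖ = ‖x‖ * ‖x‖ := by
    rw [← CStarRing.norm_self_mul_star, ← CStarRing.norm_self_mul_star, star_mul, mul_assoc,
      ← mul_assoc u, hu.2.1, one_mul]
  exact (mul_self_inj (norm_nonneg _) (norm_nonneg _)).1 h1

variable {G : Gr V} (F : Fam G P)

theorem Fam.S_P (hP : IsPrj P) (e : G.Ed) : F.S e * P (G.r e) = F.S e := by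
  have h1 : star (F.S e * P (G.r e) - F.S e) * (F.S e * P (G.r e) - F.S e) = 0 := by
    have h2 := F.star_mul e
    have h3 := hP.mul_self (G.r e)
    rw [star_sub, StarMul.star_mul, hP.star_eq]
    have e1 : (P (G.r e) * star (F.S e) - star (F.S e)) * (F.S e * P (G.r e) - F.S e) =
        P (G.r e) * (star (F.S e) * F.S e) * P (G.r e) - P (G.r e) * (star (F.S e) * F.S e) -
        (star (F.S e) * F.S e) * P (G.r e) + star (F.S e) * F.S e := by
      noncomm_ring
    rw [e1, h2, h3, h3]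
    simp
  exact sub_eq_zero.1 (CStarRing.star_mul_self_eq_zero_iff _ |>.1 h1)

theorem Fam.P_S_ne (hP : IsPrj P) (e : G.Ed) {v : V} (h : v ≠ G.s e) : P v * F.S e = 0 := by
  rw [← F.P_mul, ← mul_assoc, hP.orth _ _ h, zero_mul]

theorem Fam.norm_S_le (hP : IsPrj P) (e : G.Ed) : ‖F.S e‖ ≤ 1 := by
  have h1 : ‖F.S e‖ * ‖F.S e‖ ≤ 1 := by
    rw [← CStarRing.norm_star_mul_self, F.star_mul]
    exact hP.norm_le _
  nlinarith [norm_nonneg (F.S e)]

theorem Fam.P_lam (hP : IsPrj P) (x : B) (v : V) : P v * F.lam x = F.lam x * P v := by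
  unfold Fam.lam
  rw [Finset.mul_sum, Finset.sum_mul]
  refine Finset.sum_congr rfl fun e _ => ?_
  have e1 : star (F.S e) * P v = star (P v * F.S e) := by
    rw [StarMul.star_mul, hP.star_eq]
  rw [mul_assoc (F.S e * x), e1, ← mul_assoc, ← mul_assoc]
  by_cases h : v = G.s e
  · rw [h, F.P_mul]
  · rw [F.P_S_ne hP e h]
    simp

theorem Fam.star_lam (x : B) : star (F.lam x) = F.lam (star x) := by
  unfold Fam.lam
  rw [star_sum]
  refine Finset.sum_congr rfl fun e _ => ?_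
  rw [StarMul.star_mul, StarMul.star_mul, star_star, mul_assoc]

theorem Fam.lam_mul (hP : IsPrj P) {x y : B} (hy : ∀ v, P v * y = y * P v) :
    F.lam x * F.lam y = F.lam (x * y) := by
  unfold Fam.lam
  rw [Finset.sum_mul]
  refine Finset.sum_congr rfl fun e _ => ?_
  rw [Finset.mul_sum, Finset.sum_eq_single_of_mem e (Finset.mem_univ e)]
  · have e1 : F.S e * x * star (F.S e) * (F.S e * y * star (F.S e)) =
        F.S e * x * (star (F.S e) * F.S e * y) * star (F.S e) := by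
      simp only [mul_assoc]
    have e2 : P (G.r e) * star (F.S e) = star (F.S e) := by
      have h := congrArg star (F.S_P hP e)
      rwa [StarMul.star_mul, hP.star_eq] at h
    rw [e1, F.star_mul, hy]
    have e3 : F.S e * x * (y * P (G.r e)) * star (F.S e) = F.S e * (x * y) * (P (G.r e) * star (F.S e)) := by
      simp only [mul_assoc]
    rw [e3, e2]
  · intro f _ hf
    have e1 : F.S e * x * star (F.S e) * (F.S f * y * star (F.S f)) =
        F.S e * x * (star (F.S e) * F.S f) * y * star (F.S f) := by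
      simp only [mul_assoc]
    rw [e1, F.orth e f (Ne.symm hf)]
    simp

theorem Fam.lam_S (hP : IsPrj P) {x : B} (hx : ∀ v, P v * x = x * P v) (e : G.Ed) :
    F.lam x * F.S e = F.S e * x := by
  unfold Fam.lam
  rw [Finset.sum_mul, Finset.sum_eq_single_of_mem e (Finset.mem_univ e)]
  · rw [mul_assoc, F.star_mul, mul_assoc, ← hx, ← mul_assoc, F.S_P hP]
  · intro f _ hf
    rw [mul_assoc, F.orth f e hf, mul_zero]

theorem Fam.lam_add (x y : B) : F.lam (x + y) = F.lam x + F.lam y := by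
  unfold Fam.lam
  rw [← Finset.sum_add_distrib]
  refine Finset.sum_congr rfl fun e _ => ?_
  rw [mul_add, add_mul]

theorem Fam.lam_smul (a : ℂ) (x : B) : F.lam (a • x) = a • F.lam x := by
  unfold Fam.lam
  rw [Finset.smul_sum]
  refine Finset.sum_congr rfl fun e _ => ?_
  rw [mul_smul_comm, smul_mul_assoc]

theorem Fam.norm_lam_le (hP : IsPrj P) (x : B) : ‖F.lam x‖ ≤ ‖x‖ := by
  refine norm_conj_sum_le Finset.univ F.S (fun _ => x) ‖x‖ (norm_nonneg _) (fun i _ j _ h => F.orth i j h) ?_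
    (fun _ _ => le_refl _)
  intro i _
  rw [F.star_mul]
  exact hP.norm_le _

theorem Fam.th_S (hP : IsPrj P) {x : B} (hx : ∀ v, P v * x = x * P v) (e : G.Ed) :
    F.th x * F.S e = F.S e * x := by
  unfold Fam.th
  rw [add_mul, sub_mul, F.lam_S hP hx, F.lam_S hP (x := 1) (fun v => by simp), one_mul, mul_one, sub_self,
    add_zero]

theorem Fam.th_one : F.th 1 = 1 := by
  unfold Fam.th
  abel

theorem Fam.th_mul (hP : IsPrj P) {x y : B} (hx : ∀ v, P v * x = x * P v)
    (hy : ∀ v, P v * y = y * P v) : F.th x * F.th y = F.th (x * y) := by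
  have h1 : ∀ v, P v * (1 : B) = 1 * P v := fun v => by simp
  have e1 : F.lam x * F.lam y = F.lam (x * y) := F.lam_mul hP hy
  have e2 : F.lam x * F.lam 1 = F.lam x := by rw [F.lam_mul hP h1, mul_one]
  have e3 : F.lam 1 * F.lam y = F.lam y := by rw [F.lam_mul hP hy, one_mul]
  have e4 : F.lam 1 * F.lam 1 = F.lam 1 := by rw [F.lam_mul hP h1, one_mul]
  unfold Fam.th
  have e5 : (F.lam x + (1 - F.lam 1)) * (F.lam y + (1 - F.lam 1)) =
      F.lam x * F.lam y + (F.lam x - F.lam x * F.lam 1) + (F.lam y - F.lam 1 * F.lam y) +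
      (1 - F.lam 1 - F.lam 1 + F.lam 1 * F.lam 1) := by
    noncomm_ring
  rw [e5, e1, e2, e3, e4]
  abel

theorem Fam.star_th (x : B) : star (F.th x) = F.th (star x) := by
  unfold Fam.th
  rw [star_add, star_sub, star_one, F.star_lam, F.star_lam, star_one]

theorem Fam.P_th (hP : IsPrj P) (x : B) (v : V) : P v * F.th x = F.th x * P v := by
  unfold Fam.th
  rw [mul_add, mul_sub, mul_one, add_mul, sub_mul, one_mul, F.P_lam hP, F.P_lam hP]

theorem Fam.th_mem (hP : IsPrj P) {u : B} (hu : u ∈ UD P) : F.th u ∈ UD P := by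
  have hs := UD_star hP hu
  refine ⟨?_, ?_, fun v => F.P_th hP u v⟩
  · rw [F.star_th, F.th_mul hP hs.2.2 hu.2.2, hu.1, F.th_one]
  · rw [F.star_th, F.th_mul hP hu.2.2 hs.2.2, hu.2.1, F.th_one]

theorem Fam.th_iter_mem (hP : IsPrj P) {u : B} (hu : u ∈ UD P) (n : ℕ) : F.th^[n] u ∈ UD P := by
  induction n with
  | zero => exact hu
  | succ n ih =>
    rw [Function.iterate_succ_apply']
    exact F.th_mem hP ih

theorem Fam.norm_th_sub_le (hP : IsPrj P) (x y : B) : ‖F.th x - F.th y‖ ≤ ‖x - y‖ := by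
  have e : F.th x - F.th y = F.lam (x - y) := by
    have h : F.lam x = F.lam (x - y) + F.lam y := by rw [← F.lam_add, sub_add_cancel]
    unfold Fam.th
    rw [h]
    abel
  rw [e]
  exact F.norm_lam_le hP _

theorem Chain.mono {δ δ' : ℝ} (h : δ ≤ δ') {n : ℕ} {u : B} (hu : Chain P δ n u) :
    Chain P δ' n u := by
  obtain ⟨ζ, h0, h1, h2, h3⟩ := hu
  exact ⟨ζ, h0, h1, h2, fun i hi => (h3 i hi).trans h⟩

theorem Chain.mul {δ δ' : ℝ} {n : ℕ} {u v : B} (hu : Chain P δ n u) (hv : Chain P δ' n v) :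
    Chain P (δ + δ') n (u * v) := by
  obtain ⟨ζ, h0, h1, h2, h3⟩ := hu
  obtain ⟨η, k0, k1, k2, k3⟩ := hv
  refine ⟨fun i => ζ i * η i, by simp [h0, k0], by simp [h1, k1], fun i => UD_mul (h2 i) (k2 i), fun i hi => ?_⟩
  have e : ζ (i + 1) * η (i + 1) - ζ i * η i = (ζ (i + 1) - ζ i) * η (i + 1) + ζ i * (η (i + 1) - η i) := by
    noncomm_ring
  change ‖ζ (i + 1) * η (i + 1) - ζ i * η i‖ ≤ δ + δ'
  rw [e]
  refine (norm_add_le _ _).trans ?_
  rw [norm_mul_UD (k2 (i + 1)), norm_UD_mul (h2 i)]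
  exact add_le_add (h3 i hi) (k3 i hi)

theorem Chain.star (hP : IsPrj P) {δ : ℝ} {n : ℕ} {u : B} (hu : Chain P δ n u) :
    Chain P δ n (star u) := by
  obtain ⟨ζ, h0, h1, h2, h3⟩ := hu
  refine ⟨fun i => Star.star (ζ i), by simp [h0], by simp [h1], fun i => UD_star hP (h2 i), fun i hi => ?_⟩
  change ‖Star.star (ζ (i + 1)) - Star.star (ζ i)‖ ≤ δ
  rw [← star_sub, norm_star]
  exact h3 i hi

theorem Chain.th (hP : IsPrj P) {δ : ℝ} {n : ℕ} {u : B} (hu : Chain P δ n u) :
    Chain P δ n (F.th u) := by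
  obtain ⟨ζ, h0, h1, h2, h3⟩ := hu
  refine ⟨fun i => F.th (ζ i), by simp [h0, F.th_one], by simp [h1], fun i => F.th_mem hP (h2 i), fun i hi => ?_⟩
  exact (F.norm_th_sub_le hP _ _).trans (h3 i hi)

theorem Chain.of_near {δ : ℝ} {n : ℕ} (hn : 0 < n) {u : B} (hu : u ∈ UD P) (h : ‖u - 1‖ ≤ δ) :
    Chain P δ n u := by
  refine ⟨fun i => if i < n then 1 else u, by simp [hn], by simp, fun i => ?_, fun i hi => ?_⟩
  · by_cases h1 : i < n
    · simp only [h1, if_true]
      exact UD_one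
    · simp only [h1, if_false]
      exact hu
  · have h0 : 0 ≤ δ := (norm_nonneg _).trans h
    simp only [hi, if_true]
    by_cases h1 : i + 1 < n
    · simp only [h1, if_true, sub_self, norm_zero]
      exact h0
    · simp only [h1, if_false]
      exact h

theorem Ch_one : Ch P (1 : B) := by
  intro δ hδ
  exact ⟨1, Chain.of_near one_pos UD_one (by rw [sub_self, norm_zero]; exact hδ.le)⟩

theorem Ch.mem {u : B} (hu : Ch P u) : u ∈ UD P := by
  obtain ⟨n, ζ, -, h1, h2, -⟩ := hu 1 one_pos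
  rw [← h1]
  exact h2 n

theorem Ch.mul {u v : B} (hu : Ch P u) (hv : Ch P v) : Ch P (u * v) := by
  intro δ hδ
  obtain ⟨n, ζ, h0, h1, h2, h3⟩ := hu δ hδ
  obtain ⟨m, η, k0, k1, k2, k3⟩ := hv δ hδ
  refine ⟨n + m, fun i => ζ (min i n) * η (i - n), ?_, ?_, fun i => UD_mul (h2 _) (k2 _), fun i hi => ?_⟩
  · simp [h0, k0]
  · simp [h1, k1]
  · change ‖ζ (min (i + 1) n) * η (i + 1 - n) - ζ (min i n) * η (i - n)‖ ≤ δ
    by_cases h : i < n
    · have e1 : min (i + 1) n = i + 1 := by omega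
      have e2 : i + 1 - n = 0 := by omega
      have e3 : min i n = i := by omega
      have e4 : i - n = 0 := by omega
      rw [e1, e2, e3, e4, k0, mul_one, mul_one]
      exact h3 i h
    · have e1 : min (i + 1) n = n := by omega
      have e2 : i + 1 - n = (i - n) + 1 := by omega
      have e3 : min i n = n := by omega
      rw [e1, e2, e3, ← mul_sub, norm_UD_mul (h2 n)]
      exact k3 _ (by omega)

theorem Ch.star (hP : IsPrj P) {u : B} (hu : Ch P u) : Ch P (star u) := by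
  intro δ hδ
  obtain ⟨n, hn⟩ := hu δ hδ
  exact ⟨n, hn.star hP⟩

theorem Ch.th (hP : IsPrj P) {u : B} (hu : Ch P u) : Ch P (F.th u) := by
  intro δ hδ
  obtain ⟨n, hn⟩ := hu δ hδ
  exact ⟨n, hn.th F hP⟩

theorem Ch.th_iter (hP : IsPrj P) {u : B} (hu : Ch P u) (n : ℕ) : Ch P (F.th^[n] u) := by
  induction n with
  | zero => exact hu
  | succ n ih =>
    rw [Function.iterate_succ_apply']
    exact ih.th F hP

end

end Pool.Agent.AUE
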