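import Pool.Agent.AUE.Defs

/-!
# Cnt: counting paths

`G.paths n u v` is the finset of paths of length `n` from `u` to `v`; `G.cnt n Q` is the matrix of the
numbers of such paths with property `Q`. All proofs: induction on `n` (resp. `a`).
`cnt_append`: `l ↦ (l.take a, l.drop a)` is a bijection from the paths of length `a + b` from `u` to
`v` onto the disjoint union over `w` of pairs of a path of length `a` from `u` to `w` and a path of
length `b` from `w` to `v`.
-/

namespace Pool.Agent.AUE

open scoped Classical in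
/-- Paths of length `n` from `u` to `v`. -/
noncomputable def Gr.paths {V : Type} (G : Gr V) : ℕ → V → V → Finset (List G.Ed)
  | 0, u, v => if u = v then {[]} else ∅
  | n + 1, u, v => (Finset.univ.filter (fun e => G.s e = u)).biUnion
      (fun e => (G.paths n (G.r e) v).image (List.cons e))

open scoped Classical in
/-- The matrix of the numbers of paths of length `n` with property `Q`. -/
noncomputable def Gr.cnt {V : Type} (G : Gr V) (n : ℕ) (Q : List G.Ed → Prop) : Matrix V V ℕ :=
  fun u v => ((G.paths n u v).filter Q).card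

/-- The adjacency matrix. -/
noncomputable def Gr.adj {V : Type} (G : Gr V) : Matrix V V ℕ := G.cnt 1 (fun _ => True)

variable {V : Type} (G : Gr V)

open scoped Classical in
/-- The set counted by `cnt`. -/
noncomputable def Cnt_set (n : ℕ) (Q : List G.Ed → Prop) (u v : V) : Finset (List G.Ed) :=
  (G.paths n u v).filter Q

theorem Cnt_mem_set {n : ℕ} {Q : List G.Ed → Prop} {u v : V} {l : List G.Ed} :
    l ∈ Cnt_set G n Q u v ↔ l ∈ G.paths n u v ∧ Q l := by
  classical
  unfold Cnt_set
  exact Finset.mem_filter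

theorem Cnt_eq (n : ℕ) (Q : List G.Ed → Prop) (u v : V) :
    G.cnt n Q u v = (Cnt_set G n Q u v).card := rfl

theorem Gr.mem_paths {n : ℕ} {u v : V} {l : List G.Ed} :
    l ∈ G.paths n u v ↔ l.length = n ∧ G.Walk u l v := by
  classical
  induction n generalizing u l with
  | zero =>
    unfold Gr.paths
    by_cases h : u = v
    · rw [if_pos h, Finset.mem_singleton]
      constructor
      · rintro rfl
        exact ⟨rfl, h⟩
      · rintro ⟨h1, -⟩
        exact List.length_eq_zero_iff.1 h1
    · rw [if_neg h]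
      constructor
      · intro h1
        simp at h1
      · rintro ⟨h1, h2⟩
        rw [List.length_eq_zero_iff] at h1
        subst h1
        exact absurd h2 h
  | succ n ih =>
    unfold Gr.paths
    rw [Finset.mem_biUnion]
    constructor
    · rintro ⟨e, he, hl⟩
      rw [Finset.mem_filter] at he
      rw [Finset.mem_image] at hl
      obtain ⟨l', hl', rfl⟩ := hl
      obtain ⟨h1, h2⟩ := ih.1 hl'
      exact ⟨by simp [h1], he.2, h2⟩
    · rintro ⟨h1, h2⟩
      cases l with
      | nil => simp at h1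
      | cons e l =>
        obtain ⟨h3, h4⟩ := h2
        refine ⟨e, ?_, ?_⟩
        · rw [Finset.mem_filter]
          exact ⟨Finset.mem_univ _, h3⟩
        · rw [Finset.mem_image]
          exact ⟨l, ih.2 ⟨by simpa using h1, h4⟩, rfl⟩

theorem Gr.walk_append {u v : V} {l l' : List G.Ed} :
    G.Walk u (l ++ l') v ↔ ∃ w, G.Walk u l w ∧ G.Walk w l' v := by
  induction l generalizing u with
  | nil =>
    constructor
    · intro h
      exact ⟨u, rfl, h⟩
    · rintro ⟨w, h1, h2⟩
      have h3 : u = w := h1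
      subst h3
      exact h2
  | cons e l ih =>
    constructor
    · rintro ⟨h1, h2⟩
      obtain ⟨w, h3, h4⟩ := ih.1 h2
      exact ⟨w, ⟨h1, h3⟩, h4⟩
    · rintro ⟨w, ⟨h1, h3⟩, h4⟩
      exact ⟨h1, ih.2 ⟨w, h3, h4⟩⟩

/-- The range of a path is determined by the source and the list. -/
theorem Gr.walk_right_unique {u v v' : V} {l : List G.Ed} (h : G.Walk u l v)
    (h' : G.Walk u l v') : v = v' := by
  induction l generalizing u with
  | nil =>
    have h1 : u = v := h
    have h2 : u = v' := h'
    rw [← h1, ← h2]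
  | cons e l ih => exact ih h.2 h'.2

/-- The source of a path is determined by the range and the list. -/
theorem Gr.walk_left_unique {u u' v : V} {l : List G.Ed} (h : G.Walk u l v)
    (h' : G.Walk u' l v) : u = u' := by
  cases l with
  | nil =>
    have h1 : u = v := h
    have h2 : u' = v := h'
    rw [h1, h2]
  | cons e l => exact h.1.symm.trans h'.1

theorem Gr.cnt_congr {n : ℕ} {Q Q' : List G.Ed → Prop}
    (h : ∀ u v l, l.length = n → G.Walk u l v → (Q l ↔ Q' l)) : G.cnt n Q = G.cnt n Q' := by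
  classical
  funext u v
  unfold Gr.cnt
  congr 1
  apply Finset.filter_congr
  intro l hl
  obtain ⟨h1, h2⟩ := G.mem_paths.1 hl
  exact h u v l h1 h2

theorem Gr.cnt_mono {n : ℕ} {Q Q' : List G.Ed → Prop}
    (h : ∀ u v l, l.length = n → G.Walk u l v → Q l → Q' l) (u v : V) :
    G.cnt n Q u v ≤ G.cnt n Q' u v := by
  classical
  unfold Gr.cnt
  apply Finset.card_le_card
  intro l hl
  rw [Finset.mem_filter] at hl ⊢
  obtain ⟨h1, h2⟩ := G.mem_paths.1 hl.1
  exact ⟨hl.1, h u v l h1 h2 hl.2⟩

/-- Disjoint properties. -/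
theorem Gr.cnt_or {n : ℕ} {Q Q' : List G.Ed → Prop}
    (h : ∀ u v l, l.length = n → G.Walk u l v → Q l → ¬ Q' l) :
    G.cnt n (fun l => Q l ∨ Q' l) = G.cnt n Q + G.cnt n Q' := by
  classical
  funext u v
  rw [Matrix.add_apply]
  unfold Gr.cnt
  rw [← Finset.card_union_of_disjoint]
  · congr 1
    ext l
    simp only [Finset.mem_filter, Finset.mem_union]
    tauto
  · rw [Finset.disjoint_left]
    intro l hl hl'
    rw [Finset.mem_filter] at hl hl'
    obtain ⟨h1, h2⟩ := G.mem_paths.1 hl.1
    exact h u v l h1 h2 hl.2 hl'.2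

/-- Disjoint families of properties. -/
theorem Gr.cnt_exists {n : ℕ} {ι : Type} (s : Finset ι) {Q : ι → List G.Ed → Prop}
    (h : ∀ u v l, l.length = n → G.Walk u l v → ∀ i ∈ s, ∀ j ∈ s, Q i l → Q j l → i = j) :
    G.cnt n (fun l => ∃ i ∈ s, Q i l) = ∑ i ∈ s, G.cnt n (Q i) := by
  classical
  funext u v
  rw [Matrix.sum_apply]
  unfold Gr.cnt
  rw [← Finset.card_biUnion]
  · congr 1
    ext l
    simp only [Finset.mem_filter, Finset.mem_biUnion]
    constructor
    · rintro ⟨h1, i, hi, h2⟩
      exact ⟨i, hi, h1, h2⟩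
    · rintro ⟨i, hi, h1, h2⟩
      exact ⟨h1, i, hi, h2⟩
  · intro i hi j hj hij
    rw [Function.onFun, Finset.disjoint_left]
    intro l hl hl'
    rw [Finset.mem_filter] at hl hl'
    obtain ⟨h1, h2⟩ := G.mem_paths.1 hl.1
    exact hij (h u v l h1 h2 i hi j hj hl.2 hl'.2)

section

variable [Fintype V] [DecidableEq V]

theorem Gr.cnt_append (a b : ℕ) (Q Q' : List G.Ed → Prop) :
    G.cnt (a + b) (fun l => Q (l.take a) ∧ Q' (l.drop a)) = G.cnt a Q * G.cnt b Q' := by
  classical
  funext u v
  rw [Matrix.mul_apply]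
  simp only [Cnt_eq, ← Finset.card_product]
  rw [← Finset.card_sigma]
  symm
  refine Finset.card_bij (fun p _ => p.2.1 ++ p.2.2) ?_ ?_ ?_
  · rintro ⟨w, l, l'⟩ hp
    simp only [Finset.mem_sigma, Finset.mem_univ, true_and, Finset.mem_product,
      Cnt_mem_set] at hp
    obtain ⟨⟨h1, h2⟩, h3, h4⟩ := hp
    obtain ⟨h5, h6⟩ := G.mem_paths.1 h1
    obtain ⟨h7, h8⟩ := G.mem_paths.1 h3
    rw [Cnt_mem_set]
    refine ⟨G.mem_paths.2 ⟨by simp [h5, h7], (G.walk_append).2 ⟨w, h6, h8⟩⟩, ?_, ?_⟩
    · have e : (l ++ l').take a = l := by rw [← h5]; exact List.take_left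
      rw [e]
      exact h2
    · have e : (l ++ l').drop a = l' := by rw [← h5]; exact List.drop_left
      rw [e]
      exact h4
  · rintro ⟨w, l, l'⟩ hp ⟨w', m, m'⟩ hp' he
    simp only [Finset.mem_sigma, Finset.mem_univ, true_and, Finset.mem_product,
      Cnt_mem_set] at hp hp'
    obtain ⟨⟨h1, -⟩, h3, -⟩ := hp
    obtain ⟨⟨h1', -⟩, h3', -⟩ := hp'
    obtain ⟨h5, h6⟩ := G.mem_paths.1 h1
    obtain ⟨h5', h6'⟩ := G.mem_paths.1 h1'
    obtain ⟨e1, e2⟩ := List.append_inj he (h5.trans h5'.symm)
    simp only at e1 e2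
    subst e1 e2
    have := G.walk_right_unique h6 h6'
    subst this
    rfl
  · intro l hl
    rw [Cnt_mem_set] at hl
    obtain ⟨h1, h2, h3⟩ := hl
    obtain ⟨h4, h5⟩ := G.mem_paths.1 h1
    rw [← List.take_append_drop a l, G.walk_append] at h5
    obtain ⟨w, h6, h7⟩ := h5
    refine ⟨⟨w, l.take a, l.drop a⟩, ?_, List.take_append_drop a l⟩
    simp only [Finset.mem_sigma, Finset.mem_univ, true_and, Finset.mem_product,
      Cnt_mem_set]
    refine ⟨⟨G.mem_paths.2 ⟨?_, h6⟩, h2⟩, G.mem_paths.2 ⟨?_, h7⟩, h3⟩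
    · rw [List.length_take, h4]
      omega
    · rw [List.length_drop, h4]
      omega

theorem Gr.cnt_zero {Q : List G.Ed → Prop} (hQ : Q []) : G.cnt 0 Q = 1 := by
  classical
  funext u v
  rw [Matrix.one_apply]
  unfold Gr.cnt Gr.paths
  by_cases h : u = v
  · rw [if_pos h, if_pos h, Finset.filter_true_of_mem]
    · rfl
    · intro l hl
      rw [Finset.mem_singleton] at hl
      rw [hl]
      exact hQ
  · rw [if_neg h, if_neg h]
    simp

theorem Gr.cnt_true (n : ℕ) : G.cnt n (fun _ => True) = G.adj ^ n := by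
  induction n with
  | zero => rw [pow_zero]; exact G.cnt_zero trivial
  | succ n ih =>
    rw [pow_succ, ← ih, Gr.adj, ← G.cnt_append n 1]
    exact G.cnt_congr (fun _ _ _ _ _ => by simp)

end

end Pool.Agent.AUE
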