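import Pool.Agent.AUE.Mark

/-!
# CntM: counting markers

PROOFS.
* `cnt_isM`: `isM l ↔ isM (l.take (k+1))`, `cnt_append` with `a = k + 1`; `cnt (k+1) isM = 1`: a path
  of length `k + 1` from `u` to `v` starting with `mk v'` is `mk v'`, so `v' = u = v`, and `mk u` is a
  path from `u` to `u`.
* `cnt_clean_succ`: `cnt t clean * adj = cnt (t+1) (clean (take t))` (`cnt_append`), now `clean_succ`
  (the two alternatives are disjoint: `isM (l.drop (t-k))` is not clean), `cnt_or`, `cnt_append`,
  `cnt_isM` with `n = k + 1`.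
* `cnt_clean_small`: words of length `≤ k` are clean.
* `cnt_fstAt`: `fstAt_iff`, `cnt_append` with `a = t`, `cnt_isM`.
* `adj_cnt_clean`: strong induction on `t` from `cnt_clean_succ`, `cnt_clean_small`.
* `adj_pow_eq`: `clean_or_fstAt`, `fstAt_unique`, `cnt_or`, `cnt_exists`.
* `cnt_clean_jump`: words of length `t + 2 (k+1)` which are clean, and words with `clean (take t)`
  and a marker at position `t + k + 1`, are disjoint subsets of the words with `clean (take t)`.
* `cnt_clean_le`: `clean l → clean (l.take t)`.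
-/

namespace Pool.Agent.AUE

variable {V : Type} {G : Gr V} {x y : V → G.Ed} (k : ℕ) (h : Loops G x y) [Fintype V]
  [DecidableEq V]

omit [Fintype V] [DecidableEq V] in
theorem CntM_len (v : V) : (mk x y k v).length = k + 1 := by
  simp [mk]

omit [Fintype V] [DecidableEq V] in
theorem CntM_ne (v : V) : mk x y k v ≠ [] := by
  simp [mk]

omit [Fintype V] [DecidableEq V] in
theorem CntM_src {l : List G.Ed} (hl : l ≠ []) {u u' v v' : V} (h1 : G.Walk u l v) (h2 : G.Walk u' l v') :
    u = u' := by
  cases l with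
  | nil => exact absurd rfl hl
  | cons e l => exact h1.1.symm.trans h2.1

include h in
omit [Fintype V] [DecidableEq V] in
theorem CntM_walk (v : V) : G.Walk v (mk x y k v) v := by
  induction k with
  | zero => exact ⟨h.sy v, h.ry v⟩
  | succ k ih =>
    have e : mk x y (k + 1) v = x v :: mk x y k v := by
      simp [mk, List.replicate_succ]
    rw [e]
    refine ⟨h.sx v, ?_⟩
    rw [h.rx v]
    exact ih

omit [Fintype V] [DecidableEq V] in
theorem CntM_take {l : List G.Ed} (t : ℕ) (hl : clean x y k l) : clean x y k (l.take t) := by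
  intro i hi
  rw [List.drop_take] at hi
  exact hl i (isM_of_take x y k hi)

include h in
theorem cnt_isM {n : ℕ} (hn : k + 1 ≤ n) : G.cnt n (isM x y k) = G.adj ^ (n - (k + 1)) := by
  classical
  have h1 : G.cnt (k + 1) (isM x y k) = 1 := by
    ext u v
    rw [Matrix.one_apply]
    unfold Gr.cnt
    by_cases huv : u = v
    · subst huv
      rw [if_pos rfl, Finset.card_eq_one]
      refine ⟨mk x y k u, ?_⟩
      ext l
      rw [Finset.mem_filter, Finset.mem_singleton, Gr.mem_paths]
      constructor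
      · rintro ⟨⟨hl, hw⟩, v', hv'⟩
        have e1 : mk x y k v' = l := hv'.eq_of_length (by rw [CntM_len, hl])
        subst e1
        rw [CntM_src (CntM_ne k v') hw (CntM_walk k h v')]
      · rintro rfl
        exact ⟨⟨CntM_len k u, CntM_walk k h u⟩, u, List.prefix_rfl⟩
    · rw [if_neg huv, Finset.card_eq_zero, Finset.filter_eq_empty_iff]
      rintro l hl ⟨v', hv'⟩
      rw [Gr.mem_paths] at hl
      obtain ⟨hl, hw⟩ := hl
      have e1 : mk x y k v' = l := hv'.eq_of_length (by rw [CntM_len, hl])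
      subst e1
      have e2 := CntM_src (CntM_ne k v') hw (CntM_walk k h v')
      subst e2
      exact huv (Gr.walk_right_unique G (CntM_walk k h u) hw)
  have h2 := Gr.cnt_append G (k + 1) (n - (k + 1)) (isM x y k) (fun _ => True)
  rw [h1, one_mul, Gr.cnt_true, Nat.add_sub_cancel' hn] at h2
  rw [← h2]
  apply Gr.cnt_congr
  intro u v l _ _
  rw [isM_take x y k le_rfl]
  simp

include h in
theorem cnt_clean_succ {t : ℕ} (ht : k ≤ t) :
    G.cnt (t + 1) (clean x y k) + G.cnt (t - k) (clean x y k) = G.cnt t (clean x y k) * G.adj := by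
  have h1 : G.adj = G.cnt 1 (fun _ => True) := rfl
  rw [h1, ← Gr.cnt_append G t 1 (clean x y k) (fun _ => True)]
  have h2 : G.cnt (t + 1) (fun l => clean x y k (l.take t) ∧ (fun _ => True) (l.drop t)) =
      G.cnt (t + 1) (fun l => clean x y k l ∨ (clean x y k (l.take (t - k)) ∧ isM x y k (l.drop (t - k)))) := by
    apply Gr.cnt_congr
    intro u v l hl _
    rw [← clean_succ x y k h hl ht]
    simp
  rw [h2, Gr.cnt_or]
  · congr 1
    have h3 := Gr.cnt_append G (t - k) (k + 1) (clean x y k) (isM x y k)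
    have e : t - k + (k + 1) = t + 1 := by omega
    rw [e, cnt_isM k h le_rfl, Nat.sub_self, pow_zero, mul_one] at h3
    exact h3.symm
  · rintro u v l _ _ hl ⟨_, h4⟩
    exact hl _ h4

theorem cnt_clean_small {t : ℕ} (ht : t ≤ k) : G.cnt t (clean x y k) = G.adj ^ t := by
  rw [← Gr.cnt_true]
  apply Gr.cnt_congr
  intro u v l hl _
  refine ⟨fun _ => trivial, fun _ i hi => ?_⟩
  have h1 := isM_length x y k hi
  rw [List.length_drop] at h1
  omega

include h in
theorem cnt_fstAt {m t : ℕ} (ht : t + k + 1 ≤ m) :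
    G.cnt m (fstAt x y k t) = G.cnt t (clean x y k) * G.adj ^ (m - (t + k + 1)) := by
  have h1 := Gr.cnt_append G t (m - t) (clean x y k) (isM x y k)
  rw [Nat.add_sub_cancel' (by omega : t ≤ m), cnt_isM k h (by omega)] at h1
  have e : m - t - (k + 1) = m - (t + k + 1) := by omega
  rw [e] at h1
  rw [← h1]
  apply Gr.cnt_congr
  intro u v l _ _
  exact fstAt_iff x y k h

include h in
theorem adj_cnt_clean (t : ℕ) : G.adj * G.cnt t (clean x y k) = G.cnt t (clean x y k) * G.adj := by
  induction t using Nat.strong_induction_on with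
  | _ t ih =>
    rcases le_or_gt t k with ht | ht
    · rw [cnt_clean_small k ht, ← pow_succ, ← pow_succ']
    · obtain ⟨s, rfl⟩ : ∃ s, t = s + 1 := ⟨t - 1, by omega⟩
      have h1 := cnt_clean_succ k h (t := s) (by omega)
      have h2 := ih s (by omega)
      have h3 := ih (s - k) (by omega)
      have h4 : G.adj * (G.cnt (s + 1) (clean x y k) + G.cnt (s - k) (clean x y k)) =
          (G.cnt (s + 1) (clean x y k) + G.cnt (s - k) (clean x y k)) * G.adj := by
        rw [h1, ← mul_assoc, h2]
      rw [mul_add, add_mul, h3] at h4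
      ext u v
      have h5 := congrFun (congrFun h4 u) v
      rw [Matrix.add_apply, Matrix.add_apply] at h5
      exact Nat.add_right_cancel h5

theorem adj_pow_eq {m : ℕ} (hm : k ≤ m) :
    G.adj ^ m = G.cnt m (clean x y k) + ∑ t ∈ Finset.range (m - k), G.cnt m (fstAt x y k t) := by
  rw [← Gr.cnt_true]
  have h1 : G.cnt m (fun _ => True) =
      G.cnt m (fun l => clean x y k l ∨ ∃ t ∈ Finset.range (m - k), fstAt x y k t l) := by
    apply Gr.cnt_congr
    intro u v l hl _
    refine ⟨fun _ => ?_, fun _ => trivial⟩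
    rcases clean_or_fstAt x y k l with h2 | ⟨t, ht, h2⟩
    · exact Or.inl h2
    · exact Or.inr ⟨t, Finset.mem_range.mpr (by omega), h2⟩
  rw [h1, Gr.cnt_or]
  · congr 1
    apply Gr.cnt_exists
    intro u v l _ _ i _ i' _ h2 h3
    exact fstAt_unique x y k h2 h3
  · rintro u v l _ _ hl ⟨t, _, h2⟩
    exact not_clean_of_fstAt x y k h2 hl

include h in
theorem cnt_clean_jump (t : ℕ) (u v : V) :
    (G.cnt (t + 2 * (k + 1)) (clean x y k) + G.cnt t (clean x y k) * G.adj ^ (k + 1)) u v ≤
      (G.cnt t (clean x y k) * G.adj ^ (2 * (k + 1))) u v := by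
  have h1 := Gr.cnt_append G t (2 * (k + 1)) (clean x y k) (fun _ => True)
  rw [Gr.cnt_true] at h1
  have h2 := Gr.cnt_append G (k + 1) (k + 1) (fun _ => True) (isM x y k)
  rw [Gr.cnt_true, cnt_isM k h le_rfl, Nat.sub_self, pow_zero, mul_one] at h2
  have h3 := Gr.cnt_append G t (k + 1 + (k + 1)) (clean x y k)
    (fun l => (fun _ => True) (l.take (k + 1)) ∧ isM x y k (l.drop (k + 1)))
  rw [h2] at h3
  have e : 2 * (k + 1) = k + 1 + (k + 1) := by ring
  rw [← h1, ← h3, e]
  have h4 := Gr.cnt_or G (n := t + (k + 1 + (k + 1))) (Q := clean x y k)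
    (Q' := fun l => clean x y k (l.take t) ∧
      ((fun _ => True) ((l.drop t).take (k + 1)) ∧ isM x y k ((l.drop t).drop (k + 1)))) ?_
  · rw [← h4]
    apply Gr.cnt_mono
    rintro u v l _ _ (h5 | h5)
    · exact ⟨CntM_take k t h5, trivial⟩
    · exact ⟨h5.1, trivial⟩
  · rintro u v l _ _ hl ⟨_, _, h5⟩
    rw [List.drop_drop] at h5
    exact hl _ h5

theorem cnt_clean_le (t j : ℕ) (u v : V) :
    G.cnt (t + j) (clean x y k) u v ≤ (G.cnt t (clean x y k) * G.adj ^ j) u v := by
  have h1 := Gr.cnt_append G t j (clean x y k) (fun _ => True)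
  rw [Gr.cnt_true] at h1
  rw [← h1]
  apply Gr.cnt_mono
  intro u v l _ _ h5
  exact ⟨CntM_take k t h5, trivial⟩

end Pool.Agent.AUE
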