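import Pool.Agent.AUE.Ph1

/-!
# KG: all finite graphs in which no cycle component is a single cycle

`KG G`: for every edge `e` on a closed path there are, in the strongly connected component of `e`, two
different edges with the same source whose ranges lead back.

PROOF of `sol_KG`: induction on `card Z` for a finite set `Z` of vertices containing all sources and
ranges. If `Z = ∅`: no edges, `sol_empty`. Otherwise choose `v ∈ Z` with
`Y = {u | Reach v u}` (`⊆ Z` ) of minimal cardinality. `Y` is hereditary, `v ∈ Y`; for `u ∈ Y`: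
`{w | Reach u w} ⊆ Y`, so equality by minimality, `Reach u v`. `sol_split`: the first graph `G_Y` (edges
with source in `Y`, all their ranges are in `Y`): if it has no edges, `sol_empty`. Otherwise `SC G_Y`
(paths starting in `Y` stay in `Y`) and if `e` is an edge of it then `Reach (r e) (s e)`, so `KG` gives
`f ≠ f'` with the same source, reachable from `s e ∈ Y`, so edges of `G_Y`: `sol_ph1`.
The second graph (sources and ranges outside `Y`) has its edges in `Z \\ Y`, fewer vertices. It
satisfies `KG`: if `e` is an edge of it with `Reach (r e) (s e)` in it, the `f, f'` of `KG G` lie outside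
`Y`: their ranges reach `s e ∉ Y` and `Y` is hereditary, so `r f, r f' ∉ Y`, `s f ∉ Y` (`Y` hereditary);
and the paths between them have all vertices outside `Y` (all vertices on a path to a vertex
outside `Y` are outside `Y`).
-/

namespace Pool.Agent.AUE

/-- No strongly connected component is a single cycle. -/
def KG {V : Type} (G : Gr V) : Prop :=
  ∀ e : G.Ed, G.Reach (G.r e) (G.s e) → ∃ f f' : G.Ed, f ≠ f' ∧ G.s f = G.s f' ∧
    G.Reach (G.s e) (G.s f) ∧ G.Reach (G.r f) (G.s e) ∧ G.Reach (G.r f') (G.s e)

theorem KG_reach_mem {V : Type} {G : Gr V} {Y : Set V} (hY : ∀ e, G.s e ∈ Y → G.r e ∈ Y) {a b : V}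
    (h : G.Reach a b) (ha : a ∈ Y) : b ∈ Y := by
  induction h with
  | refl => exact ha
  | tail _ hs ih =>
    obtain ⟨e, he1, he2⟩ := hs
    rw [← he2]
    exact hY e (by rw [he1]; exact ih)

theorem KG_reach_in {V : Type} {G : Gr V} {Y : Set V} (hY : ∀ e, G.s e ∈ Y → G.r e ∈ Y) {a b : V}
    (h : G.Reach a b) (ha : a ∈ Y) : (G.restrict (fun e => G.s e ∈ Y)).Reach a b := by
  induction h with
  | refl => exact Relation.ReflTransGen.refl
  | @tail b c hab hs ih =>
    obtain ⟨e, he1, he2⟩ := hs
    refine Relation.ReflTransGen.tail ih ⟨⟨e, ?_⟩, he1, he2⟩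
    show G.s e ∈ Y
    rw [he1]
    exact KG_reach_mem hY hab ha

theorem KG_reach_out {V : Type} {G : Gr V} {Y : Set V} (hY : ∀ e, G.s e ∈ Y → G.r e ∈ Y) {a b : V}
    (h : G.Reach a b) (hb : b ∉ Y) :
    (G.restrict (fun e => G.s e ∉ Y ∧ G.r e ∉ Y)).Reach a b := by
  induction h using Relation.ReflTransGen.head_induction_on with
  | refl => exact Relation.ReflTransGen.refl
  | @head a c hs hcb ih =>
    obtain ⟨e, he1, he2⟩ := hs
    have hc : c ∉ Y := fun hc => hb (KG_reach_mem hY hcb hc)
    refine Relation.ReflTransGen.head ⟨⟨e, ?_, ?_⟩, he1, he2⟩ ih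
    · intro h
      exact hc (he2 ▸ hY e h)
    · rw [he2]
      exact hc

theorem KG_reach_of {V : Type} {G : Gr V} {Q : G.Ed → Prop} {a b : V}
    (h : (G.restrict Q).Reach a b) : G.Reach a b := by
  induction h with
  | refl => exact Relation.ReflTransGen.refl
  | tail _ hs ih =>
    obtain ⟨e, he1, he2⟩ := hs
    exact Relation.ReflTransGen.tail ih ⟨e.1, he1, he2⟩

theorem KG_aux {V : Type} [Fintype V] (n : ℕ) : ∀ (G : Gr V) (Z : Finset V), Z.card = n →
    (∀ e, G.s e ∈ Z ∧ G.r e ∈ Z) → KG G → Sol G := by
  classical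
  induction n using Nat.strong_induction_on with
  | _ n ih =>
    intro G Z hZ hsr hG
    by_cases hne : Z.Nonempty
    · obtain ⟨v, hvZ, hmin⟩ := Finset.exists_min_image Z (fun v => ({u | G.Reach v u} : Set V).ncard) hne
      set Y : Set V := {u | G.Reach v u} with hYdef
      have hY : ∀ e, G.s e ∈ Y → G.r e ∈ Y := fun e he =>
        Relation.ReflTransGen.tail he ⟨e, rfl, rfl⟩
      have hvY : v ∈ Y := Relation.ReflTransGen.refl
      have hYZ : ∀ u ∈ Y, u ∈ Z := by
        intro u hu
        rcases Relation.ReflTransGen.cases_tail hu with h | ⟨w, _, e, _, he2⟩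
        · rw [h]; exact hvZ
        · rw [← he2]; exact (hsr e).2
      have hback : ∀ u ∈ Y, G.Reach u v := by
        intro u hu
        have hsub : ({w | G.Reach u w} : Set V) ⊆ Y := fun w hw => Relation.ReflTransGen.trans hu hw
        have heq : ({w | G.Reach u w} : Set V) = Y :=
          Set.eq_of_subset_of_ncard_le hsub (hmin u (hYZ u hu)) (Set.toFinite _)
        have : v ∈ ({w | G.Reach u w} : Set V) := by rw [heq]; exact hvY
        exact this
      refine sol_split G Y hY ?_ ?_
      · by_cases hE : IsEmpty (G.restrict (fun e => G.s e ∈ Y)).Ed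
        · exact sol_empty _ hE
        · rw [not_isEmpty_iff] at hE
          obtain ⟨e₀⟩ := hE
          refine sol_ph1 _ ?_ ?_
          · intro e f
            have h1 : G.r e.1 ∈ Y := hY _ e.2
            have h2 : G.Reach (G.r e.1) (G.s f.1) :=
              Relation.ReflTransGen.trans (hback _ h1) f.2
            exact KG_reach_in hY h2 h1
          · have h1 : G.r e₀.1 ∈ Y := hY _ e₀.2
            have h2 : G.Reach (G.r e₀.1) (G.s e₀.1) :=
              Relation.ReflTransGen.trans (hback _ h1) e₀.2
            obtain ⟨f, f', hff, hs, hr1, -, -⟩ := hG e₀.1 h2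
            have hf : G.s f ∈ Y := KG_reach_mem hY hr1 e₀.2
            have hf' : G.s f' ∈ Y := hs ▸ hf
            refine ⟨⟨f, hf⟩, ⟨f', hf'⟩, fun h => hff (congrArg Subtype.val h), hs⟩
      · have hlt : (Z.filter (fun u => u ∉ Y)).card < n := by
          rw [← hZ]
          refine Finset.card_lt_card ?_
          rw [Finset.filter_ssubset]
          exact ⟨v, hvZ, fun h => h hvY⟩
        refine ih _ hlt _ _ rfl ?_ ?_
        · intro e
          exact ⟨Finset.mem_filter.2 ⟨(hsr e.1).1, e.2.1⟩, Finset.mem_filter.2 ⟨(hsr e.1).2, e.2.2⟩⟩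
        · intro e he
          obtain ⟨f, f', hff, hs, h1, h2, h3⟩ := hG e.1 (KG_reach_of he)
          have hse : G.s e.1 ∉ Y := e.2.1
          have hrf : G.r f ∉ Y := fun h => hse (KG_reach_mem hY h2 h)
          have hrf' : G.r f' ∉ Y := fun h => hse (KG_reach_mem hY h3 h)
          have hsf : G.s f ∉ Y := fun h => hrf (hY f h)
          have hsf' : G.s f' ∉ Y := hs ▸ hsf
          refine ⟨⟨f, hsf, hrf⟩, ⟨f', hsf', hrf'⟩, fun h => hff (congrArg Subtype.val h), hs,
            KG_reach_out hY h1 hsf, KG_reach_out hY h2 hse, KG_reach_out hY h3 hse⟩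
    · rw [Finset.not_nonempty_iff_eq_empty] at hne
      refine sol_empty _ ⟨fun e => ?_⟩
      have := (hsr e).1
      rw [hne] at this
      exact absurd this (Finset.notMem_empty _)

theorem sol_KG {V : Type} [Fintype V] (G : Gr V) (hG : KG G) : Sol G := by
  classical
  exact KG_aux _ G Finset.univ rfl (fun e => ⟨Finset.mem_univ _, Finset.mem_univ _⟩) hG

end Pool.Agent.AUE
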