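import Pool.Agent.GHT.Defs
import Pool.Agent.AUE.KG

/-!
# CondK: condition (K) and finite subgraphs

PROOF of `exists_finite_KG`. For a vertex `v` which lies on a closed path (nonempty path from `v` to
`v`) the shortest nonempty prefix which is a closed path is a return path, so by `(K)` there are two
different return paths `α v ≠ β v` at `v`; neither is a prefix of the other. Let `V₀'` be `V0` with the
sources and ranges of `E0`; `E1 = E0 ∪ ⋃ (edges of α v, β v)` over the `v ∈ V₀'` which lie on a closed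
path in `E`, `V1 = V₀' ∪` sources and ranges of `E1`. Let `G` be this subgraph, `e ∈ E1` with
`Reach_G (r e) (s e)`. (1) If `e ∈ E0`: `v = s e` lies on a closed path (in `E`), so `α v, β v` are paths of
`G`. (2) If `e` is an edge of `α v` or `β v`, then `e` and `v` are mutually reachable in `G` (along this
closed path). In both cases there is `v ∈ V₀'` with `α v`, `β v` in `G`, mutually reachable with `s e`.
Write `α v = γ f …`, `β v = γ f' …` with `γ` the longest common prefix, `f ≠ f'` (neither is a prefix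
of the other): `s f = s f'` is the range of `γ` (or `v`), reachable from `v`, and from `r f`, `r f'` one
reaches `v` along the rest of `α v`, `β v`.
-/

namespace Pool.Agent.AUE

open Pool.Agent.GHT

/-- `l` is a path from `u` to `v`. -/
def IsPath (G : DGraph) : G.V → List G.E → G.V → Prop
  | u, [], v => u = v
  | u, e :: l, v => G.s e = u ∧ IsPath G (G.r e) l v

/-- `l` is a return path at `v`: a path of positive length from `v` to `v` which does not visit `v` in
between. -/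
def IsReturn (G : DGraph) (v : G.V) (l : List G.E) : Prop :=
  l ≠ [] ∧ IsPath G v l v ∧ ∀ l₁ l₂, l = l₁ ++ l₂ → l₁ ≠ [] → l₂ ≠ [] → ¬ IsPath G v l₁ v

/-- Condition (K): no vertex has exactly one return path. -/
def CondK (G : DGraph) : Prop :=
  ∀ v l, IsReturn G v l → ∃ l', IsReturn G v l' ∧ l' ≠ l

/-- A finite subgraph. -/
noncomputable def subG (G : DGraph) (V1 : Finset G.V) (E1 : Finset G.E) (hs : ∀ e ∈ E1, G.s e ∈ V1)
    (hr : ∀ e ∈ E1, G.r e ∈ V1) : Gr {v : G.V // v ∈ V1} :=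
  letI : DecidableEq G.E := Classical.decEq _
  { Ed := {e : G.E // e ∈ E1}
    s := fun e => ⟨G.s e.1, hs e.1 e.2⟩
    r := fun e => ⟨G.r e.1, hr e.1 e.2⟩ }

theorem CondK_app (G : DGraph) (l1 l2 : List G.E) : ∀ (u w : G.V),
    IsPath G u (l1 ++ l2) w ↔ ∃ v, IsPath G u l1 v ∧ IsPath G v l2 w := by
  induction l1 with
  | nil =>
    intro u w
    simp only [List.nil_append, IsPath, exists_eq_left']
  | cons e l ih =>
    intro u w
    simp only [List.cons_append, IsPath]
    rw [ih]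
    constructor
    · rintro ⟨h, v, h1, h2⟩; exact ⟨v, ⟨h, h1⟩, h2⟩
    · rintro ⟨v, ⟨h, h1⟩, h2⟩; exact ⟨h, v, h1, h2⟩

theorem CondK_ret (G : DGraph) (v : G.V) (h : ∃ l, l ≠ [] ∧ IsPath G v l v) : ∃ l, IsReturn G v l := by
  classical
  have h2 : ∃ n, ∃ l : List G.E, l ≠ [] ∧ IsPath G v l v ∧ l.length = n := by
    obtain ⟨l, h1, h2⟩ := h
    exact ⟨_, l, h1, h2, rfl⟩
  obtain ⟨l, h3, h4, h5⟩ := Nat.find_spec h2
  refine ⟨l, h3, h4, ?_⟩
  intro l1 l2 he hl1 hl2 hp
  have h6 := Nat.find_min' h2 ⟨l1, hl1, hp, rfl⟩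
  rw [← h5, he, List.length_append] at h6
  have h7 : 0 < l2.length := List.length_pos_iff.2 hl2
  omega

theorem CondK_split {α : Type} : ∀ (l l' : List α), (¬ ∃ t, l' = l ++ t) → (¬ ∃ t, l = l' ++ t) →
    ∃ γ f f' t t', f ≠ f' ∧ l = γ ++ f :: t ∧ l' = γ ++ f' :: t' := by
  intro l
  induction l with
  | nil => intro l' h1 h2; exact absurd ⟨l', rfl⟩ h1
  | cons x l ih =>
    intro l' h1 h2
    cases l' with
    | nil => exact absurd ⟨x :: l, rfl⟩ h2
    | cons y l' =>
      by_cases hxy : x = y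
      · subst hxy
        obtain ⟨γ, f, f', t, t', h3, h4, h5⟩ := ih l' (fun ⟨t, ht⟩ => h1 ⟨t, by rw [ht]; rfl⟩)
          (fun ⟨t, ht⟩ => h2 ⟨t, by rw [ht]; rfl⟩)
        exact ⟨x :: γ, f, f', t, t', h3, by rw [h4]; rfl, by rw [h5]; rfl⟩
      · exact ⟨[], x, y, l, l', hxy, rfl, rfl⟩

/-- two branching closed paths at `v` -/
def CondKDat (G : DGraph) (v : G.V) (l l' : List G.E) : Prop :=
  IsPath G v l v ∧ IsPath G v l' v ∧
    ∃ γ f f' t t', f ≠ f' ∧ l = γ ++ f :: t ∧ l' = γ ++ f' :: t'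

theorem CondK_dat (G : DGraph) (hK : CondK G) (v : G.V) (h : ∃ l, l ≠ [] ∧ IsPath G v l v) :
    ∃ l l', CondKDat G v l l' := by
  obtain ⟨l, hl⟩ := CondK_ret G v h
  obtain ⟨l', hl', hne⟩ := hK v l hl
  refine ⟨l, l', hl.2.1, hl'.2.1, CondK_split l l' ?_ ?_⟩
  · rintro ⟨t, ht⟩
    refine hl'.2.2 l t ht hl.1 ?_ hl.2.1
    rintro rfl
    exact hne (by rw [ht, List.append_nil])
  · rintro ⟨t, ht⟩
    refine hl.2.2 l' t ht hl'.1 ?_ hl'.2.1
    rintro rfl
    exact hne (by rw [ht, List.append_nil])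

section
variable (G : DGraph) (V1 : Finset G.V) (E1 : Finset G.E) (hs : ∀ e ∈ E1, G.s e ∈ V1)
    (hr : ∀ e ∈ E1, G.r e ∈ V1)

theorem CondK_reach (l : List G.E) (hl : ∀ e ∈ l, e ∈ E1) : ∀ (u w : G.V) (hu : u ∈ V1) (hw : w ∈ V1),
    IsPath G u l w → (subG G V1 E1 hs hr).Reach ⟨u, hu⟩ ⟨w, hw⟩ := by
  induction l with
  | nil =>
    intro u w hu hw h
    simp only [IsPath] at h
    subst h
    exact Relation.ReflTransGen.refl
  | cons e l ih =>
    intro u w hu hw h
    have he := hl e (List.mem_cons_self ..)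
    have h2 := ih (fun x hx => hl x (List.mem_cons_of_mem _ hx)) (G.r e) w (hr e he) hw h.2
    refine Relation.ReflTransGen.head ?_ h2
    exact ⟨⟨e, he⟩, Subtype.ext h.1, rfl⟩

theorem CondK_path (u w : {v : G.V // v ∈ V1}) (h : (subG G V1 E1 hs hr).Reach u w) :
    ∃ l, IsPath G u.1 l w.1 := by
  induction h with
  | refl => exact ⟨[], rfl⟩
  | tail _ hst ih =>
    obtain ⟨l, hl⟩ := ih
    obtain ⟨e, he1, he2⟩ := hst
    refine ⟨l ++ [e.1], (CondK_app G _ _ _ _).2 ⟨_, hl, ?_⟩⟩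
    exact ⟨congrArg Subtype.val he1, congrArg Subtype.val he2⟩
end

theorem exists_finite_KG (G : DGraph) (hK : CondK G) (V0 : Finset G.V) (E0 : Finset G.E) :
    ∃ (V1 : Finset G.V) (E1 : Finset G.E), V0 ⊆ V1 ∧ E0 ⊆ E1 ∧
      ∃ (hs : ∀ e ∈ E1, G.s e ∈ V1) (hr : ∀ e ∈ E1, G.r e ∈ V1), KG (subG G V1 E1 hs hr) := by
  classical
  have hch : ∀ v : G.V, ∃ l l' : List G.E, (∃ m m', CondKDat G v m m') → CondKDat G v l l' := by
    intro v
    by_cases h : ∃ m m', CondKDat G v m m'
    · obtain ⟨l, l', hl⟩ := h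
      exact ⟨l, l', fun _ => hl⟩
    · exact ⟨[], [], fun h' => absurd h' h⟩
  choose al be hab using hch
  let D : G.V → Prop := fun v => ∃ m m', CondKDat G v m m'
  let F : G.V → Finset G.E := fun v => if D v then (al v).toFinset ∪ (be v).toFinset else ∅
  let V0' : Finset G.V := V0 ∪ (E0.image G.s ∪ E0.image G.r)
  let E1 : Finset G.E := E0 ∪ V0'.biUnion F
  let V1 : Finset G.V := V0' ∪ (E1.image G.s ∪ E1.image G.r)
  have hs : ∀ e ∈ E1, G.s e ∈ V1 := fun e he =>
    Finset.mem_union_right _ (Finset.mem_union_left _ (Finset.mem_image_of_mem _ he))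
  have hr : ∀ e ∈ E1, G.r e ∈ V1 := fun e he =>
    Finset.mem_union_right _ (Finset.mem_union_right _ (Finset.mem_image_of_mem _ he))
  refine ⟨V1, E1, ?_, Finset.subset_union_left, hs, hr, ?_⟩
  · intro v hv
    exact Finset.mem_union_left _ (Finset.mem_union_left _ hv)
  rintro ⟨e, he⟩ hre
  have hV : ∀ v ∈ V0', v ∈ V1 := fun v hv => Finset.mem_union_left _ hv
  have hE : ∀ v ∈ V0', D v → (∀ x ∈ al v, x ∈ E1) ∧ (∀ x ∈ be v, x ∈ E1) := by
    intro v hv hD
    have h1 : ∀ x ∈ F v, x ∈ E1 := fun x hx =>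
      Finset.mem_union_right _ (Finset.mem_biUnion.2 ⟨v, hv, hx⟩)
    have h2 : F v = (al v).toFinset ∪ (be v).toFinset := if_pos hD
    rw [h2] at h1
    exact ⟨fun x hx => h1 x (Finset.mem_union_left _ (List.mem_toFinset.2 hx)),
      fun x hx => h1 x (Finset.mem_union_right _ (List.mem_toFinset.2 hx))⟩
  -- the vertex `v`
  have key : ∃ (v : G.V) (hv : v ∈ V0'), D v ∧
      (subG G V1 E1 hs hr).Reach ⟨G.s e, hs e he⟩ ⟨v, hV v hv⟩ ∧
      (subG G V1 E1 hs hr).Reach ⟨v, hV v hv⟩ ⟨G.s e, hs e he⟩ := by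
    rcases Finset.mem_union.1 he with h0 | h1
    · have hv : G.s e ∈ V0' :=
        Finset.mem_union_right _ (Finset.mem_union_left _ (Finset.mem_image_of_mem _ h0))
      refine ⟨G.s e, hv, ?_, Relation.ReflTransGen.refl, Relation.ReflTransGen.refl⟩
      apply CondK_dat G hK
      obtain ⟨l, hl⟩ := CondK_path G V1 E1 hs hr _ _ hre
      exact ⟨e :: l, List.cons_ne_nil _ _, rfl, hl⟩
    · obtain ⟨v, hv, hx⟩ := Finset.mem_biUnion.1 h1
      have hD : D v := by
        by_contra hD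
        have h2 : F v = ∅ := if_neg hD
        rw [h2] at hx
        exact absurd hx (Finset.notMem_empty _)
      have h2 : F v = (al v).toFinset ∪ (be v).toFinset := if_pos hD
      rw [h2] at hx
      have hd := hab v hD
      have hEE := hE v hv hD
      have gen : ∀ l : List G.E, IsPath G v l v → (∀ x ∈ l, x ∈ E1) → e ∈ l →
          (subG G V1 E1 hs hr).Reach ⟨G.s e, hs e he⟩ ⟨v, hV v hv⟩ ∧
          (subG G V1 E1 hs hr).Reach ⟨v, hV v hv⟩ ⟨G.s e, hs e he⟩ := by
        intro l hp hl hel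
        obtain ⟨l1, l2, hl12⟩ := List.append_of_mem hel
        rw [hl12] at hp
        obtain ⟨w, hw1, hw2⟩ := (CondK_app G _ _ _ _).1 hp
        have hw3 : G.s e = w := hw2.1
        subst hw3
        refine ⟨CondK_reach G V1 E1 hs hr (e :: l2) ?_ _ _ _ _ hw2,
          CondK_reach G V1 E1 hs hr l1 ?_ _ _ _ _ hw1⟩
        · intro x hx
          exact hl x (by rw [hl12]; exact List.mem_append_right _ hx)
        · intro x hx
          exact hl x (by rw [hl12]; exact List.mem_append_left _ hx)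
      rcases Finset.mem_union.1 hx with hx | hx
      · have := gen (al v) hd.1 hEE.1 (List.mem_toFinset.1 hx)
        exact ⟨v, hv, hD, this⟩
      · have := gen (be v) hd.2.1 hEE.2 (List.mem_toFinset.1 hx)
        exact ⟨v, hv, hD, this⟩
  obtain ⟨v, hv, hD, hr1, hr2⟩ := key
  obtain ⟨hp1, hp2, γ, f, f', t, t', hff, hl, hl'⟩ := hab v hD
  have hEE := hE v hv hD
  rw [hl] at hp1
  rw [hl'] at hp2
  obtain ⟨w, hw1, hw2⟩ := (CondK_app G _ _ _ _).1 hp1
  obtain ⟨w', hw1', hw2'⟩ := (CondK_app G _ _ _ _).1 hp2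
  have hfE : f ∈ E1 := hEE.1 f (by rw [hl]; simp)
  have hfE' : f' ∈ E1 := hEE.2 f' (by rw [hl']; simp)
  have hww : w = w' := by
    have uniq : ∀ (l : List G.E) (u a b : G.V), IsPath G u l a → IsPath G u l b → a = b := by
      intro l
      induction l with
      | nil => intro u a b h1 h2; exact h1.symm.trans h2
      | cons x l ih => intro u a b h1 h2; exact ih _ _ _ h1.2 h2.2
    exact uniq γ v w w' hw1 hw1'
  subst hww
  have hsf : G.s f = w := hw2.1
  have hsf' : G.s f' = w := hw2'.1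
  refine ⟨⟨f, hfE⟩, ⟨f', hfE'⟩, ?_, ?_, ?_, ?_, ?_⟩
  · intro h
    exact hff (congrArg Subtype.val h)
  · exact Subtype.ext (hsf.trans hsf'.symm)
  · refine hr1.trans ?_
    refine CondK_reach G V1 E1 hs hr γ ?_ _ _ _ _ ?_
    · intro x hx
      exact hEE.1 x (by rw [hl]; exact List.mem_append_left _ hx)
    · rw [hsf]; exact hw1
  · refine Relation.ReflTransGen.trans ?_ hr2
    refine CondK_reach G V1 E1 hs hr t ?_ _ _ _ _ hw2.2
    intro x hx
    exact hEE.1 x (by rw [hl]; exact List.mem_append_right _ (List.mem_cons_of_mem _ hx))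
  · refine Relation.ReflTransGen.trans ?_ hr2
    refine CondK_reach G V1 E1 hs hr t' ?_ _ _ _ _ hw2'.2
    intro x hx
    exact hEE.2 x (by rw [hl']; exact List.mem_append_right _ (List.mem_cons_of_mem _ hx))

end Pool.Agent.AUE
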