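import Pool.Agent.AUE.CntM

/-!
# Decay: clean words are rare

PROOF of `clean_rare`. Let `L = k + 1`, `A = adj`, `B = A^L`, `N t = cnt t clean`, `c ≥ 1` an upper
bound of all entries of `B²`. Since all entries of `B` are `≥ 1`: `B² ≤ c B` entrywise. By
`cnt_clean_jump`: `c N(t+2L) + N(t) B² ≤ c N(t+2L) + c N(t) B ≤ c N(t) B²`, so
`c N(t+2L) ≤ (c-1) N(t) B²`. Induction: `c^j N(2Lj) ≤ (c-1)^j B^(2j) = (c-1)^j A^(2Lj)`
(matrices with entries in `ℕ`, entrywise order; `N 0 = 1`). Choose `j` with `K (c-1)^j ≤ c^j`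
(possible as `(c-1)/c < 1`). Then `K c^j N(2Lj) ≤ K (c-1)^j A^(2Lj) ≤ c^j A^(2Lj)`, so
`K N(2Lj) ≤ A^(2Lj)`. For `m ≥ M := 2Lj`: `K N(m) ≤ K N(2Lj) A^(m-2Lj) ≤ A^m` (`cnt_clean_le`).

PROOF of `adj_pow_pos`. `adj u v ≥ 1` iff there is an edge from `u` to `v`; by induction along
`Reach u v` there is `n` with `(A^n) u v ≥ 1`, and `A v v ≥ 2 ≥ 1` (loops), so
`(A^(n+1)) u v ≥ (A^n) u v * A v v ≥ 1`. Take the maximum over the finitely many pairs.
PROOF of `two_pow_le`: `(A^(n+1)) v v ≥ (A^n) v v * A v v ≥ 2^n * 2` (`adj v v` counts at least the two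
loops `[x]`, `[y]`).
-/

namespace Pool.Agent.AUE

variable {V : Type} {G : Gr V} [Fintype V] [DecidableEq V]

theorem Decay_mul_mono {X Y : Matrix V V ℕ} (h : ∀ u v, X u v ≤ Y u v) (Z : Matrix V V ℕ) (u v : V) :
    (X * Z) u v ≤ (Y * Z) u v := by
  rw [Matrix.mul_apply, Matrix.mul_apply]
  exact Finset.sum_le_sum fun w _ => Nat.mul_le_mul_right _ (h u w)

theorem Decay_mul_mono' {X Y : Matrix V V ℕ} (h : ∀ u v, X u v ≤ Y u v) (Z : Matrix V V ℕ) (u v : V) :
    (Z * X) u v ≤ (Z * Y) u v := by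
  rw [Matrix.mul_apply, Matrix.mul_apply]
  exact Finset.sum_le_sum fun w _ => Nat.mul_le_mul_left _ (h w v)

theorem Decay_smul (c : ℕ) (X : Matrix V V ℕ) (u v : V) : (c • X) u v = c * X u v := by
  rw [Matrix.smul_apply, smul_eq_mul]

theorem Decay_exists (K c : ℕ) (hc : 1 ≤ c) : ∃ j : ℕ, K * (c - 1) ^ j ≤ c ^ j := by
  have hc0 : (0 : ℝ) < c := by exact_mod_cast hc
  have h1 : ((c : ℝ) - 1) / c < 1 := by
    rw [div_lt_one hc0]; linarith
  obtain ⟨n, hn⟩ := exists_pow_lt_of_lt_one (show (0 : ℝ) < 1 / (K + 1) by positivity) h1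
  refine ⟨n, ?_⟩
  have h2 : ((K : ℝ) * ((c : ℝ) - 1) ^ n) ≤ (c : ℝ) ^ n := by
    rw [div_pow, div_lt_div_iff₀ (by positivity) (by positivity)] at hn
    have h3 : (0 : ℝ) ≤ ((c : ℝ) - 1) ^ n := by
      apply pow_nonneg
      have : (1 : ℝ) ≤ c := by exact_mod_cast hc
      linarith
    nlinarith
  have h4 : ((K * (c - 1) ^ n : ℕ) : ℝ) ≤ ((c ^ n : ℕ) : ℝ) := by
    push_cast [Nat.cast_sub hc]
    exact h2
  exact_mod_cast h4

theorem clean_rare {x y : V → G.Ed} (k : ℕ) (h : Loops G x y)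
    (hB : ∀ u v, 1 ≤ (G.adj ^ (k + 1)) u v) (K : ℕ) :
    ∃ M, ∀ m ≥ M, ∀ u v, K * G.cnt m (clean x y k) u v ≤ (G.adj ^ m) u v := by
  -- the bound
  obtain ⟨c, hc1, hc⟩ : ∃ c : ℕ, 1 ≤ c ∧ ∀ u v, (G.adj ^ (2 * (k + 1))) u v ≤ c := by
    refine ⟨(∑ u, ∑ v, (G.adj ^ (2 * (k + 1))) u v) + 1, Nat.le_add_left _ _, fun u v => ?_⟩
    refine le_trans ?_ (Nat.le_succ _)
    calc (G.adj ^ (2 * (k + 1))) u v ≤ ∑ v, (G.adj ^ (2 * (k + 1))) u v :=
          Finset.single_le_sum (f := fun v => (G.adj ^ (2 * (k + 1))) u v) (fun _ _ => Nat.zero_le _)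
            (Finset.mem_univ v)
      _ ≤ _ := Finset.single_le_sum (f := fun u => ∑ v, (G.adj ^ (2 * (k + 1))) u v)
            (fun _ _ => Nat.zero_le _) (Finset.mem_univ u)
  have step : ∀ t u v, c * G.cnt (t + 2 * (k + 1)) (clean x y k) u v ≤
      (c - 1) * (G.cnt t (clean x y k) * G.adj ^ (2 * (k + 1))) u v := by
    intro t u v
    have h1 := cnt_clean_jump k h t u v
    rw [Matrix.add_apply] at h1
    have h2 : (G.cnt t (clean x y k) * G.adj ^ (2 * (k + 1))) u v ≤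
        c * (G.cnt t (clean x y k) * G.adj ^ (k + 1)) u v := by
      have e0 : c * (G.cnt t (clean x y k) * G.adj ^ (k + 1)) u v =
          (G.cnt t (clean x y k) * (c • G.adj ^ (k + 1))) u v := by
        rw [Matrix.mul_smul, Decay_smul]
      rw [e0]
      refine Decay_mul_mono' (fun u v => ?_) _ u v
      rw [Decay_smul]
      calc _ ≤ c := hc u v
        _ = c * 1 := (Nat.mul_one c).symm
        _ ≤ _ := Nat.mul_le_mul_left _ (hB u v)
    obtain ⟨d, rfl⟩ : ∃ d, c = d + 1 := ⟨c - 1, by omega⟩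
    rw [Nat.add_sub_cancel]
    have h3 := Nat.mul_le_mul_left (d + 1) h1
    rw [Nat.mul_add] at h3
    have h4 : (d + 1) * (G.cnt t (clean x y k) * G.adj ^ (2 * (k + 1))) u v =
        d * (G.cnt t (clean x y k) * G.adj ^ (2 * (k + 1))) u v +
          (G.cnt t (clean x y k) * G.adj ^ (2 * (k + 1))) u v := by ring
    omega
  have ind : ∀ j u v, c ^ j * G.cnt (2 * (k + 1) * j) (clean x y k) u v ≤
      (c - 1) ^ j * (G.adj ^ (2 * (k + 1) * j)) u v := by
    intro j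
    induction j with
    | zero =>
      intro u v
      rw [Nat.mul_zero, pow_zero, pow_zero, pow_zero, cnt_clean_small k (Nat.zero_le _), pow_zero]
    | succ j ih =>
      intro u v
      have e1 : 2 * (k + 1) * (j + 1) = 2 * (k + 1) * j + 2 * (k + 1) := by ring
      calc c ^ (j + 1) * G.cnt (2 * (k + 1) * (j + 1)) (clean x y k) u v
          = c ^ j * (c * G.cnt (2 * (k + 1) * j + 2 * (k + 1)) (clean x y k) u v) := by
            rw [e1, pow_succ, mul_assoc]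
        _ ≤ c ^ j * ((c - 1) * (G.cnt (2 * (k + 1) * j) (clean x y k) * G.adj ^ (2 * (k + 1))) u v) :=
            Nat.mul_le_mul_left _ (step _ u v)
        _ = (c - 1) * ((c ^ j • G.cnt (2 * (k + 1) * j) (clean x y k)) * G.adj ^ (2 * (k + 1))) u v := by
            rw [Matrix.smul_mul, Decay_smul]; ring
        _ ≤ (c - 1) * (((c - 1) ^ j • G.adj ^ (2 * (k + 1) * j)) * G.adj ^ (2 * (k + 1))) u v := by
            refine Nat.mul_le_mul_left _ (Decay_mul_mono (fun u v => ?_) _ u v)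
            rw [Decay_smul, Decay_smul]
            exact ih u v
        _ = (c - 1) ^ (j + 1) * (G.adj ^ (2 * (k + 1) * (j + 1))) u v := by
            rw [Matrix.smul_mul, Decay_smul, ← pow_add, ← e1]; ring
  obtain ⟨j, hj⟩ := Decay_exists K c hc1
  have hM : ∀ u v, (K • G.cnt (2 * (k + 1) * j) (clean x y k)) u v ≤ (G.adj ^ (2 * (k + 1) * j)) u v := by
    intro u v
    rw [Decay_smul]
    have hcj : 0 < c ^ j := pow_pos hc1 j
    refine Nat.le_of_mul_le_mul_left ?_ hcj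
    calc c ^ j * (K * G.cnt (2 * (k + 1) * j) (clean x y k) u v)
        = K * (c ^ j * G.cnt (2 * (k + 1) * j) (clean x y k) u v) := by ring
      _ ≤ K * ((c - 1) ^ j * (G.adj ^ (2 * (k + 1) * j)) u v) := Nat.mul_le_mul_left _ (ind j u v)
      _ = (K * (c - 1) ^ j) * (G.adj ^ (2 * (k + 1) * j)) u v := by ring
      _ ≤ _ := Nat.mul_le_mul_right _ hj
  refine ⟨2 * (k + 1) * j, fun m hm u v => ?_⟩
  obtain ⟨i, rfl⟩ := Nat.exists_eq_add_of_le hm
  calc K * G.cnt (2 * (k + 1) * j + i) (clean x y k) u v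
      ≤ K * (G.cnt (2 * (k + 1) * j) (clean x y k) * G.adj ^ i) u v :=
        Nat.mul_le_mul_left _ (cnt_clean_le k _ _ u v)
    _ = ((K • G.cnt (2 * (k + 1) * j) (clean x y k)) * G.adj ^ i) u v := by
        rw [Matrix.smul_mul, Decay_smul]
    _ ≤ (G.adj ^ (2 * (k + 1) * j) * G.adj ^ i) u v := Decay_mul_mono hM _ u v
    _ = _ := by rw [← pow_add]

theorem Decay_edge (e : G.Ed) : 1 ≤ G.adj (G.s e) (G.r e) := by
  classical
  unfold Gr.adj Gr.cnt
  have h1 : 1 ≤ ((G.paths 1 (G.s e) (G.r e)).filter (fun _ => True)).card := by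
    refine Finset.card_pos.mpr ⟨[e], ?_⟩
    rw [Finset.mem_filter, Gr.mem_paths]
    exact ⟨⟨rfl, rfl, rfl⟩, trivial⟩
  convert h1

theorem Decay_loops (hG : Full G) (v : V) : 2 ≤ G.adj v v := by
  classical
  obtain ⟨x, y, hxy, hx, hx', hy, hy'⟩ := hG.1 v
  unfold Gr.adj Gr.cnt
  have h1 : ({[x], [y]} : Finset (List G.Ed)) ⊆ (G.paths 1 v v).filter (fun _ => True) := by
    intro l hl
    rw [Finset.mem_insert, Finset.mem_singleton] at hl
    rw [Finset.mem_filter, Gr.mem_paths]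
    rcases hl with rfl | rfl
    · exact ⟨⟨rfl, hx, hx'⟩, trivial⟩
    · exact ⟨⟨rfl, hy, hy'⟩, trivial⟩
  have h2 : ({[x], [y]} : Finset (List G.Ed)).card = 2 := by
    rw [Finset.card_pair]
    intro e
    exact hxy (by simpa using e)
  rw [← h2]
  convert Finset.card_le_card h1

theorem Decay_mul_le (X Y : Matrix V V ℕ) (u w v : V) : X u w * Y w v ≤ (X * Y) u v := by
  rw [Matrix.mul_apply]
  exact Finset.single_le_sum (f := fun w => X u w * Y w v) (fun _ _ => Nat.zero_le _) (Finset.mem_univ w)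

theorem adj_pow_pos (hG : Full G) : ∃ n₀, ∀ n ≥ n₀, ∀ u v, 1 ≤ (G.adj ^ n) u v := by
  have h1 : ∀ u v, ∃ n, 1 ≤ (G.adj ^ n) u v := by
    intro u v
    have := hG.2 u v
    induction this with
    | refl => exact ⟨0, by simp⟩
    | tail _ hbc ih =>
      obtain ⟨n, hn⟩ := ih
      obtain ⟨e, rfl, rfl⟩ := hbc
      refine ⟨n + 1, ?_⟩
      rw [pow_succ]
      refine le_trans ?_ (Decay_mul_le _ _ u (G.s e) _)
      exact Nat.mul_le_mul hn (Decay_edge e)
  have h2 : ∀ n u v, 1 ≤ (G.adj ^ n) u v → ∀ m ≥ n, 1 ≤ (G.adj ^ m) u v := by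
    intro n u v hn m hm
    induction m, hm using Nat.le_induction with
    | base => exact hn
    | succ m _ ih =>
      rw [pow_succ]
      refine le_trans ?_ (Decay_mul_le _ _ u v v)
      exact Nat.mul_le_mul ih (le_trans (show 1 ≤ 2 by norm_num) (Decay_loops hG v))
  choose n hn using h1
  refine ⟨∑ u, ∑ v, n u v, fun m hm u v => h2 (n u v) u v (hn u v) m (le_trans ?_ hm)⟩
  calc n u v ≤ ∑ v, n u v :=
        Finset.single_le_sum (f := fun v => n u v) (fun _ _ => Nat.zero_le _) (Finset.mem_univ v)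
    _ ≤ _ := Finset.single_le_sum (f := fun u => ∑ v, n u v) (fun _ _ => Nat.zero_le _) (Finset.mem_univ u)

theorem two_pow_le (hG : Full G) (n : ℕ) (v : V) : 2 ^ n ≤ (G.adj ^ n) v v := by
  induction n with
  | zero => simp
  | succ n ih =>
    rw [pow_succ, pow_succ]
    refine le_trans ?_ (Decay_mul_le _ _ v v v)
    exact Nat.mul_le_mul ih (Decay_loops hG v)

end Pool.Agent.AUE
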