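import Mathlib

/-!
# Definitions for the project AUE (MP_b75a39_al)

Finite directed multigraphs `G : Gr V` on a vertex type `V`, Toeplitz-Cuntz-Krieger families
`F : Fam G P` (vertex projections `P : V → B`, partial isometries `F.S : G.Ed → B`) in unital
C*-algebras, the maps `F.lam x = ∑ S_e x S_e*` and `F.th x = ∑ S_e x S_e* + (1 - ∑ S_e S_e*)`,
the unitaries `UD P` commuting with all `P v`, chains of such unitaries, and the property `Sol G`.
-/

namespace Pool.Agent.AUE

/-- A finite directed multigraph on the vertex type `V`. -/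
structure Gr (V : Type) where
  Ed : Type
  [fin : Fintype Ed]
  [dec : DecidableEq Ed]
  s : Ed → V
  r : Ed → V

attribute [instance] Gr.fin Gr.dec

/-- One edge from `a` to `b`. -/
def Gr.Step {V : Type} (G : Gr V) (a b : V) : Prop := ∃ e : G.Ed, G.s e = a ∧ G.r e = b

/-- Reachability (paths of length `≥ 0`). -/
def Gr.Reach {V : Type} (G : Gr V) : V → V → Prop := Relation.ReflTransGen G.Step

/-- `l` is a path from `u` to `v`. -/
def Gr.Walk {V : Type} (G : Gr V) : V → List G.Ed → V → Prop
  | u, [], v => u = v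
  | u, e :: l, v => G.s e = u ∧ G.Walk (G.r e) l v

/-- Mutually orthogonal projections. -/
structure IsPrj {V B : Type} [CStarAlgebra B] (P : V → B) : Prop where
  star_eq : ∀ v, star (P v) = P v
  mul_self : ∀ v, P v * P v = P v
  orth : ∀ v w, v ≠ w → P v * P w = 0

/-- A Toeplitz-Cuntz-Krieger family of `G` with vertex projections `P`. -/
structure Fam {V : Type} (G : Gr V) {B : Type} [CStarAlgebra B] (P : V → B) where
  S : G.Ed → B
  star_mul : ∀ e, star (S e) * S e = P (G.r e)
  orth : ∀ e f, e ≠ f → star (S e) * S f = 0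
  P_mul : ∀ e, P (G.s e) * S e = S e

/-- Each vertex has two different loops and all vertices are connected by paths. -/
def Full {V : Type} (G : Gr V) : Prop :=
  (∀ v, ∃ x y : G.Ed, x ≠ y ∧ G.s x = v ∧ G.r x = v ∧ G.s y = v ∧ G.r y = v) ∧
    ∀ u v, G.Reach u v

namespace Fam

variable {V : Type} {G : Gr V} {B : Type} [CStarAlgebra B] {P : V → B} (F : Fam G P)

/-- `λ(x) = ∑ S_e x S_e*`. -/
noncomputable def lam (x : B) : B := ∑ e, F.S e * x * star (F.S e)

/-- `θ(x) = ∑ S_e x S_e* + (1 - ∑ S_e S_e*)`. -/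
noncomputable def th (x : B) : B := F.lam x + (1 - F.lam 1)

/-- `S_l` for a list of edges `l`, cut to the range vertex `v`. -/
noncomputable def T (l : List G.Ed) (v : V) : B := (l.map F.S).prod * P v

/-- The `n`-th matrix algebra of the core: the span of `S_l S_l'*` for paths `l`, `l'` of length `n`
with the same source and the same range. -/
noncomputable def core (n : ℕ) : Submodule ℂ B :=
  Submodule.span ℂ {x | ∃ u v l l', l.length = n ∧ l'.length = n ∧ G.Walk u l v ∧ G.Walk u l' v ∧
    x = F.T l v * star (F.T l' v)}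

end Fam

/-- Unitaries commuting with the `P v`. -/
def UD {V B : Type} [CStarAlgebra B] (P : V → B) : Set B :=
  {u | star u * u = 1 ∧ u * star u = 1 ∧ ∀ v, P v * u = u * P v}

/-- There is a chain `1 = ζ 0, …, ζ n = u` in `UD P` with steps of norm `≤ δ`. -/
def Chain {V B : Type} [CStarAlgebra B] (P : V → B) (δ : ℝ) (n : ℕ) (u : B) : Prop :=
  ∃ ζ : ℕ → B, ζ 0 = 1 ∧ ζ n = u ∧ (∀ i, ζ i ∈ UD P) ∧ ∀ i < n, ‖ζ (i + 1) - ζ i‖ ≤ δ

/-- `u` is connected to `1` in `UD P` by chains with arbitrarily small steps. -/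
def Ch {V B : Type} [CStarAlgebra B] (P : V → B) (u : B) : Prop :=
  ∀ δ > 0, ∃ n, Chain P δ n u

/-- Cocycles of families of `G` are approximately coboundaries. -/
def Sol {V : Type} (G : Gr V) : Prop :=
  ∀ (B : Type) [CStarAlgebra B] (P : V → B), IsPrj P → ∀ F : Fam G P, ∀ c, Ch P c → ∀ ε > 0,
    ∃ W, Ch P W ∧ ‖star W * c * F.th W - 1‖ ≤ ε

end Pool.Agent.AUE
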