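import Pool.Agent.AUE.Aue

/-!
# Det: homomorphisms are controlled by their values on generators

PROOF of `det`. The set of `a` with the property (for all `ε` there are `s`, `δ`) contains `X`
(`s = {a}`, `δ = ε`), is closed under addition, scalar multiplication, star and multiplication
(`‖φ(ab) - ψ(ab)‖ ≤ ‖φ a‖ ‖φ b - ψ b‖ + ‖φ a - ψ a‖ ‖ψ b‖`, `‖φ a‖ ≤ ‖a‖`; `NonUnitalStarAlgebra.adjoin_induction`)
and under limits (`‖φ a - ψ a‖ ≤ ‖φ b - ψ b‖ + 2 ‖a - b‖`).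
`AppU.of_gens`: for a finite set `t` and `ε` take the union of the `s` and the minimum of the `δ` of
`det` (for `(adU u).comp φ` and `ψ`).
-/

namespace Pool.Agent.AUE

/-- `X` generates the C*-algebra `A`. -/
def GenBy {A : Type} [NonUnitalCStarAlgebra A] (X : Set A) : Prop :=
  Dense ((NonUnitalStarAlgebra.adjoin ℂ X : NonUnitalStarSubalgebra ℂ A) : Set A)

/-- The value at `a` is controlled by the values on `X`. -/
def DetP {A : Type} [NonUnitalCStarAlgebra A] (X : Set A) (a : A) : Prop :=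
  ∀ ε : ℝ, 0 < ε → ∃ (s : Finset A) (δ : ℝ), 0 < δ ∧ (∀ x ∈ s, x ∈ X) ∧
    ∀ (B : Type) [NonUnitalCStarAlgebra B] (φ ψ : A →⋆ₙₐ[ℂ] B),
      (∀ x ∈ s, ‖φ x - ψ x‖ ≤ δ) → ‖φ a - ψ a‖ ≤ ε

theorem Det_two {A : Type} [NonUnitalCStarAlgebra A] {X : Set A} {a b c : A} (ha : DetP X a)
    (hb : DetP X b)
    (h : ∀ ε : ℝ, 0 < ε → ∃ δ : ℝ, 0 < δ ∧ ∀ (B : Type) [NonUnitalCStarAlgebra B]
      (φ ψ : A →⋆ₙₐ[ℂ] B), ‖φ a - ψ a‖ ≤ δ → ‖φ b - ψ b‖ ≤ δ → ‖φ c - ψ c‖ ≤ ε) :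
    DetP X c := by
  classical
  intro ε hε
  obtain ⟨δ, hδ, hd⟩ := h ε hε
  obtain ⟨s, δ1, h1, hs, H1⟩ := ha δ hδ
  obtain ⟨t, δ2, h2, ht, H2⟩ := hb δ hδ
  refine ⟨s ∪ t, min δ1 δ2, lt_min h1 h2, fun x hx => ?_, fun B _ φ ψ H => ?_⟩
  · rcases Finset.mem_union.1 hx with h | h
    · exact hs x h
    · exact ht x h
  · exact hd B φ ψ
      (H1 B φ ψ fun x hx => (H x (Finset.mem_union_left _ hx)).trans (min_le_left _ _))
      (H2 B φ ψ fun x hx => (H x (Finset.mem_union_right _ hx)).trans (min_le_right _ _))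

theorem Det_adj {A : Type} [NonUnitalCStarAlgebra A] {X : Set A} {a : A}
    (ha : a ∈ NonUnitalStarAlgebra.adjoin ℂ X) : DetP X a := by
  induction ha using NonUnitalStarAlgebra.adjoin_induction with
  | mem x hx =>
    intro ε hε
    exact ⟨{x}, ε, hε, fun y hy => by rw [Finset.mem_singleton.1 hy]; exact hx,
      fun B _ φ ψ H => H x (Finset.mem_singleton_self x)⟩
  | add x y hx hy ihx ihy =>
    refine Det_two ihx ihy fun ε hε => ⟨ε / 2, by positivity, fun B _ φ ψ h1 h2 => ?_⟩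
    have e : φ (x + y) - ψ (x + y) = (φ x - ψ x) + (φ y - ψ y) := by
      rw [map_add, map_add]; abel
    rw [e]
    refine (norm_add_le _ _).trans ?_
    linarith
  | zero =>
    intro ε hε
    exact ⟨∅, 1, one_pos, fun y hy => absurd hy (Finset.notMem_empty y),
      fun B _ φ ψ H => by rw [map_zero, map_zero, sub_self, norm_zero]; exact hε.le⟩
  | mul x y hx hy ihx ihy =>
    refine Det_two ihx ihy fun ε hε => ⟨ε / (‖x‖ + ‖y‖ + 1), by positivity,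
      fun B _ φ ψ h1 h2 => ?_⟩
    have e : φ (x * y) - ψ (x * y) = φ x * (φ y - ψ y) + (φ x - ψ x) * ψ y := by
      rw [map_mul, map_mul, mul_sub, sub_mul]; abel
    rw [e]
    have hφ := Aue_norm_le φ x
    have hψ := Aue_norm_le ψ y
    have h3 : ‖φ x * (φ y - ψ y)‖ ≤ ‖x‖ * (ε / (‖x‖ + ‖y‖ + 1)) :=
      (norm_mul_le _ _).trans (mul_le_mul hφ h2 (norm_nonneg _) (norm_nonneg _))
    have h4 : ‖(φ x - ψ x) * ψ y‖ ≤ (ε / (‖x‖ + ‖y‖ + 1)) * ‖y‖ :=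
      (norm_mul_le _ _).trans (mul_le_mul h1 hψ (norm_nonneg _) (by positivity))
    refine (norm_add_le _ _).trans ?_
    have h5 : ‖x‖ * (ε / (‖x‖ + ‖y‖ + 1)) + (ε / (‖x‖ + ‖y‖ + 1)) * ‖y‖ ≤
        (‖x‖ + ‖y‖ + 1) * (ε / (‖x‖ + ‖y‖ + 1)) := by
      have : 0 ≤ ε / (‖x‖ + ‖y‖ + 1) := by positivity
      nlinarith
    have h6 : (‖x‖ + ‖y‖ + 1) * (ε / (‖x‖ + ‖y‖ + 1)) = ε := by
      field_simp
    linarith
  | smul c x hx ihx =>
    refine Det_two ihx ihx fun ε hε => ⟨ε / (‖c‖ + 1), by positivity,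
      fun B _ φ ψ h1 _ => ?_⟩
    have e : φ (c • x) - ψ (c • x) = c • (φ x - ψ x) := by
      rw [map_smul, map_smul, smul_sub]
    rw [e, norm_smul]
    have h3 : ‖c‖ * ‖φ x - ψ x‖ ≤ ‖c‖ * (ε / (‖c‖ + 1)) :=
      mul_le_mul_of_nonneg_left h1 (norm_nonneg _)
    have h5 : ‖c‖ * (ε / (‖c‖ + 1)) ≤ (‖c‖ + 1) * (ε / (‖c‖ + 1)) := by
      have : 0 ≤ ε / (‖c‖ + 1) := by positivity
      nlinarith
    have h6 : (‖c‖ + 1) * (ε / (‖c‖ + 1)) = ε := by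
      field_simp
    linarith
  | star x hx ihx =>
    refine Det_two ihx ihx fun ε hε => ⟨ε, hε, fun B _ φ ψ h1 _ => ?_⟩
    have e : φ (star x) - ψ (star x) = star (φ x - ψ x) := by
      rw [map_star, map_star, star_sub]
    rw [e, norm_star]
    exact h1

theorem det {A : Type} [NonUnitalCStarAlgebra A] {X : Set A} (hX : GenBy X) (a : A) (ε : ℝ)
    (hε : 0 < ε) : ∃ (s : Finset A) (δ : ℝ), 0 < δ ∧ (∀ x ∈ s, x ∈ X) ∧
      ∀ (B : Type) [NonUnitalCStarAlgebra B] (φ ψ : A →⋆ₙₐ[ℂ] B),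
        (∀ x ∈ s, ‖φ x - ψ x‖ ≤ δ) → ‖φ a - ψ a‖ ≤ ε := by
  obtain ⟨b, hb, hab⟩ := Metric.dense_iff.1 hX a (ε / 4) (by positivity)
  obtain ⟨s, δ, hδ, hs, H⟩ := Det_adj (X := X) hab (ε / 2) (by positivity)
  refine ⟨s, δ, hδ, hs, fun B _ φ ψ h => ?_⟩
  have h1 := H B φ ψ h
  rw [Metric.mem_ball, dist_eq_norm] at hb
  have e : φ a - ψ a = φ (a - b) + (φ b - ψ b) + ψ (b - a) := by
    rw [map_sub, map_sub]; abel
  rw [e]
  have h2 := Aue_norm_le φ (a - b)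
  have h3 := Aue_norm_le ψ (b - a)
  rw [norm_sub_rev] at hb
  have h4 : ‖b - a‖ = ‖a - b‖ := norm_sub_rev _ _
  refine (norm_add₃_le).trans ?_
  linarith

theorem AppU.of_gens {A B : Type} [NonUnitalCStarAlgebra A] [NonUnitalCStarAlgebra B] {X : Set A}
    (hX : GenBy X) {φ ψ : A →⋆ₙₐ[ℂ] B}
    (h : ∀ s : Finset A, (∀ x ∈ s, x ∈ X) → ∀ ε : ℝ, 0 < ε →
      ∃ u : unitary (Unitization ℂ B), ∀ a ∈ s, ‖adU u (φ a) - ψ a‖ ≤ ε) : AppU φ ψ := by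
  classical
  intro t ε hε
  choose s δ hδ hs H using fun a : A => det hX a ε hε
  obtain ⟨δ0, hδ0, hle⟩ : ∃ δ0 : ℝ, 0 < δ0 ∧ ∀ a ∈ t, δ0 ≤ δ a := by
    induction t using Finset.induction_on with
    | empty => exact ⟨1, one_pos, fun a ha => absurd ha (Finset.notMem_empty a)⟩
    | insert a t _ ih =>
      obtain ⟨d, hd, hd'⟩ := ih
      refine ⟨min d (δ a), lt_min hd (hδ a), fun b hb => ?_⟩
      rcases Finset.mem_insert.1 hb with h | h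
      · rw [h]; exact min_le_right _ _
      · exact (min_le_left _ _).trans (hd' b h)
  obtain ⟨u, hu⟩ := h (t.biUnion s) (fun x hx => by
    obtain ⟨a, _, hxa⟩ := Finset.mem_biUnion.1 hx
    exact hs a x hxa) δ0 hδ0
  refine ⟨u, fun a ha => ?_⟩
  exact H a B ((adU u).comp φ) ψ fun x hx =>
    (hu x (Finset.mem_biUnion.2 ⟨a, ha, hx⟩)).trans (hle a ha)

end Pool.Agent.AUE
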