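import Pool.Agent.AUE.Rotp

/-!
# Diag: diagonal sums over orthogonal partial isometries

`t i` (`i : ℕ`) partial isometries with `star (t i) * t i = P b`, orthogonal ranges, `P a * t i = t i`.
`diag t m x = ∑_{i<m} t_i x_i t_i* + (1 - ∑_{i<m} t_i t_i*)`.

PROOFS. `t i * P b = t i` (C*-identity). `star (t i) * t j = 0` for `i ≠ j`.
`t_i x_i t_i* t_i y_i t_i* = t_i x_i P_b y_i t_i* = t_i x_i y_i t_i*` if `y_i` commutes with `P b`.
`P v * t i = t i` if `v = a` and `0` if `v ≠ a`, so everything commutes with the `P v`.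
`norm_diag_sub_one`: `diag x - 1 = ∑ t_i (x_i - 1) t_i*` and `norm_conj_sum_le`.
-/

namespace Pool.Agent.AUE

/-- Diagonal sums. -/
noncomputable def diag {B : Type} [CStarAlgebra B] (t : ℕ → B) (m : ℕ) (x : ℕ → B) : B :=
  ∑ i ∈ Finset.range m, t i * x i * star (t i) + (1 - ∑ i ∈ Finset.range m, t i * star (t i))

/-- The data of orthogonal copies of `P b` in `P a`. -/
structure Copies {V B : Type} [CStarAlgebra B] (P : V → B) (a b : V) (t : ℕ → B) : Prop where
  ini : ∀ i, star (t i) * t i = P b
  orth : ∀ i j, i ≠ j → star (t i) * t j = 0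
  fin : ∀ i, P a * t i = t i

section
variable {V B : Type} [CStarAlgebra B] {P : V → B} {a b : V} {t : ℕ → B}

/-- product of two orthogonal sums -/
theorem Diag_bsum (f g : ℕ → B) (m : ℕ) (h : ∀ i j, i ≠ j → f i * g j = 0) :
    (∑ i ∈ Finset.range m, f i) * (∑ j ∈ Finset.range m, g j) = ∑ i ∈ Finset.range m, f i * g i := by
  rw [Finset.sum_mul]
  refine Finset.sum_congr rfl fun i hi => ?_
  rw [Finset.mul_sum, Finset.sum_eq_single_of_mem i hi]
  intro j _ hj
  exact h i j (Ne.symm hj)

theorem Diag_tP (hP : IsPrj P) (ht : Copies P a b t) (i : ℕ) : t i * P b = t i := by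
  have h2 := ht.ini i
  have h3 := hP.mul_self b
  have h1 : star (t i * P b - t i) * (t i * P b - t i) = 0 := by
    rw [star_sub, star_mul, hP.star_eq]
    have e1 : (P b * star (t i) - star (t i)) * (t i * P b - t i) =
        P b * (star (t i) * t i) * P b - P b * (star (t i) * t i) -
        (star (t i) * t i) * P b + star (t i) * t i := by
      noncomm_ring
    rw [e1, h2, h3, h3]
    simp
  exact sub_eq_zero.1 (CStarRing.star_mul_self_eq_zero_iff _ |>.1 h1)

theorem Diag_Pt (hP : IsPrj P) (ht : Copies P a b t) (i : ℕ) : P b * star (t i) = star (t i) := by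
  have h := congrArg star (Diag_tP hP ht i)
  rwa [star_mul, hP.star_eq] at h

theorem Diag_Pne (hP : IsPrj P) (ht : Copies P a b t) (i : ℕ) {v : V} (hv : v ≠ a) : P v * t i = 0 := by
  rw [← ht.fin i, ← mul_assoc, hP.orth _ _ hv, zero_mul]

/-- the sum without the complement -/
theorem Diag_dmul (hP : IsPrj P) (ht : Copies P a b t) (m : ℕ) {x y : ℕ → B}
    (hy : ∀ i v, P v * y i = y i * P v) :
    (∑ i ∈ Finset.range m, t i * x i * star (t i)) * (∑ i ∈ Finset.range m, t i * y i * star (t i)) =
      ∑ i ∈ Finset.range m, t i * (x i * y i) * star (t i) := by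
  rw [Diag_bsum]
  · refine Finset.sum_congr rfl fun i _ => ?_
    have e1 : t i * x i * star (t i) * (t i * y i * star (t i)) =
        t i * x i * (star (t i) * t i * y i) * star (t i) := by
      simp only [mul_assoc]
    rw [e1, ht.ini, hy]
    have e3 : t i * x i * (y i * P b) * star (t i) = t i * (x i * y i) * (P b * star (t i)) := by
      simp only [mul_assoc]
    rw [e3, Diag_Pt hP ht]
  · intro i j hij
    have e1 : t i * x i * star (t i) * (t j * y j * star (t j)) =
        t i * x i * (star (t i) * t j) * y j * star (t j) := by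
      simp only [mul_assoc]
    rw [e1, ht.orth i j hij]
    simp

theorem Diag_comm (hP : IsPrj P) (ht : Copies P a b t) (m : ℕ) (x : ℕ → B) (v : V) :
    P v * (∑ i ∈ Finset.range m, t i * x i * star (t i)) =
      (∑ i ∈ Finset.range m, t i * x i * star (t i)) * P v := by
  rw [Finset.mul_sum, Finset.sum_mul]
  refine Finset.sum_congr rfl fun i _ => ?_
  have e1 : star (t i) * P v = star (P v * t i) := by
    rw [star_mul, hP.star_eq]
  rw [mul_assoc (t i * x i), e1, ← mul_assoc, ← mul_assoc]
  by_cases h : v = a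
  · rw [h, ht.fin]
  · rw [Diag_Pne hP ht i h]
    simp

theorem Diag_comm1 (hP : IsPrj P) (ht : Copies P a b t) (m : ℕ) (v : V) :
    P v * (∑ i ∈ Finset.range m, t i * star (t i)) =
      (∑ i ∈ Finset.range m, t i * star (t i)) * P v := by
  have h := Diag_comm hP ht m (fun _ => 1) v
  simpa only [mul_one] using h

/-- even and odd indices -/
theorem Diag_even (f : ℕ → B) (m : ℕ) :
    ∑ i ∈ Finset.range (2 * m), f i = ∑ i ∈ Finset.range m, (f (2 * i) + f (2 * i + 1)) := by
  induction m with
  | zero => simp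
  | succ m ih =>
    rw [Finset.sum_range_succ, ← ih, show 2 * (m + 1) = 2 * m + 1 + 1 by ring, Finset.sum_range_succ,
      Finset.sum_range_succ, add_assoc]

end

variable {V B : Type} [CStarAlgebra B] {P : V → B} (hP : IsPrj P) {a b : V} {t : ℕ → B}
  (ht : Copies P a b t) (m : ℕ)

include hP ht in
theorem diag_mul {x y : ℕ → B} (hy : ∀ i v, P v * y i = y i * P v) :
    diag t m x * diag t m y = diag t m (fun i => x i * y i) := by
  have h1 : ∀ (i : ℕ) (v : V), P v * (fun _ : ℕ => (1 : B)) i = (fun _ : ℕ => (1 : B)) i * P v :=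
    fun i v => by simp
  have hE : (∑ i ∈ Finset.range m, t i * star (t i)) =
      ∑ i ∈ Finset.range m, t i * (fun _ : ℕ => (1 : B)) i * star (t i) := by
    simp
  have e1 := Diag_dmul hP ht m (x := x) hy
  have e2 := Diag_dmul hP ht m (x := x) h1
  have e3 := Diag_dmul hP ht m (x := fun _ : ℕ => (1 : B)) hy
  have e4 := Diag_dmul hP ht m (x := fun _ : ℕ => (1 : B)) h1
  rw [← hE] at e2 e3 e4
  simp only [mul_one, one_mul] at e2 e3 e4
  unfold diag
  generalize hE' : (∑ i ∈ Finset.range m, t i * star (t i)) = E at *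
  generalize hX : (∑ i ∈ Finset.range m, t i * x i * star (t i)) = X at *
  generalize hY : (∑ i ∈ Finset.range m, t i * y i * star (t i)) = Y at *
  have e5 : (X + (1 - E)) * (Y + (1 - E)) = X * Y + (X - X * E) + (Y - E * Y) + (1 - E - E + E * E) := by
    noncomm_ring
  rw [e5, e1, e2, e3, e4]
  abel

theorem star_diag {x : ℕ → B} : star (diag t m x) = diag t m (fun i => star (x i)) := by
  unfold diag
  rw [star_add, star_sub, star_one, star_sum, star_sum]
  congr 1
  · refine Finset.sum_congr rfl fun i _ => ?_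
    rw [star_mul, star_mul, star_star, mul_assoc]
  · congr 1
    refine Finset.sum_congr rfl fun i _ => ?_
    rw [star_mul, star_star]

theorem diag_one : diag t m (fun _ => 1) = 1 := by
  unfold diag
  simp

include hP ht in
theorem diag_mem {x : ℕ → B} (hx : ∀ i, x i ∈ UD P) : diag t m x ∈ UD P := by
  have hs : ∀ i, star (x i) ∈ UD P := fun i => UD_star hP (hx i)
  refine ⟨?_, ?_, fun v => ?_⟩
  · rw [star_diag, diag_mul hP ht m (fun i v => (hx i).2.2 v)]
    have e : (fun i => star (x i) * x i) = fun _ => (1 : B) := funext fun i => (hx i).1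
    rw [e, diag_one]
  · rw [star_diag, diag_mul hP ht m (fun i v => (hs i).2.2 v)]
    have e : (fun i => x i * star (x i)) = fun _ => (1 : B) := funext fun i => (hx i).2.1
    rw [e, diag_one]
  · unfold diag
    rw [mul_add, add_mul, mul_sub, sub_mul, Diag_comm hP ht, Diag_comm1 hP ht, mul_one, one_mul]

include hP ht in
theorem norm_diag_sub_one {x : ℕ → B} (δ : ℝ) (hδ : 0 ≤ δ) (hx : ∀ i, ‖x i - 1‖ ≤ δ) :
    ‖diag t m x - 1‖ ≤ δ := by
  have e : diag t m x - 1 = ∑ i ∈ Finset.range m, t i * (x i - 1) * star (t i) := by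
    have e1 : ∑ i ∈ Finset.range m, t i * (x i - 1) * star (t i) =
        ∑ i ∈ Finset.range m, t i * x i * star (t i) - ∑ i ∈ Finset.range m, t i * star (t i) := by
      rw [← Finset.sum_sub_distrib]
      refine Finset.sum_congr rfl fun i _ => ?_
      rw [mul_sub, sub_mul, mul_one]
    rw [e1]
    unfold diag
    abel
  rw [e]
  refine norm_conj_sum_le (Finset.range m) t (fun i => x i - 1) δ hδ (fun i _ j _ h => ht.orth i j h) ?_
    (fun i _ => hx i)
  intro i _
  rw [ht.ini]
  exact hP.norm_le _

/-- The swap of the copies `2 i` and `2 i + 1`, `i < m`. -/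
noncomputable def swJ (t : ℕ → B) (m : ℕ) : B :=
  ∑ i ∈ Finset.range m, (t (2 * i + 1) * star (t (2 * i)) - t (2 * i) * star (t (2 * i + 1)))

/-- The support of the swap. -/
noncomputable def swR (t : ℕ → B) (m : ℕ) : B :=
  ∑ i ∈ Finset.range (2 * m), t i * star (t i)

section
variable {V B : Type} [CStarAlgebra B] {P : V → B} {a b : V} {t : ℕ → B}

/-- computations with two orthogonal partial isometries -/
theorem Diag_pair {A C p z z' : B} (h1 : star A * A = p) (h2 : star C * C = p) (h3 : star A * C = 0)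
    (h4 : star C * A = 0) (h5 : A * p = A) (h6 : C * p = C) (h7 : p * star A = star A)
    (h8 : p * star C = star C) (hz : p * z = z * p) (hz' : p * z' = z' * p) :
    (C * star A - A * star C) * (C * star A - A * star C) = -(A * star A + C * star C) ∧
    (A * star A + C * star C) * (A * star A + C * star C) = A * star A + C * star C ∧
    (A * star A + C * star C) * (C * star A - A * star C) = C * star A - A * star C ∧
    (C * star A - A * star C) * (A * star A + C * star C) = C * star A - A * star C ∧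
    (C * star A - A * star C) * (A * z * star A + C * z' * star C) = C * z * star A - A * z' * star C ∧
    (A * z * star A + C * z' * star C) * (C * star A - A * star C) = C * z' * star A - A * z * star C := by
  have k1 : ∀ x, star A * (A * x) = p * x := fun x => by rw [← mul_assoc, h1]
  have k2 : ∀ x, star C * (C * x) = p * x := fun x => by rw [← mul_assoc, h2]
  have k3 : ∀ x, star A * (C * x) = 0 := fun x => by rw [← mul_assoc, h3, zero_mul]
  have k4 : ∀ x, star C * (A * x) = 0 := fun x => by rw [← mul_assoc, h4, zero_mul]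
  have k5 : ∀ x, p * (z * x) = z * (p * x) := fun x => by rw [← mul_assoc, hz, mul_assoc]
  have k6 : ∀ x, p * (z' * x) = z' * (p * x) := fun x => by rw [← mul_assoc, hz', mul_assoc]
  refine ⟨?_, ?_, ?_, ?_, ?_, ?_⟩ <;>
  · simp only [mul_add, add_mul, mul_sub, sub_mul, mul_assoc, k1, k2, k3, k4, k5, k6, h7, h8, mul_zero]
    abel

/-- products of different pairs vanish -/
theorem Diag_cross {A C A' C' : B} (h1 : star A * A' = 0) (h2 : star A * C' = 0) (h3 : star C * A' = 0)
    (h4 : star C * C' = 0) (x y x' y' : B) :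
    (x * star A + y * star C) * (A' * x' + C' * y') = 0 := by
  have k1 : ∀ x, star A * (A' * x) = 0 := fun x => by rw [← mul_assoc, h1, zero_mul]
  have k2 : ∀ x, star A * (C' * x) = 0 := fun x => by rw [← mul_assoc, h2, zero_mul]
  have k3 : ∀ x, star C * (A' * x) = 0 := fun x => by rw [← mul_assoc, h3, zero_mul]
  have k4 : ∀ x, star C * (C' * x) = 0 := fun x => by rw [← mul_assoc, h4, zero_mul]
  simp only [mul_add, add_mul, mul_assoc, k1, k2, k3, k4, mul_zero, add_zero]

theorem Diag_crossI (ht : Copies P a b t) {i j : ℕ} (hij : i ≠ j) (x y x' y' : B) :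
    (x * star (t (2 * i)) + y * star (t (2 * i + 1))) * (t (2 * j) * x' + t (2 * j + 1) * y') = 0 :=
  Diag_cross (ht.orth _ _ (by omega)) (ht.orth _ _ (by omega)) (ht.orth _ _ (by omega))
    (ht.orth _ _ (by omega)) x y x' y'

theorem Diag_swR (t : ℕ → B) (m : ℕ) : swR t m = ∑ i ∈ Finset.range m,
    (t (2 * i) * star (t (2 * i)) + t (2 * i + 1) * star (t (2 * i + 1))) :=
  Diag_even (fun i => t i * star (t i)) m

theorem Diag_blocks (hP : IsPrj P) (ht : Copies P a b t) (i : ℕ) {z z' : B} (hz : P b * z = z * P b)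
    (hz' : P b * z' = z' * P b) :
    (t (2 * i + 1) * star (t (2 * i)) - t (2 * i) * star (t (2 * i + 1))) *
      (t (2 * i + 1) * star (t (2 * i)) - t (2 * i) * star (t (2 * i + 1))) =
      -(t (2 * i) * star (t (2 * i)) + t (2 * i + 1) * star (t (2 * i + 1))) ∧
    (t (2 * i) * star (t (2 * i)) + t (2 * i + 1) * star (t (2 * i + 1))) *
      (t (2 * i) * star (t (2 * i)) + t (2 * i + 1) * star (t (2 * i + 1))) =
      t (2 * i) * star (t (2 * i)) + t (2 * i + 1) * star (t (2 * i + 1)) ∧
    (t (2 * i) * star (t (2 * i)) + t (2 * i + 1) * star (t (2 * i + 1))) *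
      (t (2 * i + 1) * star (t (2 * i)) - t (2 * i) * star (t (2 * i + 1))) =
      t (2 * i + 1) * star (t (2 * i)) - t (2 * i) * star (t (2 * i + 1)) ∧
    (t (2 * i + 1) * star (t (2 * i)) - t (2 * i) * star (t (2 * i + 1))) *
      (t (2 * i) * star (t (2 * i)) + t (2 * i + 1) * star (t (2 * i + 1))) =
      t (2 * i + 1) * star (t (2 * i)) - t (2 * i) * star (t (2 * i + 1)) ∧
    (t (2 * i + 1) * star (t (2 * i)) - t (2 * i) * star (t (2 * i + 1))) *
      (t (2 * i) * z * star (t (2 * i)) + t (2 * i + 1) * z' * star (t (2 * i + 1))) =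
      t (2 * i + 1) * z * star (t (2 * i)) - t (2 * i) * z' * star (t (2 * i + 1)) ∧
    (t (2 * i) * z * star (t (2 * i)) + t (2 * i + 1) * z' * star (t (2 * i + 1))) *
      (t (2 * i + 1) * star (t (2 * i)) - t (2 * i) * star (t (2 * i + 1))) =
      t (2 * i + 1) * z' * star (t (2 * i)) - t (2 * i) * z * star (t (2 * i + 1)) :=
  Diag_pair (ht.ini (2 * i)) (ht.ini (2 * i + 1)) (ht.orth (2 * i) (2 * i + 1) (by omega))
    (ht.orth (2 * i + 1) (2 * i) (by omega)) (Diag_tP hP ht _) (Diag_tP hP ht _) (Diag_Pt hP ht _)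
    (Diag_Pt hP ht _) hz hz'

theorem Diag_JJ (hP : IsPrj P) (ht : Copies P a b t) (m : ℕ) : swJ t m * swJ t m = -swR t m := by
  rw [Diag_swR]
  unfold swJ
  rw [Diag_bsum, ← Finset.sum_neg_distrib]
  · refine Finset.sum_congr rfl fun i _ => ?_
    exact (Diag_blocks hP ht i (z := 0) (z' := 0) (by simp) (by simp)).1
  · intro i j hij
    have h := Diag_crossI ht hij (t (2 * i + 1)) (-t (2 * i)) (-star (t (2 * j + 1))) (star (t (2 * j)))
    simp only [mul_neg, neg_mul] at h
    rw [← h]
    noncomm_ring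

theorem Diag_RR (hP : IsPrj P) (ht : Copies P a b t) (m : ℕ) : swR t m * swR t m = swR t m := by
  rw [Diag_swR, Diag_bsum]
  · refine Finset.sum_congr rfl fun i _ => ?_
    exact (Diag_blocks hP ht i (z := 0) (z' := 0) (by simp) (by simp)).2.1
  · intro i j hij
    exact Diag_crossI ht hij (t (2 * i)) (t (2 * i + 1)) (star (t (2 * j))) (star (t (2 * j + 1)))

theorem Diag_RJ (hP : IsPrj P) (ht : Copies P a b t) (m : ℕ) : swR t m * swJ t m = swJ t m := by
  rw [Diag_swR]
  unfold swJ
  rw [Diag_bsum]
  · refine Finset.sum_congr rfl fun i _ => ?_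
    exact (Diag_blocks hP ht i (z := 0) (z' := 0) (by simp) (by simp)).2.2.1
  · intro i j hij
    have h := Diag_crossI ht hij (t (2 * i)) (t (2 * i + 1)) (-star (t (2 * j + 1))) (star (t (2 * j)))
    simp only [mul_neg] at h
    rw [← h]
    noncomm_ring

theorem Diag_JR (hP : IsPrj P) (ht : Copies P a b t) (m : ℕ) : swJ t m * swR t m = swJ t m := by
  rw [Diag_swR]
  unfold swJ
  rw [Diag_bsum]
  · refine Finset.sum_congr rfl fun i _ => ?_
    exact (Diag_blocks hP ht i (z := 0) (z' := 0) (by simp) (by simp)).2.2.2.1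
  · intro i j hij
    have h := Diag_crossI ht hij (t (2 * i + 1)) (-t (2 * i)) (star (t (2 * j))) (star (t (2 * j + 1)))
    simp only [neg_mul] at h
    rw [← h]
    noncomm_ring

theorem Diag_Jz (hP : IsPrj P) (ht : Copies P a b t) (m : ℕ) {z z' : ℕ → B}
    (hz : ∀ i v, P v * z i = z i * P v) (hz' : ∀ i v, P v * z' i = z' i * P v)
    (h1 : ∀ i, z' (2 * i + 1) = z (2 * i)) (h2 : ∀ i, z' (2 * i) = z (2 * i + 1)) :
    swJ t m * (∑ i ∈ Finset.range (2 * m), t i * z i * star (t i)) =
      (∑ i ∈ Finset.range (2 * m), t i * z' i * star (t i)) * swJ t m := by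
  rw [Diag_even, Diag_even]
  unfold swJ
  rw [Diag_bsum, Diag_bsum]
  · refine Finset.sum_congr rfl fun i _ => ?_
    have e1 := (Diag_blocks hP ht i (hz (2 * i) b) (hz (2 * i + 1) b)).2.2.2.2.1
    have e2 := (Diag_blocks hP ht i (hz' (2 * i) b) (hz' (2 * i + 1) b)).2.2.2.2.2
    rw [e1, e2, h1, h2]
  · intro i j hij
    have h := Diag_crossI ht hij (t (2 * i) * z' (2 * i)) (t (2 * i + 1) * z' (2 * i + 1))
      (-star (t (2 * j + 1))) (star (t (2 * j)))
    simp only [mul_neg] at h
    rw [← h]
    noncomm_ring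
  · intro i j hij
    have h := Diag_crossI ht hij (t (2 * i + 1)) (-t (2 * i)) (z (2 * j) * star (t (2 * j)))
      (z (2 * j + 1) * star (t (2 * j + 1)))
    simp only [neg_mul] at h
    rw [← h]
    noncomm_ring

theorem Diag_starR (t : ℕ → B) (m : ℕ) : star (swR t m) = swR t m := by
  unfold swR
  rw [star_sum]
  refine Finset.sum_congr rfl fun i _ => ?_
  rw [star_mul, star_star]

theorem Diag_starJ (t : ℕ → B) (m : ℕ) : star (swJ t m) = -swJ t m := by
  unfold swJ
  rw [star_sum, ← Finset.sum_neg_distrib]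
  refine Finset.sum_congr rfl fun i _ => ?_
  rw [star_sub, star_mul, star_mul, star_star, star_star]
  abel

theorem Diag_PR (hP : IsPrj P) (ht : Copies P a b t) (m : ℕ) (v : V) : P v * swR t m = swR t m * P v :=
  Diag_comm1 hP ht (2 * m) v

theorem Diag_PJ (hP : IsPrj P) (ht : Copies P a b t) (m : ℕ) (v : V) : P v * swJ t m = swJ t m * P v := by
  unfold swJ
  rw [Finset.mul_sum, Finset.sum_mul]
  refine Finset.sum_congr rfl fun i _ => ?_
  have e1 : ∀ j, star (t j) * P v = star (P v * t j) := by
    intro j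
    rw [star_mul, hP.star_eq]
  rw [mul_sub, sub_mul, mul_assoc, mul_assoc, e1, e1, ← mul_assoc, ← mul_assoc]
  by_cases h : v = a
  · rw [h, ht.fin, ht.fin]
  · rw [Diag_Pne hP ht _ h, Diag_Pne hP ht _ h]
    simp

end

/-- Rotations give a path to the diagonal element with entries `y_i` at `2 i` and `y_i*` at
`2 i + 1`, `i < m`. Proof: `chain_rot` with `d = diag t (2 m) (y_{i/2} at even i, 1 at odd i)`,
`R = swR t m`, `J = swJ t m`, `K = 1 - R + J` satisfies `K t_{2i} = t_{2i+1}`,
`K t_{2i+1} = - t_{2i}`, so `K d* K* = diag (1 at 2 i, y_i* at 2 i + 1)`. -/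
theorem chain_pairs (hP : IsPrj P) (ht : Copies P a b t) (m : ℕ) {y : ℕ → B}
    (hy : ∀ i, y i ∈ UD P) (n : ℕ) (hn : 0 < n) :
    Chain P (Real.pi / n) n
      (diag t (2 * m) (fun i => if i % 2 = 0 then y (i / 2) else star (y (i / 2)))) := by
  have hc : ∀ (u : B), u ∈ UD P → ∀ v, P v * u = u * P v := fun u hu v => hu.2.2 v
  have h1 : (1 : B) ∈ UD P := UD_one
  have hys : ∀ i, star (y i) ∈ UD P := fun i => UD_star hP (hy i)
  have hx : ∀ i, (if i % 2 = 0 then y (i / 2) else (1 : B)) ∈ UD P := by
    intro i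
    split_ifs
    · exact hy _
    · exact h1
  have hz : ∀ i, (if i % 2 = 0 then star (y (i / 2)) else (1 : B)) ∈ UD P := by
    intro i
    split_ifs
    · exact hys _
    · exact h1
  have hz' : ∀ i, (if i % 2 = 0 then (1 : B) else star (y (i / 2))) ∈ UD P := by
    intro i
    split_ifs
    · exact h1
    · exact hys _
  have hd := diag_mem hP ht (2 * m) hx
  have hR := Diag_starR t m
  have hR2 := Diag_RR hP ht m
  have hJ := Diag_starJ t m
  have hJ2 := Diag_JJ hP ht m
  have hRJ := Diag_RJ hP ht m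
  have hJR := Diag_JR hP ht m
  have hmain := chain_rot hP hd hR hR2 hJ hJ2 hRJ hJR (Diag_PJ hP ht m) (Diag_PR hP ht m) n hn
  have e1 : star (diag t (2 * m) fun i => if i % 2 = 0 then y (i / 2) else (1 : B)) =
      diag t (2 * m) fun i => if i % 2 = 0 then star (y (i / 2)) else (1 : B) := by
    rw [star_diag]
    congr 1
    funext i
    split_ifs
    · rfl
    · exact star_one B
  have e2 : (1 - swR t m + swJ t m) * diag t (2 * m) (fun i => if i % 2 = 0 then star (y (i / 2)) else (1 : B)) =
      diag t (2 * m) (fun i => if i % 2 = 0 then (1 : B) else star (y (i / 2))) * (1 - swR t m + swJ t m) := by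
    have e3 := Diag_Jz hP ht m (z := fun i => if i % 2 = 0 then star (y (i / 2)) else (1 : B))
      (z' := fun i => if i % 2 = 0 then (1 : B) else star (y (i / 2))) (fun i v => hc _ (hz i) v)
      (fun i v => hc _ (hz' i) v) (fun i => by
        have k1 : (2 * i + 1) % 2 = 1 := by omega
        have k2 : (2 * i + 1) / 2 = i := by omega
        have k3 : (2 * i) % 2 = 0 := by omega
        have k4 : (2 * i) / 2 = i := by omega
        simp [k1, k2, k3, k4]) (fun i => by
        have k1 : (2 * i + 1) % 2 = 1 := by omega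
        have k3 : (2 * i) % 2 = 0 := by omega
        simp [k1, k3])
    have hRz : ∀ z : ℕ → B, (∀ i v, P v * z i = z i * P v) →
        swR t m * (∑ i ∈ Finset.range (2 * m), t i * z i * star (t i)) =
          ∑ i ∈ Finset.range (2 * m), t i * z i * star (t i) := by
      intro z hz0
      have h := Diag_dmul hP ht (2 * m) (x := fun _ => 1) hz0
      simp only [mul_one, one_mul] at h
      exact h
    have hzR : ∀ z : ℕ → B,
        (∑ i ∈ Finset.range (2 * m), t i * z i * star (t i)) * swR t m =
          ∑ i ∈ Finset.range (2 * m), t i * z i * star (t i) := by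
      intro z
      have h := Diag_dmul hP ht (2 * m) (x := z) (y := fun _ => 1) (fun i v => by simp)
      simp only [mul_one] at h
      exact h
    have e4 := hRz _ (fun i v => hc _ (hz i) v)
    have e5 := hzR (fun i => if i % 2 = 0 then (1 : B) else star (y (i / 2)))
    unfold diag
    change (1 - swR t m + swJ t m) * (_ + (1 - swR t m)) = (_ + (1 - swR t m)) * (1 - swR t m + swJ t m)
    generalize (∑ i ∈ Finset.range (2 * m), t i * (if i % 2 = 0 then star (y (i / 2)) else (1 : B)) * star (t i)) = X at *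
    generalize (∑ i ∈ Finset.range (2 * m), t i * (if i % 2 = 0 then (1 : B) else star (y (i / 2))) * star (t i)) = Y at *
    generalize swR t m = R at *
    generalize swJ t m = J at *
    have e6 : (1 - R + J) * (X + (1 - R)) = (X - R * X) + (1 - R - R + R * R) + J * X + (J - J * R) := by
      noncomm_ring
    have e7 : (Y + (1 - R)) * (1 - R + J) = (Y - Y * R) + (1 - R - R + R * R) + Y * J + (J - R * J) := by
      noncomm_ring
    rw [e6, e7, e3, e4, e5, hJR, hRJ]
    abel
  have hK : (1 - swR t m + swJ t m) * star (1 - swR t m + swJ t m) = 1 := by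
    rw [star_add, star_sub, star_one, hR, hJ]
    generalize swR t m = R at *
    generalize swJ t m = J at *
    have e6 : (1 - R + J) * (1 - R + -J) = (1 - R - R + R * R) - (J - R * J) + (J - J * R) - J * J := by
      noncomm_ring
    rw [e6, hR2, hJ2, hRJ, hJR]
    abel
  rw [e1, mul_assoc (diag t (2 * m) _) (1 - swR t m + swJ t m), e2, mul_assoc, mul_assoc, hK, mul_one,
    diag_mul hP ht (2 * m) (fun i v => hc _ (hz' i) v)] at hmain
  have e8 : (fun i => (if i % 2 = 0 then y (i / 2) else (1 : B)) * (if i % 2 = 0 then (1 : B) else star (y (i / 2)))) =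
      fun i => if i % 2 = 0 then y (i / 2) else star (y (i / 2)) := by
    funext i
    split_ifs
    · exact mul_one _
    · exact one_mul _
  rw [e8] at hmain
  exact hmain

end Pool.Agent.AUE
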