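import Pool.Agent.AUE.Det

/-!
# EI: approximate intertwining

PROOF. Let `x : ℕ → A`, `y : ℕ → B` enumerate generating sets (may assume nonempty: add `0`).
Construct recursively homomorphisms `α n = (adU u_n).comp α`, `β n = (adU v_n).comp β` and finite
sets `F n ⊆ A`, `G n ⊆ B`:
`F 0 = ∅`, `α 0 = α`; given `α n`, `F n` with `x i ∈ F n` for `i < n`: `(β.comp (α n))` is
approximately unitarily equivalent to `β.comp α` (`comp_left` of `AppU.of_adU`), hence to `id`
(`h1`), so there is `v` with `β n = (adU v).comp β` and `‖β n (α n a) - a‖ ≤ 2^-n` for `a ∈ F n`.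
`G n = α n (F n) ∪ {y i | i < n}`. Similarly `α.comp (β n)` is equivalent to `α.comp β`, so to `id`:
there is `u` with `α (n+1) = (adU u).comp α`, `‖α (n+1) (β n b) - b‖ ≤ 2^-n` for `b ∈ G n`.
`F (n+1) = F n ∪ β n (G n) ∪ {x n}`.
-/

namespace Pool.Agent.AUE

open Filter Topology

/-- One half step of the intertwining. -/
theorem EI_step {A B : Type} [NonUnitalCStarAlgebra A] [NonUnitalCStarAlgebra B]
    (α : A →⋆ₙₐ[ℂ] B) (β : B →⋆ₙₐ[ℂ] A)
    (h1 : AppU (β.comp α) (NonUnitalStarAlgHom.id ℂ A)) (u : unitary (Unitization ℂ B))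
    (F : Finset A) (n : ℕ) :
    ∃ v : unitary (Unitization ℂ A), ∀ a ∈ F, ‖adU v (β (adU u (α a))) - a‖ ≤ (1 / 2 : ℝ) ^ n := by
  obtain ⟨v', hv'⟩ := comp_adU β u
  have e : AppU (β.comp ((adU u).comp α)) (NonUnitalStarAlgHom.id ℂ A) := by
    have e1 : β.comp ((adU u).comp α) = (adU v').comp (β.comp α) := by
      have : β.comp ((adU u).comp α) = (β.comp (adU u)).comp α := rfl
      rw [this, hv']
      rfl
    rw [e1]
    exact (AppU.of_adU _ _).symm.trans h1
  obtain ⟨v, hv⟩ := e F ((1 / 2 : ℝ) ^ n) (by positivity)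
  exact ⟨v, fun a ha => hv a ha⟩

/-- The sequences of the intertwining. -/
theorem EI_seq {A B : Type} [NonUnitalCStarAlgebra A] [NonUnitalCStarAlgebra B]
    (α : A →⋆ₙₐ[ℂ] B) (β : B →⋆ₙₐ[ℂ] A)
    (h1 : AppU (β.comp α) (NonUnitalStarAlgHom.id ℂ A))
    (h2 : AppU (α.comp β) (NonUnitalStarAlgHom.id ℂ B)) (x : ℕ → A) (y : ℕ → B) :
    ∃ (a : ℕ → (A →⋆ₙₐ[ℂ] B)) (b : ℕ → (B →⋆ₙₐ[ℂ] A)) (F : ℕ → Finset A) (G : ℕ → Finset B),
      (∀ n, ∀ z ∈ F n, ‖b n (a n z) - z‖ ≤ (1 / 2 : ℝ) ^ n) ∧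
      (∀ n, ∀ z ∈ G n, ‖a (n + 1) (b n z) - z‖ ≤ (1 / 2 : ℝ) ^ n) ∧
      (∀ n, ∀ z ∈ F n, a n z ∈ G n) ∧ (∀ n, ∀ z ∈ G n, b n z ∈ F (n + 1)) ∧
      (∀ n, ∀ z ∈ F n, z ∈ F (n + 1)) ∧ (∀ n, x n ∈ F (n + 1)) ∧
      (∀ n, ∀ i < n, y i ∈ G n) := by
  classical
  choose V hV using EI_step α β h1
  choose U hU using EI_step β α h2
  let GG : unitary (Unitization ℂ B) × Finset A → ℕ → Finset B := fun p n =>
    p.2.image (fun z => adU p.1 (α z)) ∪ (Finset.range n).image y
  let nx : ℕ → unitary (Unitization ℂ B) × Finset A → unitary (Unitization ℂ B) × Finset A :=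
    fun n p => (U (V p.1 p.2 n) (GG p n) n,
      (p.2 ∪ (GG p n).image (fun z => adU (V p.1 p.2 n) (β z))) ∪ {x n})
  let St : ℕ → unitary (Unitization ℂ B) × Finset A := fun n =>
    Nat.rec (1, ∅) nx n
  have hSt : ∀ n, St (n + 1) = nx n (St n) := fun n => rfl
  refine ⟨fun n => (adU (St n).1).comp α, fun n => (adU (V (St n).1 (St n).2 n)).comp β,
    fun n => (St n).2, fun n => GG (St n) n, ?_, ?_, ?_, ?_, ?_, ?_, ?_⟩
  · intro n z hz
    exact hV (St n).1 (St n).2 n z hz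
  · intro n z hz
    have h := hU (V (St n).1 (St n).2 n) (GG (St n) n) n z hz
    simpa [hSt] using h
  · intro n z hz
    exact Finset.mem_union_left _ (Finset.mem_image_of_mem _ hz)
  · intro n z hz
    simp only [hSt]
    exact Finset.mem_union_left _ (Finset.mem_union_right _ (Finset.mem_image_of_mem _ hz))
  · intro n z hz
    simp only [hSt]
    exact Finset.mem_union_left _ (Finset.mem_union_left _ hz)
  · intro n
    simp only [hSt]
    exact Finset.mem_union_right _ (Finset.mem_singleton_self _)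
  · intro n i hi
    exact Finset.mem_union_right _ (Finset.mem_image_of_mem _ (Finset.mem_range.2 hi))

theorem EI_norm {A B : Type} [NonUnitalCStarAlgebra A] [NonUnitalCStarAlgebra B]
    (φ : A →⋆ₙₐ[ℂ] B) (a : A) : ‖φ a‖ ≤ ‖a‖ := NonUnitalStarAlgHom.norm_apply_le φ a

/-- Cauchy on the generators implies Cauchy everywhere. -/
theorem EI_cauchy {A B : Type} [NonUnitalCStarAlgebra A] [NonUnitalCStarAlgebra B] {X : Set A}
    (hX : GenBy X) (a : ℕ → (A →⋆ₙₐ[ℂ] B)) (h : ∀ x ∈ X, CauchySeq (fun n => a n x)) (z : A) :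
    CauchySeq (fun n => a n z) := by
  rw [Metric.cauchySeq_iff]
  intro ε hε
  obtain ⟨s, δ, hδ, hs, hd⟩ := det hX z (ε / 2) (by positivity)
  have h1 : ∀ x ∈ s, ∃ N, ∀ m ≥ N, ∀ n ≥ N, dist (a m x) (a n x) < δ := fun x hx =>
    (Metric.cauchySeq_iff.1 (h x (hs x hx))) δ hδ
  choose! N hN using h1
  refine ⟨s.sup N, fun m hm n hn => ?_⟩
  have := hd B (a m) (a n) (fun x hx => by
    have h2 := hN x hx m (le_trans (Finset.le_sup hx) hm) n (le_trans (Finset.le_sup hx) hn)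
    rw [dist_eq_norm] at h2
    exact h2.le)
  rw [dist_eq_norm]
  linarith

/-- The limit of a pointwise convergent sequence of homomorphisms. -/
theorem EI_lim {A B : Type} [NonUnitalCStarAlgebra A] [NonUnitalCStarAlgebra B]
    (a : ℕ → (A →⋆ₙₐ[ℂ] B)) (h : ∀ z, CauchySeq (fun n => a n z)) :
    ∃ φ : A →⋆ₙₐ[ℂ] B, ∀ z, Tendsto (fun n => a n z) atTop (𝓝 (φ z)) := by
  have h1 : ∀ z, ∃ w, Tendsto (fun n => a n z) atTop (𝓝 w) := fun z =>
    cauchySeq_tendsto_of_complete (h z)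
  choose f hf using h1
  let φ : A →⋆ₙₐ[ℂ] B :=
    { toFun := f
      map_smul' := fun c z => by
        refine tendsto_nhds_unique (hf (c • z)) ?_
        simp only [map_smul]
        exact (hf z).const_smul c
      map_zero' := by
        refine tendsto_nhds_unique (hf 0) ?_
        simp only [map_zero]
        exact tendsto_const_nhds
      map_add' := fun z w => by
        refine tendsto_nhds_unique (hf (z + w)) ?_
        simp only [map_add]
        exact (hf z).add (hf w)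
      map_mul' := fun z w => by
        refine tendsto_nhds_unique (hf (z * w)) ?_
        simp only [map_mul]
        exact (hf z).mul (hf w)
      map_star' := fun z => by
        refine tendsto_nhds_unique (hf (star z)) ?_
        simp only [map_star]
        exact (hf z).star }
  exact ⟨φ, hf⟩

/-- Homomorphisms which agree on generators agree. -/
theorem EI_ext {A B : Type} [NonUnitalCStarAlgebra A] [NonUnitalCStarAlgebra B] {X : Set A}
    (hX : GenBy X) (φ ψ : A →⋆ₙₐ[ℂ] B) (h : ∀ x ∈ X, φ x = ψ x) (z : A) : φ z = ψ z := by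
  rw [← sub_eq_zero, ← norm_le_zero_iff]
  refine le_of_forall_pos_le_add fun ε hε => ?_
  obtain ⟨s, δ, hδ, hs, hd⟩ := det hX z ε hε
  rw [zero_add]
  exact hd B φ ψ (fun x hx => by rw [h x (hs x hx), sub_self, norm_zero]; exact hδ.le)

/-- A sequence which moves by at most `3 * 2^-n` from the index `k` on is Cauchy. -/
theorem EI_geo {B : Type} [NonUnitalCStarAlgebra B] (f : ℕ → B) (k : ℕ)
    (h : ∀ n, k ≤ n → ‖f (n + 1) - f n‖ ≤ 2 * (1 / 2 : ℝ) ^ n) : CauchySeq f := by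
  rw [← cauchySeq_shift k]
  refine cauchySeq_of_le_geometric (1 / 2 : ℝ) 2 (by norm_num) fun n => ?_
  rw [dist_comm, dist_eq_norm]
  have h1 := h (n + k) (by omega)
  have h2 : n + 1 + k = n + k + 1 := by ring
  rw [h2]
  refine h1.trans ?_
  have : (1 / 2 : ℝ) ^ (n + k) ≤ (1 / 2 : ℝ) ^ n :=
    pow_le_pow_of_le_one (by norm_num) (by norm_num) (by omega)
  linarith

/-- Composition of limits. -/
theorem EI_comp {A B : Type} [NonUnitalCStarAlgebra A] [NonUnitalCStarAlgebra B]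
    (a : ℕ → (A →⋆ₙₐ[ℂ] B)) (φ : A →⋆ₙₐ[ℂ] B)
    (hφ : ∀ z, Tendsto (fun n => a n z) atTop (𝓝 (φ z))) (c : ℕ → A) (w : A)
    (hc : Tendsto c atTop (𝓝 w)) : Tendsto (fun n => a n (c n)) atTop (𝓝 (φ w)) := by
  have h1 : Tendsto (fun n => a n (c n - w)) atTop (𝓝 0) := by
    rw [tendsto_zero_iff_norm_tendsto_zero]
    refine squeeze_zero (fun n => norm_nonneg _) (fun n => EI_norm (a n) (c n - w)) ?_
    rw [← tendsto_zero_iff_norm_tendsto_zero]
    have := hc.sub_const w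
    rwa [sub_self] at this
  have h2 := h1.add (hφ w)
  rw [zero_add] at h2
  refine h2.congr fun n => ?_
  rw [map_sub, sub_add_cancel]

theorem elliott {A B : Type} [NonUnitalCStarAlgebra A] [NonUnitalCStarAlgebra B]
    (α : A →⋆ₙₐ[ℂ] B) (β : B →⋆ₙₐ[ℂ] A) (hA : ∃ X : Set A, X.Countable ∧ GenBy X)
    (hB : ∃ Y : Set B, Y.Countable ∧ GenBy Y)
    (h1 : AppU (β.comp α) (NonUnitalStarAlgHom.id ℂ A))
    (h2 : AppU (α.comp β) (NonUnitalStarAlgHom.id ℂ B)) : Nonempty (A ≃⋆ₐ[ℂ] B) := by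
  obtain ⟨X, hXc, hX⟩ := hA
  obtain ⟨Y, hYc, hY⟩ := hB
  obtain ⟨x, hx⟩ : ∃ x : ℕ → A, X ⊆ Set.range x := by
    rcases X.eq_empty_or_nonempty with h | h
    · exact ⟨fun _ => 0, by rw [h]; exact Set.empty_subset _⟩
    · obtain ⟨x, hx⟩ := hXc.exists_eq_range h
      exact ⟨x, hx.le⟩
  obtain ⟨y, hy⟩ : ∃ y : ℕ → B, Y ⊆ Set.range y := by
    rcases Y.eq_empty_or_nonempty with h | h
    · exact ⟨fun _ => 0, by rw [h]; exact Set.empty_subset _⟩
    · obtain ⟨y, hy⟩ := hYc.exists_eq_range h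
      exact ⟨y, hy.le⟩
  obtain ⟨a, b, F, G, hba, hab, hFG, hGF, hFF, hxF, hyG⟩ := EI_seq α β h1 h2 x y
  have ha1 : ∀ n, ∀ z ∈ F n, ‖a (n + 1) z - a n z‖ ≤ 2 * (1 / 2 : ℝ) ^ n := by
    intro n z hz
    have e1 := hba n z hz
    have e2 := hab n (a n z) (hFG n z hz)
    have e3 := EI_norm (a (n + 1)) (z - b n (a n z))
    have e4 : a (n + 1) z - a n z =
        a (n + 1) (z - b n (a n z)) + (a (n + 1) (b n (a n z)) - a n z) := by
      rw [map_sub]; abel
    rw [e4]
    refine (norm_add_le _ _).trans ?_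
    rw [norm_sub_rev z] at e3
    linarith
  have hb1 : ∀ n, ∀ z ∈ G n, ‖b (n + 1) z - b n z‖ ≤ 2 * (1 / 2 : ℝ) ^ n := by
    intro n z hz
    have e1 := hab n z hz
    have e2 := hba (n + 1) (b n z) (hGF n z hz)
    have e3 := EI_norm (b (n + 1)) (z - a (n + 1) (b n z))
    have e4 : b (n + 1) z - b n z =
        b (n + 1) (z - a (n + 1) (b n z)) + (b (n + 1) (a (n + 1) (b n z)) - b n z) := by
      rw [map_sub]; abel
    rw [e4]
    refine (norm_add_le _ _).trans ?_
    rw [norm_sub_rev z] at e3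
    have : (1 / 2 : ℝ) ^ (n + 1) ≤ (1 / 2 : ℝ) ^ n :=
      pow_le_pow_of_le_one (by norm_num) (by norm_num) (by omega)
    linarith
  have hxF' : ∀ i n, i < n → x i ∈ F n := by
    intro i n hin
    induction n with
    | zero => omega
    | succ n ih =>
      rcases Nat.lt_succ_iff_lt_or_eq.1 hin with h | h
      · exact hFF n _ (ih h)
      · rw [h]; exact hxF n
  have hac : ∀ z, CauchySeq (fun n => a n z) := by
    refine EI_cauchy hX a fun z hz => ?_
    obtain ⟨i, rfl⟩ := hx hz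
    exact EI_geo _ (i + 1) fun n hn => ha1 n _ (hxF' i n (by omega))
  have hbc : ∀ z, CauchySeq (fun n => b n z) := by
    refine EI_cauchy hY b fun z hz => ?_
    obtain ⟨i, rfl⟩ := hy hz
    exact EI_geo _ (i + 1) fun n hn => hb1 n _ (hyG n i (by omega))
  obtain ⟨φ, hφ⟩ := EI_lim a hac
  obtain ⟨ψ, hψ⟩ := EI_lim b hbc
  have hzero : Tendsto (fun n : ℕ => (1 / 2 : ℝ) ^ n) atTop (𝓝 0) :=
    tendsto_pow_atTop_nhds_zero_of_lt_one (by norm_num) (by norm_num)
  have hψφ : ∀ z, ψ (φ z) = z := by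
    refine EI_ext hX (ψ.comp φ) (NonUnitalStarAlgHom.id ℂ A) fun z hz => ?_
    obtain ⟨i, rfl⟩ := hx hz
    change ψ (φ (x i)) = x i
    have e1 : Tendsto (fun n => b n (a n (x i))) atTop (𝓝 (ψ (φ (x i)))) :=
      EI_comp b ψ hψ (fun n => a n (x i)) _ (hφ (x i))
    refine tendsto_nhds_unique e1 ?_
    rw [tendsto_iff_norm_sub_tendsto_zero]
    refine squeeze_zero' (Eventually.of_forall fun n => norm_nonneg _) ?_ hzero
    filter_upwards [eventually_ge_atTop (i + 1)] with n hn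
    exact hba n _ (hxF' i n (by omega))
  have hφψ : ∀ z, φ (ψ z) = z := by
    refine EI_ext hY (φ.comp ψ) (NonUnitalStarAlgHom.id ℂ B) fun z hz => ?_
    obtain ⟨i, rfl⟩ := hy hz
    change φ (ψ (y i)) = y i
    have e1 : Tendsto (fun n => a (n + 1) (b n (y i))) atTop (𝓝 (φ (ψ (y i)))) :=
      EI_comp (fun n => a (n + 1)) φ (fun z => (tendsto_add_atTop_iff_nat 1).2 (hφ z))
        (fun n => b n (y i)) _ (hψ (y i))
    refine tendsto_nhds_unique e1 ?_
    rw [tendsto_iff_norm_sub_tendsto_zero]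
    refine squeeze_zero' (Eventually.of_forall fun n => norm_nonneg _) ?_ hzero
    filter_upwards [eventually_ge_atTop (i + 1)] with n hn
    exact hab n _ (hyG n i (by omega))
  exact ⟨{ toFun := φ
           invFun := ψ
           left_inv := hψφ
           right_inv := hφψ
           map_mul' := fun z w => map_mul φ z w
           map_add' := fun z w => map_add φ z w
           map_star' := fun z => map_star φ z
           map_smul' := fun c z => map_smul φ c z }⟩

end Pool.Agent.AUE
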