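import Pool.Agent.AUE.Bas

/-!
# Expand: expanding a set of edges

`G.expand Φ`: the edges `f ∈ Φ` are replaced by the paths `f g` of length two, `g` any edge with
`s g = r f` (automatically `g ∉ Φ` by `hΦ`).

PROOF of `sol_expand`. Given `F` for `G`, `c`, `ε`. `F'`: `S'_e = S_e` (`e ∉ Φ`), `S'_{(f,g)} = S_f S_g`, a
family of `G.expand Φ` with the same `P`. Let `κ = ∑_{f∈Φ} S_f c S_f* + (1 - ∑_{f∈Φ} S_f S_f*)`: `Ch P κ`
(apply this to the chain of `c`). `h` for `F'`, `c κ`, `ε' = ε / (1 + card Φ)` gives `W` with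
`Ch P W`, `‖star W * (c κ) * θ'(W) - 1‖ ≤ ε'`. Put `Δ = star c * W - κ * θ'(W)`, `‖Δ‖ ≤ ε'`
(multiply by unitaries). Claim: `‖star c * W - th W‖ ≤ (1 + card Φ) ε'`; then
`‖star W * c * th W - 1‖ = ‖th W - star c * W‖ ≤ ε`.
For `f ∈ Φ` let `v = r f`. By `hΦ` all edges `g` with source `v` are not in `Φ`, so
`θ'(W) P_v = ∑_{s g = v} S_g W S_g* + (P_v - ∑_{s g = v} S_g S_g*) = th W * P_v` and `κ P_v = P_v`; so
`(W - c * th W) P_v = c Δ P_v`.
Now `κ θ'(W) - th W = ∑_{f∈Φ} S_f (c * th W - W) P_{r f} S_f*`: check after multiplication from the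
right with `S_e` (`e ∉ Φ`: `κ θ'(W) S_e = κ S_e W = S_e W = th W S_e`), with `S_f` (`f ∈ Φ`:
`θ'(W) S_f = ∑_g S_f S_g W S_g* + S_f (P_v - ∑_g S_g S_g*) = S_f (th W) P_v`, `κ S_f = S_f c` (on `P_v`), so
`κ θ'(W) S_f = S_f c (th W) P_v`, and `th W S_f = S_f W P_v`), and with `1 - lam 1` (both sides give
`1 - lam 1`, resp. `0`). So `‖κ θ'(W) - th W‖ ≤ card Φ * ε'`, and
`star c * W - th W = Δ + (κ θ'(W) - th W)`.
-/

namespace Pool.Agent.AUE

open scoped Classical in
/-- Expansion of the edges in `Φ`. -/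
noncomputable def Gr.expand {V : Type} (G : Gr V) (Φ : Set G.Ed) : Gr V where
  Ed := {e : G.Ed // e ∉ Φ} ⊕ {p : G.Ed × G.Ed // p.1 ∈ Φ ∧ G.s p.2 = G.r p.1}
  s := Sum.elim (fun e => G.s e.1) (fun p => G.s p.1.1)
  r := Sum.elim (fun e => G.r e.1) (fun p => G.r p.1.2)

section

variable {V : Type} {G : Gr V} {B : Type} [CStarAlgebra B] {P : V → B}

private theorem exp_lam_one_S (F : Fam G P) (hP : IsPrj P) (e : G.Ed) :
    F.lam 1 * F.S e = F.S e := by
  rw [F.lam_S hP (fun v => by rw [mul_one, one_mul]) e, mul_one]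

private theorem exp_star_S_lam (F : Fam G P) (hP : IsPrj P) (e : G.Ed) :
    star (F.S e) * (1 - F.lam 1) = 0 := by
  have h := congrArg star (exp_lam_one_S F hP e)
  rw [star_mul, F.star_lam, star_one] at h
  rw [mul_sub, mul_one, h, sub_self]

private theorem exp_ext (F : Fam G P) {x y : B} (h1 : ∀ e, x * F.S e = y * F.S e)
    (h2 : x * (1 - F.lam 1) = y * (1 - F.lam 1)) : x = y := by
  have h3 : ∀ z : B, z = ∑ e, z * F.S e * star (F.S e) + z * (1 - F.lam 1) := by
    intro z
    have : ∑ e, z * F.S e * star (F.S e) = z * F.lam 1 := by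
      unfold Fam.lam
      rw [Finset.mul_sum]
      apply Finset.sum_congr rfl
      intro e _
      rw [mul_one, mul_assoc]
    rw [this]; noncomm_ring
  rw [h3 x, h3 y, h2]
  congr 1
  exact Finset.sum_congr rfl (fun e _ => by rw [h1])

private theorem exp_lam_mul_zero (F : Fam G P) {x z : B}
    (h : ∀ e, star (F.S e) * z = 0) : F.lam x * z = 0 := by
  unfold Fam.lam
  rw [Finset.sum_mul]
  apply Finset.sum_eq_zero
  intro e _
  rw [mul_assoc, h, mul_zero]

private theorem exp_th_mul_eq (F : Fam G P) {x z : B}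
    (h : ∀ e, star (F.S e) * z = 0) : F.th x * z = z := by
  unfold Fam.th
  rw [add_mul, sub_mul, exp_lam_mul_zero F h, exp_lam_mul_zero F h]
  simp

end

/-- The graph of the edges in `Φ`. -/
private noncomputable def expSub {V : Type} (G : Gr V) (Φ : Set G.Ed) : Gr V :=
  letI : Fintype {e : G.Ed // e ∈ Φ} := Fintype.ofFinite _
  { Ed := {e : G.Ed // e ∈ Φ}
    dec := Classical.decEq _
    s := fun e => G.s e.1
    r := fun e => G.r e.1 }

private noncomputable def expSubFam {V : Type} {G : Gr V} {B : Type} [CStarAlgebra B] {P : V → B}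
    (F : Fam G P) (Φ : Set G.Ed) : Fam (expSub G Φ) P where
  S := fun e => F.S e.1
  star_mul := fun e => F.star_mul e.1
  orth := fun e f h => F.orth e.1 f.1 (fun h' => h (Subtype.ext h'))
  P_mul := fun e => F.P_mul e.1

private noncomputable def expFam {V : Type} {G : Gr V} {B : Type} [CStarAlgebra B] {P : V → B}
    (_hP : IsPrj P) (F : Fam G P) (Φ : Set G.Ed) : Fam (G.expand Φ) P where
  S := Sum.elim (fun e => F.S e.1) (fun p => F.S p.1.1 * F.S p.1.2)
  star_mul := by
    rintro (e | ⟨⟨f, g⟩, hf, hg⟩)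
    · exact F.star_mul e.1
    · change star (F.S f * F.S g) * (F.S f * F.S g) = P (G.r g)
      change G.s g = G.r f at hg
      calc star (F.S f * F.S g) * (F.S f * F.S g)
          = star (F.S g) * (star (F.S f) * F.S f * F.S g) := by rw [star_mul]; noncomm_ring
        _ = star (F.S g) * F.S g := by rw [F.star_mul f, ← hg, F.P_mul g]
        _ = P (G.r g) := F.star_mul g
  orth := by
    rintro (e | ⟨⟨f, g⟩, hf, hg⟩) (e' | ⟨⟨f', g'⟩, hf', hg'⟩) hne
    · exact F.orth e.1 e'.1 (fun h' => hne (congrArg Sum.inl (Subtype.ext h')))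
    · change star (F.S e.1) * (F.S f' * F.S g') = 0
      rw [← mul_assoc, F.orth e.1 f' (fun h => e.2 (h ▸ hf')), zero_mul]
    · change star (F.S f * F.S g) * F.S e'.1 = 0
      rw [star_mul, mul_assoc, F.orth f e'.1 (fun h => e'.2 (h ▸ hf)), mul_zero]
    · change star (F.S f * F.S g) * (F.S f' * F.S g') = 0
      change G.s g = G.r f at hg
      change G.s g' = G.r f' at hg'
      by_cases hff : f = f'
      · subst hff
        have hgg : g ≠ g' := by
          intro h; subst h; exact hne rfl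
        calc star (F.S f * F.S g) * (F.S f * F.S g')
            = star (F.S g) * (star (F.S f) * F.S f * F.S g') := by rw [star_mul]; noncomm_ring
          _ = star (F.S g) * F.S g' := by rw [F.star_mul f, ← hg', F.P_mul g']
          _ = 0 := F.orth g g' hgg
      · calc star (F.S f * F.S g) * (F.S f' * F.S g')
            = star (F.S g) * (star (F.S f) * F.S f') * F.S g' := by rw [star_mul]; noncomm_ring
          _ = 0 := by rw [F.orth f f' hff, mul_zero, zero_mul]
  P_mul := by
    rintro (e | ⟨⟨f, g⟩, hf, hg⟩)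
    · exact F.P_mul e.1
    · change P (G.s f) * (F.S f * F.S g) = F.S f * F.S g
      rw [← mul_assoc, F.P_mul f]

theorem sol_expand {V : Type} (G : Gr V) (Φ : Set G.Ed)
    (hΦ : ∀ f ∈ Φ, ∀ f' ∈ Φ, G.r f ≠ G.s f') (h : Sol (G.expand Φ)) : Sol G := by
  classical
  intro B _ P hP F c hc ε hε
  have hcm := hc.mem
  have hcP : ∀ v, P v * c = c * P v := hcm.2.2
  set F₁ := expSubFam F Φ with hF₁
  set F' := expFam hP F Φ with hF'
  set κ : B := F₁.th c with hκ
  have hκC : Ch P κ := Ch.th F₁ hP hc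
  have hκm := hκC.mem
  obtain ⟨W, hWC, hW⟩ := h B P hP F' (c * κ) (hc.mul hκC) (ε / 2) (by positivity)
  have hWm := hWC.mem
  have hWP : ∀ v, P v * W = W * P v := hWm.2.2
  refine ⟨W, hWC, ?_⟩
  -- facts on κ
  have hκf : ∀ f ∈ Φ, κ * F.S f = F.S f * c := fun f hf => F₁.th_S hP hcP ⟨f, hf⟩
  have hκe : ∀ e, e ∉ Φ → κ * F.S e = F.S e := fun e he =>
    exp_th_mul_eq F₁ (fun f => F.orth f.1 e (fun h => he (h ▸ f.2)))
  have hκ1 : κ * (1 - F.lam 1) = 1 - F.lam 1 :=
    exp_th_mul_eq F₁ (fun f => exp_star_S_lam F hP f.1)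
  -- facts on θ'
  have hθe : ∀ e, e ∉ Φ → F'.th W * F.S e = F.S e * W := fun e he =>
    F'.th_S hP hWP (Sum.inl ⟨e, he⟩)
  have hθ1 : F'.th W * (1 - F.lam 1) = 1 - F.lam 1 := by
    apply exp_th_mul_eq F'
    rintro (e | ⟨⟨f, g⟩, hf, hg⟩)
    · exact exp_star_S_lam F hP e.1
    · change star (F.S f * F.S g) * (1 - F.lam 1) = 0
      rw [star_mul, mul_assoc, exp_star_S_lam F hP f, mul_zero]
  have hθf : ∀ f ∈ Φ, F'.th W * F.S f = F.S f * F.th W := by
    intro f hf
    have h1 : F'.th W * F.S f = ∑ g, F'.th W * (F.S f * F.S g) * star (F.S g)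
        + F'.th W * (F.S f * (1 - F.lam 1)) := by
      have : ∑ g, F'.th W * (F.S f * F.S g) * star (F.S g) = F'.th W * (F.S f * F.lam 1) := by
        unfold Fam.lam
        rw [Finset.mul_sum, Finset.mul_sum]
        apply Finset.sum_congr rfl
        intro g _
        noncomm_ring
      rw [this]; noncomm_ring
    have h2 : ∀ g, F'.th W * (F.S f * F.S g) * star (F.S g) = F.S f * (F.S g * W * star (F.S g)) := by
      intro g
      by_cases hg : G.s g = G.r f
      · have h3 : F'.th W * (F.S f * F.S g) = (F.S f * F.S g) * W :=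
          F'.th_S hP hWP (Sum.inr ⟨(f, g), hf, hg⟩)
        rw [h3]; noncomm_ring
      · have h3 : F.S f * F.S g = 0 := by
          rw [← F.S_P hP f, mul_assoc, F.P_S_ne hP g (fun h => hg h.symm), mul_zero]
        rw [h3, mul_zero, zero_mul, ← mul_assoc, ← mul_assoc, h3, zero_mul, zero_mul]
    have h4 : F'.th W * (F.S f * (1 - F.lam 1)) = F.S f * (1 - F.lam 1) := by
      apply exp_th_mul_eq F'
      rintro (e | ⟨⟨f', g⟩, hf', hg⟩)
      · change star (F.S e.1) * (F.S f * (1 - F.lam 1)) = 0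
        rw [← mul_assoc, F.orth e.1 f (fun h => e.2 (h ▸ hf)), zero_mul]
      · change star (F.S f' * F.S g) * (F.S f * (1 - F.lam 1)) = 0
        change G.s g = G.r f' at hg
        by_cases hff : f' = f
        · subst hff
          calc star (F.S f' * F.S g) * (F.S f' * (1 - F.lam 1))
              = star (star (F.S f') * F.S f' * F.S g) * (1 - F.lam 1) := by
                simp only [star_mul, star_star]; noncomm_ring
            _ = 0 := by rw [F.star_mul f', ← hg, F.P_mul g, exp_star_S_lam F hP g]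
        · calc star (F.S f' * F.S g) * (F.S f * (1 - F.lam 1))
              = star (F.S g) * (star (F.S f') * F.S f) * (1 - F.lam 1) := by
                rw [star_mul]; noncomm_ring
            _ = 0 := by rw [F.orth f' f hff, mul_zero, zero_mul]
    rw [h1, h4, Finset.sum_congr rfl (fun g _ => h2 g), ← Finset.mul_sum]
    unfold Fam.th Fam.lam
    noncomm_ring
  have hthe : ∀ e, F.th W * F.S e = F.S e * W := fun e => F.th_S hP hWP e
  have hth1 : F.th W * (1 - F.lam 1) = 1 - F.lam 1 :=
    exp_th_mul_eq F (fun e => exp_star_S_lam F hP e)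
  have hthm : F.th W ∈ UD P := F.th_mem hP hWm
  have hthP : ∀ v, P v * F.th W = F.th W * P v := hthm.2.2
  -- near the ranges of the edges in Φ
  have hPl : ∀ v, P v * (1 - F.lam 1) = (1 - F.lam 1) * P v := fun v => by
    rw [mul_sub, sub_mul, F.P_lam hP, mul_one, one_mul]
  have hθP : ∀ f ∈ Φ, F'.th W * P (G.r f) = F.th W * P (G.r f) := by
    intro f hf
    apply exp_ext F
    · intro e
      by_cases he : G.s e = G.r f
      · have heΦ : e ∉ Φ := fun h' => hΦ f hf e h' he.symm
        rw [mul_assoc, mul_assoc, ← he, F.P_mul, hθe e heΦ, hthe]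
      · rw [mul_assoc, mul_assoc, F.P_S_ne hP e (fun h => he h.symm), mul_zero, mul_zero]
    · rw [mul_assoc, mul_assoc, hPl, ← mul_assoc, ← mul_assoc, hθ1, hth1]
  have hκP : ∀ f ∈ Φ, κ * P (G.r f) = P (G.r f) := by
    intro f hf
    apply exp_ext F
    · intro e
      by_cases he : G.s e = G.r f
      · have heΦ : e ∉ Φ := fun h' => hΦ f hf e h' he.symm
        rw [mul_assoc, ← he, F.P_mul, hκe e heΦ]
      · rw [mul_assoc, F.P_S_ne hP e (fun h => he h.symm), mul_zero]
    · rw [mul_assoc, hPl, ← mul_assoc, hκ1]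
  set Δ : B := star c * W - κ * F'.th W with hΔ
  have hΔn : ‖Δ‖ ≤ ε / 2 := by
    have h1 : star W * c * Δ = -(star W * (c * κ) * F'.th W - 1) := by
      rw [hΔ, mul_sub]
      have h2 : star W * c * (star c * W) = 1 := by
        calc star W * c * (star c * W) = star W * (c * star c) * W := by noncomm_ring
          _ = 1 := by rw [hcm.2.1, mul_one, hWm.1]
      rw [h2]; noncomm_ring
    rw [← norm_UD_mul (UD_mul (UD_star hP hWm) hcm) Δ, h1, norm_neg]
    exact hW
  have hloc : ∀ f ∈ Φ, (c * F.th W - W) * P (G.r f) = -(c * Δ * P (G.r f)) := by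
    intro f hf
    have h1 : c * Δ * P (G.r f) = (c * star c) * W * P (G.r f)
        - c * (κ * (F'.th W * P (G.r f))) := by
      rw [hΔ]; noncomm_ring
    rw [h1, hcm.2.1, hθP f hf, ← hthP, ← mul_assoc κ, hκP f hf, hthP]
    noncomm_ring
  have hmain : κ * F'.th W - F.th W = ∑ f ∈ Finset.univ.filter (fun f => f ∈ Φ),
      F.S f * ((c * F.th W - W) * P (G.r f)) * star (F.S f) := by
    apply exp_ext F
    · intro e
      rw [Finset.sum_mul]
      by_cases he : e ∈ Φ
      · rw [Finset.sum_eq_single e]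
        · rw [sub_mul, mul_assoc κ, hθf e he, ← mul_assoc κ, hκf e he, hthe,
            mul_assoc _ (star (F.S e)), F.star_mul]
          have h1 : F.S e * ((c * F.th W - W) * P (G.r e)) * P (G.r e)
              = F.S e * (c * F.th W - W) * (P (G.r e) * P (G.r e)) := by noncomm_ring
          have h2 : (c * F.th W - W) * P (G.r e) = P (G.r e) * (c * F.th W - W) := by
            rw [sub_mul, mul_sub, mul_assoc, ← hthP, ← mul_assoc, ← hcP, mul_assoc, hWP]
          have h3 : F.S e * (c * F.th W - W) * P (G.r e) = F.S e * (c * F.th W - W) := by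
            calc F.S e * (c * F.th W - W) * P (G.r e)
                = F.S e * ((c * F.th W - W) * P (G.r e)) := mul_assoc _ _ _
              _ = F.S e * P (G.r e) * (c * F.th W - W) := by rw [h2, mul_assoc]
              _ = F.S e * (c * F.th W - W) := by rw [F.S_P hP]
          rw [h1, hP.mul_self, h3]
          noncomm_ring
        · intro f hf hfe
          rw [mul_assoc, F.orth f e hfe, mul_zero]
        · intro h'
          exact absurd (Finset.mem_filter.2 ⟨Finset.mem_univ e, he⟩) h'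
      · rw [sub_mul, mul_assoc κ, hθe e he, ← mul_assoc κ, hκe e he, hthe, sub_self]
        symm
        apply Finset.sum_eq_zero
        intro f hf
        rw [mul_assoc, F.orth f e (fun h' => he (h' ▸ (Finset.mem_filter.1 hf).2)), mul_zero]
    · rw [sub_mul, mul_assoc κ, hθ1, hκ1, hth1, sub_self, Finset.sum_mul]
      symm
      apply Finset.sum_eq_zero
      intro f _
      rw [mul_assoc, exp_star_S_lam F hP f, mul_zero]
  have hn1 : ‖κ * F'.th W - F.th W‖ ≤ ε / 2 := by
    rw [hmain]
    apply norm_conj_sum_le _ _ _ _ (by positivity)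
    · intro i _ j _ hij
      exact F.orth i j hij
    · intro i _
      rw [F.star_mul]; exact hP.norm_le _
    · intro f hf
      rw [hloc f (Finset.mem_filter.1 hf).2, norm_neg]
      calc ‖c * Δ * P (G.r f)‖ ≤ ‖c * Δ‖ * ‖P (G.r f)‖ := norm_mul_le _ _
        _ = ‖Δ‖ * ‖P (G.r f)‖ := by rw [norm_UD_mul hcm]
        _ ≤ ε / 2 * 1 := mul_le_mul hΔn (hP.norm_le _) (norm_nonneg _) (by positivity)
        _ = ε / 2 := mul_one _
  have hfin : star W * c * F.th W - 1 = -(star W * c * (Δ + (κ * F'.th W - F.th W))) := by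
    have h2 : star W * c * (star c * W) = 1 := by
      calc star W * c * (star c * W) = star W * (c * star c) * W := by noncomm_ring
        _ = 1 := by rw [hcm.2.1, mul_one, hWm.1]
    have h3 : Δ + (κ * F'.th W - F.th W) = star c * W - F.th W := by
      rw [hΔ]; abel
    rw [h3, mul_sub, h2]; noncomm_ring
  rw [hfin, norm_neg, norm_UD_mul (UD_mul (UD_star hP hWm) hcm)]
  calc ‖Δ + (κ * F'.th W - F.th W)‖ ≤ ‖Δ‖ + ‖κ * F'.th W - F.th W‖ := norm_add_le _ _
    _ ≤ ε / 2 + ε / 2 := add_le_add hΔn hn1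
    _ = ε := by ring

end Pool.Agent.AUE
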