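import Pool.Agent.AUE.HomK
import Pool.Agent.AUE.EI
import Pool.Agent.GHT.MainC

/-!
# Final1: the isomorphism conjecture for graphs with condition (K)
-/

namespace Pool.Agent.AUE

open Pool.Agent.GHT

theorem countable_gen {G : DGraph} [Countable G.V] [Countable G.E] {A : Type}
    [NonUnitalCStarAlgebra A] (Φ : CKFam G A) (hΦ : Φ.IsUniversal) :
    ∃ X : Set A, X.Countable ∧ GenBy X :=
  ⟨Set.range Φ.p ∪ Set.range Φ.s, (Set.countable_range _).union (Set.countable_range _),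
    genBy_of_universal Φ hΦ⟩

theorem iso_of_condK {E F : DGraph} [Countable E.V] [Countable E.E] [Countable F.V]
    [Countable F.E] (hE : CondK E) (hF : CondK F) (φ : LPA E ≃+* LPA F) {A B : Type}
    [NonUnitalCStarAlgebra A] [NonUnitalCStarAlgebra B] (Φ : CKFam E A) (hΦ : Φ.IsUniversal)
    (Ψ : CKFam F B) (hΨ : Ψ.IsUniversal) : Nonempty (A ≃⋆ₐ[ℂ] B) := by
  obtain ⟨α, β, ⟨h1, h2⟩, -⟩ := main_homotopy φ Φ hΦ Ψ hΨ
  exact elliott α β (countable_gen Φ hΦ) (countable_gen Ψ hΨ) (homotopic_appU hE Φ hΦ h1)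
    (homotopic_appU hF Ψ hΨ h2)

end Pool.Agent.AUE
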