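import Mathlib

/-!
# Pol: the unitary part of an element near `1`

PROOF. Let `η = ‖z - 1‖ ≤ 1/4`, `a = star z * z`, `‖a - 1‖ ≤ η (2 + η) ≤ 9η/4 ≤ 9/16`; `a` is selfadjoint
with spectrum in `[1 - 9η/4, 1 + 9η/4] ⊆ [7/16, 25/16]`. Let `b = cfc (fun t => t^(-1/2)) a` (`ℝ`-valued
continuous functional calculus, function continuous on the spectrum), `u = z * b`. `b` is
selfadjoint, commutes with `a`, `b * a * b = 1`: `star u * u = b * a * b = 1`; `z` is invertible
(near `1`), `b` is invertible, so `u` is invertible and `star u * u = 1` gives `u * star u = 1`.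
`‖b - 1‖ ≤ max |t^(-1/2) - 1| ≤ |t - 1| / (√t (1 + √t)) ≤ 9η/4` on the spectrum, so
`‖u - 1‖ ≤ ‖z‖ ‖b - 1‖ + ‖z - 1‖ ≤ 1.25 * 2.25 η + η ≤ 4 η`.
Intertwining: if `z x = y z` and `z * star x = star y * z`, then (adjoint of the second)
`x * star z = star z * y`, so `x a = star z z x = star z y z = star z z x = a x`, so `x` commutes with `b`
and `u x = z b x = z x b = y z b = y u`.
If `a x = x` then `b x = x` (`b = g(a)`, `g(1) = 1`: write `g(t) - 1 = h(t) (t - 1)` with `h` continuous, so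
`(b - 1) x = h(a) (a - 1) x = 0`), so `u x = z x`.
-/

namespace Pool.Agent.AUE

theorem Pol_sqrt {t : ℝ} (ht : 7 / 16 ≤ t) : 1 ≤ √t * (1 + √t) := by
  have h1 : (0.65 : ℝ) ≤ √t := Real.le_sqrt_of_sq_le (by norm_num; linarith)
  nlinarith

theorem Pol_g {t ρ : ℝ} (ht : 7 / 16 ≤ t) (hρ : |t - 1| ≤ ρ) : |(√t)⁻¹ - 1| ≤ ρ := by
  have h0 : 0 < t := by linarith
  have h1 : 0 < √t := Real.sqrt_pos.2 h0
  have h2 := Pol_sqrt ht
  have h3 : (√t)⁻¹ - 1 = -(t - 1) * (√t * (1 + √t))⁻¹ := by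
    have h4 : t - 1 = (√t - 1) * (1 + √t) := by
      have := Real.mul_self_sqrt h0.le
      linear_combination -this
    rw [h4]
    field_simp
    ring
  rw [h3, abs_mul, abs_neg]
  have h5 : |(√t * (1 + √t))⁻¹| ≤ 1 := by
    rw [abs_of_pos (by positivity)]
    exact inv_le_one_of_one_le₀ h2
  calc |t - 1| * |(√t * (1 + √t))⁻¹| ≤ ρ * 1 := by
        exact mul_le_mul hρ h5 (abs_nonneg _) ((abs_nonneg _).trans hρ)
    _ = ρ := mul_one _

theorem polar_near {B : Type} [CStarAlgebra B] {z : B} (hz : ‖z - 1‖ ≤ 1 / 4) :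
    ∃ u : B, star u * u = 1 ∧ u * star u = 1 ∧ ‖u - 1‖ ≤ 4 * ‖z - 1‖ ∧
      (∀ x y, z * x = y * z → z * star x = star y * z → u * x = y * u) ∧
      (∀ x, star z * z * x = x → u * x = z * x) := by
  set η := ‖z - 1‖ with hη
  have hη0 : 0 ≤ η := norm_nonneg _
  set a : B := star z * z with ha
  have hsa : IsSelfAdjoint a := IsSelfAdjoint.star_mul_self z
  have ha1 : ‖a - 1‖ ≤ 9 / 4 * η := by
    have e : a - 1 = star (z - 1) * (z - 1) + (z - 1) + star (z - 1) := by
      rw [ha, star_sub, star_one]; noncomm_ring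
    rw [e]
    have h1 : ‖star (z - 1) * (z - 1)‖ ≤ η * η := by
      refine (norm_mul_le _ _).trans ?_
      rw [norm_star]
    have h2 : ‖star (z - 1)‖ = η := norm_star _
    refine (norm_add₃_le).trans ?_
    rw [h2]
    nlinarith
  have ha9 : ‖a - 1‖ ≤ 9 / 16 := by linarith
  have hc1 : cfc (fun t : ℝ => t - 1) a = a - 1 := by
    rw [cfc_sub (fun t : ℝ => t) (fun _ => (1 : ℝ)) a, cfc_id' ℝ a, cfc_const_one ℝ a]
  have hspec : ∀ t ∈ spectrum ℝ a, |t - 1| ≤ ‖a - 1‖ := by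
    have h := (norm_cfc_le_iff (fun t : ℝ => t - 1) a (norm_nonneg (a - 1))).1 (by rw [hc1])
    exact h
  have hlow : ∀ t ∈ spectrum ℝ a, 7 / 16 ≤ t := by
    intro t ht
    have := (abs_le.1 (hspec t ht)).1
    linarith
  have hs0 : ∀ t ∈ spectrum ℝ a, √t ≠ 0 := by
    intro t ht
    have := hlow t ht
    exact (Real.sqrt_pos.2 (by linarith)).ne'
  have hcg : ContinuousOn (fun t : ℝ => (√t)⁻¹) (spectrum ℝ a) :=
    Real.continuous_sqrt.continuousOn.inv₀ hs0
  have hch : ContinuousOn (fun t : ℝ => (√t * (1 + √t))⁻¹) (spectrum ℝ a) := by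
    refine ContinuousOn.inv₀ ?_ ?_
    · exact (Real.continuous_sqrt.mul (continuous_const.add Real.continuous_sqrt)).continuousOn
    · intro t ht
      have := Pol_sqrt (hlow t ht)
      positivity
  set b : B := cfc (fun t : ℝ => (√t)⁻¹) a with hb
  have hbs : IsSelfAdjoint b := cfc_predicate _ a
  have hcomm : ∀ x, Commute a x → Commute b x := fun x hx => hx.cfc_real _
  have hba : b * a = a * b := hcomm a (Commute.refl a)
  have hbab : b * a * b = 1 := by
    have h1 : cfc (fun t : ℝ => (√t)⁻¹ * t * (√t)⁻¹) a = b * a * b := by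
      rw [cfc_mul (fun t : ℝ => (√t)⁻¹ * t) (fun t : ℝ => (√t)⁻¹) a
        (hcg.mul continuousOn_id) hcg, cfc_mul (fun t : ℝ => (√t)⁻¹) (fun t : ℝ => t) a hcg
        continuousOn_id, cfc_id' ℝ a]
    rw [← h1, ← cfc_const_one ℝ a]
    refine cfc_congr fun t ht => ?_
    have h2 : 0 ≤ t := by linarith [hlow t ht]
    have h3 := hs0 t ht
    have h4 := Real.mul_self_sqrt h2
    change (√t)⁻¹ * t * (√t)⁻¹ = 1
    field_simp
    rw [sq, h4]
  have hb1 : ‖b - 1‖ ≤ 9 / 4 * η := by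
    have h1 : cfc (fun t : ℝ => (√t)⁻¹ - 1) a = b - 1 := by
      rw [cfc_sub (fun t : ℝ => (√t)⁻¹) (fun _ => (1 : ℝ)) a hcg continuousOn_const,
        cfc_const_one ℝ a]
    rw [← h1]
    refine norm_cfc_le (by positivity) fun t ht => ?_
    exact Pol_g (hlow t ht) ((hspec t ht).trans ha1)
  have hb2 : b - 1 = -(cfc (fun t : ℝ => (√t * (1 + √t))⁻¹) a * (a - 1)) := by
    have h1 : cfc (fun t : ℝ => (√t)⁻¹ - 1) a = b - 1 := by
      rw [cfc_sub (fun t : ℝ => (√t)⁻¹) (fun _ => (1 : ℝ)) a hcg continuousOn_const,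
        cfc_const_one ℝ a]
    rw [← h1, ← hc1, ← cfc_mul (fun t : ℝ => (√t * (1 + √t))⁻¹) (fun t : ℝ => t - 1) a hch
      (by fun_prop), ← cfc_neg]
    refine cfc_congr fun t ht => ?_
    have h2 : 0 ≤ t := by linarith [hlow t ht]
    have h3 := hs0 t ht
    have h4 := Real.mul_self_sqrt h2
    have h5 : (1 + √t) ≠ 0 := by positivity
    change (√t)⁻¹ - 1 = -((√t * (1 + √t))⁻¹ * (t - 1))
    have h6 : t - 1 = (√t - 1) * (1 + √t) := by linear_combination -h4
    rw [h6]
    field_simp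
    ring
  refine ⟨z * b, ?_, ?_, ?_, ?_, ?_⟩
  · rw [star_mul, hbs.star_eq]
    calc b * star z * (z * b) = b * a * b := by rw [ha]; noncomm_ring
      _ = 1 := hbab
  · have hu : star (z * b) * (z * b) = 1 := by
      rw [star_mul, hbs.star_eq]
      calc b * star z * (z * b) = b * a * b := by rw [ha]; noncomm_ring
        _ = 1 := hbab
    have hzu : IsUnit z := by
      have := isUnit_one_sub_of_norm_lt_one (x := 1 - z) (by
        rw [norm_sub_rev]; linarith)
      simpa using this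
    have hbu : IsUnit b := by
      refine ⟨⟨b, a * b, ?_, ?_⟩, rfl⟩
      · rw [← mul_assoc]; exact hbab
      · rw [← hba]; exact hbab
    obtain ⟨w, hw⟩ := hzu.mul hbu
    have h1 : star (z * b) = ((w⁻¹ : Bˣ) : B) := by
      rw [← hw] at hu ⊢
      exact Units.eq_inv_of_mul_eq_one_right hu
    rw [h1, ← hw]
    exact w.mul_inv
  · have e : z * b - 1 = z * (b - 1) + (z - 1) := by noncomm_ring
    rw [e]
    have hzn : ‖z‖ ≤ 5 / 4 := by
      have h1 : z = (z - 1) + 1 := by abel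
      have h2 : ‖(1 : B)‖ ≤ 1 := by
        nontriviality B
        exact CStarRing.norm_one.le
      calc ‖z‖ = ‖(z - 1) + 1‖ := by rw [← h1]
        _ ≤ ‖z - 1‖ + ‖(1 : B)‖ := norm_add_le _ _
        _ ≤ 5 / 4 := by rw [← hη]; linarith
    refine (norm_add_le _ _).trans ?_
    have h1 : ‖z * (b - 1)‖ ≤ 5 / 4 * (9 / 4 * η) :=
      (norm_mul_le _ _).trans (mul_le_mul hzn hb1 (norm_nonneg _) (by norm_num))
    rw [← hη]
    linarith
  · intro x y h1 h2
    have h3 : x * star z = star z * y := by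
      have := congrArg star h2
      simpa [star_mul] using this
    have h4 : a * x = x * a := by
      rw [ha, mul_assoc, h1, ← mul_assoc, ← h3, mul_assoc]
    have h5 : b * x = x * b := hcomm x h4
    rw [mul_assoc, h5, ← mul_assoc, h1, mul_assoc]
  · intro x hx
    have h1 : (b - 1) * x = 0 := by
      rw [hb2, neg_mul, mul_assoc, sub_mul, one_mul, hx, sub_self, mul_zero, neg_zero]
    have h2 : b * x = x := by
      rw [sub_mul, one_mul] at h1
      exact sub_eq_zero.1 h1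
    rw [mul_assoc, h2]

end Pool.Agent.AUE
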