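import Pool.Agent.AUE.Bas
import Pool.Agent.AUE.Near
import Pool.Agent.AUE.Pol

/-!
# NearF: near families are approximately unitarily equivalent

PROOF of `near_prj` (near families of projections are conjugate by a unitary near `1`): let
`Q = 1 - ∑ P v`, `Q' = 1 - ∑ P' v`, `z = ∑ P' v * P v + Q' * Q`. `z - 1 = ∑ (P' v - P v) P v + (Q' - Q) Q`, norm
`≤ card V δ + card V δ`. `z * P v = P' v * P v = P' v * z`. `polar_near`: `u * P v = P' v * u`.

PROOF of `near_fam` (same `P`, near `S`): `x = ∑ S'_e S_e*`, `R = ∑ S_e S_e*`, `R' = ∑ S'_e S'_e*`,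
`z = x + (1 - R') (1 - R)`. `‖x - R‖ ≤ card δ`, `‖R' - R‖ ≤ 2 card δ`, `z - 1 = (x - R) - (R' - R)(1 - R)`…
(`(1-R')(1-R) = (1-R) - (R'-R)(1-R)`), norm `≤ 3 card δ`. `z` commutes with the `P v`
(`P v * x = ∑_{s e = v} S'_e S_e* = x * P v`). `z S_e = S'_e` and `star z * z * S_e = star x * S'_e +
(1-R)(1-R') S'_e = S_e`. `polar_near`: `c` unitary, `c S_e = z S_e = S'_e`, `c P v = P v c`,
`‖c - 1‖ ≤ 4 ‖z - 1‖`; choose `δ` with `≤ 1`: `Ch P c` by `ch_of_near`.

PROOF of `near_aue`. By `near_prj` conjugate the first family by `u₀` (`u₀ P v u₀* = P' v`,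
`‖u₀ - 1‖ ≤ 8 card V δ`): the family `u₀ S_e u₀*` has projections `P'` and
`‖u₀ S_e u₀* - S'_e‖ ≤ 2 ‖u₀ - 1‖ + δ`. `near_fam`: `c` with `Ch P' c`, `c u₀ S_e u₀* = S'_e`.
`Sol G` for the family `F₁ = u₀ F u₀*` and `ε`: `W` with `‖star W c th₁(W) - 1‖ ≤ ε`. `W S₁ W* = W th₁(W*) S₁ =
W (th₁ W)* S₁` (`th_S`), and `‖W (th₁ W)* - c‖ = ‖W - c th₁ W‖ ≤ ε`, so
`‖W S₁_e W* - S'_e‖ = ‖(W (th₁ W)* - c) S₁_e‖ ≤ ε`, `W P' v W* = P' v`. `u = W * u₀`.
-/

namespace Pool.Agent.AUE

theorem NearF_norm_one_sub {B : Type} [CStarAlgebra B] {R : B} (h1 : star R = R) (h2 : R * R = R) :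
    ‖1 - R‖ ≤ 1 := by
  have h3 : IsPrj (fun _ : Unit => (1 - R : B)) := by
    refine ⟨fun _ => by simp [h1], fun _ => ?_, fun v w hvw => absurd (Subsingleton.elim v w) hvw⟩
    simp only [mul_sub, sub_mul, one_mul, mul_one, h2, sub_self, sub_zero]
  exact h3.norm_le ()

theorem near_prj {V : Type} [Fintype V] {B : Type} [CStarAlgebra B] {P P' : V → B}
    (hP : IsPrj P) (hP' : IsPrj P') {δ : ℝ} (hδ : 2 * Fintype.card V * δ ≤ 1 / 4)
    (h : ∀ v, ‖P v - P' v‖ ≤ δ) :
    ∃ u : B, star u * u = 1 ∧ u * star u = 1 ∧ ‖u - 1‖ ≤ 8 * Fintype.card V * δ ∧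
      ∀ v, u * P v * star u = P' v := by
  classical
  set R : B := ∑ v, P v with hR
  set R' : B := ∑ v, P' v with hR'
  have key : ∀ {Q : V → B}, IsPrj Q → (∀ v, (∑ w, Q w) * Q v = Q v) ∧ (∀ v, Q v * (∑ w, Q w) = Q v) := by
    intro Q hQ
    constructor
    · intro v
      rw [Finset.sum_mul, Finset.sum_eq_single v]
      · exact hQ.mul_self v
      · intro w _ hw
        exact hQ.orth w v hw
      · simp
    · intro v
      rw [Finset.mul_sum, Finset.sum_eq_single v]
      · exact hQ.mul_self v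
      · intro w _ hw
        exact hQ.orth v w hw.symm
      · simp
  obtain ⟨hRP, hPR⟩ := key hP
  obtain ⟨hRP', hPR'⟩ := key hP'
  have hRR : R * R = R := by
    conv_lhs => rw [hR, Finset.mul_sum]
    exact Finset.sum_congr rfl fun v _ => hRP v
  have hRs : star R = R := by
    rw [hR, star_sum]
    exact Finset.sum_congr rfl fun v _ => hP.star_eq v
  set z : B := ∑ v, P' v * P v + (1 - R') * (1 - R) with hz
  have hcardδ : ∀ {x : V → B}, (∀ v, ‖x v‖ ≤ δ) → ‖∑ v, x v‖ ≤ Fintype.card V * δ := by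
    intro x hx
    refine (norm_sum_le _ _).trans ?_
    refine (Finset.sum_le_sum fun v _ => hx v).trans ?_
    simp
  have hz1 : z - 1 = ∑ v, (P' v - P v) * P v + (R - R') * (1 - R) := by
    have e1 : ∑ v, (P' v - P v) * P v = ∑ v, P' v * P v - R := by
      rw [hR, ← Finset.sum_sub_distrib]
      refine Finset.sum_congr rfl fun v _ => ?_
      rw [sub_mul, hP.mul_self]
    have e2 : (R - R') * (1 - R) = (1 - R') * (1 - R) - (1 - R) := by
      have : (1 - R) * (1 - R) = 1 - R := by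
        simp only [mul_sub, sub_mul, one_mul, mul_one, hRR, sub_self, sub_zero]
      calc (R - R') * (1 - R) = (1 - R') * (1 - R) - (1 - R) * (1 - R) := by noncomm_ring
        _ = _ := by rw [this]
    rw [e1, e2, hz]
    abel
  have hzn : ‖z - 1‖ ≤ 2 * Fintype.card V * δ := by
    rw [hz1]
    have n1 : ‖∑ v, (P' v - P v) * P v‖ ≤ Fintype.card V * δ := by
      refine hcardδ fun v => ?_
      calc ‖(P' v - P v) * P v‖ ≤ ‖P' v - P v‖ * ‖P v‖ := norm_mul_le _ _
        _ ≤ ‖P' v - P v‖ * 1 := mul_le_mul_of_nonneg_left (hP.norm_le v) (norm_nonneg _)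
        _ ≤ δ := by rw [mul_one, norm_sub_rev]; exact h v
    have n2 : ‖(R - R') * (1 - R)‖ ≤ Fintype.card V * δ := by
      have n3 : ‖R - R'‖ ≤ Fintype.card V * δ := by
        rw [hR, hR', ← Finset.sum_sub_distrib]
        exact hcardδ h
      calc ‖(R - R') * (1 - R)‖ ≤ ‖R - R'‖ * ‖1 - R‖ := norm_mul_le _ _
        _ ≤ ‖R - R'‖ * 1 := mul_le_mul_of_nonneg_left (NearF_norm_one_sub hRs hRR) (norm_nonneg _)
        _ ≤ _ := by rw [mul_one]; exact n3
    calc _ ≤ _ := norm_add_le _ _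
      _ ≤ Fintype.card V * δ + Fintype.card V * δ := add_le_add n1 n2
      _ = _ := by ring
  have hzP : ∀ v, z * P v = P' v * z := by
    intro v
    have a1 : z * P v = P' v * P v := by
      rw [hz, add_mul, mul_assoc (1 - R') (1 - R) (P v), sub_mul 1 R (P v), one_mul, hRP, sub_self,
        mul_zero, add_zero, Finset.sum_mul, Finset.sum_eq_single v]
      · rw [mul_assoc, hP.mul_self]
      · intro w _ hw
        rw [mul_assoc, hP.orth w v hw, mul_zero]
      · simp
    have a2 : P' v * z = P' v * P v := by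
      rw [hz, mul_add, ← mul_assoc (P' v) (1 - R') (1 - R), mul_sub (P' v) 1 R', mul_one, hPR',
        sub_self, zero_mul, add_zero, Finset.mul_sum, Finset.sum_eq_single v]
      · rw [← mul_assoc, hP'.mul_self]
      · intro w _ hw
        rw [← mul_assoc, hP'.orth v w hw.symm, zero_mul]
      · simp
    rw [a1, a2]
  obtain ⟨u, hu1, hu2, hu3, hu4, -⟩ := polar_near (hzn.trans hδ)
  refine ⟨u, hu1, hu2, ?_, fun v => ?_⟩
  · calc ‖u - 1‖ ≤ 4 * ‖z - 1‖ := hu3
      _ ≤ 4 * (2 * Fintype.card V * δ) := by linarith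
      _ = _ := by ring
  · have := hu4 (P v) (P' v) (hzP v) (by rw [hP.star_eq, hP'.star_eq]; exact hzP v)
    rw [this, mul_assoc, hu2, mul_one]

theorem near_fam {V : Type} {G : Gr V} {B : Type} [CStarAlgebra B] {P : V → B}
    (hP : IsPrj P) (F F' : Fam G P) {δ : ℝ} (hδ : 12 * Fintype.card G.Ed * δ ≤ 1)
    (h : ∀ e, ‖F.S e - F'.S e‖ ≤ δ) : ∃ c : B, Ch P c ∧ ∀ e, c * F.S e = F'.S e := by
  classical
  have mS : ∀ (F₁ F₂ : Fam G P) (e : G.Ed),
      (∑ f, F₁.S f * star (F₂.S f)) * F₂.S e = F₁.S e := by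
    intro F₁ F₂ e
    rw [Finset.sum_mul, Finset.sum_eq_single e]
    · rw [mul_assoc, F₂.star_mul, F₁.S_P hP]
    · intro f _ hf
      rw [mul_assoc, F₂.orth f e hf, mul_zero]
    · simp
  set x : B := ∑ e, F'.S e * star (F.S e) with hx
  set R : B := ∑ e, F.S e * star (F.S e) with hR
  set R' : B := ∑ e, F'.S e * star (F'.S e) with hR'
  have hxs : star x = ∑ e, F.S e * star (F'.S e) := by
    rw [hx, star_sum]
    exact Finset.sum_congr rfl fun e _ => by rw [star_mul, star_star]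
  have hRs : star R = R := by
    rw [hR, star_sum]
    exact Finset.sum_congr rfl fun e _ => by rw [star_mul, star_star]
  have hRs' : star R' = R' := by
    rw [hR', star_sum]
    exact Finset.sum_congr rfl fun e _ => by rw [star_mul, star_star]
  have hRS : ∀ e, R * F.S e = F.S e := fun e => mS F F e
  have hRS' : ∀ e, R' * F'.S e = F'.S e := fun e => mS F' F' e
  have hRR : R * R = R := by
    conv_lhs => rw [hR, Finset.mul_sum]
    rw [← hR]
    conv_rhs => rw [hR]
    refine Finset.sum_congr rfl fun e _ => ?_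
    rw [← mul_assoc, hRS]
  set z : B := x + (1 - R') * (1 - R) with hz
  have hcardδ : ∀ {y : G.Ed → B} {η : ℝ}, (∀ e, ‖y e‖ ≤ η) → ‖∑ e, y e‖ ≤ Fintype.card G.Ed * η := by
    intro y η hy
    refine (norm_sum_le _ _).trans ?_
    refine (Finset.sum_le_sum fun v _ => hy v).trans ?_
    simp
  have hz1 : z - 1 = (x - R) - (R' - R) * (1 - R) := by
    have : (1 - R) * (1 - R) = 1 - R := by
      simp only [mul_sub, sub_mul, one_mul, mul_one, hRR, sub_self, sub_zero]
    have e2 : (1 - R') * (1 - R) = (1 - R) - (R' - R) * (1 - R) := by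
      calc (1 - R') * (1 - R) = (1 - R) * (1 - R) - (R' - R) * (1 - R) := by noncomm_ring
        _ = _ := by rw [this]
    rw [hz, e2]
    abel
  have hzn : ‖z - 1‖ ≤ 3 * (Fintype.card G.Ed * δ) := by
    rw [hz1]
    have n1 : ‖x - R‖ ≤ Fintype.card G.Ed * δ := by
      rw [hx, hR, ← Finset.sum_sub_distrib]
      refine hcardδ fun e => ?_
      rw [← sub_mul]
      calc ‖(F'.S e - F.S e) * star (F.S e)‖ ≤ ‖F'.S e - F.S e‖ * ‖star (F.S e)‖ := norm_mul_le _ _
        _ ≤ ‖F'.S e - F.S e‖ * 1 :=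
          mul_le_mul_of_nonneg_left (by rw [norm_star]; exact F.norm_S_le hP e) (norm_nonneg _)
        _ ≤ δ := by rw [mul_one, norm_sub_rev]; exact h e
    have n2 : ‖R' - R‖ ≤ Fintype.card G.Ed * (2 * δ) := by
      rw [hR', hR, ← Finset.sum_sub_distrib]
      refine hcardδ fun e => ?_
      have : F'.S e * star (F'.S e) - F.S e * star (F.S e)
          = (F'.S e - F.S e) * star (F'.S e) + F.S e * star (F'.S e - F.S e) := by
        rw [star_sub]
        noncomm_ring
      rw [this]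
      have b1 : ‖(F'.S e - F.S e) * star (F'.S e)‖ ≤ δ := by
        calc _ ≤ ‖F'.S e - F.S e‖ * ‖star (F'.S e)‖ := norm_mul_le _ _
          _ ≤ ‖F'.S e - F.S e‖ * 1 :=
            mul_le_mul_of_nonneg_left (by rw [norm_star]; exact F'.norm_S_le hP e) (norm_nonneg _)
          _ ≤ δ := by rw [mul_one, norm_sub_rev]; exact h e
      have b2 : ‖F.S e * star (F'.S e - F.S e)‖ ≤ δ := by
        calc _ ≤ ‖F.S e‖ * ‖star (F'.S e - F.S e)‖ := norm_mul_le _ _
          _ ≤ 1 * ‖star (F'.S e - F.S e)‖ :=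
            mul_le_mul_of_nonneg_right (F.norm_S_le hP e) (norm_nonneg _)
          _ ≤ δ := by rw [one_mul, norm_star, norm_sub_rev]; exact h e
      calc _ ≤ _ := norm_add_le _ _
        _ ≤ 2 * δ := by linarith
    have n3 : ‖(R' - R) * (1 - R)‖ ≤ Fintype.card G.Ed * (2 * δ) := by
      calc ‖(R' - R) * (1 - R)‖ ≤ ‖R' - R‖ * ‖1 - R‖ := norm_mul_le _ _
        _ ≤ ‖R' - R‖ * 1 := mul_le_mul_of_nonneg_left (NearF_norm_one_sub hRs hRR) (norm_nonneg _)
        _ ≤ _ := by rw [mul_one]; exact n2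
    calc _ ≤ _ := norm_sub_le _ _
      _ ≤ Fintype.card G.Ed * δ + Fintype.card G.Ed * (2 * δ) := add_le_add n1 n3
      _ = _ := by ring
  have hzS : ∀ e, z * F.S e = F'.S e := by
    intro e
    rw [hz, add_mul, mul_assoc (1 - R') (1 - R), sub_mul 1 R, one_mul, hRS, sub_self, mul_zero,
      add_zero]
    exact mS F' F e
  have hzs : star z = star x + (1 - R) * (1 - R') := by
    rw [hz, star_add, star_mul, star_sub, star_sub, star_one, hRs, hRs']
  have hzS' : ∀ e, star z * z * F.S e = F.S e := by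
    intro e
    rw [mul_assoc, hzS, hzs, add_mul, mul_assoc (1 - R) (1 - R'), sub_mul 1 R', one_mul, hRS',
      sub_self, mul_zero, add_zero, hxs]
    exact mS F F' e
  have hPS : ∀ (F₁ F₂ : Fam G P) (v : V), (∑ f, F₁.S f * star (F₂.S f)) * P v
      = P v * (∑ f, F₁.S f * star (F₂.S f)) := by
    intro F₁ F₂ v
    rw [Finset.sum_mul, Finset.mul_sum]
    refine Finset.sum_congr rfl fun f _ => ?_
    by_cases hv : v = G.s f
    · have a1 : star (F₂.S f) * P v = star (F₂.S f) := by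
        have := congrArg star (F₂.P_mul f)
        rw [star_mul, hP.star_eq] at this
        rw [hv]
        exact this
      rw [mul_assoc, a1, ← mul_assoc, hv, F₁.P_mul]
    · have a1 : star (F₂.S f) * P v = 0 := by
        have := congrArg star (F₂.P_S_ne hP f hv)
        rw [star_mul, hP.star_eq, star_zero] at this
        exact this
      rw [mul_assoc, a1, ← mul_assoc, F₁.P_S_ne hP f hv, mul_zero, zero_mul]
  have hzP : ∀ v, z * P v = P v * z := by
    intro v
    have c1 : x * P v = P v * x := hPS F' F v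
    have c2 : R * P v = P v * R := hPS F F v
    have c3 : R' * P v = P v * R' := hPS F' F' v
    have c4 : (1 - R) * P v = P v * (1 - R) := by rw [sub_mul, mul_sub, one_mul, mul_one, c2]
    have c5 : (1 - R') * P v = P v * (1 - R') := by rw [sub_mul, mul_sub, one_mul, mul_one, c3]
    rw [hz, add_mul, mul_add, c1, mul_assoc, c4, ← mul_assoc, c5, mul_assoc]
  have hle : ‖z - 1‖ ≤ 1 / 4 := by
    refine hzn.trans ?_
    linarith
  obtain ⟨u, hu1, hu2, hu3, hu4, hu5⟩ := polar_near hle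
  refine ⟨u, ?_, fun e => ?_⟩
  · refine ch_of_near hP ⟨hu1, hu2, fun v => ?_⟩ (hu3.trans (by linarith))
    exact (hu4 (P v) (P v) (hzP v) (by rw [hP.star_eq]; exact hzP v)).symm
  · rw [hu5 _ (hzS' e), hzS]

theorem near_aue {V : Type} [Fintype V] (G : Gr V) (hG : Sol G) : ∃ δ > 0,
    ∀ (B : Type) [CStarAlgebra B] (P P' : V → B), IsPrj P → IsPrj P' → ∀ (F : Fam G P)
      (F' : Fam G P'), (∀ v, ‖P v - P' v‖ ≤ δ) → (∀ e, ‖F.S e - F'.S e‖ ≤ δ) → ∀ ε > 0,
      ∃ u : B, star u * u = 1 ∧ u * star u = 1 ∧ (∀ v, u * P v * star u = P' v) ∧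
        ∀ e, ‖u * F.S e * star u - F'.S e‖ ≤ ε := by
  classical
  set nV : ℝ := ((Fintype.card V : ℕ) : ℝ) with hnV
  set nE : ℝ := ((Fintype.card G.Ed : ℕ) : ℝ) with hnE
  have hV0 : 0 ≤ nV := Nat.cast_nonneg _
  have hE0 : 0 ≤ nE := Nat.cast_nonneg _
  set δ : ℝ := 1 / (12 * (nE + 1) * (16 * nV + 1)) with hδ
  have hden : 0 < 12 * (nE + 1) * (16 * nV + 1) := by positivity
  have hδ0 : 0 < δ := by positivity
  have hδ1 : 12 * (nE + 1) * (16 * nV + 1) * δ = 1 := by
    rw [hδ]; field_simp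
  refine ⟨δ, hδ0, ?_⟩
  intro B _ P P' hP hP' F F' hPd hSd ε hε
  have hb1 : 2 * Fintype.card V * δ ≤ 1 / 4 := by
    rw [← hnV]
    have : 0 ≤ nE * nV * δ := by positivity
    have : 0 ≤ nE * δ := by positivity
    have : 0 ≤ nV * δ := by positivity
    nlinarith
  obtain ⟨u₀, hu1, hu2, hu3, hu4⟩ := near_prj hP hP' hb1 hPd
  have hun : ‖u₀‖ ≤ 1 := by
    have hmem : u₀ ∈ UD (fun _ : Empty => (0 : B)) := ⟨hu1, hu2, fun v => v.elim⟩
    exact UD_norm hmem
  have husn : ‖star u₀‖ ≤ 1 := by rw [norm_star]; exact hun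
  let F₁ : Fam G P' :=
    { S := fun e => u₀ * F.S e * star u₀
      star_mul := fun e => by
        rw [← hu4 (G.r e), ← F.star_mul e, star_mul, star_mul, star_star]
        calc u₀ * (star (F.S e) * star u₀) * (u₀ * F.S e * star u₀)
            = u₀ * star (F.S e) * (star u₀ * u₀) * F.S e * star u₀ := by noncomm_ring
          _ = _ := by rw [hu1]; noncomm_ring
      orth := fun e f hef => by
        rw [star_mul, star_mul, star_star]
        calc u₀ * (star (F.S e) * star u₀) * (u₀ * F.S f * star u₀)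
            = u₀ * star (F.S e) * (star u₀ * u₀) * F.S f * star u₀ := by noncomm_ring
          _ = u₀ * (star (F.S e) * F.S f) * star u₀ := by rw [hu1]; noncomm_ring
          _ = 0 := by rw [F.orth e f hef]; simp
      P_mul := fun e => by
        rw [← hu4 (G.s e)]
        calc u₀ * P (G.s e) * star u₀ * (u₀ * F.S e * star u₀)
            = u₀ * P (G.s e) * (star u₀ * u₀) * F.S e * star u₀ := by noncomm_ring
          _ = u₀ * (P (G.s e) * F.S e) * star u₀ := by rw [hu1]; noncomm_ring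
          _ = _ := by rw [F.P_mul] }
  have hF₁ : ∀ e, ‖F₁.S e - F'.S e‖ ≤ 2 * (8 * nV * δ) + δ := by
    intro e
    have e1 : F₁.S e - F'.S e = (u₀ - 1) * F.S e * star u₀ + F.S e * star (u₀ - 1)
        + (F.S e - F'.S e) := by
      show u₀ * F.S e * star u₀ - F'.S e = _
      rw [star_sub, star_one]
      noncomm_ring
    have e2 : ‖(u₀ - 1) * F.S e * star u₀‖ ≤ 8 * nV * δ := by
      calc ‖(u₀ - 1) * F.S e * star u₀‖ ≤ ‖(u₀ - 1) * F.S e‖ * ‖star u₀‖ := norm_mul_le _ _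
        _ ≤ ‖(u₀ - 1) * F.S e‖ * 1 := mul_le_mul_of_nonneg_left husn (norm_nonneg _)
        _ ≤ (‖u₀ - 1‖ * ‖F.S e‖) * 1 := mul_le_mul_of_nonneg_right (norm_mul_le _ _) zero_le_one
        _ ≤ (‖u₀ - 1‖ * 1) * 1 := by
          refine mul_le_mul_of_nonneg_right ?_ zero_le_one
          exact mul_le_mul_of_nonneg_left (F.norm_S_le hP e) (norm_nonneg _)
        _ ≤ 8 * nV * δ := by rw [mul_one, mul_one]; exact hu3
    have e3 : ‖F.S e * star (u₀ - 1)‖ ≤ 8 * nV * δ := by
      calc ‖F.S e * star (u₀ - 1)‖ ≤ ‖F.S e‖ * ‖star (u₀ - 1)‖ := norm_mul_le _ _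
        _ ≤ 1 * ‖star (u₀ - 1)‖ := mul_le_mul_of_nonneg_right (F.norm_S_le hP e) (norm_nonneg _)
        _ ≤ _ := by rw [one_mul, norm_star]; exact hu3
    rw [e1]
    calc _ ≤ ‖(u₀ - 1) * F.S e * star u₀ + F.S e * star (u₀ - 1)‖ + ‖F.S e - F'.S e‖ :=
          norm_add_le _ _
      _ ≤ (‖(u₀ - 1) * F.S e * star u₀‖ + ‖F.S e * star (u₀ - 1)‖) + ‖F.S e - F'.S e‖ :=
          add_le_add_left (norm_add_le _ _) _
      _ ≤ _ := by linarith [hSd e]
  have hb2 : 12 * Fintype.card G.Ed * (2 * (8 * nV * δ) + δ) ≤ 1 := by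
    rw [← hnE]
    have : 12 * nE * (2 * (8 * nV * δ) + δ) = 12 * nE * (16 * nV + 1) * δ := by ring
    rw [this]
    have : 0 ≤ (16 * nV + 1) * δ := by positivity
    nlinarith
  obtain ⟨c, hc, hcS⟩ := near_fam hP' F₁ F' hb2 hF₁
  obtain ⟨W, hW, hWε⟩ := hG B P' hP' F₁ c hc ε hε
  have hWm : W ∈ UD P' := hW.mem
  obtain ⟨hW1, hW2, hW3⟩ := hWm
  have hWsm : star W ∈ UD P' := UD_star hP' hW.mem
  have hthm : F₁.th W ∈ UD P' := F₁.th_mem hP' hW.mem
  have hthsm : star (F₁.th W) ∈ UD P' := UD_star hP' hthm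
  refine ⟨W * u₀, ?_, ?_, fun v => ?_, fun e => ?_⟩
  · rw [star_mul, mul_assoc, ← mul_assoc (star W), hW1, one_mul, hu1]
  · rw [star_mul, mul_assoc, ← mul_assoc u₀, hu2, one_mul, hW2]
  · calc W * u₀ * P v * star (W * u₀) = W * (u₀ * P v * star u₀) * star W := by
          rw [star_mul]; noncomm_ring
      _ = W * P' v * star W := by rw [hu4]
      _ = P' v := by rw [← hW3 v, mul_assoc, hW2, mul_one]
  · have e1 : W * u₀ * F.S e * star (W * u₀) = W * F₁.S e * star W := by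
      show _ = W * (u₀ * F.S e * star u₀) * star W
      rw [star_mul]; noncomm_ring
    have e2 : W * F₁.S e * star W = W * star (F₁.th W) * F₁.S e := by
      have e0 := F₁.th_S hP' (fun v => hWsm.2.2 v) e
      rw [F₁.star_th, mul_assoc W (F₁.th (star W)), e0, mul_assoc W (F₁.S e)]
    have e3 : W * u₀ * F.S e * star (W * u₀) - F'.S e
        = (W * star (F₁.th W) - c) * F₁.S e := by
      rw [e1, e2, sub_mul, hcS]
    have e4 : W * star (F₁.th W) - c = -(W * (star W * c * F₁.th W - 1) * star (F₁.th W)) := by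
      have : W * (star W * c * F₁.th W - 1) * star (F₁.th W)
          = (W * star W) * c * (F₁.th W * star (F₁.th W)) - W * star (F₁.th W) := by noncomm_ring
      rw [this, hW2, hthm.2.1, one_mul, mul_one]
      abel
    have e5 : ‖W * star (F₁.th W) - c‖ ≤ ε := by
      rw [e4, norm_neg, norm_mul_UD hthsm, norm_UD_mul hW.mem]
      exact hWε
    rw [e3]
    calc _ ≤ ‖W * star (F₁.th W) - c‖ * ‖F₁.S e‖ := norm_mul_le _ _
      _ ≤ ‖W * star (F₁.th W) - c‖ * 1 :=
        mul_le_mul_of_nonneg_left (F₁.norm_S_le hP' e) (norm_nonneg _)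
      _ ≤ ε := by rw [mul_one]; exact e5

end Pool.Agent.AUE
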