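import Pool.Agent.AUE.Det
import Pool.Agent.GHT.Defs

/-!
# Univ: a universal family generates

PROOF. Let `S` be the topological closure of `NonUnitalStarAlgebra.adjoin ℂ (range p ∪ range s)`, a closed
star subalgebra, hence a `NonUnitalCStarAlgebra` (`NonUnitalStarSubalgebra.nonUnitalCStarAlgebra`, needs
`IsClosed`). The family `Φ` is a Cuntz-Krieger family in `S`; `IsUniversal` gives `π : A → S` with
`π (Φ.p v) = Φ.p v`, … . The composition with the inclusion `S → A` and the identity both map `Φ` to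
`Φ`, by the uniqueness part for `B = A` they are equal; so every `a = π a ∈ S`.
-/

namespace Pool.Agent.AUE

open Pool.Agent.GHT

theorem genBy_of_universal {G : DGraph} {A : Type} [NonUnitalCStarAlgebra A] (Φ : CKFam G A)
    (hΦ : Φ.IsUniversal) : GenBy (Set.range Φ.p ∪ Set.range Φ.s) := by
  set S : NonUnitalStarSubalgebra ℂ A :=
    (NonUnitalStarAlgebra.adjoin ℂ (Set.range Φ.p ∪ Set.range Φ.s)).topologicalClosure with hS
  have hcl : IsClosed (S : Set A) := NonUnitalStarSubalgebra.isClosed_topologicalClosure _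
  let : NonUnitalCStarAlgebra S :=
    NonUnitalStarSubalgebra.nonUnitalCStarAlgebra S (h_closed := hcl)
  have hsub : ∀ a ∈ Set.range Φ.p ∪ Set.range Φ.s, a ∈ S := fun a ha =>
    NonUnitalStarSubalgebra.le_topologicalClosure _ (NonUnitalStarAlgebra.subset_adjoin ℂ _ ha)
  have hp : ∀ v, Φ.p v ∈ S := fun v => hsub _ (Or.inl ⟨v, rfl⟩)
  have hs : ∀ e, Φ.s e ∈ S := fun e => hsub _ (Or.inr ⟨e, rfl⟩)
  let Ψ : CKFam G S :=
    { p := fun v => ⟨Φ.p v, hp v⟩
      s := fun e => ⟨Φ.s e, hs e⟩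
      p_star := fun v => Subtype.ext (Φ.p_star v)
      p_mul := fun v => Subtype.ext (Φ.p_mul v)
      p_orth := fun v w h => Subtype.ext (Φ.p_orth v w h)
      s_star_s := fun e => Subtype.ext (Φ.s_star_s e)
      s_orth := fun e f h => Subtype.ext (Φ.s_orth e f h)
      p_s := fun e => Subtype.ext (Φ.p_s e)
      ck := fun v h => Subtype.ext (by
        rw [AddSubmonoidClass.coe_finsetSum]
        exact Φ.ck v h) }
  obtain ⟨π, ⟨hπp, hπs⟩, -⟩ := hΦ S Ψ
  obtain ⟨ρ, -, huniq⟩ := hΦ A Φ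
  have h1 : (NonUnitalStarSubalgebraClass.subtype S).comp π = ρ := by
    refine huniq _ ⟨fun v => ?_, fun e => ?_⟩
    · rw [NonUnitalStarAlgHom.comp_apply, hπp]; rfl
    · rw [NonUnitalStarAlgHom.comp_apply, hπs]; rfl
  have h2 : NonUnitalStarAlgHom.id ℂ A = ρ := huniq _ ⟨fun v => rfl, fun e => rfl⟩
  intro a
  have h3 : (NonUnitalStarSubalgebraClass.subtype S).comp π a = a := by
    rw [h1, ← h2]; rfl
  have h4 : a ∈ S := by
    rw [← h3]
    exact (π a).2
  exact h4

end Pool.Agent.AUE
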