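import Pool.Agent.AUE.CondK
import Pool.Agent.AUE.Univ
import Pool.Agent.AUE.NearF

/-!
# HomK: homotopic homomorphisms are approximately unitarily equivalent

PROOF. By `AppU.of_gens` and `genBy_of_universal` it suffices to treat finite sets `s` of generators;
`s ⊆ p '' V0 ∪ s '' E0` with finite `V0`, `E0`. `exists_finite_KG` gives `G₁ = subG …`; `sol_KG`,
`near_aue` give `δ`. Let `H` be the homotopy. For `t : I` put `P^t v = inr (H t (Φ.p v))`,
`S^t e = inr (H t (Φ.s e))` (`v ∈ V1`, `e ∈ E1`) in the unital C*-algebra `Unitization ℂ B`: `IsPrj P^t`,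
and a family of `G₁`. They depend continuously on `t ∈ I` (compact), so uniformly continuously: there is
`n` with `‖P^{(i+1)/n} v - P^{i/n} v‖ ≤ δ`, `‖S^{(i+1)/n} e - S^{i/n} e‖ ≤ δ` for all `i < n` and the finitely
many `v`, `e`. By `near_aue` for each `i` and `ε / n` there is a unitary `u_i` with
`‖u_i x^{i/n} u_i* - x^{(i+1)/n}‖ ≤ ε / n` for all these generators `x`; then `u = u_{n-1} ⋯ u_0`
satisfies `‖u x^0 u* - x^1‖ ≤ ε` (induction). Translate to `adU` (`inr_adU`, `inr` is isometric: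
`Unitization.norm_inr`).
-/

namespace Pool.Agent.AUE

open Pool.Agent.GHT
open scoped unitInterval

section
variable {G : DGraph} {A : Type} [NonUnitalCStarAlgebra A] (Φ : CKFam G A) {B : Type}
  [NonUnitalCStarAlgebra B] (f : A →⋆ₙₐ[ℂ] B) {V1 : Finset G.V} {E1 : Finset G.E}
  (hs : ∀ e ∈ E1, G.s e ∈ V1) (hr : ∀ e ∈ E1, G.r e ∈ V1)

private noncomputable def hkP (V1 : Finset G.V) (v : {v : G.V // v ∈ V1}) : Unitization ℂ B :=
  ((f (Φ.p v.1) : B) : Unitization ℂ B)

private theorem hkP_isPrj : IsPrj (hkP Φ f V1) where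
  star_eq v := by
    show star ((f (Φ.p v.1) : B) : Unitization ℂ B) = _
    rw [← Unitization.inr_star, ← map_star, Φ.p_star]
    rfl
  mul_self v := by
    show ((f (Φ.p v.1) : B) : Unitization ℂ B) * ((f (Φ.p v.1) : B) : Unitization ℂ B) = _
    rw [← Unitization.inr_mul, ← map_mul, Φ.p_mul]
    rfl
  orth v w h := by
    show ((f (Φ.p v.1) : B) : Unitization ℂ B) * ((f (Φ.p w.1) : B) : Unitization ℂ B) = _
    rw [← Unitization.inr_mul, ← map_mul, Φ.p_orth v.1 w.1 (fun h' => h (Subtype.ext h')), map_zero,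
      Unitization.inr_zero]

private noncomputable def hkF : Fam (subG G V1 E1 hs hr) (hkP Φ f V1) where
  S e := ((f (Φ.s e.1) : B) : Unitization ℂ B)
  star_mul e := by
    show star ((f (Φ.s e.1) : B) : Unitization ℂ B) * ((f (Φ.s e.1) : B) : Unitization ℂ B) =
      ((f (Φ.p (G.r e.1)) : B) : Unitization ℂ B)
    rw [← Unitization.inr_star, ← map_star, ← Unitization.inr_mul, ← map_mul, Φ.s_star_s]
  orth e e' h := by
    show star ((f (Φ.s e.1) : B) : Unitization ℂ B) * ((f (Φ.s e'.1) : B) : Unitization ℂ B) = 0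
    rw [← Unitization.inr_star, ← map_star, ← Unitization.inr_mul, ← map_mul,
      Φ.s_orth e.1 e'.1 (fun h' => h (Subtype.ext h')), map_zero, Unitization.inr_zero]
  P_mul e := by
    show ((f (Φ.p (G.s e.1)) : B) : Unitization ℂ B) * ((f (Φ.s e.1) : B) : Unitization ℂ B) =
      ((f (Φ.s e.1) : B) : Unitization ℂ B)
    rw [← Unitization.inr_mul, ← map_mul, Φ.p_s]

end

private theorem hk_norm {B : Type} [CStarAlgebra B] {u : B} (h1 : star u * u = 1) (h2 : u * star u = 1) (x : B) :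
    ‖u * x * star u‖ = ‖x‖ := by
  have hu : u ∈ unitary B := Unitary.mem_iff.2 ⟨h1, h2⟩
  have e1 : ‖(⟨u, hu⟩ : unitary B).1 * (x * star u)‖ = ‖x * star u‖ := CStarRing.norm_coe_unitary_mul _ _
  have e2 : ‖x * (star (⟨u, hu⟩ : unitary B) : unitary B).1‖ = ‖x‖ := CStarRing.norm_mul_coe_unitary _ _
  rw [mul_assoc]
  exact e1.trans e2

private theorem hk_unif {X : Type} (F : Finset X) {B : Type} [NonUnitalCStarAlgebra B] (g : X → I → B)
    (hg : ∀ x ∈ F, Continuous (g x)) {δ : ℝ} (hδ : 0 < δ) :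
    ∃ η > 0, ∀ x ∈ F, ∀ t t' : I, |(t : ℝ) - t'| < η → ‖g x t - g x t'‖ ≤ δ := by
  classical
  induction F using Finset.induction_on with
  | empty => exact ⟨1, one_pos, fun x hx => absurd hx (Finset.notMem_empty x)⟩
  | insert a F _ ih =>
    obtain ⟨η, hη, h⟩ := ih (fun x hx => hg x (Finset.mem_insert_of_mem hx))
    have hc := CompactSpace.uniformContinuous_of_continuous (hg a (Finset.mem_insert_self a F))
    obtain ⟨η', hη', h'⟩ := Metric.uniformContinuous_iff.1 hc δ hδ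
    refine ⟨min η η', lt_min hη hη', fun x hx t t' ht => ?_⟩
    rcases Finset.mem_insert.1 hx with rfl | hx
    · have : dist t t' < η' := by
        rw [Subtype.dist_eq, Real.dist_eq]
        exact lt_of_lt_of_le ht (min_le_right _ _)
      have := h' this
      rw [dist_eq_norm] at this
      exact this.le
    · exact h x hx t t' (lt_of_lt_of_le ht (min_le_left _ _))

theorem homotopic_appU {G : DGraph} (hK : CondK G) {A : Type} [NonUnitalCStarAlgebra A]
    (Φ : CKFam G A) (hΦ : Φ.IsUniversal) {B : Type} [NonUnitalCStarAlgebra B]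
    {φ ψ : A →⋆ₙₐ[ℂ] B} (h : Homotopic φ ψ) : AppU φ ψ := by
  classical
  refine AppU.of_gens (genBy_of_universal Φ hΦ) fun s hsX ε hε => ?_
  obtain ⟨H, hH0, hH1, hHc⟩ := h
  obtain ⟨V0, hV0⟩ : ∃ V0 : Finset G.V, V0.image Φ.p = s.filter (· ∈ Set.range Φ.p) := by
    have : ((s.filter (· ∈ Set.range Φ.p) : Finset A) : Set A) ⊆ Φ.p '' Set.univ := by
      intro x hx
      rw [Set.image_univ]
      exact (Finset.mem_filter.1 hx).2
    obtain ⟨V0, -, h0⟩ := Finset.subset_set_image_iff.1 this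
    exact ⟨V0, h0⟩
  obtain ⟨E0, hE0⟩ : ∃ E0 : Finset G.E, E0.image Φ.s = s.filter (· ∈ Set.range Φ.s) := by
    have : ((s.filter (· ∈ Set.range Φ.s) : Finset A) : Set A) ⊆ Φ.s '' Set.univ := by
      intro x hx
      rw [Set.image_univ]
      exact (Finset.mem_filter.1 hx).2
    obtain ⟨E0, -, h0⟩ := Finset.subset_set_image_iff.1 this
    exact ⟨E0, h0⟩
  obtain ⟨V1, E1, hV01, hE01, hs, hr, hKG⟩ := exists_finite_KG G hK V0 E0
  obtain ⟨δ, hδ, hnear⟩ := near_aue (subG G V1 E1 hs hr) (sol_KG _ hKG)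
  obtain ⟨η₁, hη₁, hu₁⟩ := hk_unif V1 (fun v t => H t (Φ.p v)) (fun v _ => hHc _) hδ
  obtain ⟨η₂, hη₂, hu₂⟩ := hk_unif E1 (fun e t => H t (Φ.s e)) (fun v _ => hHc _) hδ
  obtain ⟨n, hn⟩ := exists_nat_one_div_lt (lt_min hη₁ hη₂)
  have hn0 : (0 : ℝ) < (n : ℝ) + 1 := by positivity
  let t : ℕ → I := fun i => Set.projIcc 0 1 zero_le_one ((i : ℝ) / ((n : ℝ) + 1))
  have ht : ∀ i, |((t (i + 1) : I) : ℝ) - ((t i : I) : ℝ)| < min η₁ η₂ := by
    intro i
    refine lt_of_le_of_lt (Set.abs_projIcc_sub_projIcc zero_le_one) ?_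
    have : ((i + 1 : ℕ) : ℝ) / ((n : ℝ) + 1) - (i : ℝ) / ((n : ℝ) + 1) = 1 / ((n : ℝ) + 1) := by
      push_cast
      ring
    rw [this, abs_of_pos (by positivity)]
    exact hn
  have ht0 : t 0 = 0 := by
    show Set.projIcc 0 1 zero_le_one (((0 : ℕ) : ℝ) / ((n : ℝ) + 1)) = 0
    rw [Nat.cast_zero, zero_div]
    exact Set.projIcc_left _
  have ht1 : t (n + 1) = 1 := by
    show Set.projIcc 0 1 zero_le_one (((n + 1 : ℕ) : ℝ) / ((n : ℝ) + 1)) = 1
    rw [Nat.cast_add, Nat.cast_one, div_self hn0.ne']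
    exact Set.projIcc_right _
  have key : ∀ k : ℕ, ∃ u : Unitization ℂ B, star u * u = 1 ∧ u * star u = 1 ∧
      (∀ v, u * hkP Φ (H (t 0)) V1 v * star u = hkP Φ (H (t k)) V1 v) ∧
      ∀ e, ‖u * (hkF Φ (H (t 0)) hs hr).S e * star u - (hkF Φ (H (t k)) hs hr).S e‖ ≤
        k * (ε / ((n : ℝ) + 1)) := by
    intro k
    induction k with
    | zero =>
      refine ⟨1, by simp, by simp, fun v => by simp, fun e => ?_⟩
      simp
    | succ k ih =>
      obtain ⟨u, a1, a2, a3, a4⟩ := ih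
      have hP : ∀ v : {v : G.V // v ∈ V1}, ‖hkP Φ (H (t k)) V1 v - hkP Φ (H (t (k + 1))) V1 v‖ ≤ δ := by
        intro v
        show ‖((H (t k) (Φ.p v.1) : B) : Unitization ℂ B) - ((H (t (k + 1)) (Φ.p v.1) : B) : Unitization ℂ B)‖ ≤ δ
        rw [← Unitization.inr_sub, Unitization.norm_inr, norm_sub_rev]
        exact hu₁ v.1 v.2 _ _ (lt_of_lt_of_le (ht k) (min_le_left _ _))
      have hS : ∀ e : (subG G V1 E1 hs hr).Ed, ‖(hkF Φ (H (t k)) hs hr).S e -
          (hkF Φ (H (t (k + 1))) hs hr).S e‖ ≤ δ := by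
        intro e
        show ‖((H (t k) (Φ.s e.1) : B) : Unitization ℂ B) - ((H (t (k + 1)) (Φ.s e.1) : B) : Unitization ℂ B)‖ ≤ δ
        rw [← Unitization.inr_sub, Unitization.norm_inr, norm_sub_rev]
        exact hu₂ e.1 e.2 _ _ (lt_of_lt_of_le (ht k) (min_le_right _ _))
      obtain ⟨w, b1, b2, b3, b4⟩ := hnear (Unitization ℂ B) (hkP Φ (H (t k)) V1) (hkP Φ (H (t (k + 1))) V1)
        (hkP_isPrj Φ _) (hkP_isPrj Φ _) (hkF Φ (H (t k)) hs hr) (hkF Φ (H (t (k + 1))) hs hr) hP hS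
        (ε / ((n : ℝ) + 1)) (by positivity)
      refine ⟨w * u, ?_, ?_, ?_, ?_⟩
      · rw [star_mul, mul_assoc, ← mul_assoc (star w), b1, one_mul, a1]
      · rw [star_mul, mul_assoc, ← mul_assoc u, a2, one_mul, b2]
      · intro v
        rw [← b3 v, ← a3 v, star_mul]
        simp only [mul_assoc]
      · intro e
        have e1 : w * u * (hkF Φ (H (t 0)) hs hr).S e * star (w * u) - (hkF Φ (H (t (k + 1))) hs hr).S e =
            w * (u * (hkF Φ (H (t 0)) hs hr).S e * star u - (hkF Φ (H (t k)) hs hr).S e) * star w +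
            (w * (hkF Φ (H (t k)) hs hr).S e * star w - (hkF Φ (H (t (k + 1))) hs hr).S e) := by
          rw [star_mul, mul_sub, sub_mul]
          simp only [mul_assoc]
          abel
        rw [e1]
        refine (norm_add_le _ _).trans ?_
        rw [hk_norm b1 b2]
        push_cast
        have := a4 e
        have := b4 e
        linarith
  obtain ⟨u, a1, a2, a3, a4⟩ := key (n + 1)
  rw [ht0, ht1] at a3 a4
  rw [hH0, hH1] at a3 a4
  refine ⟨⟨u, Unitary.mem_iff.2 ⟨a1, a2⟩⟩, fun a ha => ?_⟩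
  rw [← Unitization.norm_inr (𝕜 := ℂ), Unitization.inr_sub, inr_adU]
  show ‖u * ((φ a : B) : Unitization ℂ B) * star u - ((ψ a : B) : Unitization ℂ B)‖ ≤ ε
  rcases hsX a ha with hp | hp
  · have : a ∈ V0.image Φ.p := by
      rw [hV0]
      exact Finset.mem_filter.2 ⟨ha, hp⟩
    obtain ⟨v, hv, rfl⟩ := Finset.mem_image.1 this
    have := a3 ⟨v, hV01 hv⟩
    have e2 : u * ((φ (Φ.p v) : B) : Unitization ℂ B) * star u = ((ψ (Φ.p v) : B) : Unitization ℂ B) := this
    rw [e2, sub_self, norm_zero]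
    exact hε.le
  · have : a ∈ E0.image Φ.s := by
      rw [hE0]
      exact Finset.mem_filter.2 ⟨ha, hp⟩
    obtain ⟨e, he, rfl⟩ := Finset.mem_image.1 this
    have h5 := a4 ⟨e, hE01 he⟩
    have h6 : ((n + 1 : ℕ) : ℝ) * (ε / ((n : ℝ) + 1)) = ε := by
      push_cast
      field_simp
    rw [h6] at h5
    exact h5

end Pool.Agent.AUE
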