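import Pool.Agent.AUE.PrC

/-!
# MUn: partial isometries from equal numbers of paths

PROOF of `exists_rho`. For all `u v` the filtered finset of paths with `Q` has at most as many
elements as the one with `Q'`: choose an injection `h_{uv}` (`Finset.exists_...`,
`Function.Embedding.nonempty_of_card_le`), and put
`t = ∑_u ∑_v ∑_{l ∈ paths n u v, Q l} T (h_{uv} l) v * star (T l v)`, an element of `core n`.
`star t * t = ∑ T l v * star (T (h l) v) * T (h' l') v' * star (T l' v')`: by `star_T_mul_T` a term is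
nonzero only if `v = v'`, `h_{uv} l = h_{u'v} l'`, so `u = u'` (`walk_left_unique`), `l = l'`
(injective), and then it is `T l v * star (T l v)`. So `star t * t = pr n Q`. `pr n Q' * t = t`,
`t * pr n Q = t` similarly. If the cardinalities are equal the `h_{uv}` are bijections and
`t * star t = pr n Q'`.
-/

namespace Pool.Agent.AUE

open scoped Classical in
/-- the triples (source, range, path) with property `Q` -/
noncomputable def MUn_I {V : Type} [Fintype V] (G : Gr V) (n : ℕ) (Q : List G.Ed → Prop) :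
    Finset ((_ : V) × (_ : V) × List G.Ed) :=
  Finset.univ.sigma fun u => Finset.univ.sigma fun v => (G.paths n u v).filter Q

theorem MUn_mem {V : Type} [Fintype V] (G : Gr V) (n : ℕ) (Q : List G.Ed → Prop)
    (x : (_ : V) × (_ : V) × List G.Ed) :
    x ∈ MUn_I G n Q ↔ (x.2.2.length = n ∧ G.Walk x.1 x.2.2 x.2.1) ∧ Q x.2.2 := by
  classical
  unfold MUn_I
  rw [Finset.mem_sigma, Finset.mem_sigma, Finset.mem_filter, Gr.mem_paths]
  simp

open scoped Classical in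
theorem MUn_sum {V : Type} [Fintype V] (G : Gr V) {B : Type} [AddCommMonoid B] (n : ℕ) (Q : List G.Ed → Prop)
    (f : V → V → List G.Ed → B) :
    ∑ u, ∑ v, ∑ l ∈ (G.paths n u v).filter Q, f u v l = ∑ x ∈ MUn_I G n Q, f x.1 x.2.1 x.2.2 := by
  unfold MUn_I
  rw [Finset.sum_sigma]
  refine Finset.sum_congr rfl fun u _ => ?_
  rw [Finset.sum_sigma]

theorem MUn_emb {α : Type} (A A' : Finset α) (h : A.card ≤ A'.card) :
    ∃ η : α → α, (∀ l ∈ A, η l ∈ A') ∧ (∀ l ∈ A, ∀ l' ∈ A, η l = η l' → l = l') ∧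
      (A.card = A'.card → ∀ m ∈ A', ∃ l ∈ A, η l = m) := by
  classical
  obtain ⟨g⟩ := Function.Embedding.nonempty_of_card_le (α := A) (β := A') (by simpa using h)
  have hη : ∀ (l : α) (hl : l ∈ A), (if h : l ∈ A then ((g ⟨l, h⟩ : A') : α) else l) = (g ⟨l, hl⟩ : A') := by
    intro l hl
    rw [dif_pos hl]
  refine ⟨fun l => if h : l ∈ A then ((g ⟨l, h⟩ : A') : α) else l, ?_, ?_, ?_⟩
  · intro l hl
    show (if h : l ∈ A then ((g ⟨l, h⟩ : A') : α) else l) ∈ A'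
    rw [hη l hl]
    exact (g ⟨l, hl⟩).2
  · intro l hl l' hl' he
    change (if h : l ∈ A then ((g ⟨l, h⟩ : A') : α) else l) = (if h : l' ∈ A then ((g ⟨l', h⟩ : A') : α) else l') at he
    rw [hη l hl, hη l' hl'] at he
    have h1 := g.injective (Subtype.ext he)
    exact congrArg Subtype.val h1
  · intro hc m hm
    have hb : Function.Bijective g := by
      rw [Fintype.bijective_iff_injective_and_card]
      exact ⟨g.injective, by simpa using hc⟩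
    obtain ⟨⟨l, hl⟩, hl2⟩ := hb.2 ⟨m, hm⟩
    refine ⟨l, hl, ?_⟩
    show (if h : l ∈ A then ((g ⟨l, h⟩ : A') : α) else l) = m
    rw [hη l hl, hl2]

variable {V : Type} [Fintype V] {B : Type} [CStarAlgebra B] {P : V → B} {G : Gr V} (F : Fam G P)
  (hP : IsPrj P)

include hP

open scoped Classical in
omit [Fintype V] in
theorem MUn_gen {ι κ : Type} (S : Finset ι) (S' : Finset κ) {n : ℕ} (a b : ι → List G.Ed) (u v : ι → V)
    (c d : κ → List G.Ed) (u' w : κ → V) (h1 : ∀ i ∈ S, (b i).length = n ∧ G.Walk (u i) (b i) (v i))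
    (h2 : ∀ j ∈ S', (c j).length = n ∧ G.Walk (u' j) (c j) (w j)) :
    (∑ i ∈ S, F.T (a i) (v i) * star (F.T (b i) (v i))) * (∑ j ∈ S', F.T (c j) (w j) * star (F.T (d j) (w j))) =
      ∑ i ∈ S, ∑ j ∈ S', if b i = c j ∧ v i = w j then F.T (a i) (v i) * star (F.T (d j) (w j)) else 0 := by
  rw [Finset.sum_mul_sum]
  refine Finset.sum_congr rfl fun i hi => Finset.sum_congr rfl fun j hj => ?_
  have h3 := F.star_T_mul_T hP (h1 i hi).2 (h2 j hj).2 ((h1 i hi).1.trans (h2 j hj).1.symm)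
  have h4 : F.T (a i) (v i) * star (F.T (b i) (v i)) * (F.T (c j) (w j) * star (F.T (d j) (w j))) =
      F.T (a i) (v i) * (star (F.T (b i) (v i)) * F.T (c j) (w j)) * star (F.T (d j) (w j)) := by
    simp only [mul_assoc]
  rw [h4, h3]
  by_cases hc : b i = c j ∧ v i = w j
  · rw [if_pos hc, if_pos hc, F.T_P hP]
  · rw [if_neg hc, if_neg hc, mul_zero, zero_mul]

/-- the partial isometry given by maps `η u v` of the paths from `u` to `v` -/
noncomputable def MUn_t (n : ℕ) (Q : List G.Ed → Prop) (η : V → V → List G.Ed → List G.Ed) : B :=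
  ∑ x ∈ MUn_I G n Q, F.T (η x.1 x.2.1 x.2.2) x.2.1 * star (F.T x.2.2 x.2.1)

omit hP in
theorem MUn_pr (n : ℕ) (Q : List G.Ed → Prop) :
    F.pr n Q = ∑ x ∈ MUn_I G n Q, F.T x.2.2 x.2.1 * star (F.T x.2.2 x.2.1) := by
  unfold Fam.pr
  exact MUn_sum G n Q fun _ v l => F.T l v * star (F.T l v)

omit hP in
theorem MUn_star_t (n : ℕ) (Q : List G.Ed → Prop) (η : V → V → List G.Ed → List G.Ed) :
    star (MUn_t F n Q η) = ∑ x ∈ MUn_I G n Q, F.T x.2.2 x.2.1 * star (F.T (η x.1 x.2.1 x.2.2) x.2.1) := by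
  unfold MUn_t
  rw [star_sum]
  refine Finset.sum_congr rfl fun x _ => ?_
  rw [StarMul.star_mul, star_star]

/-- the maps `η` send paths with `Q` to paths with `Q'` and are injective -/
structure MUn_ok (G : Gr V) (n : ℕ) (Q Q' : List G.Ed → Prop) (η : V → V → List G.Ed → List G.Ed) : Prop where
  maps : ∀ x ∈ MUn_I G n Q, (⟨x.1, x.2.1, η x.1 x.2.1 x.2.2⟩ : (_ : V) × (_ : V) × List G.Ed) ∈ MUn_I G n Q'
  inj : ∀ x ∈ MUn_I G n Q, ∀ y ∈ MUn_I G n Q, η x.1 x.2.1 x.2.2 = η y.1 y.2.1 y.2.2 → x.2.1 = y.2.1 → x = y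

omit hP in
theorem MUn_mem_core {n : ℕ} {Q Q' : List G.Ed → Prop} {η : V → V → List G.Ed → List G.Ed} (h : MUn_ok G n Q Q' η) :
    MUn_t F n Q η ∈ F.core n := by
  unfold MUn_t
  refine Submodule.sum_mem _ fun x hx => ?_
  have h1 := (MUn_mem G n Q x).1 hx
  have h2 := (MUn_mem G n Q' _).1 (h.maps x hx)
  exact Submodule.subset_span ⟨x.1, x.2.1, η x.1 x.2.1 x.2.2, x.2.2, h2.1.1, h1.1.1, h2.1.2, h1.1.2, rfl⟩

theorem MUn_star_mul {n : ℕ} {Q Q' : List G.Ed → Prop} {η : V → V → List G.Ed → List G.Ed}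
    (h : MUn_ok G n Q Q' η) : star (MUn_t F n Q η) * MUn_t F n Q η = F.pr n Q := by
  classical
  rw [MUn_star_t, MUn_pr]
  unfold MUn_t
  have h1 : ∀ x ∈ MUn_I G n Q, (η x.1 x.2.1 x.2.2).length = n ∧ G.Walk x.1 (η x.1 x.2.1 x.2.2) x.2.1 := fun x hx =>
    ((MUn_mem G n Q' _).1 (h.maps x hx)).1
  rw [MUn_gen F hP (MUn_I G n Q) (MUn_I G n Q) (fun x => x.2.2) (fun x => η x.1 x.2.1 x.2.2) (fun x => x.1)
    (fun x => x.2.1) (fun x => η x.1 x.2.1 x.2.2) (fun x => x.2.2) (fun x => x.1) (fun x => x.2.1) h1 h1]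
  refine Finset.sum_congr rfl fun x hx => ?_
  rw [Finset.sum_eq_single x]
  · rw [if_pos ⟨rfl, rfl⟩]
  · intro y hy hyx
    rw [if_neg]
    rintro ⟨h2, h3⟩
    exact hyx (h.inj x hx y hy h2 h3).symm
  · intro hx'
    exact absurd hx hx'

omit hP in
theorem MUn_eq {n : ℕ} {Q : List G.Ed → Prop} {x y : (_ : V) × (_ : V) × List G.Ed} (hx : x ∈ MUn_I G n Q)
    (hy : y ∈ MUn_I G n Q) (h2 : x.2.2 = y.2.2) (h3 : x.2.1 = y.2.1) : x = y := by
  obtain ⟨u, v, l⟩ := x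
  obtain ⟨u', v', l'⟩ := y
  have h4 : l = l' := h2
  have h5 : v = v' := h3
  subst h4 h5
  have h6 := ((MUn_mem G n Q _).1 hx).1.2
  have h7 := ((MUn_mem G n Q _).1 hy).1.2
  have h8 := G.walk_left_unique h6 h7
  have h9 : u = u' := h8
  rw [h9]

theorem MUn_mul_pr {n : ℕ} {Q : List G.Ed → Prop} (η : V → V → List G.Ed → List G.Ed) :
    MUn_t F n Q η * F.pr n Q = MUn_t F n Q η := by
  classical
  rw [MUn_pr]
  unfold MUn_t
  have h1 : ∀ x ∈ MUn_I G n Q, x.2.2.length = n ∧ G.Walk x.1 x.2.2 x.2.1 := fun x hx => ((MUn_mem G n Q _).1 hx).1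
  rw [MUn_gen F hP (MUn_I G n Q) (MUn_I G n Q) (fun x => η x.1 x.2.1 x.2.2) (fun x => x.2.2) (fun x => x.1)
    (fun x => x.2.1) (fun x => x.2.2) (fun x => x.2.2) (fun x => x.1) (fun x => x.2.1) h1 h1]
  refine Finset.sum_congr rfl fun x hx => ?_
  rw [Finset.sum_eq_single x]
  · rw [if_pos ⟨rfl, rfl⟩]
  · intro y hy hyx
    rw [if_neg]
    rintro ⟨h2, h3⟩
    exact hyx (MUn_eq hx hy h2 h3).symm
  · intro hx'
    exact absurd hx hx'

theorem MUn_pr_mul {n : ℕ} {Q Q' : List G.Ed → Prop} {η : V → V → List G.Ed → List G.Ed}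
    (h : MUn_ok G n Q Q' η) : F.pr n Q' * MUn_t F n Q η = MUn_t F n Q η := by
  classical
  rw [MUn_pr]
  unfold MUn_t
  have h1 : ∀ x ∈ MUn_I G n Q', x.2.2.length = n ∧ G.Walk x.1 x.2.2 x.2.1 := fun x hx => ((MUn_mem G n Q' _).1 hx).1
  have h2 : ∀ x ∈ MUn_I G n Q, (η x.1 x.2.1 x.2.2).length = n ∧ G.Walk x.1 (η x.1 x.2.1 x.2.2) x.2.1 := fun x hx =>
    ((MUn_mem G n Q' _).1 (h.maps x hx)).1
  rw [MUn_gen F hP (MUn_I G n Q') (MUn_I G n Q) (fun x => x.2.2) (fun x => x.2.2) (fun x => x.1)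
    (fun x => x.2.1) (fun x => η x.1 x.2.1 x.2.2) (fun x => x.2.2) (fun x => x.1) (fun x => x.2.1) h1 h2,
    Finset.sum_comm]
  refine Finset.sum_congr rfl fun y hy => ?_
  rw [Finset.sum_eq_single ⟨y.1, y.2.1, η y.1 y.2.1 y.2.2⟩]
  · rw [if_pos ⟨rfl, rfl⟩]
  · intro x hx hxy
    rw [if_neg]
    rintro ⟨h3, h4⟩
    exact hxy (MUn_eq hx (h.maps y hy) h3 h4)
  · intro hy'
    exact absurd (h.maps y hy) hy'

theorem MUn_mul_star {n : ℕ} {Q Q' : List G.Ed → Prop} {η : V → V → List G.Ed → List G.Ed}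
    (h : MUn_ok G n Q Q' η)
    (hs : ∀ y ∈ MUn_I G n Q', ∃ x ∈ MUn_I G n Q, (⟨x.1, x.2.1, η x.1 x.2.1 x.2.2⟩ : (_ : V) × (_ : V) × List G.Ed) = y) :
    MUn_t F n Q η * star (MUn_t F n Q η) = F.pr n Q' := by
  classical
  rw [MUn_star_t, MUn_pr]
  unfold MUn_t
  have h1 : ∀ x ∈ MUn_I G n Q, x.2.2.length = n ∧ G.Walk x.1 x.2.2 x.2.1 := fun x hx => ((MUn_mem G n Q _).1 hx).1
  rw [MUn_gen F hP (MUn_I G n Q) (MUn_I G n Q) (fun x => η x.1 x.2.1 x.2.2) (fun x => x.2.2) (fun x => x.1)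
    (fun x => x.2.1) (fun x => x.2.2) (fun x => η x.1 x.2.1 x.2.2) (fun x => x.1) (fun x => x.2.1) h1 h1]
  have h2 : ∀ x ∈ MUn_I G n Q, (∑ y ∈ MUn_I G n Q, if x.2.2 = y.2.2 ∧ x.2.1 = y.2.1 then
      F.T (η x.1 x.2.1 x.2.2) x.2.1 * star (F.T (η y.1 y.2.1 y.2.2) y.2.1) else 0) =
      F.T (η x.1 x.2.1 x.2.2) x.2.1 * star (F.T (η x.1 x.2.1 x.2.2) x.2.1) := by
    intro x hx
    rw [Finset.sum_eq_single x]
    · rw [if_pos ⟨rfl, rfl⟩]
    · intro y hy hyx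
      rw [if_neg]
      rintro ⟨h2, h3⟩
      exact hyx (MUn_eq hx hy h2 h3).symm
    · intro hx'
      exact absurd hx hx'
  rw [Finset.sum_congr rfl h2]
  refine Finset.sum_bij (fun x _ => (⟨x.1, x.2.1, η x.1 x.2.1 x.2.2⟩ : (_ : V) × (_ : V) × List G.Ed)) h.maps ?_ ?_ ?_
  · intro x hx y hy hxy
    have h3 := congrArg (fun z : (_ : V) × (_ : V) × List G.Ed => z.2.1) hxy
    have h4 := congrArg (fun z : (_ : V) × (_ : V) × List G.Ed => z.2.2) hxy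
    exact h.inj x hx y hy h4 h3
  · intro y hy
    obtain ⟨x, hx, hxy⟩ := hs y hy
    exact ⟨x, hx, hxy⟩
  · intro x _
    rfl

omit hP in
theorem MUn_exists {n : ℕ} {Q Q' : List G.Ed → Prop} (h : ∀ u v, G.cnt n Q u v ≤ G.cnt n Q' u v) :
    ∃ η : V → V → List G.Ed → List G.Ed, MUn_ok G n Q Q' η ∧
      ((∀ u v, G.cnt n Q u v = G.cnt n Q' u v) → ∀ y ∈ MUn_I G n Q', ∃ x ∈ MUn_I G n Q,
        (⟨x.1, x.2.1, η x.1 x.2.1 x.2.2⟩ : (_ : V) × (_ : V) × List G.Ed) = y) := by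
  classical
  choose η h1 h2 h3 using fun u v => MUn_emb _ _ (h u v)
  have hm : ∀ x : (_ : V) × (_ : V) × List G.Ed, ∀ R : List G.Ed → Prop,
      x ∈ MUn_I G n R ↔ x.2.2 ∈ @Finset.filter _ R (fun l => Classical.propDecidable (R l)) (G.paths n x.1 x.2.1) := by
    intro x R
    rw [MUn_mem, Finset.mem_filter, Gr.mem_paths]
  refine ⟨η, ⟨fun x hx => ?_, fun x hx y hy h4 h5 => ?_⟩, fun he y hy => ?_⟩
  · rw [hm]
    exact h1 x.1 x.2.1 x.2.2 ((hm x Q).1 hx)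
  · have h6 := (hm (⟨x.1, x.2.1, η x.1 x.2.1 x.2.2⟩ : (_ : V) × (_ : V) × List G.Ed) Q').2
      (h1 x.1 x.2.1 x.2.2 ((hm x Q).1 hx))
    have h7 := (hm (⟨y.1, y.2.1, η y.1 y.2.1 y.2.2⟩ : (_ : V) × (_ : V) × List G.Ed) Q').2
      (h1 y.1 y.2.1 y.2.2 ((hm y Q).1 hy))
    have h8 := ((MUn_mem G n Q' _).1 h6).1.2
    have h9 := ((MUn_mem G n Q' _).1 h7).1.2
    obtain ⟨u, v, l⟩ := x
    obtain ⟨u', v', l'⟩ := y
    change v = v' at h5
    change η u v l = η u' v' l' at h4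
    change G.Walk u (η u v l) v at h8
    change G.Walk u' (η u' v' l') v' at h9
    subst h5
    rw [h4] at h8
    have h10 := G.walk_left_unique h8 h9
    subst h10
    have h11 := h2 u v l ((hm _ Q).1 hx) l' ((hm _ Q).1 hy) h4
    rw [h11]
  · obtain ⟨l, hl, hl2⟩ := h3 y.1 y.2.1 (he y.1 y.2.1) y.2.2 ((hm y Q').1 hy)
    refine ⟨⟨y.1, y.2.1, l⟩, (hm _ Q).2 hl, ?_⟩
    show (⟨y.1, y.2.1, η y.1 y.2.1 l⟩ : (_ : V) × (_ : V) × List G.Ed) = y
    rw [hl2]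

theorem Fam.exists_theta {n : ℕ} {Q Q' : List G.Ed → Prop} (h : G.cnt n Q = G.cnt n Q') :
    ∃ t ∈ F.core n, star t * t = F.pr n Q ∧ t * star t = F.pr n Q' ∧ t * F.pr n Q = t ∧
      F.pr n Q' * t = t := by
  obtain ⟨η, h1, h2⟩ := MUn_exists (n := n) (Q := Q) (Q' := Q') (fun u v => (congrFun (congrFun h u) v).le)
  exact ⟨MUn_t F n Q η, MUn_mem_core F h1, MUn_star_mul F hP h1,
    MUn_mul_star F hP h1 (h2 fun u v => congrFun (congrFun h u) v), MUn_mul_pr F hP η, MUn_pr_mul F hP h1⟩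

theorem Fam.exists_rho {n : ℕ} {Q Q' : List G.Ed → Prop}
    (h : ∀ u v, G.cnt n Q u v ≤ G.cnt n Q' u v) :
    ∃ t ∈ F.core n, star t * t = F.pr n Q ∧ t * F.pr n Q = t ∧ F.pr n Q' * t = t := by
  obtain ⟨η, h1, -⟩ := MUn_exists h
  exact ⟨MUn_t F n Q η, MUn_mem_core F h1, MUn_star_mul F hP h1, MUn_mul_pr F hP η, MUn_pr_mul F hP h1⟩

end Pool.Agent.AUE
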