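import Pool.Agent.AUE.Cnt

/-!
# Mark: markers

`x v ≠ y v` are loops at `v`. The marker at `v` is the word `mk v = x v ^ k * y v` of length `k + 1`.
`isM l`: `l` starts with a marker. `clean l`: there is no marker in `l`. `fstAt t l`: the first
marker in `l` starts at position `t`.

KEY (no overlap): if `isM l` and `isM (l.drop j)` with `0 < j ≤ k` then False: let
`l = x v ^ k ++ [y v] ++ …` and `l.drop j = x v' ^ k ++ [y v'] ++ …`. Position `k` of `l` is `y v`;
it is position `k - j < k` of `l.drop j`, so `y v = x v'`. Sources: `v = v'`, so `y v = x v`, a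
contradiction.
(Also `isM (l.take n) ↔ isM l` when `k + 1 ≤ n`, and `¬ isM l` if `l.length < k + 1`.)
-/

namespace Pool.Agent.AUE

/-- Loops `x v ≠ y v` at each vertex. -/
structure Loops {V : Type} (G : Gr V) (x y : V → G.Ed) : Prop where
  sx : ∀ v, G.s (x v) = v
  rx : ∀ v, G.r (x v) = v
  sy : ∀ v, G.s (y v) = v
  ry : ∀ v, G.r (y v) = v
  ne : ∀ v, x v ≠ y v

variable {V : Type} {G : Gr V} (x y : V → G.Ed) (k : ℕ)

/-- The marker word. -/
def mk (v : V) : List G.Ed := List.replicate k (x v) ++ [y v]

/-- `l` starts with a marker. -/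
def isM (l : List G.Ed) : Prop := ∃ v, mk x y k v <+: l

/-- No marker in `l`. -/
def clean (l : List G.Ed) : Prop := ∀ i, ¬ isM x y k (l.drop i)

/-- The first marker of `l` is at position `t`. -/
def fstAt (t : ℕ) (l : List G.Ed) : Prop := isM x y k (l.drop t) ∧ ∀ i < t, ¬ isM x y k (l.drop i)

variable (h : Loops G x y)

include h in
theorem no_overlap {l : List G.Ed} (h1 : isM x y k l) {j : ℕ} (hj : 0 < j) (hj' : j ≤ k)
    (h2 : isM x y k (l.drop j)) : False := by
  obtain ⟨v, hv⟩ := h1
  obtain ⟨v', hv'⟩ := h2
  have e1 : l[k]? = some (y v) := by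
    obtain ⟨t, rfl⟩ := hv
    unfold mk
    rw [List.append_assoc, List.getElem?_append_right (by simp)]
    simp
  have e2 : (l.drop j)[k - j]? = some (x v') := by
    obtain ⟨t, ht⟩ := hv'
    rw [← ht]
    unfold mk
    rw [List.append_assoc, List.getElem?_append_left (by simp; omega)]
    rw [List.getElem?_replicate]
    rw [if_pos (by omega)]
  rw [List.getElem?_drop, show j + (k - j) = k by omega, e1] at e2
  have e3 : y v = x v' := Option.some.inj e2
  have e4 : v = v' := by
    rw [← h.sy v, e3, h.sx]
  subst e4
  exact h.ne v e3.symm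

theorem isM_length {l : List G.Ed} (h1 : isM x y k l) : k + 1 ≤ l.length := by
  obtain ⟨v, hv⟩ := h1
  have := hv.length_le
  unfold mk at this
  simpa using this

theorem isM_take {l : List G.Ed} {n : ℕ} (hn : k + 1 ≤ n) : isM x y k (l.take n) ↔ isM x y k l := by
  constructor
  · rintro ⟨v, hv⟩
    exact ⟨v, hv.trans (List.take_prefix _ _)⟩
  · rintro ⟨v, hv⟩
    refine ⟨v, ?_⟩
    rw [List.prefix_take_iff]
    refine ⟨hv, ?_⟩
    unfold mk
    simpa using hn

theorem isM_of_take {l : List G.Ed} {n : ℕ} (h1 : isM x y k (l.take n)) : isM x y k l := by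
  obtain ⟨v, hv⟩ := h1
  exact ⟨v, hv.trans (List.take_prefix _ _)⟩

/-- A word is clean or has a first marker. -/
theorem clean_or_fstAt (l : List G.Ed) :
    clean x y k l ∨ ∃ t, t + k + 1 ≤ l.length ∧ fstAt x y k t l := by
  classical
  by_cases hc : clean x y k l
  · exact Or.inl hc
  · right
    unfold clean at hc
    push Not at hc
    refine ⟨Nat.find hc, ?_, Nat.find_spec hc, fun i hi => Nat.find_min hc hi⟩
    have := isM_length x y k (Nat.find_spec hc)
    rw [List.length_drop] at this
    omega

theorem not_clean_of_fstAt {t : ℕ} {l : List G.Ed} (h1 : fstAt x y k t l) :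
    ¬ clean x y k l := by
  exact fun hc => hc t h1.1

theorem fstAt_unique {t t' : ℕ} {l : List G.Ed} (h1 : fstAt x y k t l) (h2 : fstAt x y k t' l) :
    t = t' := by
  rcases lt_trichotomy t t' with ht | ht | ht
  · exact absurd h1.1 (h2.2 t ht)
  · exact ht
  · exact absurd h2.1 (h1.2 t' ht)

theorem fstAt_length {t : ℕ} {l : List G.Ed} (h1 : fstAt x y k t l) : t + k + 1 ≤ l.length := by
  have := isM_length x y k h1.1
  rw [List.length_drop] at this
  omega

/-- Shifting. -/
theorem fstAt_drop {t i : ℕ} {l : List G.Ed} (h1 : fstAt x y k t l) (hi : i ≤ t) :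
    fstAt x y k (t - i) (l.drop i) := by
  refine ⟨?_, ?_⟩
  · rw [List.drop_drop, show i + (t - i) = t by omega]
    exact h1.1
  · intro j hj
    rw [List.drop_drop]
    exact h1.2 _ (by omega)

theorem fstAt_take {t m : ℕ} {l : List G.Ed} (h1 : fstAt x y k t l) (hm : t + k + 1 ≤ m) :
    fstAt x y k t (l.take m) := by
  refine ⟨?_, ?_⟩
  · rw [List.drop_take, isM_take x y k (by omega)]
    exact h1.1
  · intro j hj hM
    rw [List.drop_take] at hM
    exact h1.2 j hj (isM_of_take x y k hM)

theorem fstAt_of_take {t m : ℕ} {l : List G.Ed} (h1 : fstAt x y k t (l.take m)) :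
    fstAt x y k t l := by
  have hl := fstAt_length x y k h1
  rw [List.length_take] at hl
  refine ⟨?_, ?_⟩
  · have h2 := h1.1
    rw [List.drop_take] at h2
    exact isM_of_take x y k h2
  · intro j hj hM
    apply h1.2 j hj
    rw [List.drop_take, isM_take x y k (by omega)]
    exact hM

include h in
/-- By `no_overlap`. -/
theorem fstAt_iff {t : ℕ} {l : List G.Ed} :
    fstAt x y k t l ↔ clean x y k (l.take t) ∧ isM x y k (l.drop t) := by
  constructor
  · rintro ⟨h1, h2⟩
    refine ⟨?_, h1⟩
    intro i hM
    have hl := isM_length x y k hM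
    rw [List.length_drop, List.length_take] at hl
    rw [List.drop_take] at hM
    exact h2 i (by omega) (isM_of_take x y k hM)
  · rintro ⟨h1, h2⟩
    refine ⟨h2, ?_⟩
    intro i hi hM
    by_cases hc : i + k + 1 ≤ t
    · apply h1 i
      rw [List.drop_take, isM_take x y k (by omega)]
      exact hM
    · apply no_overlap x y k h hM (j := t - i) (by omega) (by omega)
      rw [List.drop_drop, show i + (t - i) = t by omega]
      exact h2

include h in
/-- By `no_overlap`: if `l` has length `t + 1`, its first `t` letters are clean and `l` is not clean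
then the marker is at position `t - k`, and conversely. -/
theorem clean_succ {t : ℕ} {l : List G.Ed} (hl : l.length = t + 1) (ht : k ≤ t) :
    clean x y k (l.take t) ↔
      clean x y k l ∨ (clean x y k (l.take (t - k)) ∧ isM x y k (l.drop (t - k))) := by
  constructor
  · intro h1
    by_cases hc : clean x y k l
    · exact Or.inl hc
    · right
      unfold clean at hc
      push Not at hc
      obtain ⟨i, hi⟩ := hc
      have hli := isM_length x y k hi
      rw [List.length_drop, hl] at hli
      have hi' : i = t - k := by
        by_contra hne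
        apply h1 i
        rw [List.drop_take, isM_take x y k (by omega)]
        exact hi
      subst hi'
      refine ⟨?_, hi⟩
      intro j hj
      apply h1 j
      have hlj := isM_length x y k hj
      rw [List.length_drop, List.length_take] at hlj
      rw [List.drop_take] at hj
      rw [List.drop_take, isM_take x y k (by omega)]
      exact isM_of_take x y k hj
  · rintro (h1 | ⟨h1, h2⟩)
    · intro i hi
      rw [List.drop_take] at hi
      exact h1 i (isM_of_take x y k hi)
    · intro i hi
      have hli := isM_length x y k hi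
      rw [List.length_drop, List.length_take] at hli
      rw [List.drop_take] at hi
      have hi' := isM_of_take x y k hi
      by_cases hc : i + k + 1 ≤ t - k
      · apply h1 i
        rw [List.drop_take, isM_take x y k (by omega)]
        exact hi'
      · apply no_overlap x y k h hi' (j := (t - k) - i) (by omega) (by omega)
        rw [List.drop_drop, show i + ((t - k) - i) = t - k by omega]
        exact h2

end Pool.Agent.AUE
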