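import Pool.Agent.AUE.Defs

/-!
# NS: the norm of a sum of orthogonal elements

PROOF of `norm_orth_sum_le`. Let `y = ∑ a i`. Then `C := star y * y = ∑ c i` with
`c i = star (a i) * a i` (cross terms vanish by h1), and `c i * c j = star (a i) * (a i * star (a j))
* a j = 0` for `i ≠ j` (h2). So `C ^ k = ∑ (c i) ^ k` for `k ≥ 1` (induction).
For `k = 2 ^ n`: `‖C‖ ^ k = ‖C ^ k‖ ≤ card s * (M ^ 2) ^ k` (`IsSelfAdjoint.nnnorm_pow_two_pow`).
If `‖C‖ > M ^ 2` then `(‖C‖ / M ^ 2) ^ (2 ^ n) ≤ card s` for all `n` (if `M = 0` directly `C = 0`),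
a contradiction. So `‖y‖ ^ 2 = ‖C‖ ≤ M ^ 2` (`CStarRing.norm_star_mul_self`).
(Alternatively: induction on `s` with two summands: for `a, b` with `star a * b = 0`, `a * star b = 0`
the norm of `a + b` is at most the max; same proof.)

PROOF of `norm_conj_sum_le`: apply the first to `a i = t i * x i * star (t i)`:
`star (a i) * a j = t i * star (x i) * (star (t i) * t j) * ... = 0`, similarly `a i * star (a j) = 0`;
`‖t i‖ ^ 2 = ‖star (t i) * t i‖ ≤ 1`, so `‖a i‖ ≤ ‖x i‖`.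
-/

namespace Pool.Agent.AUE

/-- powers of a sum of orthogonal elements -/
theorem NS_pow {B : Type} [CStarAlgebra B] {ι : Type} (s : Finset ι) (c : ι → B)
    (hc : ∀ i ∈ s, ∀ j ∈ s, i ≠ j → c i * c j = 0) (k : ℕ) :
    (∑ i ∈ s, c i) ^ (k + 1) = ∑ i ∈ s, c i ^ (k + 1) := by
  induction k with
  | zero => simp
  | succ k ih =>
    rw [pow_succ, ih, Finset.sum_mul]
    refine Finset.sum_congr rfl fun i hi => ?_
    rw [Finset.mul_sum, Finset.sum_eq_single_of_mem i hi]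
    · rw [← pow_succ]
    · intro j hj hji
      rw [pow_succ, mul_assoc, hc i hi j hj (Ne.symm hji), mul_zero]

/-- comparison of large powers -/
theorem NS_le {q m C : ℝ} (hm : 0 ≤ m) (h : ∀ n : ℕ, q ^ 2 ^ n ≤ C * m ^ 2 ^ n) : q ≤ m := by
  by_contra hlt
  push Not at hlt
  rcases hm.eq_or_lt with h0 | h0
  · have h1 := h 0
    rw [← h0] at h1 hlt
    simp only [pow_zero, pow_one, mul_zero] at h1
    linarith
  · have h1 : 1 < q / m := by rwa [one_lt_div h0]
    obtain ⟨k, hk⟩ := ((tendsto_pow_atTop_atTop_of_one_lt h1).eventually_gt_atTop C).exists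
    have h2 : (q / m) ^ k ≤ (q / m) ^ 2 ^ k := pow_le_pow_right₀ h1.le Nat.lt_two_pow_self.le
    have h3 : (q / m) ^ 2 ^ k ≤ C := by
      rw [div_pow, div_le_iff₀ (pow_pos h0 _)]
      exact h k
    linarith

theorem norm_orth_sum_le {B : Type} [CStarAlgebra B] {ι : Type} (s : Finset ι) (a : ι → B) (M : ℝ)
    (hM : 0 ≤ M) (h1 : ∀ i ∈ s, ∀ j ∈ s, i ≠ j → star (a i) * a j = 0)
    (h2 : ∀ i ∈ s, ∀ j ∈ s, i ≠ j → a i * star (a j) = 0) (h : ∀ i ∈ s, ‖a i‖ ≤ M) :
    ‖∑ i ∈ s, a i‖ ≤ M := by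
  set y := ∑ i ∈ s, a i with hy
  have e1 : star y * y = ∑ i ∈ s, star (a i) * a i := by
    rw [hy, star_sum, Finset.sum_mul]
    refine Finset.sum_congr rfl fun i hi => ?_
    rw [Finset.mul_sum, Finset.sum_eq_single_of_mem i hi]
    intro j hj hji
    exact h1 i hi j hj (Ne.symm hji)
  have hc : ∀ i ∈ s, ∀ j ∈ s, i ≠ j → (star (a i) * a i) * (star (a j) * a j) = 0 := by
    intro i hi j hj hij
    rw [mul_assoc, ← mul_assoc (a i), h2 i hi j hj hij, zero_mul, mul_zero]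
  have hsa : IsSelfAdjoint (star y * y) := IsSelfAdjoint.star_mul_self y
  have hle : ∀ n : ℕ, ‖star y * y‖ ^ 2 ^ n ≤ (s.card : ℝ) * (M ^ 2) ^ 2 ^ n := by
    intro n
    have e2 : ‖(star y * y) ^ 2 ^ n‖ = ‖star y * y‖ ^ 2 ^ n := by
      have := congrArg ((↑) : NNReal → ℝ) (hsa.nnnorm_pow_two_pow n)
      simpa using this
    obtain ⟨k, hk⟩ : ∃ k, 2 ^ n = k + 1 := ⟨2 ^ n - 1, (Nat.sub_add_cancel Nat.one_le_two_pow).symm⟩
    rw [← e2, e1, hk, NS_pow s _ hc k]
    refine (norm_sum_le _ _).trans ?_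
    rw [← nsmul_eq_mul]
    refine Finset.sum_le_card_nsmul _ _ _ fun i hi => ?_
    refine (norm_pow_le' _ (Nat.succ_pos k)).trans ?_
    refine pow_le_pow_left₀ (norm_nonneg _) ?_ _
    rw [CStarRing.norm_star_mul_self, sq]
    exact mul_le_mul (h i hi) (h i hi) (norm_nonneg _) hM
  have h3 := NS_le (sq_nonneg M) hle
  rw [CStarRing.norm_star_mul_self, ← sq] at h3
  exact (sq_le_sq₀ (norm_nonneg _) hM).1 h3

theorem norm_conj_sum_le {B : Type} [CStarAlgebra B] {ι : Type} (s : Finset ι) (t x : ι → B) (M : ℝ)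
    (hM : 0 ≤ M) (h1 : ∀ i ∈ s, ∀ j ∈ s, i ≠ j → star (t i) * t j = 0)
    (h2 : ∀ i ∈ s, ‖star (t i) * t i‖ ≤ 1) (h : ∀ i ∈ s, ‖x i‖ ≤ M) :
    ‖∑ i ∈ s, t i * x i * star (t i)‖ ≤ M := by
  refine norm_orth_sum_le s (fun i => t i * x i * star (t i)) M hM ?_ ?_ ?_
  · intro i hi j hj hij
    have e : star (t i * x i * star (t i)) * (t j * x j * star (t j)) =
        t i * star (x i) * (star (t i) * t j) * x j * star (t j) := by
      simp only [star_mul, star_star, mul_assoc]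
    rw [e, h1 i hi j hj hij]
    simp
  · intro i hi j hj hij
    have e : (t i * x i * star (t i)) * star (t j * x j * star (t j)) =
        t i * x i * (star (t i) * t j) * star (x j) * star (t j) := by
      simp only [star_mul, star_star, mul_assoc]
    rw [e, h1 i hi j hj hij]
    simp
  · intro i hi
    have h3 : ‖t i‖ ≤ 1 := by
      have h4 := h2 i hi
      rw [CStarRing.norm_star_mul_self] at h4
      nlinarith [norm_nonneg (t i)]
    calc ‖t i * x i * star (t i)‖ ≤ ‖t i * x i‖ * ‖star (t i)‖ := norm_mul_le _ _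
      _ ≤ (‖t i‖ * ‖x i‖) * ‖star (t i)‖ := by
        gcongr
        exact norm_mul_le _ _
      _ ≤ (1 * M) * 1 := by
        rw [norm_star]
        have := h i hi
        gcongr
      _ = M := by ring

end Pool.Agent.AUE
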