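import Pool.Agent.AUE.Asm4

/-!
# Nice: nice graphs have the property `Sol`

`SC G`: for all edges `e f` there is a path from the range of `e` to the source of `f`.

PROOF of `sol_nice`. Let `V₀ = {v | ∃ e, G.s e = v}` (finite). `SC` (with `f = e`…): the range of an edge
`e` lies in `V₀`: `Reach (r e) (s e)`; if it is a path of length `0`, `r e = s e ∈ V₀`, otherwise its
first edge has source `r e`. So `G = G₀.map Subtype.val` with `G₀ : Gr V₀` (same edges; equality by
definition: `G` is a structure, `rfl` or `cases G`). `Full G₀`: loops by `LoopRich`; for `u, v ∈ V₀`,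
`u = s e`: there are a loop `x` at `u` (`r x = u`) and an edge `f` with `s f = v`, so `Reach u v` in `G`,
hence in `G₀` (every vertex on the path is a source). `sol_full` with the injection `Subtype.val`.
(`V₀` is finite since `G.Ed` is: `Set.finite_range G.s`, `Fintype` classically.)
-/

namespace Pool.Agent.AUE

/-- The graph is strongly connected (on the vertices of its edges). -/
def SC {V : Type} (G : Gr V) : Prop := ∀ e f : G.Ed, G.Reach (G.r e) (G.s f)

/-- the range of an edge is the source of an edge -/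
theorem Nice_range {V : Type} (G : Gr V) (h1 : SC G) (e : G.Ed) : G.r e ∈ Set.range G.s := by
  rcases Relation.ReflTransGen.cases_head (h1 e e) with h | ⟨c, ⟨e', he', -⟩, -⟩
  · exact ⟨e, h.symm⟩
  · exact ⟨e', he'⟩

/-- the graph on the sources -/
noncomputable def Nice_G {V : Type} (G : Gr V) (h1 : SC G) : Gr (Set.range G.s) where
  Ed := G.Ed
  s := fun e => ⟨G.s e, e, rfl⟩
  r := fun e => ⟨G.r e, Nice_range G h1 e⟩

theorem Nice_reach {V : Type} (G : Gr V) (h1 : SC G) {a b : V} (h : G.Reach a b) :
    ∀ (ha : a ∈ Set.range G.s) (hb : b ∈ Set.range G.s), (Nice_G G h1).Reach ⟨a, ha⟩ ⟨b, hb⟩ := by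
  intro ha hb
  induction h using Relation.ReflTransGen.head_induction_on with
  | refl => exact Relation.ReflTransGen.refl
  | head h' _ ih =>
    obtain ⟨e, he, he'⟩ := h'
    subst he he'
    exact Relation.ReflTransGen.head ⟨e, rfl, rfl⟩ (ih (Nice_range G h1 e))

theorem sol_nice {V : Type} (G : Gr V) (h1 : SC G) (h2 : LoopRich G) : Sol G := by
  classical
  have : Fintype (Set.range G.s) := (Set.finite_range G.s).fintype
  have hF : Full (Nice_G G h1) := by
    refine ⟨?_, ?_⟩
    · rintro ⟨_, e, rfl⟩
      obtain ⟨x, y, hxy, hx1, hx2, hy1, hy2⟩ := h2 e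
      exact ⟨x, y, hxy, Subtype.ext hx1, Subtype.ext hx2, Subtype.ext hy1, Subtype.ext hy2⟩
    · rintro ⟨_, e, rfl⟩ ⟨_, f, rfl⟩
      obtain ⟨x, y, hxy, hx1, hx2, hy1, hy2⟩ := h2 e
      have h3 := h1 x f
      rw [hx2] at h3
      exact Nice_reach G h1 h3 _ _
  exact sol_full hF Subtype.val_injective

end Pool.Agent.AUE
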