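import Pool.Agent.AUE.Bas

/-!
# Split: graphs without edges, splitting along a hereditary set of vertices

PROOF of `sol_empty`: `th x = 0 + (1 - 0) = 1`; take `W = c` (`star c * c * 1 - 1 = 0`).

PROOF of `sol_split`. Let `p = ∑_{v ∈ Y} P v` (projection commuting with everything commuting with the
`P v`). For `u ∈ UD P` put `u_Y = u p + (1 - p)` and `u_N = u (1 - p) + p`; both are in `UD P`, and
`Ch P u → Ch P u_Y, Ch P u_N` (apply to the chain). Let `F_Y`, `F_N` be the restrictions of `F` to the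
edges with source in `Y` resp. with source and range outside `Y`, `θ_Y`, `θ_N` their `th`.
Step 1: `h1` for `F_Y`, `c_Y`, `ε/2` gives `U`. Let `U' = U_Y`. For `s e ∈ Y`: `r e ∈ Y`, so
`S_e U' = S_e U`, so `θ_Y(U') = θ_Y(U)`, `θ_Y(U) (1-p) = 1 - p` (`S_e* (1-p) = 0`), and
`th U' p = θ_Y(U) p` (for `s e ∉ Y`: `S_e* p = 0`). Let `c' = star U' * c * th U'` (`Ch`). All elements
commute with `p`, and `c' p - p = p (star U * c_Y * θ_Y(U) - 1) p`, norm `≤ ε/2`.
Step 2: `h2` for `F_N`, `c'_N`, `ε/2` gives `Z`, `Z' = Z_N`. `S_e Z' = S_e` if `r e ∈ Y`. So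
`th Z' p = p`, `th Z' (1-p) = θ_N(Z) (1-p)` (edges with `s e ∉ Y`, `r e ∈ Y` contribute `S_e S_e*`).
Hence `star Z' * c' * th Z' - 1 = (c' p - p) + (1-p) (star Z * c'_N * θ_N(Z) - 1) (1-p)` has norm
`≤ ε/2 + ε/2`. `W = U' * Z'`: `star W * c * th W = star Z' * c' * th Z'` (`th_mul`).
-/

namespace Pool.Agent.AUE

open scoped Classical in
/-- The graph with the edges satisfying `Q`. -/
noncomputable def Gr.restrict {V : Type} (G : Gr V) (Q : G.Ed → Prop) : Gr V where
  Ed := {e : G.Ed // Q e}
  s := fun e => G.s e.1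
  r := fun e => G.r e.1

theorem Split_th {V : Type} {B : Type} [CStarAlgebra B] {P : V → B} {G : Gr V} (F : Fam G P)
    (x : B) : F.th x = 1 + ∑ e, F.S e * (x - 1) * star (F.S e) := by
  have h : ∑ e, F.S e * (x - 1) * star (F.S e) = F.lam x - F.lam 1 := by
    unfold Fam.lam
    rw [← Finset.sum_sub_distrib]
    refine Finset.sum_congr rfl fun e _ => ?_
    noncomm_ring
  rw [h]
  unfold Fam.th
  abel

/-- The restricted family. -/
noncomputable def Split_F {V : Type} {B : Type} [CStarAlgebra B] {P : V → B} {G : Gr V}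
    (F : Fam G P) (Q : G.Ed → Prop) : Fam (G.restrict Q) P where
  S := fun e => F.S e.1
  star_mul := fun e => F.star_mul e.1
  orth := fun e f h => F.orth e.1 f.1 (fun h' => h (Subtype.ext h'))
  P_mul := fun e => F.P_mul e.1

open scoped Classical in
theorem Split_thF {V : Type} {B : Type} [CStarAlgebra B] {P : V → B} {G : Gr V} (F : Fam G P)
    (Q : G.Ed → Prop) (x : B) :
    (Split_F F Q).th x = 1 + ∑ e, if Q e then F.S e * (x - 1) * star (F.S e) else 0 := by
  rw [Split_th, ← Finset.sum_filter]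
  congr 1
  exact (Finset.sum_subtype (Finset.univ.filter Q) (by simp)
    (fun e => F.S e * (x - 1) * star (F.S e))).symm

theorem Split_mem {V : Type} {B : Type} [CStarAlgebra B] {P : V → B} {z q : B} (hz : z ∈ UD P)
    (hq : star q = q) (hqq : q * q = q) (hPq : ∀ v, P v * q = q * P v) (hzq : z * q = q * z) :
    z * q + (1 - q) ∈ UD P := by
  obtain ⟨h1, h2, h3⟩ := hz
  have h4 : q * star z = star z * q := by
    have := congrArg star hzq
    simpa [star_mul, hq] using this
  have hs : star (z * q + (1 - q)) = star z * q + (1 - q) := by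
    rw [star_add, star_mul, star_sub, star_one, hq, h4]
  refine ⟨?_, ?_, fun v => ?_⟩
  · rw [hs]
    calc (star z * q + (1 - q)) * (z * q + (1 - q))
        = star z * (q * z) * q + star z * (q - q * q) + (q * q - q) * 0 + ((1 - q) * (z * q) +
            (1 - q - q + q * q)) := by noncomm_ring
      _ = 1 := by
          rw [← hzq, hqq, show (1 - q) * (z * q) = 0 by
            rw [sub_mul, one_mul, hzq, ← mul_assoc, hqq, sub_self]]
          calc star z * (z * q) * q + star z * (q - q) + (q - q) * 0 + (0 + (1 - q - q + q))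
              = (star z * z) * (q * q) + (1 - q) := by noncomm_ring
            _ = 1 := by rw [h1, hqq, one_mul]; abel
  · rw [hs]
    calc (z * q + (1 - q)) * (star z * q + (1 - q))
        = z * (q * star z) * q + z * (q - q * q) + ((1 - q) * (star z * q) +
            (1 - q - q + q * q)) := by noncomm_ring
      _ = 1 := by
          rw [h4, hqq, show (1 - q) * (star z * q) = 0 by
            rw [sub_mul, one_mul, ← h4, ← mul_assoc, hqq, sub_self]]
          calc z * (star z * q) * q + z * (q - q) + (0 + (1 - q - q + q))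
              = (z * star z) * (q * q) + (1 - q) := by noncomm_ring
            _ = 1 := by rw [h2, hqq, one_mul]; abel
  · rw [mul_add, add_mul, mul_sub, sub_mul, mul_one, one_mul, ← mul_assoc, h3, mul_assoc, hPq,
      mul_assoc]

theorem Split_norm_le {B : Type} [CStarAlgebra B] {q : B} (hq : star q = q) (hqq : q * q = q) :
    ‖q‖ ≤ 1 := by
  have h : IsPrj (fun _ : Unit => q) :=
    ⟨fun _ => hq, fun _ => hqq, fun v w hvw => absurd (Subsingleton.elim v w) hvw⟩
  exact h.norm_le ()

/-- Cutting with a projection commuting with everything commuting with the `P v`. -/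
theorem Split_Ch {V : Type} {B : Type} [CStarAlgebra B] {P : V → B} {q y : B} (hq : star q = q)
    (hqq : q * q = q) (hPq : ∀ v, P v * q = q * P v)
    (hc : ∀ y, (∀ v, P v * y = y * P v) → y * q = q * y) (hy : Ch P y) :
    Ch P (y * q + (1 - q)) := by
  intro δ hδ
  obtain ⟨n, ζ, h0, hn, hU, hs⟩ := hy δ hδ
  refine ⟨n, fun j => ζ j * q + (1 - q), ?_, ?_, fun j => ?_, fun j hj => ?_⟩
  · change ζ 0 * q + (1 - q) = 1
    rw [h0, one_mul]
    abel
  · change ζ n * q + (1 - q) = _
    rw [hn]
  · exact Split_mem (hU j) hq hqq hPq (hc _ (hU j).2.2)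
  · change ‖ζ (j + 1) * q + (1 - q) - (ζ j * q + (1 - q))‖ ≤ δ
    have e : ζ (j + 1) * q + (1 - q) - (ζ j * q + (1 - q)) = (ζ (j + 1) - ζ j) * q := by
      rw [sub_mul]; abel
    rw [e]
    refine (norm_mul_le _ _).trans ?_
    calc ‖ζ (j + 1) - ζ j‖ * ‖q‖ ≤ δ * 1 :=
          mul_le_mul (hs j hj) (Split_norm_le hq hqq) (norm_nonneg _) hδ.le
      _ = δ := mul_one δ

theorem sol_empty {V : Type} (G : Gr V) (h : IsEmpty G.Ed) : Sol G := by
  intro B _ P hP F c hc ε hε
  refine ⟨c, hc, ?_⟩
  rw [Split_th, Finset.sum_of_isEmpty, add_zero, mul_one, hc.mem.1, sub_self, norm_zero]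
  exact hε.le

theorem sol_split {V : Type} [Fintype V] (G : Gr V) (Y : Set V)
    (hY : ∀ e, G.s e ∈ Y → G.r e ∈ Y) (h1 : Sol (G.restrict (fun e => G.s e ∈ Y)))
    (h2 : Sol (G.restrict (fun e => G.s e ∉ Y ∧ G.r e ∉ Y))) : Sol G := by
  classical
  intro B _ P hP F c hc ε hε
  obtain ⟨p, hp⟩ : ∃ p, p = ∑ v ∈ Finset.univ.filter (· ∈ Y), P v := ⟨_, rfl⟩
  have hPp : ∀ v, P v * p = if v ∈ Y then P v else 0 := by
    intro v
    rw [hp, Finset.mul_sum]
    by_cases hv : v ∈ Y
    · rw [if_pos hv, Finset.sum_eq_single_of_mem v (by simp [hv])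
        (fun w _ hw => hP.orth v w (Ne.symm hw)), hP.mul_self]
    · rw [if_neg hv]
      refine Finset.sum_eq_zero fun w hw => hP.orth v w ?_
      rintro rfl
      exact hv (Finset.mem_filter.1 hw).2
  have hpP : ∀ v, p * P v = if v ∈ Y then P v else 0 := by
    intro v
    rw [hp, Finset.sum_mul]
    by_cases hv : v ∈ Y
    · rw [if_pos hv, Finset.sum_eq_single_of_mem v (by simp [hv])
        (fun w _ hw => hP.orth w v hw), hP.mul_self]
    · rw [if_neg hv]
      refine Finset.sum_eq_zero fun w hw => hP.orth w v ?_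
      rintro rfl
      exact hv (Finset.mem_filter.1 hw).2
  have hcomm : ∀ y, (∀ v, P v * y = y * P v) → y * p = p * y := by
    intro y hy
    rw [hp, Finset.mul_sum, Finset.sum_mul]
    exact Finset.sum_congr rfl fun v _ => (hy v).symm
  have hps : star p = p := by
    rw [hp, star_sum]
    exact Finset.sum_congr rfl fun v _ => hP.star_eq v
  have hpp : p * p = p := by
    conv_lhs => rw [hp, Finset.sum_mul]
    rw [hp, Finset.sum_congr rfl]
    intro v hv
    rw [← hp, hPp, if_pos (Finset.mem_filter.1 hv).2]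
  have hPq : ∀ v, P v * p = p * P v := fun v => by rw [hPp, hpP]
  have hr : ∀ e, G.r e ∈ Y → F.S e * p = F.S e := by
    intro e he
    rw [← F.S_P hP e, mul_assoc, hPp, if_pos he]
  have hr' : ∀ e, G.r e ∉ Y → F.S e * p = 0 := by
    intro e he
    rw [← F.S_P hP e, mul_assoc, hPp, if_neg he, mul_zero]
  have hs : ∀ e, G.s e ∈ Y → star (F.S e) * p = star (F.S e) := by
    intro e he
    have h3 : p * F.S e = F.S e := by
      rw [← F.P_mul e, ← mul_assoc, hpP, if_pos he]
    have := congrArg star h3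
    rwa [star_mul, hps] at this
  have hs' : ∀ e, G.s e ∉ Y → star (F.S e) * p = 0 := by
    intro e he
    have h3 : p * F.S e = 0 := by
      rw [← F.P_mul e, ← mul_assoc, hpP, if_neg he, zero_mul]
    have := congrArg star h3
    rwa [star_mul, hps, star_zero] at this
  -- the complementary projection
  have hqs : star (1 - p) = 1 - p := by rw [star_sub, star_one, hps]
  have hqq : (1 - p) * (1 - p) = 1 - p := by
    rw [sub_mul, one_mul, mul_sub, mul_one, hpp, sub_self, sub_zero]
  have hcommq : ∀ y, (∀ v, P v * y = y * P v) → y * (1 - p) = (1 - p) * y := by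
    intro y hy
    rw [mul_sub, sub_mul, mul_one, one_mul, hcomm y hy]
  have hPq' : ∀ v, P v * (1 - p) = (1 - p) * P v := by
    intro v
    rw [mul_sub, sub_mul, mul_one, one_mul, hPq]
  -- step 1
  obtain ⟨U, hU, hUε⟩ := h1 B P hP (Split_F F _) (c * p + (1 - p))
    (Split_Ch hps hpp hPq hcomm hc) (ε / 2) (by positivity)
  obtain ⟨U', hU'⟩ : ∃ U', U' = U * p + (1 - p) := ⟨_, rfl⟩
  have hU'c : Ch P U' := by rw [hU']; exact Split_Ch hps hpp hPq hcomm hU
  have hUp : U * p = p * U := hcomm U hU.mem.2.2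
  have hU1 : F.th U' * p = (Split_F F (fun e => G.s e ∈ Y)).th U * p := by
    rw [Split_th, Split_thF, add_mul, add_mul, Finset.sum_mul, Finset.sum_mul]
    congr 1
    refine Finset.sum_congr rfl fun e _ => ?_
    by_cases he : G.s e ∈ Y
    · rw [if_pos he]
      have h3 : F.S e * (U' - 1) = F.S e * (U - 1) := by
        have h4 : U' - 1 = p * (U - 1) := by
          rw [hU', hUp, mul_sub, mul_one]; abel
        rw [h4, ← mul_assoc, hr e (hY e he)]
      rw [h3]
    · rw [if_neg he, mul_assoc, hs' e he, mul_zero, zero_mul]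
  obtain ⟨c', hc'⟩ : ∃ c', c' = star U' * c * F.th U' := ⟨_, rfl⟩
  have hc'c : Ch P c' := by
    rw [hc']
    exact ((hU'c.star hP).mul hc).mul (Ch.th F hP hU'c)
  have hcp : c * p = p * c := hcomm c hc.mem.2.2
  have hstar1 : star U' * p = star U * p := by
    have h3 : p * U' = p * U := by
      rw [hU', mul_add, hUp, ← mul_assoc, hpp, mul_sub, mul_one, hpp, sub_self, add_zero]
    have := congrArg star h3
    rwa [star_mul, star_mul, hps] at this
  have hstep1 : c' * p - p =
      (star U * (c * p + (1 - p)) * (Split_F F (fun e => G.s e ∈ Y)).th U - 1) * p := by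
    have hθ : (Split_F F (fun e => G.s e ∈ Y)).th U * p =
        p * (Split_F F (fun e => G.s e ∈ Y)).th U :=
      hcomm _ ((Split_F F (fun e => G.s e ∈ Y)).P_th hP U)
    rw [sub_mul, one_mul]
    congr 1
    calc c' * p = star U' * c * (F.th U' * p) := by rw [hc', mul_assoc]
      _ = star U' * c * (p * (Split_F F (fun e => G.s e ∈ Y)).th U) := by rw [hU1, hθ]
      _ = star U' * (c * p) * (Split_F F (fun e => G.s e ∈ Y)).th U := by
          simp only [mul_assoc]
      _ = (star U' * p) * c * (Split_F F (fun e => G.s e ∈ Y)).th U := by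
          rw [hcp]; simp only [mul_assoc]
      _ = (star U * p) * c * (Split_F F (fun e => G.s e ∈ Y)).th U := by rw [hstar1]
      _ = star U * (p * c) * (Split_F F (fun e => G.s e ∈ Y)).th U := by
          simp only [mul_assoc]
      _ = star U * ((c * p + (1 - p)) * p) * (Split_F F (fun e => G.s e ∈ Y)).th U := by
          rw [add_mul, sub_mul, one_mul, hpp, sub_self, add_zero, mul_assoc c, hpp, hcp]
      _ = star U * (c * p + (1 - p)) * (p * (Split_F F (fun e => G.s e ∈ Y)).th U) := by
          simp only [mul_assoc]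
      _ = star U * (c * p + (1 - p)) * (Split_F F (fun e => G.s e ∈ Y)).th U * p := by
          rw [← hθ]; simp only [mul_assoc]
  have hn1 : ‖c' * p - p‖ ≤ ε / 2 := by
    rw [hstep1]
    refine (norm_mul_le _ _).trans ?_
    calc _ ≤ ε / 2 * 1 :=
          mul_le_mul hUε (Split_norm_le hps hpp) (norm_nonneg _) (by positivity)
      _ = ε / 2 := mul_one _
  -- step 2
  have hcut : Ch P (c' * (1 - p) + (1 - (1 - p))) := Split_Ch hqs hqq hPq' hcommq hc'c
  obtain ⟨Z, hZ, hZε⟩ := h2 B P hP (Split_F F _) (c' * (1 - p) + (1 - (1 - p))) hcut (ε / 2)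
    (by positivity)
  obtain ⟨Z', hZ'⟩ : ∃ Z', Z' = Z * (1 - p) + (1 - (1 - p)) := ⟨_, rfl⟩
  have hZ'c : Ch P Z' := by rw [hZ']; exact Split_Ch hqs hqq hPq' hcommq hZ
  have hZp : Z * (1 - p) = (1 - p) * Z := hcommq Z hZ.mem.2.2
  have hZ1 : Z' - 1 = (1 - p) * (Z - 1) := by
    rw [hZ', hZp, mul_sub, mul_one]; abel
  have hth1 : F.th Z' * p = p := by
    rw [Split_th, add_mul, one_mul, Finset.sum_mul]
    rw [Finset.sum_eq_zero, add_zero]
    intro e _
    by_cases he : G.s e ∈ Y
    · have h3 : F.S e * (Z' - 1) = 0 := by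
        rw [hZ1, ← mul_assoc, mul_sub (F.S e), mul_one, hr e (hY e he), sub_self, zero_mul]
      rw [h3, zero_mul, zero_mul]
    · rw [mul_assoc, hs' e he, mul_zero]
  have hth2 : F.th Z' * (1 - p) =
      (Split_F F (fun e => G.s e ∉ Y ∧ G.r e ∉ Y)).th Z * (1 - p) := by
    rw [Split_th, Split_thF, add_mul, add_mul, Finset.sum_mul, Finset.sum_mul]
    congr 1
    refine Finset.sum_congr rfl fun e _ => ?_
    by_cases he : G.s e ∈ Y
    · have h3 : star (F.S e) * (1 - p) = 0 := by
        rw [mul_sub, mul_one, hs e he, sub_self]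
      rw [if_neg (fun h => h.1 he), zero_mul, mul_assoc, h3, mul_zero]
    · by_cases he' : G.r e ∈ Y
      · have h3 : F.S e * (Z' - 1) = 0 := by
          rw [hZ1, ← mul_assoc, mul_sub (F.S e), mul_one, hr e he', sub_self, zero_mul]
        rw [if_neg (fun h => h.2 he'), h3, zero_mul]
      · have h3 : F.S e * (Z' - 1) = F.S e * (Z - 1) := by
          rw [hZ1, ← mul_assoc, mul_sub (F.S e), mul_one, hr' e he', sub_zero]
        rw [if_pos ⟨he, he'⟩, h3]
  have hstar2 : star Z' * p = p := by
    have h3 : p * Z' = p := by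
      have h4 : p * (1 - p) = 0 := by rw [mul_sub, mul_one, hpp, sub_self]
      rw [hZ', hZp, mul_add, ← mul_assoc, h4, zero_mul, zero_add, sub_sub_cancel, hpp]
    have := congrArg star h3
    rwa [star_mul, hps] at this
  have hstar3 : star Z' * (1 - p) = star Z * (1 - p) := by
    have h3 : (1 - p) * Z' = (1 - p) * Z := by
      have h4 : (1 - p) * p = 0 := by rw [sub_mul, one_mul, hpp, sub_self]
      rw [hZ', hZp, mul_add, ← mul_assoc, hqq, sub_sub_cancel, h4, add_zero]
    have := congrArg star h3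
    rwa [star_mul, star_mul, hqs] at this
  have hc'p : c' * p = p * c' := hcomm c' hc'c.mem.2.2
  have hc'q : c' * (1 - p) = (1 - p) * c' := hcommq c' hc'c.mem.2.2
  have hA : star Z' * c' * F.th Z' * p = c' * p := by
    calc star Z' * c' * F.th Z' * p = star Z' * c' * (F.th Z' * p) := by rw [mul_assoc]
      _ = star Z' * (c' * p) := by rw [hth1, mul_assoc]
      _ = (star Z' * p) * c' := by rw [hc'p, mul_assoc]
      _ = c' * p := by rw [hstar2, hc'p]
  have hB : star Z' * c' * F.th Z' * (1 - p) =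
      star Z * (c' * (1 - p) + (1 - (1 - p))) *
        (Split_F F (fun e => G.s e ∉ Y ∧ G.r e ∉ Y)).th Z * (1 - p) := by
    set T := (Split_F F (fun e => G.s e ∉ Y ∧ G.r e ∉ Y)).th Z with hT
    have hθ : T * (1 - p) = (1 - p) * T :=
      hcommq _ ((Split_F F (fun e => G.s e ∉ Y ∧ G.r e ∉ Y)).P_th hP Z)
    calc star Z' * c' * F.th Z' * (1 - p) = star Z' * c' * (F.th Z' * (1 - p)) := by
          rw [mul_assoc]
      _ = star Z' * c' * ((1 - p) * T) := by rw [hth2, hθ]
      _ = star Z' * (c' * (1 - p)) * T := by simp only [mul_assoc]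
      _ = (star Z' * (1 - p)) * c' * T := by rw [hc'q]; simp only [mul_assoc]
      _ = star Z * ((1 - p) * c') * T := by rw [hstar3]; simp only [mul_assoc]
      _ = star Z * ((c' * (1 - p) + (1 - (1 - p))) * (1 - p)) * T := by
          have h4 : p * (1 - p) = 0 := by rw [mul_sub, mul_one, hpp, sub_self]
          rw [add_mul, mul_assoc c', hqq, sub_sub_cancel, h4, add_zero, hc'q]
      _ = star Z * (c' * (1 - p) + (1 - (1 - p))) * ((1 - p) * T) := by
          simp only [mul_assoc]
      _ = star Z * (c' * (1 - p) + (1 - (1 - p))) * T * (1 - p) := by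
          rw [← hθ]; simp only [mul_assoc]
  refine ⟨U' * Z', hU'c.mul hZ'c, ?_⟩
  have hth : F.th (U' * Z') = F.th U' * F.th Z' :=
    (F.th_mul hP hU'c.mem.2.2 hZ'c.mem.2.2).symm
  have hW : star (U' * Z') * c * F.th (U' * Z') = star Z' * c' * F.th Z' := by
    rw [hth, star_mul, hc']
    simp only [mul_assoc]
  have hsum : star Z' * c' * F.th Z' - 1 = (c' * p - p) +
      (star Z * (c' * (1 - p) + (1 - (1 - p))) *
        (Split_F F (fun e => G.s e ∉ Y ∧ G.r e ∉ Y)).th Z - 1) * (1 - p) := by
    rw [sub_mul, one_mul, ← hB, ← hA]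
    noncomm_ring
  rw [hW, hsum]
  refine (norm_add_le _ _).trans ?_
  have hn2 : ‖(star Z * (c' * (1 - p) + (1 - (1 - p))) *
        (Split_F F (fun e => G.s e ∉ Y ∧ G.r e ∉ Y)).th Z - 1) * (1 - p)‖ ≤ ε / 2 := by
    refine (norm_mul_le _ _).trans ?_
    calc _ ≤ ε / 2 * 1 :=
          mul_le_mul hZε (Split_norm_le hqs hqq) (norm_nonneg _) (by positivity)
      _ = ε / 2 := mul_one _
  linarith

end Pool.Agent.AUE
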