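import Pool.Agent.AUE.Ph2
import Pool.Agent.AUE.Split

/-!
# Ph1: strongly connected graphs which are not a single cycle

PROOF of `sol_ph1`, by induction on the number of sources `card {s e}`. If every source has a loop:
`sol_ph2`. Otherwise let `w` be a source without a loop; `Φ = {f | r f = w}`; for `f, f' ∈ Φ`:
`r f = w ≠ s f'` (no loop at `w`). `G' = G.expand Φ`; by `sol_expand` it suffices: `Sol G'`. In `G'` no
edge has range `w` (`e ∉ Φ`: `r e ≠ w`; `(f, g)`: `s g = r f = w`, so `r g ≠ w`, no loop at `w`).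
`sol_split` with `Y = {v | v ≠ w}`: the second graph has no edges (`sol_empty`), so it suffices:
`Sol G''`, `G'' = G'.restrict (s e ≠ w)` (`V` finite for `sol_split`).
`SC G''`: claim: if `Reach_G a b`, `a ≠ w`, then either `b ≠ w` and `Reach_G'' a b`, or `b = w` and there is
`f` with `r f = w`, `s f ≠ w`, `Reach_G'' a (s f)`. Induction on the path (last step `b → b'` by the
edge `g`): `b ≠ w`, `b' ≠ w`: `g ∉ Φ` is an edge of `G''`; `b ≠ w`, `b' = w`: `f = g`; `b = w`: `b' ≠ w` (no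
loop), `(f, g)` is an edge of `G''` from `s f` to `b'`. Ranges of edges of `G''` are ranges of edges of
`G`, different from `w`; sources are sources of edges of `G`, different from `w`.
Two edges with the same source: let `f ≠ f'`, `s f = s f' = v`. If `v ≠ w`: `f` gives an edge `f` of `G''`
(if `r f ≠ w`) or `(f, g)` with some `g`, `s g = w` (`w` is a source), similarly `f'`; they are different
and have source `v`. If `v = w`: there is an edge `h` with `r h = w`: (`SC`: `Reach (r f) (s f)`, `r f ≠ w =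
s f`, so the last edge `h` of the path has range `w`), `s h ≠ w`, and `(h, f) ≠ (h, f')` have
source `s h`. The sources of `G''` are sources of `G` different from `w`: fewer.
-/

namespace Pool.Agent.AUE

private noncomputable def ph1G {V : Type} (G : Gr V) (w : V) : Gr V :=
  (G.expand {f | G.r f = w}).restrict (fun e => (G.expand {f | G.r f = w}).s e ∈ {v : V | v ≠ w})

section
variable {V : Type} {G : Gr V} {w : V}

/-- first edge of an edge of the new graph -/
private noncomputable def ph1fst (e : (ph1G G w).Ed) : G.Ed :=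
  Sum.elim (fun a => a.1) (fun p => p.1.1) e.1

private theorem ph1_s (e : (ph1G G w).Ed) : (ph1G G w).s e = G.s (ph1fst e) := by
  obtain ⟨e, he⟩ := e
  rcases e with e | e
  · rfl
  · rfl

private theorem ph1_s_ne (e : (ph1G G w).Ed) : (ph1G G w).s e ≠ w := e.2

private theorem ph1_r (hw : ∀ x : G.Ed, G.s x = w → G.r x ≠ w) (e : (ph1G G w).Ed) :
    (ph1G G w).r e ≠ w ∧ ∃ f : G.Ed, (ph1G G w).r e = G.r f := by
  obtain ⟨e, he⟩ := e
  rcases e with e | e
  · exact ⟨e.2, e.1, rfl⟩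
  · exact ⟨hw e.1.2 (e.2.2.trans e.2.1), e.1.2, rfl⟩

private theorem ph1_inl (f : G.Ed) (h1 : G.s f ≠ w) (h2 : G.r f ≠ w) :
    ∃ e : (ph1G G w).Ed, (ph1G G w).s e = G.s f ∧ (ph1G G w).r e = G.r f ∧ ph1fst e = f :=
  ⟨⟨Sum.inl ⟨f, h2⟩, h1⟩, rfl, rfl, rfl⟩

private theorem ph1_inr (f g : G.Ed) (h1 : G.s f ≠ w) (h2 : G.r f = w) (h3 : G.s g = w) :
    ∃ e : (ph1G G w).Ed, (ph1G G w).s e = G.s f ∧ (ph1G G w).r e = G.r g ∧ ph1fst e = f :=
  ⟨⟨Sum.inr ⟨(f, g), h2, h3.trans h2.symm⟩, h1⟩, rfl, rfl, rfl⟩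

private theorem ph1_two (f g g' : G.Ed) (h1 : G.s f ≠ w) (h2 : G.r f = w) (h3 : G.s g = w) (h3' : G.s g' = w)
    (hne : g ≠ g') : ∃ e e' : (ph1G G w).Ed, e ≠ e' ∧ (ph1G G w).s e = (ph1G G w).s e' := by
  refine ⟨⟨Sum.inr ⟨(f, g), h2, h3.trans h2.symm⟩, h1⟩, ⟨Sum.inr ⟨(f, g'), h2, h3'.trans h2.symm⟩, h1⟩, ?_, rfl⟩
  intro h
  have h5 := congrArg Subtype.val h
  have h6 := Sum.inr.inj h5
  have h7 := congrArg Subtype.val h6
  exact hne (congrArg Prod.snd h7)

private theorem ph1_reach (hw : ∀ x : G.Ed, G.s x = w → G.r x ≠ w) {a b : V} (ha : a ≠ w) (h : G.Reach a b) :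
    (b ≠ w ∧ (ph1G G w).Reach a b) ∨
      (b = w ∧ ∃ f : G.Ed, G.r f = w ∧ G.s f ≠ w ∧ (ph1G G w).Reach a (G.s f)) := by
  induction h with
  | refl => exact Or.inl ⟨ha, Relation.ReflTransGen.refl⟩
  | @tail b b' _ hst ih =>
    obtain ⟨g, hg1, hg2⟩ := hst
    rcases ih with ⟨hb, hr⟩ | ⟨hb, f, hf1, hf2, hr⟩
    · by_cases hb' : b' = w
      · exact Or.inr ⟨hb', g, hg2.trans hb', by rw [hg1]; exact hb, by rw [hg1]; exact hr⟩
      · obtain ⟨e, he1, he2, -⟩ := ph1_inl (w := w) g (by rw [hg1]; exact hb) (by rw [hg2]; exact hb')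
        exact Or.inl ⟨hb', hr.tail ⟨e, he1.trans hg1, he2.trans hg2⟩⟩
    · have hg3 : G.s g = w := hg1.trans hb
      have hb' : b' ≠ w := by rw [← hg2]; exact hw g hg3
      obtain ⟨e, he1, he2, -⟩ := ph1_inr (w := w) f g hf2 hf1 hg3
      exact Or.inl ⟨hb', hr.tail ⟨e, he1, he2.trans hg2⟩⟩

end

private theorem ph1_main {V : Type} [Fintype V] (n : ℕ) : ∀ (G : Gr V), SC G →
    (∃ f f' : G.Ed, f ≠ f' ∧ G.s f = G.s f') → (Set.range G.s).ncard = n → Sol G := by
  induction n using Nat.strong_induction_on with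
  | _ n ih =>
    intro G h1 hf hn
    by_cases hl : ∀ e : G.Ed, ∃ x, G.s x = G.s e ∧ G.r x = G.s e
    · exact sol_ph2 G h1 hl hf
    push Not at hl
    obtain ⟨e0, he0⟩ := hl
    obtain ⟨w, hw0⟩ : ∃ w, w = G.s e0 := ⟨_, rfl⟩
    rw [← hw0] at he0
    have hw : ∀ x : G.Ed, G.s x = w → G.r x ≠ w := he0
    refine sol_expand G {f | G.r f = w} ?_ ?_
    · intro f hf f' hf' h
      exact hw f' (h.symm.trans hf) hf'
    refine sol_split _ {v : V | v ≠ w} ?_ ?_ ?_
    · intro e he
      rcases e with e | e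
      · exact e.2
      · exact hw e.1.2 (e.2.2.trans e.2.1)
    · show Sol (ph1G G w)
      refine ih _ ?_ (ph1G G w) ?_ ?_ rfl
      · rw [← hn]
        refine Set.ncard_lt_ncard ?_ (Set.toFinite _)
        refine ⟨?_, ?_⟩
        · rintro _ ⟨e, rfl⟩
          exact ⟨ph1fst e, (ph1_s e).symm⟩
        · intro hsub
          obtain ⟨e, he⟩ := hsub ⟨e0, rfl⟩
          exact ph1_s_ne e (he.trans hw0.symm)
      · intro e f
        obtain ⟨hr, e', he'⟩ := ph1_r hw e
        have hs := ph1_s_ne f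
        rw [ph1_s] at hs ⊢
        rw [he'] at hr ⊢
        rcases ph1_reach hw hr (h1 e' (ph1fst f)) with h | h
        · exact h.2
        · exact absurd h.1 hs
      · obtain ⟨f, f', hne, hs⟩ := hf
        by_cases hv : G.s f = w
        · have hv' : G.s f' = w := hs.symm.trans hv
          have hr : G.Reach (G.r f) (G.s f) := h1 f f
          rcases Relation.ReflTransGen.cases_tail hr with h | ⟨c, -, h, hh1, hh2⟩
          · exact absurd (h.symm.trans hv) (hw f hv)
          · have h2 : G.r h = w := hh2.trans hv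
            have h3 : G.s h ≠ w := fun h3 => hw h h3 h2
            exact ph1_two h f f' h3 h2 hv hv' hne
        · have key : ∀ f : G.Ed, G.s f ≠ w → ∃ e : (ph1G G w).Ed, (ph1G G w).s e = G.s f ∧ ph1fst e = f := by
            intro f hf
            by_cases hr : G.r f = w
            · obtain ⟨e, a1, -, a2⟩ := ph1_inr f e0 hf hr hw0.symm
              exact ⟨e, a1, a2⟩
            · obtain ⟨e, a1, -, a2⟩ := ph1_inl f hf hr
              exact ⟨e, a1, a2⟩
          obtain ⟨e, a1, a2⟩ := key f hv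
          obtain ⟨e', b1, b2⟩ := key f' (by rw [← hs]; exact hv)
          refine ⟨e, e', fun h => hne ?_, ?_⟩
          · rw [← a2, ← b2, h]
          · rw [a1, b1, hs]
    · refine sol_empty _ ⟨fun e => ?_⟩
      obtain ⟨e, -, h2⟩ := e
      rcases e with e | e
      · exact h2 e.2
      · exact h2 (hw e.1.2 (e.2.2.trans e.2.1))

theorem sol_ph1 {V : Type} [Fintype V] (G : Gr V) (h1 : SC G)
    (hf : ∃ f f' : G.Ed, f ≠ f' ∧ G.s f = G.s f') : Sol G :=
  ph1_main _ G h1 hf rfl

end Pool.Agent.AUE
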