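import Pool.Agent.AUE.Nice
import Pool.Agent.AUE.Expand

/-!
# Ph2: strongly connected graphs with loops

PROOF of `sol_ph2`. For a graph `G` let `O(G)` be the (finite) set of vertices `v = s e` at which there is
exactly one loop (loop: edge `x` with `s x = r x = v`). `hl` says there is at least one. If `O(G) = ∅`:
`LoopRich G`, `sol_nice`. Claim by induction on `n` (outer) and `d` (inner): if `G` satisfies `SC`, `hl`
(and `hf`), `card O(G) = n`, `v ∈ O(G)` with loop `x`, `f` an edge with `s f = v`, `r f = u ≠ v`, and there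
is a path `g 1, …, g d` (`d ≥ 1`) from `u` to `v` none of whose edges `g i` has source `v`, then `Sol G`.
Proof of the claim: `Φ = {f}` (`r f = u ≠ v = s f`), `G' = G.expand Φ`, by `sol_expand` it suffices to
show `Sol G'`. In `G'` every step of `G` is a step: `f` is replaced by `(f, y)` with `y` a loop at `u`
(`u` is a source by `SC`, so `hl` gives a loop); so `Reach_G ⊆ Reach_G'`, and sources and ranges of
edges of `G'` are sources resp. ranges of edges of `G`; hence `SC G'`; loops of `G` are not `f`, so they
are loops of `G'`: `hl` for `G'`. The new edges `(f, g)` have source `v`; so for vertices `≠ v` the loops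
are the same. `g 1` has source `u`; `(f, g 1)` is an edge from `v` to `r (g 1)`.
If `r (g 1) = v` (in particular if `d = 1`): `v` has two loops in `G'`, so `O(G') ⊆ O(G) \\ {v}` has fewer
elements and (outer induction) `Sol G'`. If `r (g 1) ≠ v` and there is another new loop `(f, g)` at `v`,
the same. Otherwise `O(G') = O(G)`, `f' = (f, g 1)`, the path `g 2, …, g d` (edges with source `≠ v`, so
different from `f`) and inner induction.
Start: choose `v ∈ O(G)` with loop `x`. There is an edge `f` with `s f = v`, `r f ≠ v`: otherwise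
everything reachable from `v` is `v`, by `SC` (`e = x`) all edges have source `v`, then also range
`v`, so `x` is the only edge, contradicting `hf`. `SC` gives a path from `u = r f` to `v = s f`; take
one of minimal length: no edge of it has source `v`, `d ≥ 1`. For the claim in the outer induction the
statement to be proved is `Sol G` for all `G` with `SC`, `hl`, `hf` and `card O(G) = n`
(`hf` for `G'`: if it has two loops at `v`; or in general `(f, y)` and `x` have source `v`).
-/

namespace Pool.Agent.AUE

private def ph2O {V : Type} (G : Gr V) : Set V :=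
  {w | ∃ x, G.s x = w ∧ G.r x = w ∧ ∀ y, G.s y = w → G.r y = w → y = x}

private theorem ph2O_fin {V : Type} (G : Gr V) : (ph2O G).Finite := by
  apply (Set.finite_range G.s).subset
  rintro w ⟨x, hx, -⟩
  exact ⟨x, hx⟩

private def ph2inl {V : Type} (G : Gr V) (f g : G.Ed) (h : g ∉ ({f} : Set G.Ed)) :
    (G.expand {f}).Ed := Sum.inl ⟨g, h⟩

private def ph2inr {V : Type} (G : Gr V) (f g : G.Ed) (h : G.s g = G.r f) :
    (G.expand {f}).Ed := Sum.inr ⟨(f, g), rfl, h⟩

private theorem ph2_ne {V : Type} (G : Gr V) (f g g' : G.Ed) (h : g ∉ ({f} : Set G.Ed))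
    (h' : G.s g' = G.r f) : ph2inr G f g' h' ≠ ph2inl G f g h := fun e => Sum.inr_ne_inl e

private theorem ph2_walk_lift {V : Type} (G : Gr V) (f : G.Ed) {v : V} (hfv : G.s f = v) (w : V) :
    ∀ (l : List G.Ed) (u : V), G.Walk u l w → (∀ g ∈ l, G.s g ≠ v) →
      ∃ l' : List (G.expand {f}).Ed, l'.length = l.length ∧ (G.expand {f}).Walk u l' w ∧
        ∀ g ∈ l', (G.expand {f}).s g ≠ v
  | [], u, h, _ => ⟨[], rfl, h, fun g hg => by simp at hg⟩
  | g :: l, u, h, hl => by
      obtain ⟨l', h1, h2, h3⟩ := ph2_walk_lift G f hfv w l (G.r g) h.2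
        (fun g' hg' => hl g' (List.mem_cons_of_mem _ hg'))
      have hg : G.s g ≠ v := hl g List.mem_cons_self
      have hgf : g ∉ ({f} : Set G.Ed) := fun h' => hg (by
        rw [Set.mem_singleton_iff] at h'; rw [h']; exact hfv)
      refine ⟨ph2inl G f g hgf :: l', ?_, ⟨h.1, h2⟩, ?_⟩
      · rw [List.length_cons, List.length_cons, h1]
      · intro g' hg'
        rcases List.mem_cons.1 hg' with h' | h'
        · rw [h']; exact hg
        · exact h3 g' h'

private theorem ph2_path {V : Type} (G : Gr V) {u v : V} (h : G.Reach u v) :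
    ∃ l : List G.Ed, G.Walk u l v ∧ ∀ g ∈ l, G.s g ≠ v := by
  induction h using Relation.ReflTransGen.head_induction_on with
  | refl => exact ⟨[], rfl, fun g hg => by simp at hg⟩
  | @head a c hac _ ih =>
      obtain ⟨l, h1, h2⟩ := ih
      by_cases hav : a = v
      · exact ⟨[], hav, fun g hg => by simp at hg⟩
      · obtain ⟨e, he, he'⟩ := hac
        refine ⟨e :: l, ⟨he, ?_⟩, ?_⟩
        · rw [he']; exact h1
        · intro g hg
          rcases List.mem_cons.1 hg with h' | h'
          · rw [h', he]; exact hav
          · exact h2 g h'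

/-- loops at all sources -/
private def ph2hl {V : Type} (G : Gr V) : Prop :=
  ∀ e : G.Ed, ∃ x, G.s x = G.s e ∧ G.r x = G.s e

private theorem ph2_src {V : Type} (G : Gr V) {u v : V} (h : G.Reach u v) (huv : u ≠ v) :
    ∃ e : G.Ed, G.s e = u := by
  rcases Relation.ReflTransGen.cases_head h with h' | ⟨c, ⟨e, he, _⟩, _⟩
  · exact absurd h' huv
  · exact ⟨e, he⟩

private theorem ph2_reach {V : Type} (G : Gr V) (h1 : SC G) (hl : ph2hl G) (f : G.Ed)
    (hf : G.r f ≠ G.s f) {a b : V} (h : G.Reach a b) : (G.expand {f}).Reach a b := by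
  obtain ⟨e₀, he₀⟩ := ph2_src G (h1 f f) hf
  obtain ⟨y, hy, hy'⟩ := hl e₀
  rw [he₀] at hy hy'
  induction h with
  | refl => exact Relation.ReflTransGen.refl
  | tail _ hbc ih =>
      refine Relation.ReflTransGen.tail ih ?_
      obtain ⟨e, he, he'⟩ := hbc
      by_cases hef : e = f
      · subst hef
        refine ⟨ph2inr G e y hy, he, ?_⟩
        change G.r y = _
        rw [hy', he']
      · exact ⟨ph2inl G f e hef, he, he'⟩

private theorem ph2_src_exp {V : Type} (G : Gr V) (f : G.Ed) (e : (G.expand {f}).Ed) :
    ∃ e' : G.Ed, (G.expand {f}).s e = G.s e' := by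
  rcases e with e | p
  · exact ⟨e.1, rfl⟩
  · exact ⟨p.1.1, rfl⟩

private theorem ph2_ran_exp {V : Type} (G : Gr V) (f : G.Ed) (e : (G.expand {f}).Ed) :
    ∃ e' : G.Ed, (G.expand {f}).r e = G.r e' := by
  rcases e with e | p
  · exact ⟨e.1, rfl⟩
  · exact ⟨p.1.2, rfl⟩

private theorem ph2_SC {V : Type} (G : Gr V) (h1 : SC G) (hl : ph2hl G) (f : G.Ed)
    (hf : G.r f ≠ G.s f) : SC (G.expand {f}) := by
  intro e e'
  obtain ⟨a, ha⟩ := ph2_ran_exp G f e
  obtain ⟨b, hb⟩ := ph2_src_exp G f e'
  rw [ha, hb]
  exact ph2_reach G h1 hl f hf (h1 a b)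

private theorem ph2_hl {V : Type} (G : Gr V) (hl : ph2hl G) (f : G.Ed)
    (hf : G.r f ≠ G.s f) : ph2hl (G.expand {f}) := by
  intro e
  obtain ⟨a, ha⟩ := ph2_src_exp G f e
  obtain ⟨x, hx, hx'⟩ := hl a
  have hxf : x ∉ ({f} : Set G.Ed) := fun h => hf (by
    rw [Set.mem_singleton_iff] at h; rw [← h, hx, hx'])
  refine ⟨ph2inl G f x hxf, ?_, ?_⟩
  · rw [ha]; exact hx
  · rw [ha]; exact hx'

private theorem ph2_O_sub {V : Type} (G : Gr V) (f : G.Ed) (hf : G.r f ≠ G.s f)
    (hv : G.s f ∈ ph2O G) : ph2O (G.expand {f}) ⊆ ph2O G := by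
  rintro w ⟨x, hx, hx', hxu⟩
  by_cases hwv : w = G.s f
  · rw [hwv]; exact hv
  · rcases x with x | p
    · refine ⟨x.1, hx, hx', ?_⟩
      intro y hy hy'
      have hyf : y ∉ ({f} : Set G.Ed) := fun h => by
        rw [Set.mem_singleton_iff] at h
        apply hf
        rw [← h, hy, hy']
      have h := hxu (ph2inl G f y hyf) hy hy'
      have h2 := Sum.inl.inj h
      exact congrArg Subtype.val h2
    · exfalso
      apply hwv
      rw [← hx]
      change G.s p.1.1 = G.s f
      have := p.2.1
      rw [Set.mem_singleton_iff] at this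
      rw [this]

theorem sol_ph2 {V : Type} (G : Gr V) (h1 : SC G) (hl : ∀ e : G.Ed, ∃ x, G.s x = G.s e ∧ G.r x = G.s e)
    (hf : ∃ f f' : G.Ed, f ≠ f' ∧ G.s f = G.s f') : Sol G := by
  classical
  have main : ∀ n : ℕ, ∀ G : Gr V, SC G → ph2hl G → (∃ f f' : G.Ed, f ≠ f' ∧ G.s f = G.s f') →
      (ph2O G).ncard = n → Sol G := by
    intro n
    induction n using Nat.strong_induction_on with
    | _ n ih =>
      have claim : ∀ d : ℕ, ∀ G : Gr V, SC G → ph2hl G → (ph2O G).ncard = n → ∀ f : G.Ed,
          G.s f ∈ ph2O G → G.r f ≠ G.s f → ∀ l : List G.Ed, l.length = d →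
          G.Walk (G.r f) l (G.s f) → (∀ g ∈ l, G.s g ≠ G.s f) → Sol G := by
        intro d
        induction d with
        | zero =>
          intro G _ _ _ f _ hf l hld hw _
          have : l = [] := List.length_eq_zero_iff.1 hld
          subst this
          exact absurd hw hf
        | succ d ihd =>
          intro G h1 hl hO f hvO hf l hld hw hls
          apply sol_expand G {f}
          · intro f₁ hf₁ f₂ hf₂
            rw [Set.mem_singleton_iff] at hf₁ hf₂
            rw [hf₁, hf₂]; exact hf
          obtain ⟨x, hx, hx', hxu⟩ := id hvO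
          have hxf : x ∉ ({f} : Set G.Ed) := fun h => hf (by
            rw [Set.mem_singleton_iff] at h; rw [← h, hx', ← hx, h])
          have hsub := ph2_O_sub G f hf hvO
          have hle : (ph2O (G.expand {f})).ncard ≤ n := by
            rw [← hO]; exact Set.ncard_le_ncard hsub (ph2O_fin G)
          cases l with
          | nil => simp at hld
          | cons g₁ l' =>
            have hsg : G.s g₁ = G.r f := hw.1
            have hsc' := ph2_SC G h1 hl f hf
            have hl' := ph2_hl G hl f hf
            by_cases hv : G.s f ∈ ph2O (G.expand {f}) ∧ (ph2O (G.expand {f})).ncard = n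
            · -- inner induction
              set f' : (G.expand {f}).Ed := ph2inr G f g₁ hsg with hf'
              have hsf' : (G.expand {f}).s f' = G.s f := rfl
              have hrf' : (G.expand {f}).r f' = G.r g₁ := rfl
              have hne : G.r g₁ ≠ G.s f := by
                intro h
                obtain ⟨z, hz, hz', hzu⟩ := hv.1
                have e1 := hzu f' hsf' (by rw [hrf', h])
                have e2 := hzu (ph2inl G f x hxf) hx hx'
                exact ph2_ne G f x g₁ hxf hsg (e1.trans e2.symm)
              obtain ⟨l'', g1, g2, g3⟩ := ph2_walk_lift G f rfl (G.s f) l' (G.r g₁) hw.2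
                (fun g hg => hls g (List.mem_cons_of_mem _ hg))
              exact ihd (G.expand {f}) hsc' hl' hv.2 f' hv.1 hne l''
                (by rw [g1]; simpa using hld) g2 g3
            · have hlt : (ph2O (G.expand {f})).ncard < n := by
                by_cases hv1 : G.s f ∈ ph2O (G.expand {f})
                · exact lt_of_le_of_ne hle (fun h => hv ⟨hv1, h⟩)
                · rw [← hO]
                  exact Set.ncard_lt_ncard ⟨hsub, fun h => hv1 (h hvO)⟩ (ph2O_fin G)
              refine ih _ hlt (G.expand {f}) hsc' hl' ?_ rfl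
              exact ⟨ph2inr G f g₁ hsg, ph2inl G f x hxf, ph2_ne G f x g₁ hxf hsg, hx.symm⟩
      intro G h1 hl hf hO
      by_cases hne : (ph2O G).Nonempty
      · obtain ⟨v, hv⟩ := hne
        obtain ⟨x, hx, hx', hxu⟩ := id hv
        have hex : ∃ f : G.Ed, G.s f = v ∧ G.r f ≠ v := by
          by_contra hcon
          push Not at hcon
          have hre : ∀ w, G.Reach v w → w = v := by
            intro w hw
            induction hw with
            | refl => rfl
            | tail _ hbc ih2 =>
                obtain ⟨e, he, he'⟩ := hbc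
                rw [← he']
                exact hcon e (by rw [he, ih2])
          obtain ⟨f₀, f₁, hne, -⟩ := hf
          have hall : ∀ e : G.Ed, e = x := by
            intro e
            have h2 := h1 x e
            rw [hx'] at h2
            have h3 := hre _ h2
            exact hxu e h3 (hcon e h3)
          exact hne ((hall f₀).trans (hall f₁).symm)
        obtain ⟨f, hfs, hfr⟩ := hex
        subst hfs
        obtain ⟨l, hw, hls⟩ := ph2_path G (h1 f f)
        exact claim l.length G h1 hl hO f hv hfr l rfl hw hls
      · apply sol_nice G h1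
        intro e
        obtain ⟨x, hx, hx'⟩ := hl e
        by_contra hcon
        apply hne
        refine ⟨G.s e, x, hx, hx', ?_⟩
        intro y hy hy'
        by_contra hyx
        exact hcon ⟨x, y, fun h => hyx h.symm, hx, hx', hy, hy'⟩
  exact main _ G h1 hl hf rfl

end Pool.Agent.AUE
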