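import Pool.Agent.AUE.TRel

/-!
# PrC: projections given by sets of paths

`F.pr n Q = ∑ T l v * star (T l v)` over all paths `l` of length `n` with `Q l`.

PROOFS. `pr_mul_pr`: `star_T_mul_T` (for the same length: `l = l'`, `v = v'`, and then `u = u'` by
`walk_left_unique`). `lam_pr`: `lam (T l v * star (T l v)) = ∑_{e, r e = source} T (e :: l) v * star`
as in `lam_core`; the paths of length `n + 1` are `e :: l`, `(e :: l).drop 1 = l`.
`pr_take_succ`: `T l v * star (T l v) = ∑_{s e = v} T (l ++ [e]) (r e) * star …` (Cuntz-Krieger case),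
`(l ++ [e]).take n = l`; every path of length `n+1` is uniquely `l ++ [e]`.
`pr_true`: from `lam_iter_one` for `n ≥ 1`, and `∑ P v = 1` for `n = 0`.
`pr_exists`: disjoint union of finsets. `pr_not`: `pr Q + pr (¬ Q) = pr True = 1`.
-/

namespace Pool.Agent.AUE

open scoped Classical in
/-- The projection of a set of paths of length `n`. -/
noncomputable def Fam.pr {V : Type} [Fintype V] {B : Type} [CStarAlgebra B] {P : V → B} {G : Gr V}
    (F : Fam G P) (n : ℕ) (Q : List G.Ed → Prop) : B :=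
  ∑ u, ∑ v, ∑ l ∈ (G.paths n u v).filter Q, F.T l v * star (F.T l v)

variable {V : Type} [Fintype V] {B : Type} [CStarAlgebra B] {P : V → B} {G : Gr V} (F : Fam G P)

section aux

omit [Fintype V] in
open scoped Classical in
theorem PrC_sum_succ {M : Type} [AddCommMonoid M] (n : ℕ) (u v : V) (g : List G.Ed → M) :
    ∑ l ∈ G.paths (n + 1) u v, g l =
      ∑ e ∈ Finset.univ.filter (fun e => G.s e = u), ∑ l ∈ G.paths n (G.r e) v, g (e :: l) := by
  rw [Gr.paths, Finset.sum_biUnion]
  · refine Finset.sum_congr rfl fun e _ => ?_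
    rw [Finset.sum_image]
    intro a _ b _ hab
    exact (List.cons.inj hab).2
  · intro e _ e' _ hne
    rw [Function.onFun, Finset.disjoint_left]
    intro l hl hl'
    obtain ⟨a, -, rfl⟩ := Finset.mem_image.mp hl
    obtain ⟨b, -, hb⟩ := Finset.mem_image.mp hl'
    exact hne (List.cons.inj hb).1.symm

open scoped Classical in
theorem PrC_sum_zero {M : Type} [AddCommMonoid M] (u : V) (g : V → List G.Ed → M) :
    ∑ v, ∑ l ∈ G.paths 0 u v, g v l = g u [] := by
  rw [Finset.sum_eq_single u]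
  · rw [Gr.paths, if_pos rfl, Finset.sum_singleton]
  · intro v _ hv
    rw [Gr.paths, if_neg (Ne.symm hv), Finset.sum_empty]
  · intro h
    exact absurd (Finset.mem_univ u) h

open scoped Classical in
theorem PrC_sum_right {M : Type} [AddCommMonoid M] (n : ℕ) (u : V) (g : V → List G.Ed → M) :
    ∑ v, ∑ l ∈ G.paths (n + 1) u v, g v l =
      ∑ w, ∑ l ∈ G.paths n u w, ∑ e ∈ Finset.univ.filter (fun e => G.s e = w), g (G.r e) (l ++ [e]) := by
  induction n generalizing u g with
  | zero =>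
    rw [PrC_sum_zero u (fun w l => ∑ e ∈ Finset.univ.filter (fun e => G.s e = w), g (G.r e) (l ++ [e]))]
    simp only [PrC_sum_succ, List.nil_append]
    rw [Finset.sum_comm]
    refine Finset.sum_congr rfl fun e _ => ?_
    exact PrC_sum_zero (G.r e) (fun v l => g v (e :: l))
  | succ n ih =>
    have h1 : ∑ v, ∑ l ∈ G.paths (n + 1 + 1) u v, g v l =
        ∑ e ∈ Finset.univ.filter (fun e => G.s e = u), ∑ v, ∑ l ∈ G.paths (n + 1) (G.r e) v, g v (e :: l) := by
      simp only [PrC_sum_succ (n + 1)]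
      rw [Finset.sum_comm]
    have h2 : (∑ w, ∑ l ∈ G.paths (n + 1) u w,
          ∑ e ∈ Finset.univ.filter (fun e => G.s e = w), g (G.r e) (l ++ [e])) =
        ∑ e ∈ Finset.univ.filter (fun e => G.s e = u), ∑ w, ∑ l ∈ G.paths n (G.r e) w,
          ∑ e' ∈ Finset.univ.filter (fun e => G.s e = w), g (G.r e') (e :: l ++ [e']) := by
      simp only [PrC_sum_succ n]
      rw [Finset.sum_comm]
    rw [h1, h2]
    refine Finset.sum_congr rfl fun e _ => ?_
    exact ih (G.r e) (fun v l => g v (e :: l))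

/-- The projection of a path. -/
noncomputable def Fam.PrC_t (F : Fam G P) (v : V) (l : List G.Ed) : B := F.T l v * star (F.T l v)

open scoped Classical in
theorem Fam.PrC_eq (F : Fam G P) (n : ℕ) (Q : List G.Ed → Prop) :
    F.pr n Q = ∑ u, ∑ v, ∑ l ∈ G.paths n u v, if Q l then F.PrC_t v l else 0 := by
  unfold Fam.pr
  refine Finset.sum_congr rfl fun u _ => Finset.sum_congr rfl fun v _ => ?_
  rw [Finset.sum_filter]
  rfl

open scoped Classical in
theorem Fam.PrC_t_mul (F : Fam G P) (hP : IsPrj P) {u v u' v' : V} {l l' : List G.Ed}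
    (h : G.Walk u l v) (h' : G.Walk u' l' v') (hl : l.length = l'.length) :
    F.PrC_t v l * F.PrC_t v' l' = if l = l' ∧ v = v' then F.PrC_t v l else 0 := by
  unfold Fam.PrC_t
  have h1 : F.T l v * star (F.T l v) * (F.T l' v' * star (F.T l' v')) =
      F.T l v * (star (F.T l v) * F.T l' v') * star (F.T l' v') := by noncomm_ring
  rw [h1, F.star_T_mul_T hP h h' hl]
  by_cases hc : l = l' ∧ v = v'
  · obtain ⟨rfl, rfl⟩ := hc
    rw [if_pos ⟨rfl, rfl⟩, if_pos ⟨rfl, rfl⟩, F.T_P hP]
  · rw [if_neg hc, if_neg hc, mul_zero, zero_mul]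

open scoped Classical in
theorem Fam.PrC_t_mul_pr (F : Fam G P) (hP : IsPrj P) {n : ℕ} {u v : V} {l : List G.Ed}
    (h : G.Walk u l v) (hl : l.length = n) (Q : List G.Ed → Prop) :
    F.PrC_t v l * F.pr n Q = if Q l then F.PrC_t v l else 0 := by
  rw [F.PrC_eq, Finset.mul_sum, Finset.sum_eq_single u]
  · rw [Finset.mul_sum, Finset.sum_eq_single v]
    · rw [Finset.mul_sum, Finset.sum_eq_single l]
      · have e : F.PrC_t v l * F.PrC_t v l = F.PrC_t v l := by
          rw [F.PrC_t_mul hP h h rfl, if_pos ⟨rfl, rfl⟩]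
        rw [mul_ite, mul_zero, e]
      · intro l' hl' hne
        obtain ⟨h1, h2⟩ := (G.mem_paths).mp hl'
        have e : F.PrC_t v l * F.PrC_t v l' = 0 := by
          rw [F.PrC_t_mul hP h h2 (hl.trans h1.symm), if_neg fun hc => hne hc.1.symm]
        rw [mul_ite, mul_zero, e, ite_self]
      · intro hn
        exact absurd ((G.mem_paths).mpr ⟨hl, h⟩) hn
    · intro v' _ hne
      rw [Finset.mul_sum]
      refine Finset.sum_eq_zero fun l' hl' => ?_
      obtain ⟨h1, h2⟩ := (G.mem_paths).mp hl'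
      have e : F.PrC_t v l * F.PrC_t v' l' = 0 := by
        rw [F.PrC_t_mul hP h h2 (hl.trans h1.symm), if_neg fun hc => hne hc.2.symm]
      rw [mul_ite, mul_zero, e, ite_self]
    · intro hn
      exact absurd (Finset.mem_univ _) hn
  · intro u' _ hne
    rw [Finset.mul_sum]
    refine Finset.sum_eq_zero fun v' _ => ?_
    rw [Finset.mul_sum]
    refine Finset.sum_eq_zero fun l' hl' => ?_
    obtain ⟨h1, h2⟩ := (G.mem_paths).mp hl'
    have e : F.PrC_t v l * F.PrC_t v' l' = 0 := by
      rw [F.PrC_t_mul hP h h2 (hl.trans h1.symm), if_neg]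
      rintro ⟨rfl, rfl⟩
      exact hne (G.walk_left_unique h2 h)
    rw [mul_ite, mul_zero, e, ite_self]
  · intro hn
    exact absurd (Finset.mem_univ _) hn

theorem Fam.PrC_lam_sum (F : Fam G P) {ι : Type} (s : Finset ι) (g : ι → B) :
    F.lam (∑ i ∈ s, g i) = ∑ i ∈ s, F.lam (g i) :=
  map_sum (AddMonoidHom.mk' F.lam F.lam_add) g s

open scoped Classical in
theorem Fam.PrC_lam_t (F : Fam G P) (hP : IsPrj P) {u v : V} {l : List G.Ed} (h : G.Walk u l v) :
    F.lam (F.PrC_t v l) = ∑ e ∈ Finset.univ.filter (fun e => G.r e = u), F.PrC_t v (e :: l) := by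
  unfold Fam.lam Fam.PrC_t
  rw [Finset.sum_filter]
  refine Finset.sum_congr rfl fun e _ => ?_
  have h1 : F.S e * (F.T l v * star (F.T l v)) * star (F.S e) =
      F.T (e :: l) v * star (F.T (e :: l) v) := by
    rw [F.T_cons, StarMul.star_mul]; noncomm_ring
  rw [h1]
  by_cases he : G.r e = u
  · rw [if_pos he]
  · rw [if_neg he, F.T_cons, ← F.P_T hP h, ← F.S_P hP e, mul_assoc (F.S e), ← mul_assoc (P (G.r e)),
      hP.orth _ _ he, zero_mul, mul_zero, zero_mul]

theorem Fam.PrC_lam_one (F : Fam G P) : F.lam 1 = ∑ e, F.S e * star (F.S e) := by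
  unfold Fam.lam
  simp only [mul_one]

theorem Fam.PrC_sum_P (F : Fam G P) (hP : IsPrj P) (hCK : F.lam 1 = 1) : ∑ v, P v = 1 := by
  classical
  have h1 : (∑ v, P v) * F.lam 1 = F.lam 1 := by
    rw [F.PrC_lam_one, Finset.mul_sum]
    refine Finset.sum_congr rfl fun e _ => ?_
    rw [← mul_assoc, Finset.sum_mul, Finset.sum_eq_single (G.s e), F.P_mul e]
    · intro v _ hv
      exact F.P_S_ne hP e hv
    · intro hn
      exact absurd (Finset.mem_univ _) hn
  rw [hCK, mul_one] at h1
  exact h1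

open scoped Classical in
theorem Fam.PrC_P (F : Fam G P) (hP : IsPrj P) (hCK : F.lam 1 = 1) (v : V) :
    P v = ∑ e ∈ Finset.univ.filter (fun e => G.s e = v), F.S e * star (F.S e) := by
  have h1 : P v * F.lam 1 = ∑ e ∈ Finset.univ.filter (fun e => G.s e = v), F.S e * star (F.S e) := by
    rw [F.PrC_lam_one, Finset.mul_sum, Finset.sum_filter]
    refine Finset.sum_congr rfl fun e _ => ?_
    by_cases he : G.s e = v
    · subst he
      rw [if_pos rfl, ← mul_assoc, F.P_mul e]
    · rw [if_neg he, ← mul_assoc, F.P_S_ne hP e (Ne.symm he), zero_mul]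
  rw [← h1, hCK, mul_one]

open scoped Classical in
theorem Fam.PrC_t_right (F : Fam G P) (hP : IsPrj P) (hCK : F.lam 1 = 1) {u w : V} {l : List G.Ed}
    (h : G.Walk u l w) :
    ∑ e ∈ Finset.univ.filter (fun e => G.s e = w), F.PrC_t (G.r e) (l ++ [e]) = F.PrC_t w l := by
  have h1 : ∀ e, G.s e = w → F.PrC_t (G.r e) (l ++ [e]) = F.T l w * (F.S e * star (F.S e)) * star (F.T l w) := by
    rintro e he
    unfold Fam.PrC_t
    have h2 : G.Walk w [e] (G.r e) := ⟨he, rfl⟩
    rw [F.T_append hP h h2, F.T_cons, F.T_nil, F.S_P hP, StarMul.star_mul]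
    noncomm_ring
  rw [Finset.sum_congr rfl fun e he => h1 e (Finset.mem_filter.mp he).2, ← Finset.sum_mul, ← Finset.mul_sum,
    ← F.PrC_P hP hCK, F.T_P hP]
  rfl

end aux

theorem Fam.pr_congr {n : ℕ} {Q Q' : List G.Ed → Prop}
    (h : ∀ u v l, l.length = n → G.Walk u l v → (Q l ↔ Q' l)) : F.pr n Q = F.pr n Q' := by
  classical
  rw [F.PrC_eq, F.PrC_eq]
  refine Finset.sum_congr rfl fun u _ => Finset.sum_congr rfl fun v _ => Finset.sum_congr rfl fun l hl => ?_
  obtain ⟨h1, h2⟩ := (G.mem_paths).mp hl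
  have h3 := h u v l h1 h2
  by_cases hq : Q l
  · rw [if_pos hq, if_pos (h3.mp hq)]
  · rw [if_neg hq, if_neg fun h' => hq (h3.mpr h')]

variable (hP : IsPrj P)

include hP

theorem Fam.star_pr (n : ℕ) (Q : List G.Ed → Prop) : star (F.pr n Q) = F.pr n Q := by
  have _ := hP
  unfold Fam.pr
  simp only [star_sum, StarMul.star_mul, star_star]

theorem Fam.pr_mem (n : ℕ) (Q : List G.Ed → Prop) : F.pr n Q ∈ F.core n := by
  have _ := hP
  classical
  unfold Fam.pr
  refine Submodule.sum_mem _ fun u _ => Submodule.sum_mem _ fun v _ => Submodule.sum_mem _ fun l hl => ?_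
  obtain ⟨h1, h2⟩ := (G.mem_paths).mp (Finset.mem_filter.mp hl).1
  exact Submodule.subset_span ⟨u, v, l, l, h1, h1, h2, h2, rfl⟩

theorem Fam.pr_mul_pr (n : ℕ) (Q Q' : List G.Ed → Prop) :
    F.pr n Q * F.pr n Q' = F.pr n (fun l => Q l ∧ Q' l) := by
  classical
  rw [F.PrC_eq n Q, F.PrC_eq n (fun l => Q l ∧ Q' l), Finset.sum_mul]
  refine Finset.sum_congr rfl fun u _ => ?_
  rw [Finset.sum_mul]
  refine Finset.sum_congr rfl fun v _ => ?_
  rw [Finset.sum_mul]
  refine Finset.sum_congr rfl fun l hl => ?_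
  obtain ⟨h1, h2⟩ := (G.mem_paths).mp hl
  by_cases hq : Q l
  · rw [if_pos hq, F.PrC_t_mul_pr hP h2 h1]
    by_cases hq' : Q' l
    · rw [if_pos hq', if_pos ⟨hq, hq'⟩]
    · rw [if_neg hq', if_neg fun h' => hq' h'.2]
  · rw [if_neg hq, if_neg fun h' => hq h'.1, zero_mul]

theorem Fam.pr_false (n : ℕ) : F.pr n (fun _ => False) = 0 := by
  have _ := hP
  classical
  rw [F.PrC_eq]
  simp

theorem Fam.lam_pr (n : ℕ) (Q : List G.Ed → Prop) :
    F.lam (F.pr n Q) = F.pr (n + 1) (fun l => Q (l.drop 1)) := by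
  classical
  rw [F.PrC_eq, F.PrC_eq]
  -- the left side
  have h1 : F.lam (∑ u, ∑ v, ∑ l ∈ G.paths n u v, if Q l then F.PrC_t v l else 0) =
      ∑ v, ∑ e, ∑ l ∈ G.paths n (G.r e) v, if Q l then F.PrC_t v (e :: l) else 0 := by
    rw [F.PrC_lam_sum]
    simp only [F.PrC_lam_sum]
    rw [Finset.sum_comm]
    refine Finset.sum_congr rfl fun v _ => ?_
    have h2 : ∀ u, ∀ l ∈ G.paths n u v, F.lam (if Q l then F.PrC_t v l else 0) =
        ∑ e ∈ Finset.univ.filter (fun e => G.r e = u), if Q l then F.PrC_t v (e :: l) else 0 := by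
      intro u l hl
      obtain ⟨h3, h4⟩ := (G.mem_paths).mp hl
      by_cases hq : Q l
      · simp only [if_pos hq]
        exact F.PrC_lam_t hP h4
      · simp only [if_neg hq, Finset.sum_const_zero]
        have := F.lam_smul 0 0
        simpa using this
    rw [Finset.sum_congr rfl fun u _ => Finset.sum_congr rfl fun l hl => h2 u l hl]
    have h5 : ∀ u, (∑ l ∈ G.paths n u v, ∑ e ∈ Finset.univ.filter (fun e => G.r e = u),
        if Q l then F.PrC_t v (e :: l) else 0) = ∑ e ∈ Finset.univ.filter (fun e => G.r e = u),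
          ∑ l ∈ G.paths n (G.r e) v, if Q l then F.PrC_t v (e :: l) else 0 := by
      intro u
      rw [Finset.sum_comm]
      refine Finset.sum_congr rfl fun e he => ?_
      rw [(Finset.mem_filter.mp he).2]
    rw [Finset.sum_congr rfl fun u _ => h5 u]
    simp only [Finset.sum_filter]
    rw [Finset.sum_comm]
    refine Finset.sum_congr rfl fun e _ => ?_
    rw [Finset.sum_ite_eq Finset.univ (G.r e), if_pos (Finset.mem_univ _)]
  have h6 : (∑ u, ∑ v, ∑ l ∈ G.paths (n + 1) u v, if Q (l.drop 1) then F.PrC_t v l else 0) =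
      ∑ v, ∑ e, ∑ l ∈ G.paths n (G.r e) v, if Q l then F.PrC_t v (e :: l) else 0 := by
    rw [Finset.sum_comm]
    refine Finset.sum_congr rfl fun v _ => ?_
    simp only [PrC_sum_succ, List.drop_succ_cons, List.drop_zero, Finset.sum_filter]
    rw [Finset.sum_comm]
    refine Finset.sum_congr rfl fun e _ => ?_
    rw [Finset.sum_ite_eq Finset.univ (G.s e), if_pos (Finset.mem_univ _)]
  rw [h1, h6]

theorem Fam.lam_iter_pr (n i : ℕ) (Q : List G.Ed → Prop) :
    F.lam^[i] (F.pr n Q) = F.pr (n + i) (fun l => Q (l.drop i)) := by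
  induction i with
  | zero => rfl
  | succ i ih =>
    rw [Function.iterate_succ_apply', ih, F.lam_pr hP]
    refine F.pr_congr fun u v l _ _ => ?_
    show Q ((l.drop 1).drop i) ↔ Q (l.drop (i + 1))
    rw [List.drop_drop, Nat.add_comm 1 i]

theorem Fam.pr_exists {n : ℕ} {ι : Type} (s : Finset ι) {Q : ι → List G.Ed → Prop}
    (h : ∀ u v l, l.length = n → G.Walk u l v → ∀ i ∈ s, ∀ j ∈ s, Q i l → Q j l → i = j) :
    F.pr n (fun l => ∃ i ∈ s, Q i l) = ∑ i ∈ s, F.pr n (Q i) := by
  have _ := hP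
  classical
  simp only [F.PrC_eq]
  rw [Finset.sum_comm' (t' := Finset.univ) (s' := fun _ => s) (by simp)]
  refine Finset.sum_congr rfl fun u _ => ?_
  rw [Finset.sum_comm' (t' := Finset.univ) (s' := fun _ => s) (by simp)]
  refine Finset.sum_congr rfl fun v _ => ?_
  rw [Finset.sum_comm]
  refine Finset.sum_congr rfl fun l hl => ?_
  obtain ⟨h1, h2⟩ := (G.mem_paths).mp hl
  by_cases hq : ∃ i ∈ s, Q i l
  · rw [if_pos hq]
    obtain ⟨i, hi, hqi⟩ := hq
    rw [Finset.sum_eq_single i, if_pos hqi]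
    · intro j hj hji
      rw [if_neg fun hqj => hji (h u v l h1 h2 j hj i hi hqj hqi)]
    · intro hn
      exact absurd hi hn
  · rw [if_neg hq]
    symm
    refine Finset.sum_eq_zero fun i hi => ?_
    rw [if_neg fun hqi => hq ⟨i, hi, hqi⟩]

variable (hCK : F.lam 1 = 1)

include hCK

theorem Fam.pr_take (n i : ℕ) (Q : List G.Ed → Prop) :
    F.pr n Q = F.pr (n + i) (fun l => Q (l.take n)) := by
  classical
  have step : ∀ m (R : List G.Ed → Prop), F.pr m R = F.pr (m + 1) (fun l => R (l.take m)) := by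
    intro m R
    rw [F.PrC_eq, F.PrC_eq]
    refine Finset.sum_congr rfl fun u _ => ?_
    rw [PrC_sum_right m u (fun v l => if R (l.take m) then F.PrC_t v l else 0)]
    refine Finset.sum_congr rfl fun w _ => Finset.sum_congr rfl fun l hl => ?_
    obtain ⟨h1, h2⟩ := (G.mem_paths).mp hl
    have h3 : ∀ e : G.Ed, (l ++ [e]).take m = l := fun e => by
      rw [← h1, List.take_left']
      rfl
    simp only [h3]
    by_cases hr : R l
    · simp only [if_pos hr]
      exact (F.PrC_t_right hP hCK h2).symm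
    · simp only [if_neg hr, Finset.sum_const_zero]
  induction i with
  | zero =>
    refine F.pr_congr fun u v l hl _ => ?_
    rw [← hl, List.take_length]
  | succ i ih =>
    rw [ih, step (n + i)]
    refine F.pr_congr fun u v l hl _ => ?_
    rw [List.take_take, min_eq_left (Nat.le_add_right n i)]

theorem Fam.pr_true (n : ℕ) : F.pr n (fun _ => True) = 1 := by
  classical
  have h0 : F.pr 0 (fun _ => True) = 1 := by
    rw [F.PrC_eq]
    simp only [if_true]
    rw [← F.PrC_sum_P hP hCK]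
    refine Finset.sum_congr rfl fun u _ => ?_
    rw [PrC_sum_zero u (fun v l => F.PrC_t v l)]
    unfold Fam.PrC_t
    rw [F.T_nil, hP.star_eq, hP.mul_self]
  rw [← h0, F.pr_take hP hCK 0 n (fun _ => True), Nat.zero_add]

theorem Fam.pr_not (n : ℕ) (Q : List G.Ed → Prop) :
    F.pr n (fun l => ¬ Q l) = 1 - F.pr n Q := by
  classical
  rw [eq_sub_iff_add_eq, ← F.pr_true hP hCK n]
  simp only [F.PrC_eq, ← Finset.sum_add_distrib]
  refine Finset.sum_congr rfl fun u _ => Finset.sum_congr rfl fun v _ => Finset.sum_congr rfl fun l _ => ?_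
  by_cases hq : Q l <;> simp [hq]

end Pool.Agent.AUE
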