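import Pool.Agent.AUE.Bas

/-!
# Rotp: rotation paths

`R` a projection, `J` with `J* = -J`, `J² = -R`, `RJ = JR = J`. Put
`K s = 1 - R + cos s • R + sin s • J`. Then `K 0 = 1`, `K (π/2) = 1 - R + J`, `K s * K t = K (s+t)`,
`star (K s) = K (-s)`, so `K s` is unitary; it commutes with the `P v`.
`‖K s - 1‖² = ‖star (K s - 1) * (K s - 1)‖ = ‖((cos s - 1)² + sin² s) • R‖ ≤ 2 - 2 cos s ≤ s²`,
hence `‖K s - K t‖ = ‖K t (K (s - t) - 1)‖ ≤ |s - t|`.

PROOF of `chain_rot`: `ζ k = d * K (s_k) * star d * star (K (s_k))`, `s_k = π k / (2 n)`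
(for `k ≤ n`; constant for `k > n`). `ζ 0 = d * star d = 1`, `ζ n = d K star d star K`.
`ζ (k+1) - ζ k = d (K' - K) d* K'* + d K d* (K'* - K*)` has norm `≤ 2 * π / (2 n) = π / n`.
-/

namespace Pool.Agent.AUE

/-- the rotation by the angle `t` -/
noncomputable def Rotp_K {B : Type} [CStarAlgebra B] (R J : B) (t : ℝ) : B :=
  (1 - R) + ((Real.cos t : ℂ) • R + (Real.sin t : ℂ) • J)

theorem Rotp_star {B : Type} [CStarAlgebra B] {R J : B} (hR : star R = R) (hJ : star J = -J) (t : ℝ) :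
    star (Rotp_K R J t) = Rotp_K R J (-t) := by
  unfold Rotp_K
  rw [star_add, star_add, star_sub, star_one, star_smul, star_smul, hR, hJ, Real.cos_neg, Real.sin_neg,
    Complex.star_def, Complex.conj_ofReal, Complex.conj_ofReal, Complex.ofReal_neg, neg_smul,
    smul_neg]

theorem Rotp_zero {B : Type} [CStarAlgebra B] (R J : B) : Rotp_K R J 0 = 1 := by
  unfold Rotp_K
  simp

theorem Rotp_one {B : Type} [CStarAlgebra B] (R J : B) : Rotp_K R J (Real.pi / 2) = 1 - R + J := by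
  unfold Rotp_K
  simp

theorem Rotp_mul {B : Type} [CStarAlgebra B] {R J : B} (hR2 : R * R = R) (hJ2 : J * J = -R)
    (hRJ : R * J = J) (hJR : J * R = J) (s t : ℝ) :
    Rotp_K R J s * Rotp_K R J t = Rotp_K R J (s + t) := by
  unfold Rotp_K
  have e1 : (1 - R) * (1 - R) = 1 - R := by
    rw [mul_sub, sub_mul, sub_mul, hR2]
    simp
  have e2 : (1 - R) * R = 0 := by rw [sub_mul, hR2, one_mul, sub_self]
  have e3 : (1 - R) * J = 0 := by rw [sub_mul, hRJ, one_mul, sub_self]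
  have e4 : R * (1 - R) = 0 := by rw [mul_sub, hR2, mul_one, sub_self]
  have e5 : J * (1 - R) = 0 := by rw [mul_sub, hJR, mul_one, sub_self]
  simp only [mul_add, add_mul, smul_mul_assoc, mul_smul_comm, e1, e2, e3, e4, e5, hR2, hJ2, hRJ, hJR, smul_zero, add_zero,
    zero_add]
  rw [Real.cos_add, Real.sin_add]
  push_cast
  module

theorem Rotp_norm {B : Type} [CStarAlgebra B] {R J : B} (hR : star R = R) (hR2 : R * R = R)
    (hJ : star J = -J) (hJ2 : J * J = -R) (hRJ : R * J = J) (hJR : J * R = J) (a b : ℝ) :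
    ‖(a : ℂ) • R + (b : ℂ) • J‖ ^ 2 ≤ a ^ 2 + b ^ 2 := by
  have h1 : star ((a : ℂ) • R + (b : ℂ) • J) * ((a : ℂ) • R + (b : ℂ) • J) = ((a ^ 2 + b ^ 2 : ℝ) : ℂ) • R := by
    rw [star_add, star_smul, star_smul, hR, hJ, Complex.star_def, Complex.conj_ofReal,
      Complex.conj_ofReal]
    simp only [mul_add, add_mul, smul_mul_assoc, mul_smul_comm, neg_mul, hR2, hJ2, hRJ, hJR, smul_neg, neg_neg]
    push_cast
    module
  have h2 : ‖R‖ ≤ 1 := by
    have h3 : ‖R‖ * ‖R‖ = ‖R‖ := by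
      rw [← CStarRing.norm_star_mul_self, hR, hR2]
    nlinarith [norm_nonneg R]
  rw [sq, ← CStarRing.norm_star_mul_self, h1, norm_smul, Complex.norm_real, Real.norm_eq_abs,
    abs_of_nonneg (by positivity)]
  nlinarith [norm_nonneg R, sq_nonneg a, sq_nonneg b]

theorem Rotp_dist {B : Type} [CStarAlgebra B] {R J : B} (hR : star R = R) (hR2 : R * R = R)
    (hJ : star J = -J) (hJ2 : J * J = -R) (hRJ : R * J = J) (hJR : J * R = J) (s t : ℝ) :
    ‖Rotp_K R J s - Rotp_K R J t‖ ≤ |s - t| := by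
  have e1 : Rotp_K R J s - Rotp_K R J t = ((Real.cos s - Real.cos t : ℝ) : ℂ) • R +
      ((Real.sin s - Real.sin t : ℝ) : ℂ) • J := by
    unfold Rotp_K
    push_cast
    module
  have h1 := Rotp_norm hR hR2 hJ hJ2 hRJ hJR (Real.cos s - Real.cos t) (Real.sin s - Real.sin t)
  rw [← e1] at h1
  have h2 : (Real.cos s - Real.cos t) ^ 2 + (Real.sin s - Real.sin t) ^ 2 = 2 - 2 * Real.cos (s - t) := by
    rw [Real.cos_sub]
    nlinarith [Real.sin_sq_add_cos_sq s, Real.sin_sq_add_cos_sq t]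
  have h3 := Real.one_sub_sq_div_two_le_cos (x := s - t)
  have h4 : ‖Rotp_K R J s - Rotp_K R J t‖ ^ 2 ≤ |s - t| ^ 2 := by
    rw [sq_abs]
    linarith
  exact (sq_le_sq₀ (norm_nonneg _) (abs_nonneg _)).1 h4

theorem Rotp_mem {V B : Type} [CStarAlgebra B] {P : V → B} {R J : B}
    (hR : star R = R) (hR2 : R * R = R) (hJ : star J = -J) (hJ2 : J * J = -R)
    (hRJ : R * J = J) (hJR : J * R = J) (hPJ : ∀ v, P v * J = J * P v)
    (hPR : ∀ v, P v * R = R * P v) (t : ℝ) : Rotp_K R J t ∈ UD P := by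
  refine ⟨?_, ?_, fun v => ?_⟩
  · rw [Rotp_star hR hJ, Rotp_mul hR2 hJ2 hRJ hJR, neg_add_cancel, Rotp_zero]
  · rw [Rotp_star hR hJ, Rotp_mul hR2 hJ2 hRJ hJR, add_neg_cancel, Rotp_zero]
  · unfold Rotp_K
    rw [mul_add, mul_add, add_mul, add_mul, mul_sub, sub_mul, mul_one, one_mul, mul_smul_comm, mul_smul_comm,
      smul_mul_assoc, smul_mul_assoc, hPJ, hPR]

theorem chain_rot {V B : Type} [CStarAlgebra B] {P : V → B} (hP : IsPrj P) {d R J : B}
    (hd : d ∈ UD P) (hR : star R = R) (hR2 : R * R = R) (hJ : star J = -J) (hJ2 : J * J = -R)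
    (hRJ : R * J = J) (hJR : J * R = J) (hPJ : ∀ v, P v * J = J * P v)
    (hPR : ∀ v, P v * R = R * P v) (n : ℕ) (hn : 0 < n) :
    Chain P (Real.pi / n) n (d * (1 - R + J) * star d * star (1 - R + J)) := by
  have hK : ∀ t, Rotp_K R J t ∈ UD P := Rotp_mem hR hR2 hJ hJ2 hRJ hJR hPJ hPR
  have hn' : (0 : ℝ) < n := Nat.cast_pos.2 hn
  have hds := UD_star hP hd
  refine ⟨fun k => d * Rotp_K R J (Real.pi / 2 * ((min k n : ℕ) : ℝ) / n) * star d *
    star (Rotp_K R J (Real.pi / 2 * ((min k n : ℕ) : ℝ) / n)), ?_, ?_, fun k => ?_, fun i hi => ?_⟩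
  · simp only [Nat.zero_min, Nat.cast_zero, mul_zero, zero_div, Rotp_zero, mul_one, star_one]
    exact hd.2.1
  · simp only [min_self]
    rw [mul_div_assoc, div_self hn'.ne', mul_one, Rotp_one]
  · exact UD_mul (UD_mul (UD_mul hd (hK _)) hds) (UD_star hP (hK _))
  · have e1 : min (i + 1) n = i + 1 := by omega
    have e2 : min i n = i := by omega
    simp only [e1, e2]
    set K' := Rotp_K R J (Real.pi / 2 * ((i + 1 : ℕ) : ℝ) / n) with hK'
    set K := Rotp_K R J (Real.pi / 2 * ((i : ℕ) : ℝ) / n) with hK0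
    have h1 : ‖K' - K‖ ≤ Real.pi / n / 2 := by
      refine (Rotp_dist hR hR2 hJ hJ2 hRJ hJR _ _).trans ?_
      have e3 : Real.pi / 2 * ((i + 1 : ℕ) : ℝ) / n - Real.pi / 2 * ((i : ℕ) : ℝ) / n = Real.pi / n / 2 := by
        push_cast
        field_simp
        ring
      rw [e3, abs_of_nonneg (by positivity)]
    have e4 : d * K' * star d * star K' - d * K * star d * star K =
        (d * (K' - K)) * star d * star K' + d * K * star d * (star K' - star K) := by
      noncomm_ring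
    rw [e4]
    refine (norm_add_le _ _).trans ?_
    have hKm : d * K * star d ∈ UD P := UD_mul (UD_mul hd (hK _)) hds
    rw [norm_mul_UD (UD_star hP (hK _)), norm_mul_UD hds, norm_UD_mul hd, norm_UD_mul hKm, ← star_sub,
      norm_star]
    linarith

end Pool.Agent.AUE
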