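import Pool.Agent.AUE.Diag
import Pool.Agent.AUE.Rotp

/-!
# Swin: the swindle

PROOF of `chain_swindle`. Choose a chain `1 = w 0, …, w m = w` in `UD P` with steps `≤ 1/n`, and put
`u i = w (m - i)` (natural subtraction), so `u 0 = w`, `u m = 1` (and `u i = 1` for `i ≥ m`),
`‖u (i+1) - u i‖ ≤ 1/n`.
Let `D₂ = diag t (2 m) (u_{i/2} at even i, u_{i/2}* at odd i)`  (pairs `(t 0, t 1), (t 2, t 3), …`),
`t' i = t (i + 1)` and `D₁ = diag t' (2 m) (u_{i/2} at even, u_{i/2}* at odd i)` (pairs
`(t 1, t 2), (t 3, t 4), …`). In terms of `t` (with `M = 2 m + 1` entries):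
`D₂ = diag t M (u_0, u_0*, u_1, u_1*, …, u_{m-1}, u_{m-1}*, 1)`,
`D₁ = diag t M (1, u_0, u_0*, u_1, u_1*, …, u_{m-1}, u_{m-1}*)`.
Product: `D₂ D₁ = diag t M (u_0, 1, u_1 u_0*, 1, u_2 u_1*, 1, …, 1, 1 u_{m-1}*)`: entry `0` is
`u_0 = w`, odd entries are `u_i* u_i = 1`, entry `2 i` (`1 ≤ i ≤ m`) is `u_i u_{i-1}*`
(`u_m = 1`), within `1/n` of `1`. So `D₂ D₁ = diag t M (w, 1, 1, …) * N`, `N = diag t M (1, 1,
u_1 u_0*, 1, …)`, `‖N - 1‖ ≤ 1/n` (`norm_diag_sub_one`), and
`t 0 * w * star (t 0) + (1 - t 0 * star (t 0)) = D₂ * D₁ * star N`.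
`D₂`, `D₁` have chains with steps `≤ π / n` (`chain_pairs` for `t`, `t'`), `star N` has the chain
`1, N*, N*, …` (`Chain.of_near`), the product has steps `≤ (2 π + 1) / n ≤ 8 / n` (`Chain.mul`).
If `m = 0` then `w = 1` and the element is `1`.
-/

namespace Pool.Agent.AUE

theorem Swin_ext {B : Type} [CStarAlgebra B] (t : ℕ → B) (m : ℕ) {x : ℕ → B} (h : x m = 1) :
    diag t (m + 1) x = diag t m x := by
  unfold diag
  rw [Finset.sum_range_succ, Finset.sum_range_succ, h, mul_one]
  abel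

theorem Swin_shift {B : Type} [CStarAlgebra B] (t : ℕ → B) (m : ℕ) {x y : ℕ → B} (h0 : y 0 = 1)
    (h : ∀ i, y (i + 1) = x i) : diag (fun i => t (i + 1)) m x = diag t (m + 1) y := by
  unfold diag
  rw [Finset.sum_range_succ', Finset.sum_range_succ', h0, mul_one]
  simp only [h]
  abel

theorem Swin_first {B : Type} [CStarAlgebra B] (t : ℕ → B) (w : B) (k : ℕ) :
    diag t (k + 1) (fun i => if i = 0 then w else 1) = t 0 * w * star (t 0) + (1 - t 0 * star (t 0)) := by
  induction k with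
  | zero =>
    unfold diag
    simp
  | succ k ih =>
    rw [Swin_ext t (k + 1) (by simp), ih]

theorem chain_swindle {V B : Type} [CStarAlgebra B] {P : V → B} (hP : IsPrj P) {a b : V}
    {t : ℕ → B} (ht : Copies P a b t) {w : B} (hw : Ch P w) (n : ℕ) (hn : 0 < n) :
    Chain P (8 / n) n (t 0 * w * star (t 0) + (1 - t 0 * star (t 0))) := by
  have hn' : (0 : ℝ) < n := Nat.cast_pos.2 hn
  have hpos : (0 : ℝ) < 1 / n := by positivity
  obtain ⟨m, ζ, h0, h1, h2, h3⟩ := hw (1 / n) hpos
  have hu : ∀ i, ζ (m - i) ∈ UD P := fun i => h2 _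
  have hus : ∀ i, star (ζ (m - i)) ∈ UD P := fun i => UD_star hP (h2 _)
  have hstep : ∀ i, ‖ζ (m - (i + 1)) - ζ (m - i)‖ ≤ 1 / n := by
    intro i
    by_cases hi : i < m
    · have e : m - i = (m - (i + 1)) + 1 := by omega
      rw [e, ← norm_neg, neg_sub]
      exact h3 _ (by omega)
    · have e1 : m - (i + 1) = 0 := by omega
      have e2 : m - i = 0 := by omega
      rw [e1, e2, sub_self, norm_zero]
      exact hpos.le
  have ht' : Copies P a b (fun i => t (i + 1)) :=
    ⟨fun i => ht.ini (i + 1), fun i j hij => ht.orth _ _ (by omega), fun i => ht.fin (i + 1)⟩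
  have hD2 := chain_pairs hP ht m hu n hn
  have hD1 := chain_pairs hP ht' m hu n hn
  -- the entries
  let p : ℕ → B := fun i => if i % 2 = 0 then ζ (m - i / 2) else star (ζ (m - i / 2))
  let q : ℕ → B := fun i => if i = 0 then 1 else p (i - 1)
  have hp : ∀ i, p i ∈ UD P := by
    intro i
    change (if i % 2 = 0 then ζ (m - i / 2) else star (ζ (m - i / 2))) ∈ UD P
    split_ifs
    · exact hu _
    · exact hus _
  have hq : ∀ i, q i ∈ UD P := by
    intro i
    change (if i = 0 then (1 : B) else p (i - 1)) ∈ UD P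
    split_ifs
    · exact UD_one
    · exact hp _
  have hp0 : ∀ k, p (2 * k) = ζ (m - k) := by
    intro k
    have k3 : (2 * k) % 2 = 0 := by omega
    have k4 : (2 * k) / 2 = k := by omega
    simp [p, k3, k4]
  have hp1 : ∀ k, p (2 * k + 1) = star (ζ (m - k)) := by
    intro k
    have k3 : (2 * k + 1) % 2 = 1 := by omega
    have k4 : (2 * k + 1) / 2 = k := by omega
    simp [p, k3, k4]
  have hpm : p (2 * m) = 1 := by
    rw [hp0, Nat.sub_self, h0]
  have hqs : ∀ i, q (i + 1) = p i := by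
    intro i
    simp [q]
  have eD2 : diag t (2 * m) p = diag t (2 * m + 1) p := (Swin_ext t (2 * m) hpm).symm
  have eD1 : diag (fun i => t (i + 1)) (2 * m) p = diag t (2 * m + 1) q :=
    Swin_shift t (2 * m) (by simp [q]) hqs
  change Chain P (Real.pi / n) n (diag t (2 * m) p) at hD2
  change Chain P (Real.pi / n) n (diag (fun i => t (i + 1)) (2 * m) p) at hD1
  rw [eD2] at hD2
  rw [eD1] at hD1
  let r : ℕ → B := fun i => if i = 0 then 1 else p i * q i
  have hr : ∀ i, r i ∈ UD P := by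
    intro i
    change (if i = 0 then (1 : B) else p i * q i) ∈ UD P
    split_ifs
    · exact UD_one
    · exact UD_mul (hp _) (hq _)
  have hrn : ∀ i, ‖r i - 1‖ ≤ 1 / n := by
    intro i
    rcases Nat.eq_zero_or_pos i with hi | hi
    · have e : r i = 1 := by simp [r, hi]
      rw [e, sub_self, norm_zero]
      exact hpos.le
    · obtain ⟨j, rfl⟩ : ∃ j, i = j + 1 := ⟨i - 1, by omega⟩
      have e : r (j + 1) = p (j + 1) * p j := by
        have e0 : r (j + 1) = p (j + 1) * q (j + 1) := by simp [r]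
        rw [e0, hqs]
      rw [e]
      rcases Nat.even_or_odd' j with ⟨k, rfl | rfl⟩
      · rw [hp1, hp0, (hu k).1, sub_self, norm_zero]
        exact hpos.le
      · have e2 : 2 * k + 1 + 1 = 2 * (k + 1) := by ring
        rw [e2, hp0, hp1]
        have e3 : ζ (m - (k + 1)) * star (ζ (m - k)) - 1 = (ζ (m - (k + 1)) - ζ (m - k)) * star (ζ (m - k)) := by
          rw [sub_mul, (hu k).2.1]
        rw [e3, norm_mul_UD (hus k)]
        exact hstep k
  have hN := diag_mem hP ht (2 * m + 1) hr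
  have hNn := norm_diag_sub_one hP ht (2 * m + 1) (1 / n) hpos.le hrn
  have hprod : diag t (2 * m + 1) p * diag t (2 * m + 1) q =
      diag t (2 * m + 1) (fun i => if i = 0 then w else 1) * diag t (2 * m + 1) r := by
    rw [diag_mul hP ht (2 * m + 1) (fun i v => (hq i).2.2 v),
      diag_mul hP ht (2 * m + 1) (fun i v => (hr i).2.2 v)]
    congr 1
    funext i
    by_cases hi : i = 0
    · subst hi
      have e1 : p 0 = w := by
        have h := hp0 0
        rw [mul_zero, Nat.sub_zero, h1] at h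
        exact h
      simp [q, r, e1]
    · simp [r, hi]
  have hNs := UD_star hP hN
  have hNs1 : ‖star (diag t (2 * m + 1) r) - 1‖ ≤ 1 / n := by
    have e : star (diag t (2 * m + 1) r) - 1 = star (diag t (2 * m + 1) r - 1) := by
      rw [star_sub, star_one]
    rw [e, norm_star]
    exact hNn
  have hch := (hD2.mul hD1).mul (Chain.of_near hn hNs hNs1)
  rw [hprod, mul_assoc, hN.2.1, mul_one, Swin_first] at hch
  refine hch.mono ?_
  rw [← add_div, ← add_div]
  have hpi := Real.pi_lt_d2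
  gcongr
  linarith

end Pool.Agent.AUE
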