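import Pool.Agent.AUE.Bas
import Pool.Agent.AUE.Cnt

/-!
# TRel: products of the `S_l`, the algebras `core n`

`F.T l v = (product of S over l) * P v`.

PROOFS. `T_cons`, `T_nil` by definition. `P_T`: for `l = []` `u = v`; for `l = e :: l'` `G.s e = u`.
`star_T_mul_T`: induction on the common length: `star (T (e::l) v) * T (e'::l') v' =
star (T l v) * (star (S e) * S e') * T l' v'` is `0` if `e ≠ e'` and `star (T l v) * P (r e) * T l' v'
= star (T l v) * T l' v'` if `e = e'` (`P_T`). For `l = l' = []`: `P v * P v'`.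
`th_iter_T`: induction: `th (th^[n] x) * S e = S e * th^[n] x` (`th_S`; `th^[n] x` commutes with `P`).
The statements on `core n` by `Submodule.span_induction` (twice for products).
`core_mul`: `T k v T k'^* T l w T l'^* ` (`k, k' : u → v`, `l, l' : u' → w`) is `0` unless `k' = l`,
`v = w`, then `u = u'` (`walk_left_unique`) and it is `T k v * star (T l' v)`.
`lam_core`: for `k, k' : u → v`: `lam (T k v * star (T k' v)) = ∑_{e, r e = u} T (e::k) v *
star (T (e::k') v)` (the other terms vanish as `S e * T k v = S e * P (r e) * P u * T k v`).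
`lam_iter_one`: `lam^[n] 1` is the sum of `T l v * star (T l v)` over all paths of length `n ≥ 1`:
induction (`S e * star (S e) = T [e] (r e) * star (T [e] (r e))`).
-/

namespace Pool.Agent.AUE

variable {V : Type} {B : Type} [CStarAlgebra B] {P : V → B} {G : Gr V} (F : Fam G P)

theorem Fam.T_nil (v : V) : F.T [] v = P v := by
  simp [Fam.T]

theorem Fam.T_cons (e : G.Ed) (l : List G.Ed) (v : V) : F.T (e :: l) v = F.S e * F.T l v := by
  simp [Fam.T, mul_assoc]

variable (hP : IsPrj P)

include hP

theorem Fam.T_P (l : List G.Ed) (v : V) : F.T l v * P v = F.T l v := by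
  rw [Fam.T, mul_assoc, hP.mul_self]

theorem Fam.P_T {u v : V} {l : List G.Ed} (h : G.Walk u l v) : P u * F.T l v = F.T l v := by
  cases l with
  | nil =>
    have h' : u = v := h
    rw [F.T_nil, h', hP.mul_self]
  | cons e l =>
    obtain ⟨h1, h2⟩ := h
    rw [F.T_cons, ← mul_assoc, ← h1, F.P_mul]

theorem Fam.T_append {u w v : V} {l l' : List G.Ed} (h : G.Walk u l w) (h' : G.Walk w l' v) :
    F.T (l ++ l') v = F.T l w * F.T l' v := by
  have h1 : F.T (l ++ l') v = (l.map F.S).prod * F.T l' v := by
    unfold Fam.T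
    rw [List.map_append, List.prod_append, mul_assoc]
  calc F.T (l ++ l') v = (l.map F.S).prod * F.T l' v := h1
    _ = (l.map F.S).prod * (P w * F.T l' v) := by rw [F.P_T hP h']
    _ = F.T l w * F.T l' v := by rw [← mul_assoc]; rfl

open scoped Classical in
theorem Fam.star_T_mul_T {u v u' v' : V} {l l' : List G.Ed} (h : G.Walk u l v)
    (h' : G.Walk u' l' v') (hl : l.length = l'.length) :
    star (F.T l v) * F.T l' v' = if l = l' ∧ v = v' then P v else 0 := by
  induction l generalizing u u' l' with
  | nil =>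
    have hl' : l' = [] := List.eq_nil_of_length_eq_zero hl.symm
    subst hl'
    rw [F.T_nil, F.T_nil, hP.star_eq]
    by_cases hv : v = v'
    · subst hv
      rw [if_pos ⟨rfl, rfl⟩, hP.mul_self]
    · rw [if_neg (fun h => hv h.2), hP.orth v v' hv]
  | cons e l ih =>
    cases l' with
    | nil => exact absurd hl (by simp)
    | cons e' l' =>
      obtain ⟨h1, h2⟩ := h
      obtain ⟨h3, h4⟩ := h'
      rw [F.T_cons, F.T_cons, StarMul.star_mul]
      have h5 : star (F.T l v) * star (F.S e) * (F.S e' * F.T l' v') =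
          star (F.T l v) * (star (F.S e) * F.S e') * F.T l' v' := by
        simp only [mul_assoc]
      rw [h5]
      by_cases he : e = e'
      · subst he
        have h6 := ih h2 h4 (by simpa using hl)
        rw [F.star_mul, mul_assoc, F.P_T hP h4, h6]
        by_cases hc : l = l' ∧ v = v'
        · rw [if_pos hc, if_pos ⟨by rw [hc.1], hc.2⟩]
        · rw [if_neg hc, if_neg (fun h => hc ⟨by simpa using h.1, h.2⟩)]
      · rw [F.orth e e' he, mul_zero, zero_mul, if_neg]
        rintro ⟨h6, -⟩
        exact he (List.cons.inj h6).1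

theorem TRel_th_comm {x : B} (hx : ∀ v, P v * x = x * P v) (n : ℕ) (v : V) :
    P v * F.th^[n] x = F.th^[n] x * P v := by
  cases n with
  | zero => exact hx v
  | succ n =>
    rw [Function.iterate_succ_apply']
    exact F.P_th hP _ v


theorem TRel_P_ne {u v w : V} {l : List G.Ed} (h : G.Walk u l v) (hw : w ≠ u) : P w * F.T l v = 0 := by
  rw [← F.P_T hP h, ← mul_assoc, hP.orth w u hw, zero_mul]

theorem TRel_S_ne {u v : V} {l : List G.Ed} (h : G.Walk u l v) {e : G.Ed} (he : G.r e ≠ u) :
    F.S e * F.T l v = 0 := by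
  rw [← F.S_P hP e, mul_assoc, TRel_P_ne F hP h he, mul_zero]

theorem TRel_mul_gen {n : ℕ} {x y : B}
    (hx : x ∈ {x | ∃ u v l l', l.length = n ∧ l'.length = n ∧ G.Walk u l v ∧ G.Walk u l' v ∧
      x = F.T l v * star (F.T l' v)})
    (hy : y ∈ {x | ∃ u v l l', l.length = n ∧ l'.length = n ∧ G.Walk u l v ∧ G.Walk u l' v ∧
      x = F.T l v * star (F.T l' v)}) : x * y ∈ F.core n := by
  obtain ⟨u, v, l, l', h1, h2, h3, h4, rfl⟩ := hx
  obtain ⟨u', w, k, k', h5, h6, h7, h8, rfl⟩ := hy
  have h9 := F.star_T_mul_T hP h4 h7 (h2.trans h5.symm)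
  have h10 : F.T l v * star (F.T l' v) * (F.T k w * star (F.T k' w)) =
      F.T l v * (star (F.T l' v) * F.T k w) * star (F.T k' w) := by
    simp only [mul_assoc]
  rw [h10, h9]
  by_cases hc : l' = k ∧ v = w
  · rw [if_pos hc, F.T_P hP]
    obtain ⟨rfl, rfl⟩ := hc
    have hu := G.walk_left_unique h4 h7
    subst hu
    exact Submodule.subset_span ⟨u, v, l, k', h1, h6, h3, h8, rfl⟩
  · rw [if_neg hc, mul_zero, zero_mul]
    exact Submodule.zero_mem _

theorem Fam.th_iter_T {x : B} (hx : ∀ v, P v * x = x * P v) {u v : V} {l : List G.Ed}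
    (h : G.Walk u l v) : F.th^[l.length] x * F.T l v = F.T l v * x := by
  induction l generalizing u with
  | nil =>
    rw [F.T_nil]
    exact (hx v).symm
  | cons e l ih =>
    obtain ⟨h1, h2⟩ := h
    rw [List.length_cons, Function.iterate_succ_apply', F.T_cons, ← mul_assoc,
      F.th_S hP (fun w => TRel_th_comm F hP hx l.length w), mul_assoc, ih h2, mul_assoc]

theorem Fam.core_mul {n : ℕ} {x y : B} (hx : x ∈ F.core n) (hy : y ∈ F.core n) :
    x * y ∈ F.core n := by
  unfold Fam.core at hx
  induction hx using Submodule.span_induction with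
  | mem x hx =>
    unfold Fam.core at hy
    induction hy using Submodule.span_induction with
    | mem y hy => exact TRel_mul_gen F hP hx hy
    | zero => rw [mul_zero]; exact Submodule.zero_mem _
    | add y z _ _ h1 h2 => rw [mul_add]; exact Submodule.add_mem _ h1 h2
    | smul c y _ h1 => rw [mul_smul_comm]; exact Submodule.smul_mem _ _ h1
  | zero => rw [zero_mul]; exact Submodule.zero_mem _
  | add x z _ _ h1 h2 => rw [add_mul]; exact Submodule.add_mem _ h1 h2
  | smul c x _ h1 => rw [smul_mul_assoc]; exact Submodule.smul_mem _ _ h1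

theorem Fam.core_star {n : ℕ} {x : B} (hx : x ∈ F.core n) : star x ∈ F.core n := by
  unfold Fam.core at hx
  induction hx using Submodule.span_induction with
  | mem x hx =>
    obtain ⟨u, v, l, l', h1, h2, h3, h4, rfl⟩ := hx
    rw [StarMul.star_mul, star_star]
    exact Submodule.subset_span ⟨u, v, l', l, h2, h1, h4, h3, rfl⟩
  | zero => rw [star_zero]; exact Submodule.zero_mem _
  | add x z _ _ h1 h2 => rw [star_add]; exact Submodule.add_mem _ h1 h2
  | smul c x _ h1 => rw [star_smul]; exact Submodule.smul_mem _ _ h1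

theorem Fam.core_P {n : ℕ} {x : B} (hx : x ∈ F.core n) (v : V) : P v * x = x * P v := by
  unfold Fam.core at hx
  induction hx using Submodule.span_induction with
  | mem x hx =>
    obtain ⟨u, w, l, l', h1, h2, h3, h4, rfl⟩ := hx
    have h5 : F.T l w * star (F.T l' w) * P v = F.T l w * star (P v * F.T l' w) := by
      rw [StarMul.star_mul, hP.star_eq, mul_assoc]
    rw [h5, ← mul_assoc]
    by_cases hv : v = u
    · subst hv
      rw [F.P_T hP h3, F.P_T hP h4]
    · rw [TRel_P_ne F hP h3 hv, TRel_P_ne F hP h4 hv, zero_mul, star_zero, mul_zero]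
  | zero => rw [zero_mul, mul_zero]
  | add x z _ _ h1 h2 => rw [add_mul, mul_add, h1, h2]
  | smul c x _ h1 => rw [smul_mul_assoc, mul_smul_comm, h1]

omit hP in
theorem TRel_star_th_iter (n : ℕ) (x : B) : star (F.th^[n] x) = F.th^[n] (star x) := by
  induction n with
  | zero => rfl
  | succ n ih => rw [Function.iterate_succ_apply', Function.iterate_succ_apply', F.star_th, ih]

/-- Elements of `core n` commute with the image of `th^[n]`. -/
theorem Fam.core_th_iter {n : ℕ} {x : B} (hx : x ∈ F.core n) {y : B}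
    (hy : ∀ v, P v * y = y * P v) : F.th^[n] y * x = x * F.th^[n] y := by
  unfold Fam.core at hx
  have hy' : ∀ v, P v * star y = star y * P v := by
    intro v
    have h := congrArg star (hy v)
    rw [StarMul.star_mul, StarMul.star_mul, hP.star_eq] at h
    exact h.symm
  induction hx using Submodule.span_induction with
  | mem x hx =>
    obtain ⟨u, w, l, l', h1, h2, h3, h4, rfl⟩ := hx
    have h5 := F.th_iter_T hP hy h3
    have h6 := F.th_iter_T hP hy' h4
    rw [h1] at h5
    rw [h2] at h6
    have h7 : star (F.T l' w) * F.th^[n] y = y * star (F.T l' w) := by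
      have h8 := congrArg star h6
      rw [StarMul.star_mul, StarMul.star_mul, TRel_star_th_iter, star_star] at h8
      exact h8
    rw [← mul_assoc, h5, mul_assoc, mul_assoc, h7]
  | zero => rw [zero_mul, mul_zero]
  | add x z _ _ h1 h2 => rw [add_mul, mul_add, h1, h2]
  | smul c x _ h1 => rw [smul_mul_assoc, mul_smul_comm, h1]

/-- Elements orthogonal to all `P v` are orthogonal to `core n`. -/
theorem Fam.core_orth {n : ℕ} {x : B} (hx : x ∈ F.core n) {y : B} (hy : ∀ v, y * P v = 0) :
    y * x = 0 := by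
  unfold Fam.core at hx
  induction hx using Submodule.span_induction with
  | mem x hx =>
    obtain ⟨u, w, l, l', h1, h2, h3, h4, rfl⟩ := hx
    rw [← F.P_T hP h3, ← mul_assoc, ← mul_assoc, hy, zero_mul, zero_mul]
  | zero => rw [mul_zero]
  | add x z _ _ h1 h2 => rw [mul_add, h1, h2, add_zero]
  | smul c x _ h1 => rw [mul_smul_comm, h1, smul_zero]

theorem Fam.lam_core {n : ℕ} {x : B} (hx : x ∈ F.core n) : F.lam x ∈ F.core (n + 1) := by
  unfold Fam.core at hx
  induction hx using Submodule.span_induction with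
  | mem x hx =>
    obtain ⟨u, w, l, l', h1, h2, h3, h4, rfl⟩ := hx
    unfold Fam.lam
    refine Submodule.sum_mem _ fun e _ => ?_
    have h5 : F.S e * (F.T l w * star (F.T l' w)) * star (F.S e) = F.T (e :: l) w * star (F.T (e :: l') w) := by
      rw [F.T_cons, F.T_cons, StarMul.star_mul]
      simp only [mul_assoc]
    rw [h5]
    by_cases he : G.r e = u
    · refine Submodule.subset_span ⟨G.s e, w, e :: l, e :: l', ?_, ?_, ⟨rfl, ?_⟩, ⟨rfl, ?_⟩, rfl⟩
      · rw [List.length_cons, h1]
      · rw [List.length_cons, h2]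
      · rw [he]; exact h3
      · rw [he]; exact h4
    · rw [F.T_cons, TRel_S_ne F hP h3 he, zero_mul]
      exact Submodule.zero_mem _
  | zero =>
    have h : F.lam 0 = 0 := by simp [Fam.lam]
    rw [h]; exact Submodule.zero_mem _
  | add x z _ _ h1 h2 => rw [F.lam_add]; exact Submodule.add_mem _ h1 h2
  | smul c x _ h1 => rw [F.lam_smul]; exact Submodule.smul_mem _ _ h1

section

variable [Fintype V]

omit hP in
theorem TRel_sum_paths (n : ℕ) (f : List G.Ed → V → B) :
    ∑ u, ∑ v, ∑ l ∈ G.paths (n + 1) u v, f l v = ∑ e, ∑ v, ∑ l ∈ G.paths n (G.r e) v, f (e :: l) v := by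
  classical
  have h1 : ∀ u v, ∑ l ∈ G.paths (n + 1) u v, f l v =
      ∑ e ∈ Finset.univ.filter (fun e => G.s e = u), ∑ l ∈ G.paths n (G.r e) v, f (e :: l) v := by
    intro u v
    have h2 : G.paths (n + 1) u v = (Finset.univ.filter (fun e => G.s e = u)).biUnion
      (fun e => (G.paths n (G.r e) v).image (List.cons e)) := by
      rw [Gr.paths]
    rw [h2, Finset.sum_biUnion]
    · refine Finset.sum_congr rfl fun e _ => ?_
      rw [Finset.sum_image]
      intro a _ b _ hab
      exact (List.cons.inj hab).2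
    · intro e _ e' _ hee
      rw [Function.onFun, Finset.disjoint_left]
      intro l hl hl'
      obtain ⟨a, -, rfl⟩ := Finset.mem_image.1 hl
      obtain ⟨b, -, hb⟩ := Finset.mem_image.1 hl'
      exact hee (List.cons.inj hb).1.symm
  calc ∑ u, ∑ v, ∑ l ∈ G.paths (n + 1) u v, f l v
      = ∑ u, ∑ v, ∑ e ∈ Finset.univ.filter (fun e => G.s e = u), ∑ l ∈ G.paths n (G.r e) v, f (e :: l) v :=
        Finset.sum_congr rfl fun u _ => Finset.sum_congr rfl fun v _ => h1 u v
    _ = ∑ u, ∑ e ∈ Finset.univ.filter (fun e => G.s e = u), ∑ v, ∑ l ∈ G.paths n (G.r e) v, f (e :: l) v :=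
        Finset.sum_congr rfl fun u _ => Finset.sum_comm
    _ = ∑ e, ∑ v, ∑ l ∈ G.paths n (G.r e) v, f (e :: l) v :=
        Finset.sum_fiberwise _ _ _

theorem Fam.lam_iter_one {n : ℕ} (hn : 1 ≤ n) : F.lam^[n] 1 =
    ∑ u, ∑ v, ∑ l ∈ G.paths n u v, F.T l v * star (F.T l v) := by
  induction n, hn using Nat.le_induction with
  | base =>
    rw [TRel_sum_paths 0 (fun l v => F.T l v * star (F.T l v))]
    show ∑ e, F.S e * 1 * star (F.S e) = _
    refine Finset.sum_congr rfl fun e _ => ?_
    rw [Finset.sum_eq_single (G.r e)]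
    · have h1 : G.paths 0 (G.r e) (G.r e) = {[]} := by
        unfold Gr.paths
        rw [if_pos rfl]
      rw [h1, Finset.sum_singleton, F.T_cons, F.T_nil, F.S_P hP, mul_one]
    · intro v _ hv
      have h1 : G.paths 0 (G.r e) v = ∅ := by
        unfold Gr.paths
        rw [if_neg (Ne.symm hv)]
      rw [h1, Finset.sum_empty]
    · intro h
      exact absurd (Finset.mem_univ _) h
  | succ n hn ih =>
    rw [Function.iterate_succ_apply', ih, TRel_sum_paths n (fun l v => F.T l v * star (F.T l v))]
    unfold Fam.lam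
    refine Finset.sum_congr rfl fun e _ => ?_
    rw [Finset.mul_sum, Finset.sum_mul, Finset.sum_eq_single (G.r e)]
    · rw [Finset.mul_sum, Finset.sum_mul]
      refine Finset.sum_congr rfl fun v _ => ?_
      rw [Finset.mul_sum, Finset.sum_mul]
      refine Finset.sum_congr rfl fun l _ => ?_
      rw [F.T_cons, StarMul.star_mul]
      simp only [mul_assoc]
    · intro u _ hu
      rw [Finset.mul_sum, Finset.sum_mul]
      refine Finset.sum_eq_zero fun v _ => ?_
      rw [Finset.mul_sum, Finset.sum_mul]
      refine Finset.sum_eq_zero fun l hl => ?_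
      rw [← mul_assoc, TRel_S_ne F hP ((G.mem_paths).1 hl).2 (Ne.symm hu), zero_mul, zero_mul]
    · intro h
      exact absurd (Finset.mem_univ _) h

/-- In the Cuntz-Krieger case `P v = ∑_{s e = v} S_e S_e*`, so `T l v * star (T l' v) =
∑_{s e = v} T (l ++ [e]) (r e) * star (T (l' ++ [e]) (r e))`. -/
theorem Fam.core_succ (hCK : F.lam 1 = 1) {n : ℕ} {x : B} (hx : x ∈ F.core n) :
    x ∈ F.core (n + 1) := by
  unfold Fam.core at hx
  induction hx using Submodule.span_induction with
  | mem x hx =>
    obtain ⟨u, w, l, l', h1, h2, h3, h4, rfl⟩ := hx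
    have h5 : F.T l w * star (F.T l' w) = ∑ e, (F.T l w * F.S e) * star (F.T l' w * F.S e) := by
      calc F.T l w * star (F.T l' w) = F.T l w * F.lam 1 * star (F.T l' w) := by rw [hCK, mul_one]
        _ = ∑ e, F.T l w * (F.S e * 1 * star (F.S e)) * star (F.T l' w) := by
          unfold Fam.lam
          rw [Finset.mul_sum, Finset.sum_mul]
        _ = _ := by
          refine Finset.sum_congr rfl fun e _ => ?_
          rw [mul_one, StarMul.star_mul]
          simp only [mul_assoc]
    rw [h5]
    refine Submodule.sum_mem _ fun e _ => ?_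
    by_cases he : G.s e = w
    · have h6 : ∀ {k : List G.Ed}, G.Walk u k w → F.T k w * F.S e = F.T (k ++ [e]) (G.r e) := by
        intro k hk
        have h7 : G.Walk w [e] (G.r e) := ⟨he, rfl⟩
        rw [F.T_append hP hk h7, F.T_cons, F.T_nil, F.S_P hP]
      have h8 : ∀ {k : List G.Ed}, G.Walk u k w → G.Walk u (k ++ [e]) (G.r e) := by
        intro k hk
        exact (G.walk_append).2 ⟨w, hk, he, rfl⟩
      rw [h6 h3, h6 h4]
      refine Submodule.subset_span ⟨u, G.r e, l ++ [e], l' ++ [e], ?_, ?_, h8 h3, h8 h4, rfl⟩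
      · rw [List.length_append, h1]; rfl
      · rw [List.length_append, h2]; rfl
    · have h6 : F.T l w * F.S e = 0 := by
        rw [← F.T_P hP, mul_assoc, F.P_S_ne hP e (Ne.symm he), mul_zero]
      rw [h6, zero_mul]
      exact Submodule.zero_mem _
  | zero => exact Submodule.zero_mem _
  | add x z _ _ h1 h2 => exact Submodule.add_mem _ h1 h2
  | smul c x _ h1 => exact Submodule.smul_mem _ _ h1

theorem Fam.core_mono (hCK : F.lam 1 = 1) {m n : ℕ} (h : m ≤ n) {x : B} (hx : x ∈ F.core m) :
    x ∈ F.core n := by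
  induction n, h using Nat.le_induction with
  | base => exact hx
  | succ n _ ih => exact F.core_succ hP hCK ih

theorem Fam.one_mem_core (hCK : F.lam 1 = 1) (n : ℕ) : (1 : B) ∈ F.core n := by
  have h1 : (∑ v, P v) = 1 := by
    have h2 : ∀ e, (∑ v, P v) * F.S e = F.S e := by
      intro e
      rw [Finset.sum_mul, Finset.sum_eq_single (G.s e)]
      · exact F.P_mul e
      · intro v _ hv
        exact F.P_S_ne hP e hv
      · intro h
        exact absurd (Finset.mem_univ _) h
    calc (∑ v, P v) = (∑ v, P v) * F.lam 1 := by rw [hCK, mul_one]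
      _ = ∑ e, (∑ v, P v) * (F.S e * 1 * star (F.S e)) := by
        unfold Fam.lam
        rw [Finset.mul_sum]
      _ = ∑ e, F.S e * 1 * star (F.S e) := by
        refine Finset.sum_congr rfl fun e _ => ?_
        rw [← mul_assoc, ← mul_assoc, h2]
      _ = 1 := hCK
  refine F.core_mono hP hCK (Nat.zero_le n) ?_
  rw [← h1]
  refine Submodule.sum_mem _ fun v _ => ?_
  refine Submodule.subset_span ⟨v, v, [], [], rfl, rfl, rfl, rfl, ?_⟩
  rw [F.T_nil, hP.star_eq, hP.mul_self]

end

end Pool.Agent.AUE
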