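import Pool.Agent.AUE.Tow0

/-!
# Tow1: algebraic rotations

PROOFS. `U = rotU R J δ = 1 + (cos δ - 1) R + sin δ J`, `star U = 1 + (cos δ - 1) R - sin δ J`,
`R` and `J` commute, `J² = -R`: `U * star U = (1 + (c-1) R)² - s² J² = 1 + (2 (c-1) + (c-1)² + s²) R = 1`.
`star (U - 1) * (U - 1) = ((c-1)² + s²) R = (2 - 2 c) R`, `0 ≤ 2 - 2 c ≤ δ²`: `bd_of_proj`.
`bd_of_proj`: `y = √(t - t') R + √t (1 - R)`, `star y * y = (t - t') R + t (1 - R)`.
`rotU_apply`: `U x = cos δ x + sin δ J x`, `U J x = cos δ J x + sin δ J² x = cos δ J x - sin δ x`;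
addition theorems.
-/

namespace Pool.Agent.AUE

variable {A : Type} [Ring A] [StarRing A] [Algebra ℂ A] [StarModule ℂ A]

theorem Tow1_star (r : ℝ) (x : A) : star ((r : ℂ) • x) = (r : ℂ) • star x := by
  rw [star_smul, Complex.star_def, Complex.conj_ofReal]

theorem Tow1_sqrt {t : ℝ} (h : 0 ≤ t) : ((Real.sqrt t : ℝ) : ℂ) * ((Real.sqrt t : ℝ) : ℂ) = (t : ℂ) := by
  rw [← Complex.ofReal_mul, Real.mul_self_sqrt h]

omit [StarRing A] [StarModule ℂ A] in
theorem Tow1_sum {ι : Type} (s : Finset ι) {R : ι → A} (hR : ∀ j ∈ s, R j * R j = R j)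
    (ho : ∀ i ∈ s, ∀ j ∈ s, i ≠ j → R i * R j = 0) (a b : ι → ℂ) :
    (∑ j ∈ s, a j • R j) * (∑ j ∈ s, b j • R j) = ∑ j ∈ s, (a j * b j) • R j := by
  rw [Finset.sum_mul]
  refine Finset.sum_congr rfl fun i hi => ?_
  rw [Finset.mul_sum, Finset.sum_eq_single i]
  · rw [smul_mul_smul_comm, hR i hi]
  · intro j hj hji
    rw [smul_mul_smul_comm, ho i hi j hj (Ne.symm hji), smul_zero]
  · intro h
    exact absurd hi h

theorem bd_of_proj {R x : A} (hR : IsPr R) {t' t : ℝ} (h0 : 0 ≤ t') (h1 : t' ≤ t)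
    (hx : star x * x = (t' : ℂ) • R) : Bd t x := by
  have ha := Tow1_sqrt (t := t - t') (by linarith)
  have hb := Tow1_sqrt (t := t) (by linarith)
  set a : ℂ := ((Real.sqrt (t - t') : ℝ) : ℂ) with ha'
  set b : ℂ := ((Real.sqrt t : ℝ) : ℂ) with hb'
  refine ⟨a • R + b • (1 - R), ?_⟩
  have hs : star (a • R + b • (1 - R)) = a • R + b • (1 - R) := by
    rw [star_add, ha', hb', Tow1_star, Tow1_star, star_sub, star_one, hR.1]
  rw [hs, hx]
  have h2 : (a • R + b • (1 - R)) * (a • R + b • (1 - R)) = (a * a) • R + (b * b) • (1 - R) := by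
    simp only [mul_add, add_mul, mul_sub, sub_mul, mul_one, one_mul, smul_mul_assoc, mul_smul_comm, hR.2,
      smul_sub, sub_self, smul_zero]
    module
  rw [h2, ha, hb]
  push_cast
  module

/-- `y = ∑ √(t - τ j) R j + √t (1 - ∑ R j)`. -/
theorem bd_of_sum {ι : Type} (s : Finset ι) {R : ι → A} {x : A} (hR : ∀ j ∈ s, IsPr (R j))
    (ho : ∀ i ∈ s, ∀ j ∈ s, i ≠ j → R i * R j = 0) {τ : ι → ℝ} {t : ℝ} (ht : 0 ≤ t)
    (h0 : ∀ j ∈ s, 0 ≤ τ j) (h1 : ∀ j ∈ s, τ j ≤ t)
    (hx : star x * x = ∑ j ∈ s, ((τ j : ℝ) : ℂ) • R j) : Bd t x := by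
  have hb := Tow1_sqrt ht
  set b : ℂ := ((Real.sqrt t : ℝ) : ℂ) with hb'
  have hRR : ∀ j ∈ s, R j * R j = R j := fun j hj => (hR j hj).2
  have hE : (∑ j ∈ s, (1 : ℂ) • R j) = ∑ j ∈ s, R j := by simp
  set E : A := ∑ j ∈ s, R j with hE'
  set S : A := ∑ j ∈ s, ((Real.sqrt (t - τ j) : ℝ) : ℂ) • R j with hS'
  have hSS : S * S = ∑ j ∈ s, ((t - τ j : ℝ) : ℂ) • R j := by
    rw [hS', Tow1_sum s hRR ho]
    refine Finset.sum_congr rfl fun j hj => ?_
    rw [Tow1_sqrt (by linarith [h1 j hj])]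
  have hSE : S * E = S := by
    rw [← hE, hS', Tow1_sum s hRR ho]
    refine Finset.sum_congr rfl fun j hj => ?_
    rw [mul_one]
  have hES : E * S = S := by
    rw [← hE, hS', Tow1_sum s hRR ho]
    refine Finset.sum_congr rfl fun j hj => ?_
    rw [one_mul]
  have hEE : E * E = E := by
    rw [← hE, Tow1_sum s hRR ho]
    refine Finset.sum_congr rfl fun j hj => ?_
    rw [one_mul]
  have hsE : star E = E := by
    rw [hE', star_sum]
    exact Finset.sum_congr rfl fun j hj => (hR j hj).1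
  have hsS : star S = S := by
    rw [hS', star_sum]
    refine Finset.sum_congr rfl fun j hj => ?_
    rw [Tow1_star, (hR j hj).1]
  refine ⟨S + b • (1 - E), ?_⟩
  have hs : star (S + b • (1 - E)) = S + b • (1 - E) := by
    rw [star_add, hb', Tow1_star, star_sub, star_one, hsE, hsS]
  rw [hs, hx]
  have h2 : (S + b • (1 - E)) * (S + b • (1 - E)) = S * S + (b * b) • (1 - E) := by
    simp only [mul_add, add_mul, mul_sub, sub_mul, mul_one, one_mul, smul_mul_assoc, mul_smul_comm, hSE, hES, hEE,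
      smul_sub, sub_self, smul_zero]
    module
  have h3 : ∑ j ∈ s, ((τ j : ℝ) : ℂ) • R j + ∑ j ∈ s, ((t - τ j : ℝ) : ℂ) • R j = (t : ℂ) • E := by
    rw [← Finset.sum_add_distrib, hE', Finset.smul_sum]
    refine Finset.sum_congr rfl fun j _ => ?_
    push_cast
    module
  rw [h2, hSS, hb, ← add_assoc, h3]
  module

/-- Rotation by the angle `δ` with generator `J` and support `R`. -/
noncomputable def rotU (R J : A) (δ : ℝ) : A :=
  1 + (((Real.cos δ - 1 : ℝ) : ℂ) • R + ((Real.sin δ : ℝ) : ℂ) • J)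

/-- The data of a rotation. -/
structure IsRot (R J : A) : Prop where
  pr : IsPr R
  star_J : star J = -J
  J_J : J * J = -R
  R_J : R * J = J
  J_R : J * R = J

theorem Tow1_mul {R J : A} (h : IsRot R J) (a b a' b' : ℂ) :
    (1 + (a • R + b • J)) * (1 + (a' • R + b' • J)) =
      1 + ((a + a' + a * a' - b * b') • R + (b + b' + a * b' + b * a') • J) := by
  simp only [mul_add, add_mul, mul_one, one_mul, smul_mul_assoc, mul_smul_comm, h.pr.2, h.R_J, h.J_R, h.J_J,
    smul_neg]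
  module

theorem Tow1_starU {R J : A} (h : IsRot R J) (δ : ℝ) :
    star (rotU R J δ) = 1 + (((Real.cos δ - 1 : ℝ) : ℂ) • R + (-((Real.sin δ : ℝ) : ℂ)) • J) := by
  unfold rotU
  rw [star_add, star_add, star_one, Tow1_star, Tow1_star, h.pr.1, h.star_J]
  module

theorem Tow1_cs (δ : ℝ) : ((Real.cos δ : ℝ) : ℂ) * ((Real.cos δ : ℝ) : ℂ) +
    ((Real.sin δ : ℝ) : ℂ) * ((Real.sin δ : ℝ) : ℂ) = 1 := by
  rw [← Complex.ofReal_mul, ← Complex.ofReal_mul, ← Complex.ofReal_add]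
  have := Real.cos_sq_add_sin_sq δ
  rw [show Real.cos δ * Real.cos δ + Real.sin δ * Real.sin δ = 1 by nlinarith]
  norm_num

theorem IsRot.isUni {R J : A} (h : IsRot R J) (δ : ℝ) : IsUni (rotU R J δ) := by
  have hcs := Tow1_cs δ
  constructor
  · rw [Tow1_starU h, rotU, Tow1_mul h]
    push_cast at hcs ⊢
    rw [show (Complex.cos δ - 1 + (Complex.cos δ - 1) + (Complex.cos δ - 1) * (Complex.cos δ - 1) -
      -Complex.sin δ * Complex.sin δ : ℂ) = 0 by linear_combination hcs]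
    rw [show (-Complex.sin δ + Complex.sin δ + (Complex.cos δ - 1) * Complex.sin δ +
      -Complex.sin δ * (Complex.cos δ - 1) : ℂ) = 0 by ring]
    simp
  · rw [Tow1_starU h, rotU, Tow1_mul h]
    push_cast at hcs ⊢
    rw [show (Complex.cos δ - 1 + (Complex.cos δ - 1) + (Complex.cos δ - 1) * (Complex.cos δ - 1) -
      Complex.sin δ * -Complex.sin δ : ℂ) = 0 by linear_combination hcs]
    rw [show (Complex.sin δ + -Complex.sin δ + (Complex.cos δ - 1) * -Complex.sin δ +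
      Complex.sin δ * (Complex.cos δ - 1) : ℂ) = 0 by ring]
    simp

theorem IsRot.bd {R J : A} (h : IsRot R J) (δ : ℝ) : Bd (δ ^ 2) (rotU R J δ - 1) := by
  have hcs := Tow1_cs δ
  have h1 : rotU R J δ - 1 = ((Real.cos δ - 1 : ℝ) : ℂ) • R + ((Real.sin δ : ℝ) : ℂ) • J := by
    unfold rotU
    rw [add_sub_cancel_left]
  refine bd_of_proj h.pr (t' := 2 - 2 * Real.cos δ) ?_ ?_ ?_
  · linarith [Real.cos_le_one δ]
  · linarith [Real.one_sub_sq_div_two_le_cos (x := δ)]
  · rw [h1, star_add, Tow1_star, Tow1_star, h.pr.1, h.star_J]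
    simp only [mul_add, add_mul, smul_mul_assoc, mul_smul_comm, h.pr.2, h.R_J, h.J_R, h.J_J,
      smul_neg, neg_mul, neg_neg]
    push_cast at hcs ⊢
    have h2 : ((2 - 2 * Complex.cos δ : ℂ)) = (Complex.cos δ - 1) * (Complex.cos δ - 1) +
        Complex.sin δ * Complex.sin δ := by linear_combination -hcs
    rw [h2]
    module

theorem IsRot.apply {R J x : A} (h : IsRot R J) (hx : R * x = x) (δ s : ℝ) :
    rotU R J δ * (((Real.cos s : ℝ) : ℂ) • x + ((Real.sin s : ℝ) : ℂ) • (J * x)) =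
      ((Real.cos (s + δ) : ℝ) : ℂ) • x + ((Real.sin (s + δ) : ℝ) : ℂ) • (J * x) := by
  have e1 : R * (J * x) = J * x := by rw [← mul_assoc, h.R_J]
  have e2 : J * (J * x) = -x := by rw [← mul_assoc, h.J_J, neg_mul, hx]
  unfold rotU
  rw [Real.cos_add, Real.sin_add]
  simp only [mul_add, add_mul, one_mul, smul_mul_assoc, mul_smul_comm, hx, e1, e2, smul_neg]
  push_cast
  module

/-- Elements commuting with `R` and `J` are fixed by conjugation with `rotU`. -/
theorem IsRot.conj_eq {R J x : A} (h : IsRot R J) (δ : ℝ) (h1 : R * x = x * R) (h2 : J * x = x * J) :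
    rotU R J δ * x * star (rotU R J δ) = x := by
  have h3 : rotU R J δ * x = x * rotU R J δ := by
    unfold rotU
    simp only [mul_add, add_mul, one_mul, mul_one, smul_mul_assoc, mul_smul_comm, h1, h2]
  rw [h3, mul_assoc, (h.isUni δ).2, mul_one]

end Pool.Agent.AUE
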