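import Pool.Agent.AUE.Tow1

/-!
# Tow2: the first step of the tower construction

NOTATION. `k = 2N+3`, `H = k N`, `M = (k-1) N = (2N+2) N`, `δ = π/(2N)`, `e i = Λ^[i] e0`
(`Λ (e i) = e (i+1)`, all projections), `f = 1 - ∑_{i<H} e i`, `t j : e0 → e j` (`j < H`) and
`ρ : f → e0` the partial isometries of `MarkH`; `w = t M * star (t 0)`... take `t 0 := e0` (allowed:
replace `t 0` by `e0`), `w = t M`, `w r = Λ^[r] w` for `r ≤ N`: `star (w r) * w r = e r`,
`w r * star (w r) = e (r+M)`, `e (r+M) * w r = w r = w r * e r`.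
Orthogonality: `e i * e j = 0` for `i ≠ j`, `i, j < H`, and (apply `Λ`) also for
`1 ≤ i, j ≤ H`, `i ≠ j`.

ROTATION: `R = ∑_{r=1}^{N} (e r + e (r+M))`, `J = ∑_{r=1}^{N} (w r - star (w r))`; the indices
`1..N` and `M+1..M+N = H` are distinct (`M ≥ N`), so `IsRot R J`; `κ = rotU R J δ`,
`Λ' = adE Λ κ`.

`y r = cos(r δ) e r + sin(r δ) w r` (`0 ≤ r ≤ N`): `star (y r) * y r = e r`
(`star (e r) * w r = e r * e (r+M) * w r = 0` for `0 ≤ r < N`; for `r = N`: `cos = 0`, `y N = w N`),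
`y 0 = e 0`. `E r = y r * star (y r)` is a projection for `r ≤ N`, `E 0 = e 0`, `E N = e H`.
`κ * Λ (y r) = y (r+1)` for `r < N` (`IsRot.apply` with `x = e (r+1)`, `J * e (r+1) = w (r+1)`), so
`Λ' (E r) = κ Λ(y r) Λ(y r)* κ* = E (r+1)`.

`g = f + ∑_{r<N} E r`. `Λ f = 1 - ∑_{i=1}^{H} e i` is orthogonal to `R`, `J`, so `Λ' f = Λ f`, and
`Λ f + e H = f + e 0`. Hence `Λ' g = Λ f + ∑_{r=1}^{N} E r = Λ f + e H + ∑_{r=1}^{N-1} E r
= f + e 0 + ∑_{r=1}^{N-1} E r = g`.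

`p r = ∑_{q<k} e (r + q N) - E r` for `r < N`, `p r = p (r % N)` in general. `E r ≤ e r + e (r+M)`
(`q = 0` and `q = k-1`), so `p r` is a projection. For `r + 1 < N`: `Λ (∑_q e (r+qN)) =
∑_q e (r+1+qN)` commutes with `R`, `J` (it contains both `e (r+1)`, `e (r+1+M)` and is orthogonal to
the other summands of `R`), so `Λ' (p r) = ∑_q e (r+1+qN) - E (r+1) = p (r+1)`. For `r = N - 1`:
`Λ (∑_q e (N-1+qN)) = ∑_{q=1}^{k} e (qN) = ∑_{q<k} e (qN) - e 0 + e H`, and `Λ' (E (N-1)) = E N = e H`,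
so `Λ' (p (N-1)) = ∑_{q<k} e (qN) - e 0 = p 0`.
`g + ∑_{r<N} p r = f + ∑_{i<H} e i = 1`. Orthogonality: `E r` lives under `e r + e (r+M)`.

`v = ∑_{r<N} t ((2r+1) N) * star (t r) * star (y r) + t ((2N+1) N) * ρ`. The summand `r` is a
partial isometry from `E r` onto `e ((2r+1) N)`, the last one from `f` into `e ((2N+1) N)`;
so `star v * v = ∑ E r + f = g`, `v * g = v`. `Q = ∑_{j≤N} e ((2j+1) N)` satisfies `Q v = v` and
`Q ≤ p 0` (`0 < (2j+1)N ≤ (2N+1)N < M`, multiples of `N`; `E 0 = e 0`). So `p 0 * v = v`.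
For `N ≤ i < M`: `Λ' (e i) = e (i+1)` (`e (i+1)` is orthogonal to `R`, `J`, as `N < i+1 ≤ M`). So
`Λ'^[N] (e ((2j+1) N)) = e ((2j+2) N)` (`(2j+2) N ≤ (2N+2) N = M`), hence
`Λ'^[N] v = Q' * Λ'^[N] v` with `Q' = ∑_{j≤N} e ((2j+2) N)`, `Q * Q' = 0`, and
`star v * Λ'^[N] v = star v * Q * Q' * … = 0`.
-/

namespace Pool.Agent.AUE

variable {A : Type} [Ring A] [StarRing A] [Algebra ℂ A] [StarModule ℂ A]

set_option linter.unusedSectionVars false

theorem Tow2_Icc (e : ℕ → A) (H : ℕ) : ∑ i ∈ Finset.Icc 1 H, e i = ∑ i ∈ Finset.range H, e (i + 1) := by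
  rw [Finset.range_eq_Ico, Finset.sum_Ico_add' e 0 H 1]
  refine Finset.sum_congr ?_ fun _ _ => rfl
  ext i
  rw [Finset.mem_Icc, Finset.mem_Ico]
  omega

/-! ### iterates -/

theorem Tow2_it_mul (Φ : A →⋆ₐ[ℂ] A) (n : ℕ) (x y : A) : Φ^[n] (x * y) = Φ^[n] x * Φ^[n] y := by
  induction n with
  | zero => rfl
  | succ n ih =>
    rw [Function.iterate_succ_apply', Function.iterate_succ_apply', Function.iterate_succ_apply', ih,
      map_mul]

theorem Tow2_it_star (Φ : A →⋆ₐ[ℂ] A) (n : ℕ) (x : A) : Φ^[n] (star x) = star (Φ^[n] x) := by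
  induction n with
  | zero => rfl
  | succ n ih =>
    rw [Function.iterate_succ_apply', Function.iterate_succ_apply', ih, map_star]

theorem Tow2_it_sum (Φ : A →⋆ₐ[ℂ] A) (n : ℕ) {ι : Type} (s : Finset ι) (x : ι → A) :
    Φ^[n] (∑ i ∈ s, x i) = ∑ i ∈ s, Φ^[n] (x i) := by
  induction n with
  | zero => rfl
  | succ n ih =>
    rw [Function.iterate_succ_apply', ih, map_sum]
    refine Finset.sum_congr rfl fun i _ => ?_
    rw [Function.iterate_succ_apply']

/-! ### sums of orthogonal projections -/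

theorem Tow2_sum_mul {e : ℕ → A} {G T : Finset ℕ} (hpr : ∀ i, IsPr (e i))
    (hG : ∀ i ∈ G, ∀ j ∈ G, i ≠ j → e i * e j = 0) (hT : T ⊆ G) {j : ℕ} (hj : j ∈ G) :
    (∑ i ∈ T, e i) * e j = if j ∈ T then e j else 0 := by
  rw [Finset.sum_mul]
  split_ifs with h
  · rw [Finset.sum_eq_single_of_mem j h (fun i hi hne => hG i (hT hi) j hj hne), (hpr j).2]
  · exact Finset.sum_eq_zero (fun i hi => hG i (hT hi) j hj (fun he => h (he ▸ hi)))

theorem Tow2_mul_sum {e : ℕ → A} {G T : Finset ℕ} (hpr : ∀ i, IsPr (e i))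
    (hG : ∀ i ∈ G, ∀ j ∈ G, i ≠ j → e i * e j = 0) (hT : T ⊆ G) {j : ℕ} (hj : j ∈ G) :
    e j * (∑ i ∈ T, e i) = if j ∈ T then e j else 0 := by
  rw [Finset.mul_sum]
  split_ifs with h
  · rw [Finset.sum_eq_single_of_mem j h (fun i hi hne => hG j hj i (hT hi) hne.symm), (hpr j).2]
  · exact Finset.sum_eq_zero (fun i hi => hG j hj i (hT hi) (fun he => h (he ▸ hi)))

theorem Tow2_sum_sum {e : ℕ → A} {G T T' : Finset ℕ} (hpr : ∀ i, IsPr (e i))
    (hG : ∀ i ∈ G, ∀ j ∈ G, i ≠ j → e i * e j = 0) (hT : T ⊆ G) (hT' : T' ⊆ G) :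
    (∑ i ∈ T, e i) * (∑ i ∈ T', e i) = ∑ i ∈ T', if i ∈ T then e i else 0 := by
  rw [Finset.mul_sum]
  exact Finset.sum_congr rfl fun j hj => Tow2_sum_mul hpr hG hT (hT' hj)

theorem Tow2_sum_pr {e : ℕ → A} {G T : Finset ℕ} (hpr : ∀ i, IsPr (e i))
    (hG : ∀ i ∈ G, ∀ j ∈ G, i ≠ j → e i * e j = 0) (hT : T ⊆ G) : IsPr (∑ i ∈ T, e i) := by
  constructor
  · rw [star_sum]
    exact Finset.sum_congr rfl fun j _ => (hpr j).1
  · rw [Tow2_sum_sum hpr hG hT hT]
    exact Finset.sum_congr rfl fun j hj => if_pos hj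

/-- the data -/
structure Tow2_D (Λ : A →⋆ₐ[ℂ] A) (N M H : ℕ) (e w : ℕ → A) : Prop where
  hN : 0 < N
  hM : M = (2 * N + 2) * N
  hH : H = M + N
  he : ∀ i, Λ (e i) = e (i + 1)
  pr : ∀ i, IsPr (e i)
  o1 : ∀ i ∈ Finset.range H, ∀ j ∈ Finset.range H, i ≠ j → e i * e j = 0
  o2 : ∀ i ∈ Finset.Icc 1 H, ∀ j ∈ Finset.Icc 1 H, i ≠ j → e i * e j = 0
  hw : ∀ r, Λ (w r) = w (r + 1)
  w1 : ∀ r, star (w r) * w r = e r
  w2 : ∀ r, w r * star (w r) = e (r + M)
  w3 : ∀ r, e (r + M) * w r = w r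
  w4 : ∀ r, w r * e r = w r

section Data

variable {Λ : A →⋆ₐ[ℂ] A} {N M H : ℕ} {e w : ℕ → A} (D : Tow2_D Λ N M H e w)
include D

theorem Tow2_NM : N ≤ M := by
  rw [D.hM]
  exact Nat.le_mul_of_pos_left N (by omega)

theorem Tow2_ee (i : ℕ) : e i * e i = e i := (D.pr i).2

theorem Tow2_se (i : ℕ) : star (e i) = e i := (D.pr i).1

theorem Tow2_w3s (r : ℕ) : star (w r) * e (r + M) = star (w r) := by
  have := congrArg star (D.w3 r)
  rwa [star_mul, Tow2_se D] at this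

theorem Tow2_w4s (r : ℕ) : e r * star (w r) = star (w r) := by
  have := congrArg star (D.w4 r)
  rwa [star_mul, Tow2_se D] at this

/-- the support of the rotation -/
noncomputable def Tow2_R (_D : Tow2_D Λ N M H e w) : A := ∑ r ∈ Finset.Icc 1 N, (e r + e (r + M))

/-- the generator -/
noncomputable def Tow2_J (_D : Tow2_D Λ N M H e w) : A := ∑ r ∈ Finset.Icc 1 N, (w r - star (w r))

theorem Tow2_Je {i : ℕ} (h1 : 1 ≤ i) (h2 : i ≤ N) : Tow2_J D * e i = w i := by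
  have hNM := Tow2_NM D
  have hH := D.hH
  unfold Tow2_J
  rw [Finset.sum_mul, Finset.sum_eq_single_of_mem i (Finset.mem_Icc.mpr ⟨h1, h2⟩)]
  · rw [sub_mul, D.w4, ← Tow2_w3s D i, mul_assoc, D.o2 (i + M) (Finset.mem_Icc.mpr (by omega)) i
      (Finset.mem_Icc.mpr (by omega)) (by omega), mul_zero, sub_zero]
  · intro r hr hne
    rw [Finset.mem_Icc] at hr
    rw [sub_mul, ← Tow2_w3s D r, mul_assoc, D.o2 (r + M) (Finset.mem_Icc.mpr (by omega)) i
      (Finset.mem_Icc.mpr (by omega)) (by omega), mul_zero, sub_zero, ← D.w4 r, mul_assoc,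
      D.o2 r (Finset.mem_Icc.mpr (by omega)) i (Finset.mem_Icc.mpr (by omega)) hne, mul_zero]

theorem Tow2_JeM {i : ℕ} (h1 : 1 ≤ i) (h2 : i ≤ N) : Tow2_J D * e (i + M) = -star (w i) := by
  have hNM := Tow2_NM D
  have hH := D.hH
  unfold Tow2_J
  rw [Finset.sum_mul, Finset.sum_eq_single_of_mem i (Finset.mem_Icc.mpr ⟨h1, h2⟩)]
  · rw [sub_mul, Tow2_w3s D, ← D.w4 i, mul_assoc, D.o2 i (Finset.mem_Icc.mpr (by omega)) (i + M)
      (Finset.mem_Icc.mpr (by omega)) (by omega), mul_zero, zero_sub, D.w4]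
  · intro r hr hne
    rw [Finset.mem_Icc] at hr
    rw [sub_mul, ← Tow2_w3s D r, mul_assoc, D.o2 (r + M) (Finset.mem_Icc.mpr (by omega)) (i + M)
      (Finset.mem_Icc.mpr (by omega)) (by omega), mul_zero, sub_zero, ← D.w4 r, mul_assoc,
      D.o2 r (Finset.mem_Icc.mpr (by omega)) (i + M) (Finset.mem_Icc.mpr (by omega)) (by omega), mul_zero]

theorem Tow2_Re {i : ℕ} (h1 : 1 ≤ i) (h2 : i ≤ N) : Tow2_R D * e i = e i := by
  have hNM := Tow2_NM D
  have hH := D.hH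
  unfold Tow2_R
  rw [Finset.sum_mul, Finset.sum_eq_single_of_mem i (Finset.mem_Icc.mpr ⟨h1, h2⟩)]
  · rw [add_mul, Tow2_ee D, D.o2 (i + M) (Finset.mem_Icc.mpr (by omega)) i
      (Finset.mem_Icc.mpr (by omega)) (by omega), add_zero]
  · intro r hr hne
    rw [Finset.mem_Icc] at hr
    rw [add_mul, D.o2 (r + M) (Finset.mem_Icc.mpr (by omega)) i (Finset.mem_Icc.mpr (by omega)) (by omega),
      D.o2 r (Finset.mem_Icc.mpr (by omega)) i (Finset.mem_Icc.mpr (by omega)) hne, add_zero]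

theorem Tow2_ReM {i : ℕ} (h1 : 1 ≤ i) (h2 : i ≤ N) : Tow2_R D * e (i + M) = e (i + M) := by
  have hNM := Tow2_NM D
  have hH := D.hH
  unfold Tow2_R
  rw [Finset.sum_mul, Finset.sum_eq_single_of_mem i (Finset.mem_Icc.mpr ⟨h1, h2⟩)]
  · rw [add_mul, Tow2_ee D, D.o2 i (Finset.mem_Icc.mpr (by omega)) (i + M)
      (Finset.mem_Icc.mpr (by omega)) (by omega), zero_add]
  · intro r hr hne
    rw [Finset.mem_Icc] at hr
    rw [add_mul, D.o2 (r + M) (Finset.mem_Icc.mpr (by omega)) (i + M) (Finset.mem_Icc.mpr (by omega))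
      (by omega), D.o2 r (Finset.mem_Icc.mpr (by omega)) (i + M) (Finset.mem_Icc.mpr (by omega)) (by omega),
      add_zero]

theorem Tow2_rot : IsRot (Tow2_R D) (Tow2_J D) := by
  have hRs : star (Tow2_R D) = Tow2_R D := by
    unfold Tow2_R
    rw [star_sum]
    refine Finset.sum_congr rfl fun r _ => ?_
    rw [star_add, Tow2_se D, Tow2_se D]
  have hJs : star (Tow2_J D) = -Tow2_J D := by
    unfold Tow2_J
    rw [star_sum, ← Finset.sum_neg_distrib]
    refine Finset.sum_congr rfl fun r _ => ?_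
    rw [star_sub, star_star, neg_sub]
  have hRR : Tow2_R D * Tow2_R D = Tow2_R D := by
    conv_lhs => rw [show Tow2_R D * Tow2_R D = Tow2_R D * ∑ r ∈ Finset.Icc 1 N, (e r + e (r + M)) from rfl]
    rw [Finset.mul_sum]
    refine Finset.sum_congr rfl fun r hr => ?_
    rw [Finset.mem_Icc] at hr
    rw [mul_add, Tow2_Re D hr.1 hr.2, Tow2_ReM D hr.1 hr.2]
  have hJR : Tow2_J D * Tow2_R D = Tow2_J D := by
    conv_lhs => rw [show Tow2_J D * Tow2_R D = Tow2_J D * ∑ r ∈ Finset.Icc 1 N, (e r + e (r + M)) from rfl]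
    rw [Finset.mul_sum]
    refine Finset.sum_congr rfl fun r hr => ?_
    rw [Finset.mem_Icc] at hr
    rw [mul_add, Tow2_Je D hr.1 hr.2, Tow2_JeM D hr.1 hr.2, sub_eq_add_neg]
  have hRJ : Tow2_R D * Tow2_J D = Tow2_J D := by
    have := congrArg star hJR
    rw [star_mul, hRs, hJs, mul_neg, neg_inj] at this
    exact this
  have hJJ : Tow2_J D * Tow2_J D = -Tow2_R D := by
    conv_lhs => rw [show Tow2_J D * Tow2_J D = Tow2_J D * ∑ r ∈ Finset.Icc 1 N, (w r - star (w r)) from rfl]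
    rw [Finset.mul_sum]
    unfold Tow2_R
    rw [← Finset.sum_neg_distrib]
    refine Finset.sum_congr rfl fun r hr => ?_
    rw [Finset.mem_Icc] at hr
    have h1 : Tow2_J D * w r = -e r := by
      rw [← D.w3 r, ← mul_assoc, Tow2_JeM D hr.1 hr.2, neg_mul, D.w1]
    have h2 : Tow2_J D * star (w r) = e (r + M) := by
      rw [← Tow2_w4s D r, ← mul_assoc, Tow2_Je D hr.1 hr.2, D.w2]
    rw [mul_sub, h1, h2]
    abel
  exact ⟨⟨hRs, hRR⟩, hJs, hJJ, hRJ, hJR⟩

theorem Tow2_comm {x : A} (hx : star x = x) (h1 : ∀ r, 1 ≤ r → r ≤ N → x * w r = w r * x) :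
    Tow2_R D * x = x * Tow2_R D ∧ Tow2_J D * x = x * Tow2_J D := by
  have h2 : ∀ r, 1 ≤ r → r ≤ N → x * star (w r) = star (w r) * x := by
    intro r hr hr'
    have := congrArg star (h1 r hr hr')
    rw [star_mul, star_mul, hx] at this
    exact this.symm
  constructor
  · unfold Tow2_R
    rw [Finset.mul_sum, Finset.sum_mul]
    refine Finset.sum_congr rfl fun r hr => ?_
    rw [Finset.mem_Icc] at hr
    have h3 : x * e r = e r * x := by
      rw [← D.w1, ← mul_assoc, h2 r hr.1 hr.2, mul_assoc, h1 r hr.1 hr.2, mul_assoc]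
    have h4 : x * e (r + M) = e (r + M) * x := by
      rw [← D.w2, ← mul_assoc, h1 r hr.1 hr.2, mul_assoc, h2 r hr.1 hr.2, mul_assoc]
    rw [mul_add, add_mul, h3, h4]
  · unfold Tow2_J
    rw [Finset.mul_sum, Finset.sum_mul]
    refine Finset.sum_congr rfl fun r hr => ?_
    rw [Finset.mem_Icc] at hr
    rw [mul_sub, sub_mul, h1 r hr.1 hr.2, h2 r hr.1 hr.2]

theorem Tow2_T {T : Finset ℕ} (hT : T ⊆ Finset.Icc 1 H)
    (hTT : ∀ i, 1 ≤ i → i ≤ N → (i ∈ T ↔ i + M ∈ T)) (r : ℕ) (h1 : 1 ≤ r) (h2 : r ≤ N) :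
    (∑ i ∈ T, e i) * w r = w r * ∑ i ∈ T, e i := by
  have hNM := Tow2_NM D
  have hH := D.hH
  have h3 := Tow2_sum_mul D.pr D.o2 hT (j := r + M) (Finset.mem_Icc.mpr (by omega))
  have h4 := Tow2_mul_sum D.pr D.o2 hT (j := r) (Finset.mem_Icc.mpr (by omega))
  have h5 : (∑ i ∈ T, e i) * w r = if r + M ∈ T then w r else 0 := by
    rw [← D.w3 r, ← mul_assoc, h3]
    split_ifs with h
    · rfl
    · rw [zero_mul]
  have h6 : w r * ∑ i ∈ T, e i = if r ∈ T then w r else 0 := by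
    conv_lhs => rw [← D.w4 r, mul_assoc, h4]
    split_ifs with h
    · exact D.w4 r
    · rw [mul_zero]
  rw [h5, h6]
  by_cases h : r ∈ T
  · rw [if_pos h, if_pos ((hTT r h1 h2).mp h)]
  · rw [if_neg h, if_neg (fun h' => h ((hTT r h1 h2).mpr h'))]

theorem Tow2_conj (δ : ℝ) {T : Finset ℕ} (hT : T ⊆ Finset.Icc 1 H)
    (hTT : ∀ i, 1 ≤ i → i ≤ N → (i ∈ T ↔ i + M ∈ T)) :
    rotU (Tow2_R D) (Tow2_J D) δ * (∑ i ∈ T, e i) * star (rotU (Tow2_R D) (Tow2_J D) δ) = ∑ i ∈ T, e i := by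
  have h := Tow2_comm D (Tow2_sum_pr D.pr D.o2 hT).1 (Tow2_T D hT hTT)
  exact (Tow2_rot D).conj_eq δ h.1 h.2

/-- the index sets of the tower -/
def Tow2_S (N s : ℕ) : Finset ℕ := (Finset.range (2 * N + 3)).image fun q => s + q * N

omit D in
theorem Tow2_S_sum (hN : 0 < N) (e : ℕ → A) (s : ℕ) :
    ∑ i ∈ Tow2_S N s, e i = ∑ q ∈ Finset.range (2 * N + 3), e (s + q * N) := by
  unfold Tow2_S
  refine Finset.sum_image ?_
  intro q _ q' _ h
  have h1 : q * N = q' * N := by simpa using h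
  exact Nat.eq_of_mul_eq_mul_right hN h1

theorem Tow2_kN (q : ℕ) (hq : q < 2 * N + 3) : q * N ≤ M := by
  rw [D.hM]
  exact Nat.mul_le_mul_right N (by omega)

theorem Tow2_S_sub1 {s : ℕ} (h1 : 1 ≤ s) (h2 : s ≤ N) : Tow2_S N s ⊆ Finset.Icc 1 H := by
  intro i hi
  unfold Tow2_S at hi
  rw [Finset.mem_image] at hi
  obtain ⟨q, hq, rfl⟩ := hi
  have h3 := Tow2_kN D q (Finset.mem_range.mp hq)
  have hH := D.hH
  rw [Finset.mem_Icc]
  omega

theorem Tow2_S_sub0 {s : ℕ} (h2 : s < N) : Tow2_S N s ⊆ Finset.range H := by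
  intro i hi
  unfold Tow2_S at hi
  rw [Finset.mem_image] at hi
  obtain ⟨q, hq, rfl⟩ := hi
  have h3 := Tow2_kN D q (Finset.mem_range.mp hq)
  have hH := D.hH
  rw [Finset.mem_range]
  omega

theorem Tow2_S_iff {s : ℕ} (h1 : 1 ≤ s) (h2 : s ≤ N) (i : ℕ) (h3 : 1 ≤ i) (h4 : i ≤ N) :
    i ∈ Tow2_S N s ↔ i + M ∈ Tow2_S N s := by
  have hMe := D.hM
  have h5 : i ∈ Tow2_S N s ↔ i = s := by
    unfold Tow2_S
    rw [Finset.mem_image]
    constructor
    · rintro ⟨q, _, he⟩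
      rcases Nat.eq_zero_or_pos q with hq | hq
      · rw [hq] at he; omega
      · have : N ≤ q * N := Nat.le_mul_of_pos_left N hq
        omega
    · rintro rfl
      exact ⟨0, Finset.mem_range.mpr (by omega), by omega⟩
  have h6 : i + M ∈ Tow2_S N s ↔ i = s := by
    unfold Tow2_S
    rw [Finset.mem_image]
    constructor
    · rintro ⟨q, hq, he⟩
      rw [Finset.mem_range] at hq
      rcases Nat.lt_or_ge q (2 * N + 2) with hq' | hq'
      · have h7 : q * N ≤ (2 * N + 1) * N := Nat.mul_le_mul_right N (by omega)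
        have h8 : (2 * N + 2) * N = (2 * N + 1) * N + N := by ring
        omega
      · have h9 : q = 2 * N + 2 := by omega
        rw [h9] at he
        omega
    · rintro rfl
      exact ⟨2 * N + 2, Finset.mem_range.mpr (by omega), by omega⟩
  rw [h5, h6]

/-- the rotated vectors -/
noncomputable def Tow2_y (_D : Tow2_D Λ N M H e w) (δ : ℝ) (r : ℕ) : A :=
  ((Real.cos (r * δ) : ℝ) : ℂ) • e r + ((Real.sin (r * δ) : ℝ) : ℂ) • w r

theorem Tow2_ew {r : ℕ} (hr : r ≤ N) : e r * w r = 0 := by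
  have hNM := Tow2_NM D
  have hH := D.hH
  have hN := D.hN
  rw [← D.w3 r, ← mul_assoc]
  rcases Nat.eq_zero_or_pos r with h | h
  · rw [D.o1 r (Finset.mem_range.mpr (by omega)) (r + M) (Finset.mem_range.mpr (by omega)) (by omega),
      zero_mul]
  · rw [D.o2 r (Finset.mem_Icc.mpr (by omega)) (r + M) (Finset.mem_Icc.mpr (by omega)) (by omega),
      zero_mul]

theorem Tow2_we {r : ℕ} (hr : r ≤ N) : star (w r) * e r = 0 := by
  have := congrArg star (Tow2_ew D hr)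
  rwa [star_mul, Tow2_se D, star_zero] at this

theorem Tow2_y_star (δ : ℝ) (r : ℕ) : star (Tow2_y D δ r) =
    ((Real.cos (r * δ) : ℝ) : ℂ) • e r + ((Real.sin (r * δ) : ℝ) : ℂ) • star (w r) := by
  unfold Tow2_y
  rw [star_add, star_smul, star_smul, Tow2_se D]
  simp only [RCLike.star_def, Complex.conj_ofReal]

theorem Tow2_y1 (δ : ℝ) {r : ℕ} (hr : r ≤ N) : star (Tow2_y D δ r) * Tow2_y D δ r = e r := by
  rw [Tow2_y_star]
  unfold Tow2_y
  rw [add_mul, mul_add, mul_add, smul_mul_smul_comm, smul_mul_smul_comm, smul_mul_smul_comm,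
    smul_mul_smul_comm, Tow2_ee D, Tow2_ew D hr, Tow2_we D hr, D.w1, smul_zero, smul_zero, add_zero,
    zero_add, ← add_smul]
  have h : ((Real.cos (r * δ) : ℝ) : ℂ) * ((Real.cos (r * δ) : ℝ) : ℂ) +
      ((Real.sin (r * δ) : ℝ) : ℂ) * ((Real.sin (r * δ) : ℝ) : ℂ) = 1 := by
    have := Real.cos_sq_add_sin_sq (r * δ)
    rw [pow_two, pow_two] at this
    exact_mod_cast this
  rw [h, one_smul]

theorem Tow2_y2 (δ : ℝ) (r : ℕ) : Tow2_y D δ r * e r = Tow2_y D δ r := by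
  unfold Tow2_y
  rw [add_mul, smul_mul_assoc, smul_mul_assoc, Tow2_ee D, D.w4]

theorem Tow2_y_map {δ : ℝ} {r : ℕ} (hr : r < N) :
    rotU (Tow2_R D) (Tow2_J D) δ * Λ (Tow2_y D δ r) = Tow2_y D δ (r + 1) := by
  have h1 := (Tow2_rot D).apply (Tow2_Re D (i := r + 1) (by omega) (by omega)) δ (r * δ)
  rw [Tow2_Je D (i := r + 1) (by omega) (by omega)] at h1
  have h2 : (r : ℝ) * δ + δ = ((r + 1 : ℕ) : ℝ) * δ := by push_cast; ring
  rw [h2] at h1
  unfold Tow2_y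
  rw [map_add, map_smul, map_smul, D.he, D.hw, h1]

/-- the projections `E r` -/
noncomputable def Tow2_E (D : Tow2_D Λ N M H e w) (δ : ℝ) (r : ℕ) : A := Tow2_y D δ r * star (Tow2_y D δ r)

theorem Tow2_E_star (δ : ℝ) (r : ℕ) : star (Tow2_E D δ r) = Tow2_E D δ r := by
  unfold Tow2_E
  rw [star_mul, star_star]

theorem Tow2_E_pr (δ : ℝ) {r : ℕ} (hr : r ≤ N) : IsPr (Tow2_E D δ r) := by
  refine ⟨Tow2_E_star D δ r, ?_⟩
  unfold Tow2_E
  rw [← mul_assoc, mul_assoc (Tow2_y D δ r) (star _), Tow2_y1 D δ hr, Tow2_y2]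

theorem Tow2_E_zero (δ : ℝ) : Tow2_E D δ 0 = e 0 := by
  have h : Tow2_y D δ 0 = e 0 := by
    unfold Tow2_y
    simp
  unfold Tow2_E
  rw [h, Tow2_se D, Tow2_ee D]

theorem Tow2_E_N {δ : ℝ} (hδ : δ = Real.pi / (2 * N)) : Tow2_E D δ N = e H := by
  have hN := D.hN
  have hN' : (N : ℝ) ≠ 0 := by exact_mod_cast hN.ne'
  have h1 : (N : ℝ) * δ = Real.pi / 2 := by
    rw [hδ]
    field_simp
  have h : Tow2_y D δ N = w N := by
    unfold Tow2_y
    rw [h1, Real.cos_pi_div_two, Real.sin_pi_div_two]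
    simp
  unfold Tow2_E
  rw [h, D.w2, D.hH, add_comm]

/-- the sums `P s` -/
noncomputable def Tow2_P (_D : Tow2_D Λ N M H e w) (s : ℕ) : A := ∑ i ∈ Tow2_S N s, e i

theorem Tow2_P_eq (s : ℕ) : Tow2_P D s = ∑ q ∈ Finset.range (2 * N + 3), e (s + q * N) :=
  Tow2_S_sum D.hN e s

theorem Tow2_P_star (s : ℕ) : star (Tow2_P D s) = Tow2_P D s := by
  unfold Tow2_P
  rw [star_sum]
  exact Finset.sum_congr rfl fun i _ => Tow2_se D i

theorem Tow2_P_pr {s : ℕ} (hs : s < N) : IsPr (Tow2_P D s) :=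
  Tow2_sum_pr D.pr D.o1 (Tow2_S_sub0 D hs)

theorem Tow2_P_e {s q : ℕ} (hs : s < N) (hq : q < 2 * N + 3) : Tow2_P D s * e (s + q * N) = e (s + q * N) := by
  have h1 : s + q * N ∈ Tow2_S N s := Finset.mem_image.mpr ⟨q, Finset.mem_range.mpr hq, rfl⟩
  have := Tow2_sum_mul D.pr D.o1 (Tow2_S_sub0 D hs) (Tow2_S_sub0 D hs h1)
  rw [if_pos h1] at this
  exact this

theorem Tow2_P_y (δ : ℝ) {s : ℕ} (hs : s < N) : Tow2_P D s * Tow2_y D δ s = Tow2_y D δ s := by
  have h1 := Tow2_P_e D hs (q := 0) (by omega)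
  have h2 := Tow2_P_e D hs (q := 2 * N + 2) (by omega)
  rw [zero_mul, add_zero] at h1
  rw [← D.hM] at h2
  unfold Tow2_y
  have h3 : Tow2_P D s * w s = w s := by
    rw [← D.w3 s, ← mul_assoc, h2]
  rw [mul_add, mul_smul_comm, mul_smul_comm, h1, h3]

theorem Tow2_P_E (δ : ℝ) {s : ℕ} (hs : s < N) : Tow2_P D s * Tow2_E D δ s = Tow2_E D δ s := by
  unfold Tow2_E
  rw [← mul_assoc, Tow2_P_y D δ hs]

theorem Tow2_E_P (δ : ℝ) {s : ℕ} (hs : s < N) : Tow2_E D δ s * Tow2_P D s = Tow2_E D δ s := by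
  have := congrArg star (Tow2_P_E D δ hs)
  rwa [star_mul, Tow2_E_star, Tow2_P_star] at this

theorem Tow2_P_P {s r : ℕ} (hs : s < N) (hr : r < N) (hne : s ≠ r) : Tow2_P D s * Tow2_P D r = 0 := by
  unfold Tow2_P
  rw [Tow2_sum_sum D.pr D.o1 (Tow2_S_sub0 D hs) (Tow2_S_sub0 D hr)]
  refine Finset.sum_eq_zero fun i hi => if_neg fun hi' => hne ?_
  unfold Tow2_S at hi hi'
  rw [Finset.mem_image] at hi hi'
  obtain ⟨q, _, h1⟩ := hi
  obtain ⟨q', _, h2⟩ := hi'
  have h3 : (s + q' * N) % N = (r + q * N) % N := by rw [h1, h2]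
  rw [Nat.add_mul_mod_self_right, Nat.add_mul_mod_self_right, Nat.mod_eq_of_lt hs,
    Nat.mod_eq_of_lt hr] at h3
  exact h3

/-- the remainder -/
noncomputable def Tow2_f (_D : Tow2_D Λ N M H e w) : A := 1 - ∑ i ∈ Finset.range H, e i

theorem Tow2_f_pr : IsPr (Tow2_f D) := by
  have h := Tow2_sum_pr D.pr D.o1 (Finset.Subset.refl _)
  unfold Tow2_f
  constructor
  · rw [star_sub, star_one, h.1]
  · rw [mul_sub, sub_mul, sub_mul, h.2, one_mul, mul_one, one_mul]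
    abel

theorem Tow2_f_e {j : ℕ} (hj : j < H) : Tow2_f D * e j = 0 := by
  have h := Tow2_sum_mul D.pr D.o1 (Finset.Subset.refl _) (Finset.mem_range.mpr hj)
  unfold Tow2_f
  rw [sub_mul, h, if_pos (Finset.mem_range.mpr hj), one_mul, sub_self]

theorem Tow2_f_P {s : ℕ} (hs : s < N) : Tow2_f D * Tow2_P D s = 0 := by
  unfold Tow2_P
  rw [Finset.mul_sum]
  exact Finset.sum_eq_zero fun i hi => Tow2_f_e D (Finset.mem_range.mp (Tow2_S_sub0 D hs hi))

theorem Tow2_P_f {s : ℕ} (hs : s < N) : Tow2_P D s * Tow2_f D = 0 := by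
  have := congrArg star (Tow2_f_P D hs)
  rwa [star_mul, (Tow2_f_pr D).1, Tow2_P_star, star_zero] at this

theorem Tow2_f_E (δ : ℝ) {s : ℕ} (hs : s < N) : Tow2_f D * Tow2_E D δ s = 0 := by
  rw [← Tow2_P_E D δ hs, ← mul_assoc, Tow2_f_P D hs, zero_mul]

theorem Tow2_E_f (δ : ℝ) {s : ℕ} (hs : s < N) : Tow2_E D δ s * Tow2_f D = 0 := by
  have := congrArg star (Tow2_f_E D δ hs)
  rwa [star_mul, (Tow2_f_pr D).1, Tow2_E_star, star_zero] at this

theorem Tow2_E_E (δ : ℝ) {s r : ℕ} (hs : s < N) (hr : r < N) (hne : s ≠ r) :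
    Tow2_E D δ s * Tow2_E D δ r = 0 := by
  rw [← Tow2_E_P D δ hs, ← Tow2_P_E D δ hr, mul_assoc, ← mul_assoc (Tow2_P D s), Tow2_P_P D hs hr hne,
    zero_mul, mul_zero]

theorem Tow2_E_P' (δ : ℝ) {s r : ℕ} (hs : s < N) (hr : r < N) (hne : s ≠ r) :
    Tow2_E D δ s * Tow2_P D r = 0 := by
  rw [← Tow2_E_P D δ hs, mul_assoc, Tow2_P_P D hs hr hne, mul_zero]

theorem Tow2_P_E' (δ : ℝ) {s r : ℕ} (hs : s < N) (hr : r < N) (hne : s ≠ r) :
    Tow2_P D s * Tow2_E D δ r = 0 := by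
  rw [← Tow2_P_E D δ hr, ← mul_assoc, Tow2_P_P D hs hr hne, zero_mul]

/-- the invariant projection -/
noncomputable def Tow2_g (D : Tow2_D Λ N M H e w) (δ : ℝ) : A :=
  Tow2_f D + ∑ r ∈ Finset.range N, Tow2_E D δ r

theorem Tow2_E_g (δ : ℝ) {s : ℕ} (hs : s < N) : Tow2_E D δ s * Tow2_g D δ = Tow2_E D δ s := by
  unfold Tow2_g
  rw [mul_add, Tow2_E_f D δ hs, zero_add, Finset.mul_sum,
    Finset.sum_eq_single_of_mem s (Finset.mem_range.mpr hs)
      (fun r hr hne => Tow2_E_E D δ hs (Finset.mem_range.mp hr) hne.symm), (Tow2_E_pr D δ hs.le).2]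

theorem Tow2_f_g (δ : ℝ) : Tow2_f D * Tow2_g D δ = Tow2_f D := by
  unfold Tow2_g
  rw [mul_add, (Tow2_f_pr D).2, Finset.mul_sum, Finset.sum_eq_zero
    (fun r hr => Tow2_f_E D δ (Finset.mem_range.mp hr)), add_zero]

theorem Tow2_g_star (δ : ℝ) : star (Tow2_g D δ) = Tow2_g D δ := by
  unfold Tow2_g
  rw [star_add, (Tow2_f_pr D).1, star_sum]
  congr 1
  exact Finset.sum_congr rfl fun r _ => Tow2_E_star D δ r

theorem Tow2_g_pr (δ : ℝ) : IsPr (Tow2_g D δ) := by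
  refine ⟨Tow2_g_star D δ, ?_⟩
  conv_lhs => rw [show Tow2_g D δ * Tow2_g D δ =
    (Tow2_f D + ∑ r ∈ Finset.range N, Tow2_E D δ r) * Tow2_g D δ from rfl]
  rw [add_mul, Tow2_f_g, Finset.sum_mul]
  unfold Tow2_g
  congr 1
  exact Finset.sum_congr rfl fun r hr => Tow2_E_g D δ (Finset.mem_range.mp hr)

theorem Tow2_g_E (δ : ℝ) {s : ℕ} (hs : s < N) : Tow2_g D δ * Tow2_E D δ s = Tow2_E D δ s := by
  have := congrArg star (Tow2_E_g D δ hs)
  rwa [star_mul, Tow2_E_star, Tow2_g_star] at this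

theorem Tow2_g_P (δ : ℝ) {s : ℕ} (hs : s < N) : Tow2_g D δ * Tow2_P D s = Tow2_E D δ s := by
  unfold Tow2_g
  rw [add_mul, Tow2_f_P D hs, zero_add, Finset.sum_mul,
    Finset.sum_eq_single_of_mem s (Finset.mem_range.mpr hs)
      (fun r hr hne => Tow2_E_P' D δ (Finset.mem_range.mp hr) hs hne), Tow2_E_P D δ hs]

theorem Tow2_sumP : ∑ r ∈ Finset.range N, Tow2_P D r = ∑ i ∈ Finset.range H, e i := by
  have h1 : ∀ k : ℕ, ∑ r ∈ Finset.range N, ∑ q ∈ Finset.range k, e (r + q * N) =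
      ∑ i ∈ Finset.range (k * N), e i := by
    intro k
    induction k with
    | zero => simp
    | succ k ih =>
      simp_rw [Finset.sum_range_succ _ k]
      rw [Finset.sum_add_distrib, ih, Nat.succ_mul, Finset.sum_range_add]
      congr 1
      refine Finset.sum_congr rfl fun r _ => ?_
      rw [add_comm]
  have h2 : H = (2 * N + 3) * N := by
    rw [D.hH, D.hM]
    ring
  have h3 : ∑ i ∈ Finset.range H, e i = ∑ i ∈ Finset.range ((2 * N + 3) * N), e i := by rw [h2]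
  rw [h3, ← h1]
  exact Finset.sum_congr rfl fun r _ => Tow2_P_eq D r

/-- the tower -/
noncomputable def Tow2_p (D : Tow2_D Λ N M H e w) (δ : ℝ) (i : ℕ) : A :=
  if i < N then Tow2_P D i - Tow2_E D δ i else Tow2_P D 0 - Tow2_E D δ 0

theorem Tow2_p_lt (δ : ℝ) {i : ℕ} (hi : i < N) : Tow2_p D δ i = Tow2_P D i - Tow2_E D δ i := if_pos hi

theorem Tow2_PE_pr (δ : ℝ) {i : ℕ} (hi : i < N) : IsPr (Tow2_P D i - Tow2_E D δ i) := by
  constructor
  · rw [star_sub, Tow2_P_star, Tow2_E_star]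
  · rw [mul_sub, sub_mul, sub_mul, (Tow2_P_pr D hi).2, Tow2_P_E D δ hi, Tow2_E_P D δ hi,
      (Tow2_E_pr D δ hi.le).2]
    abel

theorem Tow2_p_pr (δ : ℝ) (i : ℕ) : IsPr (Tow2_p D δ i) := by
  unfold Tow2_p
  split_ifs with h
  · exact Tow2_PE_pr D δ h
  · exact Tow2_PE_pr D δ D.hN

theorem Tow2_PN {δ : ℝ} (hδ : δ = Real.pi / (2 * N)) :
    Tow2_P D N - Tow2_E D δ N = Tow2_P D 0 - Tow2_E D δ 0 := by
  rw [Tow2_E_N D hδ, Tow2_E_zero, Tow2_P_eq, Tow2_P_eq]
  have h1 : ∑ q ∈ Finset.range (2 * N + 3), e (N + q * N) + e 0 =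
      ∑ q ∈ Finset.range (2 * N + 3), e (0 + q * N) + e H := by
    have h2 := Finset.sum_range_succ' (fun q => e (q * N)) (2 * N + 3)
    have h3 := Finset.sum_range_succ (fun q => e (q * N)) (2 * N + 3)
    rw [h3] at h2
    have h4 : (2 * N + 3) * N = H := by
      rw [D.hH, D.hM]
      ring
    rw [h4, zero_mul] at h2
    have h5 : ∑ q ∈ Finset.range (2 * N + 3), e (N + q * N) =
        ∑ q ∈ Finset.range (2 * N + 3), e ((q + 1) * N) :=
      Finset.sum_congr rfl fun q _ => by rw [add_mul, one_mul, add_comm]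
    have h6 : ∑ q ∈ Finset.range (2 * N + 3), e (0 + q * N) = ∑ q ∈ Finset.range (2 * N + 3), e (q * N) :=
      Finset.sum_congr rfl fun q _ => by rw [zero_add]
    rw [h5, h6]
    exact h2.symm
  rw [sub_eq_sub_iff_add_eq_add, h1]

theorem Tow2_P_map (s : ℕ) : Λ (Tow2_P D s) = Tow2_P D (s + 1) := by
  rw [Tow2_P_eq, Tow2_P_eq, map_sum]
  refine Finset.sum_congr rfl fun q _ => ?_
  rw [D.he]
  congr 1
  omega

theorem Tow2_step (hκ : IsUni (rotU (Tow2_R D) (Tow2_J D) (Real.pi / (2 * N)))) {t : ℕ → A} {ρ : A}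
    (ht1 : ∀ j < H, star (t j) * t j = e 0) (ht2 : ∀ j < H, t j * star (t j) = e j)
    (ht3 : ∀ j < H, t j * e 0 = t j) (ht4 : ∀ j < H, e j * t j = t j)
    (hρ1 : star ρ * ρ = Tow2_f D) (hρ2 : e 0 * ρ = ρ) (hρ3 : ρ * Tow2_f D = ρ) :
    ∃ (g : A) (p : ℕ → A) (v : A),
      Step1 (adE Λ (rotU (Tow2_R D) (Tow2_J D) (Real.pi / (2 * N))) hκ) N g p v := by
  have hN := D.hN
  have hH := D.hH
  have hNM := Tow2_NM D
  obtain ⟨δ, hδ⟩ : ∃ δ : ℝ, δ = Real.pi / (2 * N) := ⟨_, rfl⟩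
  revert hκ
  rw [← hδ]
  intro hκ
  have hadE : ∀ x, adE Λ (rotU (Tow2_R D) (Tow2_J D) δ) hκ x =
      rotU (Tow2_R D) (Tow2_J D) δ * Λ x * star (rotU (Tow2_R D) (Tow2_J D) δ) := fun x => rfl
  -- the maps
  have mE : ∀ r < N, adE Λ (rotU (Tow2_R D) (Tow2_J D) δ) hκ (Tow2_E D δ r) = Tow2_E D δ (r + 1) := by
    intro r hr
    rw [hadE]
    unfold Tow2_E
    rw [map_mul, map_star, ← mul_assoc, mul_assoc _ (star (Λ (Tow2_y D δ r))), ← star_mul, Tow2_y_map D hr]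
  have mP : ∀ r < N, adE Λ (rotU (Tow2_R D) (Tow2_J D) δ) hκ (Tow2_P D r) = Tow2_P D (r + 1) := by
    intro r hr
    rw [hadE, Tow2_P_map]
    exact Tow2_conj D δ (Tow2_S_sub1 D (by omega) (by omega)) (Tow2_S_iff D (by omega) (by omega))
  have me : ∀ i, N ≤ i → i < M → adE Λ (rotU (Tow2_R D) (Tow2_J D) δ) hκ (e i) = e (i + 1) := by
    intro i h1 h2
    rw [hadE, D.he]
    have h3 := Tow2_conj D δ (T := {i + 1}) (by
      intro j hj
      rw [Finset.mem_singleton] at hj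
      rw [Finset.mem_Icc]
      omega) (by
      intro j _ _
      rw [Finset.mem_singleton, Finset.mem_singleton]
      omega)
    rw [Finset.sum_singleton] at h3
    exact h3
  have hΛf : Λ (Tow2_f D) = 1 - ∑ i ∈ Finset.Icc 1 H, e i := by
    unfold Tow2_f
    rw [map_sub, map_one, map_sum]
    congr 1
    rw [Tow2_Icc]
    exact Finset.sum_congr rfl fun i _ => D.he i
  have mf : adE Λ (rotU (Tow2_R D) (Tow2_J D) δ) hκ (Tow2_f D) = 1 - ∑ i ∈ Finset.Icc 1 H, e i := by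
    rw [hadE, hΛf, mul_sub, sub_mul, mul_one, hκ.2, Tow2_conj D δ (Finset.Subset.refl _) (by
      intro i _ _
      rw [Finset.mem_Icc, Finset.mem_Icc]
      omega)]
  have hsum1 : ∑ i ∈ Finset.Icc 1 H, e i + e 0 = ∑ i ∈ Finset.range H, e i + e H := by
    rw [← Finset.sum_range_succ, Finset.sum_range_succ', Tow2_Icc]
  have mg : adE Λ (rotU (Tow2_R D) (Tow2_J D) δ) hκ (Tow2_g D δ) = Tow2_g D δ := by
    have h1 : ∑ r ∈ Finset.range N, Tow2_E D δ (r + 1) + Tow2_E D δ 0 =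
        ∑ r ∈ Finset.range N, Tow2_E D δ r + Tow2_E D δ N := by
      rw [← Finset.sum_range_succ, Finset.sum_range_succ']
    rw [Tow2_E_N D hδ, Tow2_E_zero] at h1
    unfold Tow2_g
    rw [map_add, mf, map_sum, Finset.sum_congr rfl (fun r hr => mE r (Finset.mem_range.mp hr))]
    unfold Tow2_f
    have h2 : ∑ r ∈ Finset.range N, Tow2_E D δ (r + 1) =
      ∑ r ∈ Finset.range N, Tow2_E D δ r + e H - e 0 := eq_sub_of_add_eq h1
    have h3 : ∑ i ∈ Finset.Icc 1 H, e i = ∑ i ∈ Finset.range H, e i + e H - e 0 := eq_sub_of_add_eq hsum1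
    rw [h2, h3]
    abel
  -- the vector v
  let x : ℕ → A := fun j => if j < N then star (t j) * star (Tow2_y D δ j) else ρ
  let a : ℕ → ℕ := fun j => (2 * j + 1) * N
  have haH : ∀ j, j ≤ N → a j < H := by
    intro j hj
    have h1 : (2 * j + 1) * N ≤ (2 * N + 1) * N := Nat.mul_le_mul_right N (by omega)
    have h2 : (2 * N + 2) * N = (2 * N + 1) * N + N := by ring
    have h3 := D.hM
    show (2 * j + 1) * N < H
    omega
  have haN : ∀ j, N ≤ a j := fun j => Nat.le_mul_of_pos_left N (by omega)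
  have haM : ∀ j, j ≤ N → a j + N ≤ M := by
    intro j hj
    have h1 : (2 * j + 1) * N ≤ (2 * N + 1) * N := Nat.mul_le_mul_right N (by omega)
    have h2 : (2 * N + 2) * N = (2 * N + 1) * N + N := by ring
    have h3 := D.hM
    show (2 * j + 1) * N + N ≤ M
    omega
  have hane : ∀ i j, i ≠ j → a i ≠ a j := by
    intro i j hij h
    have := Nat.eq_of_mul_eq_mul_right hN h
    omega
  have hane' : ∀ i j, a i ≠ a j + N := by
    intro i j h
    have h1 : (2 * i + 1) * N = (2 * j + 2) * N := by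
      have h2 : (2 * j + 2) * N = (2 * j + 1) * N + N := by ring
      rw [h2]
      exact h
    have := Nat.eq_of_mul_eq_mul_right hN h1
    omega
  have hx0 : ∀ j, e 0 * x j = x j := by
    intro j
    by_cases hj : j < N
    · have h1 : e 0 * star (t j) = star (t j) := by
        have := congrArg star (ht3 j (by omega))
        rwa [star_mul, Tow2_se D] at this
      show e 0 * (if j < N then star (t j) * star (Tow2_y D δ j) else ρ) = _
      simp only [x, if_pos hj]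
      rw [← mul_assoc, h1]
    · simp only [x, if_neg hj]
      exact hρ2
  have hxx : ∀ j, star (x j) * x j = if j < N then Tow2_E D δ j else Tow2_f D := by
    intro j
    by_cases hj : j < N
    · simp only [x, if_pos hj]
      rw [star_mul, star_star, star_star, ← mul_assoc, mul_assoc (Tow2_y D δ j), ht2 j (by omega), Tow2_y2]
      rfl
    · simp only [x, if_neg hj]
      exact hρ1
  have hxg : ∀ j, x j * Tow2_g D δ = x j := by
    intro j
    by_cases hj : j < N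
    · simp only [x, if_pos hj]
      have h1 : star (Tow2_y D δ j) * Tow2_E D δ j = star (Tow2_y D δ j) := by
        unfold Tow2_E
        rw [← mul_assoc, Tow2_y1 D δ hj.le]
        have := congrArg star (Tow2_y2 D δ j)
        rwa [star_mul, Tow2_se D] at this
      rw [mul_assoc]
      congr 1
      rw [← h1, mul_assoc, Tow2_E_g D δ hj]
    · simp only [x, if_neg hj]
      rw [← hρ3, mul_assoc, Tow2_f_g]
  have htt : ∀ i, i ≤ N → ∀ j, j ≤ N → i ≠ j → star (t (a i)) * t (a j) = 0 := by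
    intro i hi j hj hij
    have h1 : star (t (a i)) * e (a i) = star (t (a i)) := by
      have := congrArg star (ht4 (a i) (haH i hi))
      rwa [star_mul, Tow2_se D] at this
    rw [← h1, ← ht4 (a j) (haH j hj), mul_assoc, ← mul_assoc (e (a i)),
      D.o1 (a i) (Finset.mem_range.mpr (haH i hi)) (a j) (Finset.mem_range.mpr (haH j hj)) (hane i j hij),
      zero_mul, mul_zero]
  let v : A := ∑ j ∈ Finset.range (N + 1), t (a j) * x j
  have hvv : star v * v = Tow2_g D δ := by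
    have h1 : star v * v = ∑ i ∈ Finset.range (N + 1), star (x i) * x i := by
      show star (∑ j ∈ Finset.range (N + 1), t (a j) * x j) * (∑ j ∈ Finset.range (N + 1), t (a j) * x j) = _
      rw [star_sum, Finset.sum_mul]
      refine Finset.sum_congr rfl fun i hi => ?_
      rw [Finset.mul_sum, Finset.sum_eq_single_of_mem i hi]
      · rw [star_mul, ← mul_assoc, mul_assoc (star (x i)),
          ht1 (a i) (haH i (by rw [Finset.mem_range] at hi; omega)), mul_assoc, hx0]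
      · intro j hj hne
        rw [Finset.mem_range] at hi hj
        rw [star_mul, ← mul_assoc, mul_assoc (star (x i)), htt i (by omega) j (by omega) hne.symm, mul_zero,
          zero_mul]
    rw [h1, Finset.sum_range_succ, hxx N, if_neg (lt_irrefl N)]
    unfold Tow2_g
    rw [add_comm]
    congr 1
    refine Finset.sum_congr rfl fun i hi => ?_
    rw [hxx i, if_pos (Finset.mem_range.mp hi)]
  have hvg : v * Tow2_g D δ = v := by
    show (∑ j ∈ Finset.range (N + 1), t (a j) * x j) * Tow2_g D δ = _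
    rw [Finset.sum_mul]
    refine Finset.sum_congr rfl fun i _ => ?_
    rw [mul_assoc, hxg]
  have hpv : Tow2_p D δ 0 * v = v := by
    show Tow2_p D δ 0 * (∑ j ∈ Finset.range (N + 1), t (a j) * x j) = _
    rw [Finset.mul_sum]
    refine Finset.sum_congr rfl fun i hi => ?_
    rw [Finset.mem_range] at hi
    have h1 : Tow2_P D 0 * e (a i) = e (a i) := by
      have := Tow2_P_e D (s := 0) hN (q := 2 * i + 1) (by omega)
      rwa [zero_add] at this
    have h2 : e 0 * e (a i) = 0 :=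
      D.o1 0 (Finset.mem_range.mpr (by omega)) (a i) (Finset.mem_range.mpr (haH i (by omega)))
        (by have := haN i; omega)
    have h3 : Tow2_p D δ 0 * t (a i) = t (a i) := by
      rw [Tow2_p_lt D δ hN, Tow2_E_zero, ← ht4 (a i) (haH i (by omega)), ← mul_assoc, sub_mul, h1, h2, sub_zero]
    rw [← mul_assoc, h3]
  have hit : ∀ j, j ≤ N → ∀ n, n ≤ N →
      (adE Λ (rotU (Tow2_R D) (Tow2_J D) δ) hκ)^[n] (e (a j)) = e (a j + n) := by
    intro j hj n hn
    induction n with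
    | zero => rfl
    | succ n ih =>
      rw [Function.iterate_succ_apply', ih (by omega)]
      have h1 := haN j
      have h2 := haM j hj
      exact me (a j + n) (by omega) (by omega)
  have hvL : star v * (adE Λ (rotU (Tow2_R D) (Tow2_J D) δ) hκ)^[N] v = 0 := by
    have h1 : (adE Λ (rotU (Tow2_R D) (Tow2_J D) δ) hκ)^[N] v = ∑ j ∈ Finset.range (N + 1),
        e (a j + N) * (adE Λ (rotU (Tow2_R D) (Tow2_J D) δ) hκ)^[N] (t (a j) * x j) := by
      show (adE Λ (rotU (Tow2_R D) (Tow2_J D) δ) hκ)^[N] (∑ j ∈ Finset.range (N + 1), t (a j) * x j) = _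
      rw [Tow2_it_sum]
      refine Finset.sum_congr rfl fun j hj => ?_
      rw [Finset.mem_range] at hj
      rw [← hit j (by omega) N le_rfl, ← Tow2_it_mul, ← mul_assoc, ht4 (a j) (haH j (by omega))]
    rw [h1]
    show star (∑ j ∈ Finset.range (N + 1), t (a j) * x j) * _ = 0
    rw [star_sum, Finset.sum_mul]
    refine Finset.sum_eq_zero fun i hi => ?_
    rw [Finset.mul_sum]
    refine Finset.sum_eq_zero fun j hj => ?_
    rw [Finset.mem_range] at hi hj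
    have h2 : star (t (a i)) * e (a i) = star (t (a i)) := by
      have := congrArg star (ht4 (a i) (haH i (by omega)))
      rwa [star_mul, Tow2_se D] at this
    have h3 := haM j (by omega)
    have h4 : e (a i) * e (a j + N) = 0 :=
      D.o1 (a i) (Finset.mem_range.mpr (haH i (by omega))) (a j + N) (Finset.mem_range.mpr (by omega))
        (hane' i j)
    have h5 : star (t (a i)) * e (a j + N) = 0 := by
      rw [← h2, mul_assoc, h4, mul_zero]
    rw [star_mul, ← mul_assoc, mul_assoc (star (x i)), h5, mul_zero, zero_mul]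
  refine ⟨Tow2_g D δ, Tow2_p D δ, v, Tow2_g_pr D δ, Tow2_p_pr D δ, ?_, mg, ?_, ?_, ?_, ?_, hvv, hvg, hpv, hvL⟩
  · unfold Tow2_p
    rw [if_neg (lt_irrefl N), if_pos hN]
  · intro i hi
    rw [Tow2_p_lt D δ hi, map_sub, mP i hi, mE i hi]
    unfold Tow2_p
    split_ifs with h
    · rfl
    · have h1 : i + 1 = N := by omega
      rw [h1]
      exact Tow2_PN D hδ
  · intro i hi
    rw [Tow2_p_lt D δ hi, mul_sub, Tow2_g_P D δ hi, Tow2_g_E D δ hi, sub_self]
  · intro i hi j hj hij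
    rw [Tow2_p_lt D δ hi, Tow2_p_lt D δ hj, mul_sub, sub_mul, sub_mul, Tow2_P_P D hi hj hij,
      Tow2_E_P' D δ hi hj hij, Tow2_P_E' D δ hi hj hij, Tow2_E_E D δ hi hj hij]
    simp
  · rw [Finset.sum_congr rfl (fun i hi => Tow2_p_lt D δ (Finset.mem_range.mp hi)),
      Finset.sum_sub_distrib, Tow2_sumP]
    unfold Tow2_g Tow2_f
    abel

end Data

theorem tow_step1 (Λ : A →⋆ₐ[ℂ] A) {N : ℕ} (hN : 0 < N) {e0 : A} (h : MarkH Λ N e0) :
    ∃ κ : A, ∃ hκ : IsUni κ, Bd ((Real.pi / (2 * N)) ^ 2) (κ - 1) ∧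
      ∃ (g : A) (p : ℕ → A) (v : A), Step1 (adE Λ κ hκ) N g p v := by
  have hMH : (2 * N + 2) * N + N = (2 * N + 3) * N := by ring
  have hMlt : (2 * N + 2) * N < (2 * N + 3) * N := by omega
  obtain ⟨w, hw1, hw2, hw3, hw4⟩ := h.eqv ((2 * N + 2) * N) hMlt
  have D : Tow2_D Λ N ((2 * N + 2) * N) ((2 * N + 3) * N) (fun i => Λ^[i] e0) (fun r => Λ^[r] w) := by
    refine ⟨hN, rfl, hMH.symm, ?_, ?_, ?_, ?_, ?_, ?_, ?_, ?_, ?_⟩
    · intro i
      exact (Function.iterate_succ_apply' Λ i e0).symm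
    · intro i
      exact ⟨by rw [← Tow2_it_star, h.pr.1], by rw [← Tow2_it_mul, h.pr.2]⟩
    · intro i hi j hj hij
      exact h.orth i (Finset.mem_range.mp hi) j (Finset.mem_range.mp hj) hij
    · intro i hi j hj hij
      rw [Finset.mem_Icc] at hi hj
      obtain ⟨i', rfl⟩ : ∃ i', i = i' + 1 := ⟨i - 1, by omega⟩
      obtain ⟨j', rfl⟩ : ∃ j', j = j' + 1 := ⟨j - 1, by omega⟩
      show Λ^[i' + 1] e0 * Λ^[j' + 1] e0 = 0
      rw [Function.iterate_succ_apply', Function.iterate_succ_apply', ← map_mul,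
        h.orth i' (by omega) j' (by omega) (by omega), map_zero]
    · intro r
      exact (Function.iterate_succ_apply' Λ r w).symm
    · intro r
      show star (Λ^[r] w) * Λ^[r] w = Λ^[r] e0
      rw [← Tow2_it_star, ← Tow2_it_mul, hw1]
    · intro r
      show Λ^[r] w * star (Λ^[r] w) = Λ^[r + (2 * N + 2) * N] e0
      rw [← Tow2_it_star, ← Tow2_it_mul, hw2, Function.iterate_add_apply]
    · intro r
      show Λ^[r + (2 * N + 2) * N] e0 * Λ^[r] w = Λ^[r] w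
      rw [Function.iterate_add_apply, ← Tow2_it_mul, hw4]
    · intro r
      show Λ^[r] w * Λ^[r] e0 = Λ^[r] w
      rw [← Tow2_it_mul, hw3]
  have ht : ∀ j, ∃ t : A, j < (2 * N + 3) * N → star t * t = e0 ∧ t * star t = Λ^[j] e0 ∧ t * e0 = t ∧
      Λ^[j] e0 * t = t := by
    intro j
    by_cases hj : j < (2 * N + 3) * N
    · obtain ⟨t, h1⟩ := h.eqv j hj
      exact ⟨t, fun _ => h1⟩
    · exact ⟨0, fun h' => absurd h' hj⟩
  choose t ht using ht
  obtain ⟨ρ, hρ1, hρ2, hρ3⟩ := h.rem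
  refine ⟨rotU (Tow2_R D) (Tow2_J D) (Real.pi / (2 * N)), (Tow2_rot D).isUni _, (Tow2_rot D).bd _, ?_⟩
  exact Tow2_step D ((Tow2_rot D).isUni _) (fun j hj => (ht j hj).1) (fun j hj => (ht j hj).2.1)
    (fun j hj => (ht j hj).2.2.1) (fun j hj => (ht j hj).2.2.2) hρ1 hρ2 hρ3

end Pool.Agent.AUE
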