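import Pool.Agent.AUE.PrC

/-!
# Trans: transfer from a Cuntz-Krieger family to an arbitrary family

`F₀` is a family with `p v ≠ 0` (functionals `ω v` with `ω v (p v) = 1`), `F` an arbitrary family of
the same graph. `Φ n (T₀ l v * star (T₀ l' v)) = T l v * star (T l' v)` for paths `l, l'` of length `n`
with the same source and range.

PROOF of `exists_tr`. `Φ x = ∑_u ∑_v ∑_{l ∈ paths n u v} ∑_{l' ∈ paths n u v}
ω v (star (T₀ l v) * x * T₀ l' v) • (T l v * star (T l' v))`. For `x = T₀ k w * star (T₀ k' w)`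
(`k, k' : u' → w`) the coefficient of `(u, v, l, l')` is `ω v (p v) = 1` if `l = k`, `l' = k'`, `v = w`
(then `u = u'`, `walk_left_unique`) and `0` otherwise (`star_T_mul_T`).
The other statements: by span induction from the formula on the generators (`core_mul`,
`lam_core`, `core_succ` in `TRel` contain the formulas for products, `lam` and the inclusion, valid in
both families). `tr_succ`: `T l v * star (T l' v) * lam^[n+1] 1 = T l v * (∑_{s e = v} S_e S_e*) *
star (T l' v)` by `lam_iter_one` and `star_T_mul_T`. `tr_one`: `1 = lam₀^[n] 1 = ∑ T₀ l v * star (T₀ l v)`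
(`lam_iter_one`).
-/

namespace Pool.Agent.AUE

section TransAux

variable {V' : Type} {G' : Gr V'} {C : Type} [CStarAlgebra C] {R : V' → C} (K : Fam G' R)
  (hR : IsPrj R)

include hR

open scoped Classical in
theorem Trans_mul_gen {u u' v w : V'} {k k' l l' : List G'.Ed} (h2 : G'.Walk u k' v)
    (h3 : G'.Walk u' l w) (hl : k'.length = l.length) :
    K.T k v * star (K.T k' v) * (K.T l w * star (K.T l' w)) =
      if k' = l ∧ v = w then K.T k v * star (K.T l' v) else 0 := by
  have h9 := K.star_T_mul_T hR h2 h3 hl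
  have h10 : K.T k v * star (K.T k' v) * (K.T l w * star (K.T l' w)) =
      K.T k v * (star (K.T k' v) * K.T l w) * star (K.T l' w) := by
    simp only [mul_assoc]
  rw [h10, h9]
  by_cases hc : k' = l ∧ v = w
  · rw [if_pos hc, if_pos hc, K.T_P hR, hc.2]
  · rw [if_neg hc, if_neg hc, mul_zero, zero_mul]

open scoped Classical in
theorem Trans_lam_gen {u v : V'} {k k' : List G'.Ed} (h : G'.Walk u k v) :
    K.lam (K.T k v * star (K.T k' v)) =
      ∑ e ∈ Finset.univ.filter (fun e => G'.r e = u),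
        K.T (e :: k) v * star (K.T (e :: k') v) := by
  unfold Fam.lam
  rw [Finset.sum_filter]
  refine Finset.sum_congr rfl fun e _ => ?_
  by_cases he : G'.r e = u
  · rw [if_pos he, K.T_cons, K.T_cons, StarMul.star_mul]
    simp only [mul_assoc]
  · rw [if_neg he]
    have h1 : K.S e * (K.T k v * star (K.T k' v)) * star (K.S e) =
        K.S e * K.T k v * star (K.T k' v) * star (K.S e) := by
      simp only [mul_assoc]
    rw [h1, TRel_S_ne K hR h he, zero_mul, zero_mul]

theorem Trans_TS {u v : V'} {k : List G'.Ed} (h : G'.Walk u k v) (e : G'.Ed) (he : G'.s e = v) :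
    K.T (k ++ [e]) (G'.r e) = K.T k v * K.S e := by
  have h7 : G'.Walk v [e] (G'.r e) := ⟨he, rfl⟩
  rw [K.T_append hR h h7, K.T_cons, K.T_nil, K.S_P hR]

open scoped Classical in
theorem Trans_lam_one_gen {u v : V'} {k k' : List G'.Ed} (h : G'.Walk u k v)
    (h' : G'.Walk u k' v) :
    K.T k v * K.lam 1 * star (K.T k' v) =
      ∑ e ∈ Finset.univ.filter (fun e => G'.s e = v),
        K.T (k ++ [e]) (G'.r e) * star (K.T (k' ++ [e]) (G'.r e)) := by
  unfold Fam.lam
  rw [Finset.sum_filter, Finset.mul_sum, Finset.sum_mul]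
  refine Finset.sum_congr rfl fun e _ => ?_
  by_cases he : G'.s e = v
  · rw [if_pos he, Trans_TS K hR h e he, Trans_TS K hR h' e he, StarMul.star_mul, mul_one]
    simp only [mul_assoc]
  · rw [if_neg he]
    have h6 : K.T k v * K.S e = 0 := by
      rw [← K.T_P hR, mul_assoc, K.P_S_ne hR e (Ne.symm he), mul_zero]
    have h1 : K.T k v * (K.S e * 1 * star (K.S e)) * star (K.T k' v) =
        K.T k v * K.S e * star (K.S e) * star (K.T k' v) := by
      rw [mul_one]
      simp only [mul_assoc]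
    rw [h1, h6, zero_mul, zero_mul]

theorem Trans_lam_iter_comm (n : ℕ) {y : C} (hy : ∀ v, R v * y = y * R v) (v : V') :
    R v * K.lam^[n] y = K.lam^[n] y * R v := by
  cases n with
  | zero => exact hy v
  | succ n =>
    rw [Function.iterate_succ_apply']
    exact K.P_lam hR _ v

theorem Trans_lam_iter_T {y : C} (hy : ∀ v, R v * y = y * R v) {v : V'} (l : List G'.Ed) :
    K.lam^[l.length] y * K.T l v = K.T l v * y := by
  induction l with
  | nil =>
    rw [K.T_nil]
    exact (hy v).symm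
  | cons e l ih =>
    rw [List.length_cons, Function.iterate_succ_apply', K.T_cons, ← mul_assoc,
      K.lam_S hR (Trans_lam_iter_comm K hR _ hy) e, mul_assoc, ih, mul_assoc]

theorem Trans_star_lam_iter (n : ℕ) (y : C) : star (K.lam^[n] y) = K.lam^[n] (star y) := by
  induction n with
  | zero => rfl
  | succ n ih => rw [Function.iterate_succ_apply', Function.iterate_succ_apply', K.star_lam, ih]

theorem Trans_star_T {v : V'} (l : List G'.Ed) :
    star (K.T l v) * K.lam^[l.length + 1] 1 = K.lam 1 * star (K.T l v) := by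
  have h1 := Trans_lam_iter_T K hR (y := K.lam 1) (fun v => K.P_lam hR 1 v) (v := v) l
  have h2 := congrArg star h1
  rw [StarMul.star_mul, StarMul.star_mul, Trans_star_lam_iter K hR, K.star_lam, star_one] at h2
  rw [Function.iterate_succ_apply]
  exact h2

end TransAux

variable {V : Type} [Fintype V] {G : Gr V} {B₀ : Type} [CStarAlgebra B₀] {p : V → B₀}
  (hp : IsPrj p) (F₀ : Fam G p) (hω : ∀ v, ∃ ω : B₀ →ₗ[ℂ] ℂ, ω (p v) = 1)
  {B : Type} [CStarAlgebra B] {P : V → B} (hP : IsPrj P) (F : Fam G P)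

include hp hω hP in
theorem exists_tr (n : ℕ) : ∃ Φ : B₀ →ₗ[ℂ] B, ∀ u v l l', l.length = n → l'.length = n →
    G.Walk u l v → G.Walk u l' v →
    Φ (F₀.T l v * star (F₀.T l' v)) = F.T l v * star (F.T l' v) := by
  classical
  choose ω hω1 using hω
  refine ⟨∑ u, ∑ v, ∑ l ∈ G.paths n u v, ∑ l' ∈ G.paths n u v,
    ((ω v).comp ((LinearMap.mulRight ℂ (F₀.T l' v)).comp
      (LinearMap.mulLeft ℂ (star (F₀.T l v))))).smulRight (F.T l v * star (F.T l' v)), ?_⟩
  intro u' w k k' hk hk' hw hw'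
  have key : ∀ u v l l', l ∈ G.paths n u v → l' ∈ G.paths n u v →
      ((ω v).comp ((LinearMap.mulRight ℂ (F₀.T l' v)).comp
        (LinearMap.mulLeft ℂ (star (F₀.T l v))))).smulRight (F.T l v * star (F.T l' v))
        (F₀.T k w * star (F₀.T k' w)) =
      if u = u' ∧ v = w ∧ l = k ∧ l' = k' then F.T l v * star (F.T l' v) else 0 := by
    intro u v l l' hl hl'
    obtain ⟨hl1, hl2⟩ := (G.mem_paths).1 hl
    obtain ⟨hl1', hl2'⟩ := (G.mem_paths).1 hl'
    have h1 : star (F₀.T l v) * (F₀.T k w * star (F₀.T k' w)) * F₀.T l' v =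
        (star (F₀.T l v) * F₀.T k w) * (star (F₀.T k' w) * F₀.T l' v) := by
      simp only [mul_assoc]
    show ω v (star (F₀.T l v) * (F₀.T k w * star (F₀.T k' w)) * F₀.T l' v) •
      (F.T l v * star (F.T l' v)) = _
    rw [h1, F₀.star_T_mul_T hp hl2 hw (hl1.trans hk.symm),
      F₀.star_T_mul_T hp hw' hl2' (hk'.trans hl1'.symm)]
    by_cases hc : u = u' ∧ v = w ∧ l = k ∧ l' = k'
    · obtain ⟨rfl, rfl, rfl, rfl⟩ := hc
      rw [if_pos ⟨rfl, rfl⟩, if_pos ⟨rfl, rfl⟩, if_pos ⟨rfl, rfl, rfl, rfl⟩, hp.mul_self, hω1,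
        one_smul]
    · rw [if_neg hc]
      by_cases h2 : l = k ∧ v = w
      · by_cases h3 : k' = l' ∧ w = v
        · exfalso
          obtain ⟨rfl, rfl⟩ := h2
          obtain ⟨rfl, -⟩ := h3
          exact hc ⟨G.walk_left_unique hl2 hw, rfl, rfl, rfl⟩
        · rw [if_neg h3, mul_zero, map_zero, zero_smul]
      · rw [if_neg h2, zero_mul, map_zero, zero_smul]
  simp only [LinearMap.sum_apply]
  have hkm : k ∈ G.paths n u' w := (G.mem_paths).2 ⟨hk, hw⟩
  have hkm' : k' ∈ G.paths n u' w := (G.mem_paths).2 ⟨hk', hw'⟩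
  rw [Finset.sum_eq_single u', Finset.sum_eq_single w, Finset.sum_eq_single k,
    Finset.sum_eq_single k']
  · rw [key u' w k k' hkm hkm', if_pos ⟨rfl, rfl, rfl, rfl⟩]
  · intro l' hl' hne
    rw [key u' w k l' hkm hl', if_neg (fun h => hne h.2.2.2)]
  · intro h
    exact absurd hkm' h
  · intro l hl hne
    refine Finset.sum_eq_zero fun l' hl' => ?_
    rw [key u' w l l' hl hl', if_neg (fun h => hne h.2.2.1)]
  · intro h
    exact absurd hkm h
  · intro v _ hne
    refine Finset.sum_eq_zero fun l hl => Finset.sum_eq_zero fun l' hl' => ?_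
    rw [key u' v l l' hl hl', if_neg (fun h => hne h.2.1)]
  · intro h
    exact absurd (Finset.mem_univ _) h
  · intro u _ hne
    refine Finset.sum_eq_zero fun v _ => Finset.sum_eq_zero fun l hl =>
      Finset.sum_eq_zero fun l' hl' => ?_
    rw [key u v l l' hl hl', if_neg (fun h => hne h.1)]
  · intro h
    exact absurd (Finset.mem_univ _) h

/-- The transfer map. -/
noncomputable def tr (n : ℕ) : B₀ →ₗ[ℂ] B := (exists_tr hp F₀ hω hP F n).choose

theorem Trans_spec (n : ℕ) : ∀ u v l l', l.length = n → l'.length = n →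
    G.Walk u l v → G.Walk u l' v →
    tr hp F₀ hω hP F n (F₀.T l v * star (F₀.T l' v)) = F.T l v * star (F.T l' v) :=
  (exists_tr hp F₀ hω hP F n).choose_spec

theorem tr_mem {n : ℕ} {x : B₀} (hx : x ∈ F₀.core n) : tr hp F₀ hω hP F n x ∈ F.core n := by
  unfold Fam.core at hx
  induction hx using Submodule.span_induction with
  | mem x hx =>
    obtain ⟨u, v, l, l', h1, h2, h3, h4, rfl⟩ := hx
    rw [Trans_spec hp F₀ hω hP F n u v l l' h1 h2 h3 h4]
    exact Submodule.subset_span ⟨u, v, l, l', h1, h2, h3, h4, rfl⟩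
  | zero =>
    rw [map_zero]
    exact Submodule.zero_mem _
  | add x z _ _ h1 h2 =>
    rw [map_add]
    exact Submodule.add_mem _ h1 h2
  | smul c x _ h1 =>
    rw [map_smul]
    exact Submodule.smul_mem _ _ h1

theorem tr_mul {n : ℕ} {x y : B₀} (hx : x ∈ F₀.core n) (hy : y ∈ F₀.core n) :
    tr hp F₀ hω hP F n (x * y) = tr hp F₀ hω hP F n x * tr hp F₀ hω hP F n y := by
  classical
  unfold Fam.core at hx
  induction hx using Submodule.span_induction with
  | mem x hx =>
    unfold Fam.core at hy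
    induction hy using Submodule.span_induction with
    | mem y hy =>
      obtain ⟨u, v, k, k', h1, h2, h3, h4, rfl⟩ := hx
      obtain ⟨u', w, l, l', h5, h6, h7, h8, rfl⟩ := hy
      rw [Trans_spec hp F₀ hω hP F n u v k k' h1 h2 h3 h4,
        Trans_spec hp F₀ hω hP F n u' w l l' h5 h6 h7 h8,
        Trans_mul_gen F₀ hp h4 h7 (h2.trans h5.symm), Trans_mul_gen F hP h4 h7 (h2.trans h5.symm)]
      by_cases hc : k' = l ∧ v = w
      · obtain ⟨rfl, rfl⟩ := hc
        have hu := G.walk_left_unique h4 h7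
        subst hu
        rw [if_pos ⟨rfl, rfl⟩, if_pos ⟨rfl, rfl⟩,
          Trans_spec hp F₀ hω hP F n u v k l' h1 h6 h3 h8]
      · rw [if_neg hc, if_neg hc, map_zero]
    | zero => rw [mul_zero, map_zero, mul_zero]
    | add y z _ _ h1 h2 => rw [mul_add, map_add, map_add, h1, h2, mul_add]
    | smul c y _ h1 => rw [mul_smul_comm, map_smul, map_smul, h1, mul_smul_comm]
  | zero => rw [zero_mul, map_zero, zero_mul]
  | add x z _ _ h1 h2 => rw [add_mul, map_add, map_add, h1, h2, add_mul]
  | smul c x _ h1 => rw [smul_mul_assoc, map_smul, map_smul, h1, smul_mul_assoc]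

theorem tr_star {n : ℕ} {x : B₀} (hx : x ∈ F₀.core n) :
    tr hp F₀ hω hP F n (star x) = star (tr hp F₀ hω hP F n x) := by
  unfold Fam.core at hx
  induction hx using Submodule.span_induction with
  | mem x hx =>
    obtain ⟨u, v, l, l', h1, h2, h3, h4, rfl⟩ := hx
    rw [Trans_spec hp F₀ hω hP F n u v l l' h1 h2 h3 h4, StarMul.star_mul, star_star,
      StarMul.star_mul, star_star, Trans_spec hp F₀ hω hP F n u v l' l h2 h1 h4 h3]
  | zero => rw [star_zero, map_zero, star_zero]
  | add x z _ _ h1 h2 => rw [star_add, map_add, map_add, h1, h2, star_add]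
  | smul c x _ h1 => rw [star_smul, map_smul, map_smul, h1, star_smul]

theorem tr_lam {n : ℕ} {x : B₀} (hx : x ∈ F₀.core n) :
    tr hp F₀ hω hP F (n + 1) (F₀.lam x) = F.lam (tr hp F₀ hω hP F n x) := by
  classical
  unfold Fam.core at hx
  induction hx using Submodule.span_induction with
  | mem x hx =>
    obtain ⟨u, v, l, l', h1, h2, h3, h4, rfl⟩ := hx
    rw [Trans_spec hp F₀ hω hP F n u v l l' h1 h2 h3 h4, Trans_lam_gen F₀ hp h3,
      Trans_lam_gen F hP h3, map_sum]
    refine Finset.sum_congr rfl fun e he => ?_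
    have he' : G.r e = u := (Finset.mem_filter.1 he).2
    refine Trans_spec hp F₀ hω hP F (n + 1) (G.s e) v (e :: l) (e :: l') ?_ ?_ ⟨rfl, ?_⟩ ⟨rfl, ?_⟩
    · rw [List.length_cons, h1]
    · rw [List.length_cons, h2]
    · rw [he']; exact h3
    · rw [he']; exact h4
  | zero =>
    have h : F₀.lam 0 = 0 := by simp [Fam.lam]
    have h' : F.lam 0 = 0 := by simp [Fam.lam]
    rw [h, map_zero, map_zero, h']
  | add x z _ _ h1 h2 => rw [F₀.lam_add, map_add, map_add, h1, h2, F.lam_add]
  | smul c x _ h1 => rw [F₀.lam_smul, map_smul, map_smul, h1, F.lam_smul]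

theorem tr_succ (hCK : F₀.lam 1 = 1) {n : ℕ} {x : B₀} (hx : x ∈ F₀.core n) :
    tr hp F₀ hω hP F (n + 1) x = tr hp F₀ hω hP F n x * F.lam^[n + 1] 1 := by
  classical
  unfold Fam.core at hx
  induction hx using Submodule.span_induction with
  | mem x hx =>
    obtain ⟨u, v, l, l', h1, h2, h3, h4, rfl⟩ := hx
    have h5 : F₀.T l v * star (F₀.T l' v) = F₀.T l v * F₀.lam 1 * star (F₀.T l' v) := by
      rw [hCK, mul_one]
    have h6 : F.T l v * star (F.T l' v) * F.lam^[n + 1] 1 =
        F.T l v * F.lam 1 * star (F.T l' v) := by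
      rw [mul_assoc, ← h2, Trans_star_T F hP l', mul_assoc]
    have h7 : tr hp F₀ hω hP F (n + 1) (F₀.T l v * F₀.lam 1 * star (F₀.T l' v)) =
        F.T l v * F.lam 1 * star (F.T l' v) := by
      rw [Trans_lam_one_gen F₀ hp h3 h4, Trans_lam_one_gen F hP h3 h4, map_sum]
      refine Finset.sum_congr rfl fun e he => ?_
      have he' : G.s e = v := (Finset.mem_filter.1 he).2
      refine Trans_spec hp F₀ hω hP F (n + 1) u (G.r e) (l ++ [e]) (l' ++ [e]) ?_ ?_ ?_ ?_
      · rw [List.length_append, h1]; rfl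
      · rw [List.length_append, h2]; rfl
      · exact (G.walk_append).2 ⟨v, h3, he', rfl⟩
      · exact (G.walk_append).2 ⟨v, h4, he', rfl⟩
    rw [Trans_spec hp F₀ hω hP F n u v l l' h1 h2 h3 h4, h6, ← h7, ← h5]
  | zero => rw [map_zero, map_zero, zero_mul]
  | add x z _ _ h1 h2 => rw [map_add, map_add, h1, h2, add_mul]
  | smul c x _ h1 => rw [map_smul, map_smul, h1, smul_mul_assoc]

theorem tr_one (hCK : F₀.lam 1 = 1) {n : ℕ} (hn : 1 ≤ n) :
    tr hp F₀ hω hP F n 1 = F.lam^[n] 1 := by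
  have h1 : (1 : B₀) = F₀.lam^[n] 1 := by
    have h2 : ∀ m : ℕ, F₀.lam^[m] 1 = 1 := by
      intro m
      induction m with
      | zero => rfl
      | succ m ih => rw [Function.iterate_succ_apply', ih, hCK]
    exact (h2 n).symm
  have h3 := F₀.lam_iter_one hp hn
  have h4 := F.lam_iter_one hP hn
  rw [h4]
  have h5 : tr hp F₀ hω hP F n 1 = tr hp F₀ hω hP F n (F₀.lam^[n] 1) := by rw [← h1]
  rw [h5, h3, map_sum]
  refine Finset.sum_congr rfl fun u _ => ?_
  rw [map_sum]
  refine Finset.sum_congr rfl fun v _ => ?_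
  rw [map_sum]
  refine Finset.sum_congr rfl fun l hl => ?_
  obtain ⟨hl1, hl2⟩ := (G.mem_paths).1 hl
  exact Trans_spec hp F₀ hω hP F n u v l l hl1 hl1 hl2 hl2

end Pool.Agent.AUE
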